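import Mathlib

set_option autoImplicit false

namespace Pool.Agent.Helper407.Cat

abbrev A (r : ℕ → ℕ) := ∀ j : ℕ, Multiplicative (ZMod (r j))

def trunc {r : ℕ → ℕ} (n : ℕ) : A r →* A r where
  toFun a := fun j => if j < n then a j else 1
  map_one' := by funext j; simp
  map_mul' a b := by funext j; by_cases h : j < n <;> simp [h]

theorem trunc_apply {r : ℕ → ℕ} (n : ℕ) (a : A r) (j : ℕ) :
    trunc n a j = if j < n then a j else 1 := rfl

theorem trunc_apply_lt {r : ℕ → ℕ} {n : ℕ} (a : A r) {j : ℕ} (h : j < n) :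
    trunc n a j = a j := by simp [trunc_apply, h]

theorem trunc_apply_ge {r : ℕ → ℕ} {n : ℕ} (a : A r) {j : ℕ} (h : n ≤ j) :
    trunc n a j = 1 := by simp [trunc_apply, not_lt.2 h]

theorem trunc_trunc {r : ℕ → ℕ} (m n : ℕ) (a : A r) :
    trunc m (trunc n a) = trunc (min m n) a := by
  funext j
  by_cases h1 : j < m <;> by_cases h2 : j < n <;> simp [trunc_apply, h1, h2]

theorem trunc_trunc_le {r : ℕ → ℕ} {m n : ℕ} (h : m ≤ n) (a : A r) :
    trunc m (trunc n a) = trunc m a := by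
  rw [trunc_trunc, min_eq_left h]

theorem trunc_trunc_ge {r : ℕ → ℕ} {m n : ℕ} (h : n ≤ m) (a : A r) :
    trunc m (trunc n a) = trunc n a := by
  rw [trunc_trunc, min_eq_right h]

theorem trunc_eq_of_le {r : ℕ → ℕ} {m n : ℕ} (h : n ≤ m) {a : A r} (ha : trunc n a = a) :
    trunc m a = a := by
  rw [← ha, trunc_trunc_ge h]

theorem eq_trunc_iff {r : ℕ → ℕ} {n : ℕ} {a : A r} :
    trunc n a = a ↔ ∀ j, n ≤ j → a j = 1 := by
  constructor
  · intro h j hj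
    rw [← h, trunc_apply_ge _ hj]
  · intro h
    funext j
    by_cases hj : j < n
    · rw [trunc_apply_lt _ hj]
    · rw [trunc_apply_ge _ (not_lt.1 hj), h j (not_lt.1 hj)]

def e {r : ℕ → ℕ} (j : ℕ) : A r := Pi.mulSingle j (Multiplicative.ofAdd 1)

theorem e_self {r : ℕ → ℕ} (j : ℕ) : (e j : A r) j = Multiplicative.ofAdd 1 := by
  simp [e]

theorem e_ne {r : ℕ → ℕ} {i j : ℕ} (h : i ≠ j) : (e j : A r) i = 1 := by
  simp [e, h]

theorem zmod_pow_card {p : ℕ} (a : Multiplicative (ZMod p)) : a ^ p = 1 := by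
  apply Multiplicative.toAdd.injective
  simp

theorem zmod_pow_coprime {p m : ℕ} (a : Multiplicative (ZMod p)) (h : Nat.Coprime m p)
    (ha : a ^ m = 1) : a = 1 := by
  have h1 : orderOf a ∣ m := orderOf_dvd_of_pow_eq_one ha
  have h2 : orderOf a ∣ p := orderOf_dvd_of_pow_eq_one (zmod_pow_card a)
  have h3 : orderOf a = 1 := Nat.eq_one_of_dvd_one (h ▸ Nat.dvd_gcd h1 h2)
  exact orderOf_eq_one_iff.1 h3

theorem e_pow {r : ℕ → ℕ} (j : ℕ) : (e j : A r) ^ r j = 1 := by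
  funext i
  by_cases h : i = j
  · subst h
    exact zmod_pow_card _
  · simp [e_ne h]

theorem trunc_e_lt {r : ℕ → ℕ} {j n : ℕ} (h : j < n) : trunc n (e j : A r) = e j := by
  rw [eq_trunc_iff]
  intro i hi
  exact e_ne (by omega)

structure Sys (r q : ℕ → ℕ) where
  Y : ℕ → Type
  grp : ∀ i, Group (Y i)
  fin : ∀ i, Finite (Y i)
  solv : ∀ i, Group.IsSolvable (Y i)
  χ : ∀ i, Y i →* A r
  σ : ∀ i, A r →* Y i
  χσ : ∀ i a, χ i (σ i a) = trunc i a
  χt : ∀ i y, trunc i (χ i y) = χ i y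
  A1 : ∀ s : ℕ, s.Prime → ∃ j, ∀ B : ℕ, ∃ m, ∀ i, m ≤ i → ∀ y w : Y i, χ i y = 1 →
    orderOf y = s → w ^ r j = 1 → χ i w j ≠ 1 → B < Nat.card (Subgroup.closure {w, y})
  A2 : ∀ i m, m < i → ∀ τ : A r →* Y i, (∀ a, χ i (τ a) = trunc (m + 1) a) →
    ∃ c, ∀ a, τ (trunc m a) = c * σ i (trunc m a) * c⁻¹
  F3 : ∀ i i', i' ≠ i → ∀ y : Y i', y ^ q i = 1 → y = 1
  F4 : ∀ i (y : Y i), (∀ f : Y i, f ^ q i = 1 → y * f = f * y) → y ^ q i = 1
  rprime : ∀ j, (r j).Prime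
  rmono : StrictMono r
  qprime : ∀ i, (q i).Prime
  qinj : Function.Injective q
  qr : ∀ i j, q i ≠ r j

attribute [instance] Sys.grp Sys.fin

namespace Sys

variable {r q : ℕ → ℕ} (S : Sys r q)

include S in
theorem lt_r (j : ℕ) : j < r j := by
  induction j with
  | zero => exact (S.rprime 0).pos
  | succ k ih =>
    have h1 : r k < r (k + 1) := S.rmono (Nat.lt_succ_self k)
    omega

include S in
theorem coprime_rr {i j : ℕ} (h : i ≠ j) : Nat.Coprime (r i) (r j) :=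
  (Nat.coprime_primes (S.rprime i) (S.rprime j)).2 (fun h' => h (S.rmono.injective h'))

/-- truncation to level n -/
def D (n : ℕ) : Subgroup (∀ i, S.Y i) where
  carrier := {y | (∀ i, i ≤ n → S.χ i (y i) = trunc i (S.χ n (y n))) ∧
    ∀ i, n < i → y i = S.σ i (S.χ n (y n))}
  one_mem' := by
    constructor
    · intro i _; simp
    · intro i _; simp
  mul_mem' := by
    rintro a b ⟨ha1, ha2⟩ ⟨hb1, hb2⟩
    constructor
    · intro i hi
      simp only [Pi.mul_apply, map_mul, ha1 i hi, hb1 i hi]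
    · intro i hi
      simp only [Pi.mul_apply, map_mul, ha2 i hi, hb2 i hi]
  inv_mem' := by
    rintro a ⟨ha1, ha2⟩
    constructor
    · intro i hi
      simp only [Pi.inv_apply, map_inv, ha1 i hi]
    · intro i hi
      simp only [Pi.inv_apply, map_inv, ha2 i hi]

theorem mem_D {n : ℕ} {y : ∀ i, S.Y i} : y ∈ S.D n ↔
    (∀ i, i ≤ n → S.χ i (y i) = trunc i (S.χ n (y n))) ∧
    ∀ i, n < i → y i = S.σ i (S.χ n (y n)) := Iff.rfl

theorem D_χ {n : ℕ} {y : ∀ i, S.Y i} (hy : y ∈ S.D n) (i : ℕ) :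
    S.χ i (y i) = trunc i (S.χ n (y n)) := by
  by_cases h : i ≤ n
  · exact hy.1 i h
  · rw [hy.2 i (by omega), S.χσ]

theorem D_le_succ (n : ℕ) : S.D n ≤ S.D (n + 1) := by
  intro y hy
  have h1 : S.χ (n + 1) (y (n + 1)) = S.χ n (y n) := by
    rw [S.D_χ hy, ← S.χt n (y n), trunc_trunc_ge (Nat.le_succ n)]
  refine ⟨fun i _ => ?_, fun i hi => ?_⟩
  · rw [S.D_χ hy, h1]
  · rw [hy.2 i (by omega), h1]

theorem D_mono {m n : ℕ} (h : m ≤ n) : S.D m ≤ S.D n :=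
  monotone_nat_of_le_succ S.D_le_succ h

/-- the group -/
def G : Subgroup (∀ i, S.Y i) where
  carrier := {y | ∃ n, y ∈ S.D n}
  one_mem' := ⟨0, (S.D 0).one_mem⟩
  mul_mem' := by
    rintro a b ⟨m, hm⟩ ⟨n, hn⟩
    exact ⟨max m n, (S.D _).mul_mem (S.D_mono (le_max_left _ _) hm)
      (S.D_mono (le_max_right _ _) hn)⟩
  inv_mem' := by
    rintro a ⟨m, hm⟩
    exact ⟨m, (S.D m).inv_mem hm⟩

theorem mem_G {y : ∀ i, S.Y i} : y ∈ S.G ↔ ∃ n, y ∈ S.D n := Iff.rfl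

theorem D_le_G (n : ℕ) : S.D n ≤ S.G := fun _ hy => ⟨n, hy⟩

/-- the class of an element of G -/
theorem G_cls {y : ∀ i, S.Y i} (hy : y ∈ S.G) :
    ∃ a : A r, (∀ i, S.χ i (y i) = trunc i a) ∧ ∃ n, trunc n a = a ∧ ∀ i, n ≤ i → y i = S.σ i a := by
  obtain ⟨n, hn⟩ := hy
  refine ⟨S.χ n (y n), S.D_χ hn, n + 1, trunc_eq_of_le (Nat.le_succ n) (S.χt n _), ?_⟩
  intro i hi
  exact hn.2 i (by omega)

theorem mem_G_of {y : ∀ i, S.Y i} (a : A r) (h1 : ∀ i, S.χ i (y i) = trunc i a)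
    (n : ℕ) (h2 : trunc n a = a) (h3 : ∀ i, n ≤ i → y i = S.σ i a) : y ∈ S.G := by
  have h4 : S.χ n (y n) = a := by rw [h1, h2]
  refine ⟨n, ⟨fun i _ => ?_, fun i hi => ?_⟩⟩
  · rw [h1, h4]
  · rw [h3 i (by omega), h4]

theorem D_inj {n : ℕ} {y z : ∀ i, S.Y i} (hy : y ∈ S.D n) (hz : z ∈ S.D n)
    (h : ∀ i, i ≤ n → y i = z i) : y = z := by
  funext i
  by_cases hi : i ≤ n
  · exact h i hi
  · rw [hy.2 i (by omega), hz.2 i (by omega), h n le_rfl]

instance D_finite (n : ℕ) : Finite (S.D n) := by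
  let f : S.D n → (∀ i : Fin (n + 1), S.Y i) := fun y i => y.1 i
  apply Finite.of_injective f
  intro y z hyz
  apply Subtype.ext
  apply S.D_inj y.2 z.2
  intro i hi
  exact congrFun hyz ⟨i, by omega⟩

theorem fg_le_D (K : Subgroup S.G) (hK : K.FG) : ∃ n, ∀ y ∈ K, (y : ∀ i, S.Y i) ∈ S.D n := by
  obtain ⟨s, hs, hfin⟩ := (Subgroup.fg_iff K).1 hK
  have h1 : ∃ n, ∀ y ∈ s, (y : ∀ i, S.Y i) ∈ S.D n := by
    choose f hf using fun y : S.G => y.2
    obtain ⟨n, hn⟩ := (hfin.image f).bddAbove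
    exact ⟨n, fun y hy => S.D_mono (hn ⟨y, hy, rfl⟩) (hf y)⟩
  obtain ⟨n, hn⟩ := h1
  refine ⟨n, ?_⟩
  have h2 : K ≤ (S.D n).comap S.G.subtype := by
    rw [← hs, Subgroup.closure_le]
    intro y hy
    exact hn y hy
  intro y hy
  exact h2 hy

theorem fg_finite (K : Subgroup S.G) (hK : K.FG) : Finite K := by
  obtain ⟨n, hn⟩ := S.fg_le_D K hK
  let f : K → S.D n := fun y => ⟨y.1.1, hn y.1 y.2⟩
  apply Finite.of_injective f
  intro y z hyz
  apply Subtype.ext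
  apply Subtype.ext
  exact congrArg (fun z : S.D n => z.1) hyz

instance D_solv (n : ℕ) : Group.IsSolvable (S.D n) := by
  have h1 : ∀ i, ∃ k, derivedSeries (S.Y i) k = ⊥ := fun i => (S.solv i).solvable
  choose k hk using h1
  obtain ⟨N, hN⟩ : ∃ N, ∀ i, i ≤ n → k i ≤ N := by
    refine ⟨(Finset.range (n + 1)).sup k, fun i hi => ?_⟩
    exact Finset.le_sup (f := k) (Finset.mem_range.2 (by omega))
  refine ⟨⟨N, ?_⟩⟩
  rw [eq_bot_iff]
  intro y hy
  rw [Subgroup.mem_bot]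
  apply Subtype.ext
  apply S.D_inj y.2 (S.D n).one_mem
  intro i hi
  have h2 : derivedSeries (S.Y i) N = ⊥ := by
    rw [eq_bot_iff, ← hk i]
    exact derivedSeries_antitone (S.Y i) (hN i hi)
  have h3 : ((Pi.evalMonoidHom S.Y i).comp (S.D n).subtype) y ∈ derivedSeries (S.Y i) N :=
    map_derivedSeries_le_derivedSeries _ N (Subgroup.mem_map_of_mem _ hy)
  rw [h2, Subgroup.mem_bot] at h3
  exact h3

theorem fg_solvable (K : Subgroup S.G) (hK : K.FG) : Group.IsSolvable K := by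
  obtain ⟨n, hn⟩ := S.fg_le_D K hK
  let f : K →* S.D n :=
    { toFun := fun y => ⟨y.1.1, hn y.1 y.2⟩
      map_one' := rfl
      map_mul' := fun _ _ => rfl }
  have hf : Function.Injective f := by
    intro y z hyz
    apply Subtype.ext
    apply Subtype.ext
    exact congrArg (fun z : S.D n => z.1) hyz
  exact Group.isSolvable_of_isSolvable_injective hf

theorem torsion : Monoid.IsTorsion S.G := by
  intro y
  obtain ⟨n, hn⟩ := y.2
  have h1 : IsOfFinOrder (⟨y.1, hn⟩ : S.D n) := isOfFinOrder_of_finite _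
  have h2 := (Submonoid.isOfFinOrder_coe (H := (S.D n).toSubmonoid) (x := ⟨y.1, hn⟩)).2 h1
  exact (Submonoid.isOfFinOrder_coe (H := S.G.toSubmonoid) (x := y)).1 h2

end Sys

end Pool.Agent.Helper407.Cat
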