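import Mathlib

set_option autoImplicit false

namespace Pool.Agent.Helper407.Cat

section

variable (p k : ℕ)

/-- reduction mod p -/
def red : ZMod (p ^ (k + 1)) →+* ZMod p :=
  ZMod.castHom (dvd_pow_self p (Nat.succ_ne_zero k)) (ZMod p)

end

@[ext]
structure Ext (H Ω : Type) [Group H] [MulAction H Ω] [Fintype Ω] (p k : ℕ) [NeZero p] where
  x : Ω → (Ω → ZMod p) → ZMod p → ZMod (p ^ (k + 1))
  a : Ω → ZMod p
  h : H
  hx0 : ∀ ω f, ∑ t, x ω f t = 0
  hx1 : ∀ ω f, ∑ t, t * red p k (x ω f t) = - (a ω * f ω)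

namespace Ext

variable {H Ω : Type} [Group H] [MulAction H Ω] [Fintype Ω] {p k : ℕ} [NeZero p]

theorem sum_smul (h : H) (g : Ω → ZMod p) : ∑ ω, g (h • ω) = ∑ ω, g ω :=
  Equiv.sum_comp (MulAction.toPerm h) g

theorem sum_shift {M : Type} [AddCommMonoid M] (s : ZMod p) (g : ZMod p → M) :
    ∑ t, g (t - s) = ∑ t, g t :=
  Equiv.sum_comp (Equiv.subRight s) g

/-- the pairing -/
def pr (a f : Ω → ZMod p) : ZMod p := ∑ ω, a ω * f ω

theorem pr_add (a b f : Ω → ZMod p) : pr (a + b) f = pr a f + pr b f := by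
  simp [pr, add_mul, Finset.sum_add_distrib]

theorem pr_smul (h : H) (a f : Ω → ZMod p) :
    pr (fun ω => a (h⁻¹ • ω)) f = pr a (fun ω => f (h • ω)) := by
  unfold pr
  rw [← sum_smul h]
  simp

instance : Mul (Ext H Ω p k) where
  mul e e' :=
    { x := fun ω f t => e.x ω f t +
        e'.x (e.h⁻¹ • ω) (fun ω' => f (e.h • ω')) (t - pr e.a f)
      a := fun ω => e.a ω + e'.a (e.h⁻¹ • ω)
      h := e.h * e'.h
      hx0 := by
        intro ω f
        rw [Finset.sum_add_distrib, e.hx0, zero_add,
          sum_shift (pr e.a f) (fun t => e'.x (e.h⁻¹ • ω) (fun ω' => f (e.h • ω')) t), e'.hx0]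
      hx1 := by
        intro ω f
        have h1 : ∀ t, t * red p k (e.x ω f t +
            e'.x (e.h⁻¹ • ω) (fun ω' => f (e.h • ω')) (t - pr e.a f)) =
            t * red p k (e.x ω f t) + ((t - pr e.a f) *
              red p k (e'.x (e.h⁻¹ • ω) (fun ω' => f (e.h • ω')) (t - pr e.a f)) +
              pr e.a f * red p k
                (e'.x (e.h⁻¹ • ω) (fun ω' => f (e.h • ω')) (t - pr e.a f))) := by
          intro t
          rw [map_add]
          ring
        rw [Finset.sum_congr rfl (fun t _ => h1 t), Finset.sum_add_distrib,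
          Finset.sum_add_distrib, e.hx1,
          sum_shift (pr e.a f) (fun t => t * red p k
            (e'.x (e.h⁻¹ • ω) (fun ω' => f (e.h • ω')) t)), e'.hx1, ← Finset.mul_sum,
          sum_shift (pr e.a f) (fun t => red p k
            (e'.x (e.h⁻¹ • ω) (fun ω' => f (e.h • ω')) t)), ← map_sum, e'.hx0]
        simp
        ring }

instance : One (Ext H Ω p k) where
  one :=
    { x := fun _ _ _ => 0
      a := fun _ => 0
      h := 1
      hx0 := by intro ω f; simp
      hx1 := by intro ω f; simp }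

instance : Inv (Ext H Ω p k) where
  inv e :=
    { x := fun ω f t => - e.x (e.h • ω) (fun ω' => f (e.h⁻¹ • ω'))
        (t - pr (fun ω => - e.a (e.h • ω)) f)
      a := fun ω => - e.a (e.h • ω)
      h := e.h⁻¹
      hx0 := by
        intro ω f
        rw [Finset.sum_neg_distrib, sum_shift (pr (fun ω => - e.a (e.h • ω)) f)
          (fun t => e.x (e.h • ω) (fun ω' => f (e.h⁻¹ • ω')) t), e.hx0, neg_zero]
      hx1 := by
        intro ω f
        set s := pr (fun ω => - e.a (e.h • ω)) f with hs
        have h1 : ∀ t, t * red p k (- e.x (e.h • ω) (fun ω' => f (e.h⁻¹ • ω')) (t - s)) =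
            - ((t - s) * red p k (e.x (e.h • ω) (fun ω' => f (e.h⁻¹ • ω')) (t - s))) -
            s * red p k (e.x (e.h • ω) (fun ω' => f (e.h⁻¹ • ω')) (t - s)) := by
          intro t
          rw [map_neg]
          ring
        rw [Finset.sum_congr rfl (fun t _ => h1 t), Finset.sum_sub_distrib,
          Finset.sum_neg_distrib,
          sum_shift s (fun t => t * red p k (e.x (e.h • ω) (fun ω' => f (e.h⁻¹ • ω')) t)),
          e.hx1, ← Finset.mul_sum,
          sum_shift s (fun t => red p k (e.x (e.h • ω) (fun ω' => f (e.h⁻¹ • ω')) t)),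
          ← map_sum, e.hx0]
        simp }

theorem mul_x (e e' : Ext H Ω p k) (ω : Ω) (f : Ω → ZMod p) (t : ZMod p) :
    (e * e').x ω f t = e.x ω f t +
        e'.x (e.h⁻¹ • ω) (fun ω' => f (e.h • ω')) (t - pr e.a f) := rfl

theorem mul_a (e e' : Ext H Ω p k) (ω : Ω) :
    (e * e').a ω = e.a ω + e'.a (e.h⁻¹ • ω) := rfl

theorem mul_h (e e' : Ext H Ω p k) : (e * e').h = e.h * e'.h := rfl

theorem one_x (ω : Ω) (f : Ω → ZMod p) (t : ZMod p) : (1 : Ext H Ω p k).x ω f t = 0 := rfl
theorem one_a (ω : Ω) : (1 : Ext H Ω p k).a ω = 0 := rfl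
theorem one_h : (1 : Ext H Ω p k).h = 1 := rfl

theorem inv_x (e : Ext H Ω p k) (ω : Ω) (f : Ω → ZMod p) (t : ZMod p) :
    (e⁻¹).x ω f t = - e.x (e.h • ω) (fun ω' => f (e.h⁻¹ • ω'))
        (t - pr (fun ω => - e.a (e.h • ω)) f) := rfl
theorem inv_a (e : Ext H Ω p k) (ω : Ω) : (e⁻¹).a ω = - e.a (e.h • ω) := rfl
theorem inv_h (e : Ext H Ω p k) : (e⁻¹).h = e.h⁻¹ := rfl

theorem ext' {e e' : Ext H Ω p k} (h1 : ∀ ω f t, e.x ω f t = e'.x ω f t)
    (h2 : ∀ ω, e.a ω = e'.a ω) (h3 : e.h = e'.h) : e = e' := by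
  apply Ext.ext
  · funext ω f t; exact h1 ω f t
  · funext ω; exact h2 ω
  · exact h3

instance : Group (Ext H Ω p k) :=
  Group.ofLeftAxioms
    (by
      intro e e' e''
      apply ext'
      · intro ω f t
        rw [mul_x, mul_x, mul_x, mul_x, add_assoc]
        congr 2
        have h1 : pr (e * e').a f = pr e.a f + pr e'.a (fun ω' => f (e.h • ω')) := by
          have h2 : (e * e').a = e.a + fun ω => e'.a (e.h⁻¹ • ω) := by
            funext ω; exact mul_a e e' ω
          rw [h2, pr_add, pr_smul]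
        rw [h1, mul_h, mul_inv_rev, mul_smul, sub_sub]
        simp only [mul_smul]
      · intro ω
        rw [mul_a, mul_a, mul_a, mul_a, mul_h, mul_inv_rev, mul_smul, add_assoc]
      · rw [mul_h, mul_h, mul_h, mul_h, mul_assoc])
    (by
      intro e
      apply ext'
      · intro ω f t
        rw [mul_x, one_x, one_h]
        have h1 : pr (1 : Ext H Ω p k).a f = 0 := by
          simp [pr, one_a]
        rw [h1]
        simp
      · intro ω
        rw [mul_a, one_a, one_h]
        simp
      · rw [mul_h, one_h, one_mul])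
    (by
      intro e
      apply ext'
      · intro ω f t
        rw [mul_x, inv_x, inv_h, inv_inv, one_x]
        have h1 : pr (e⁻¹).a f = pr (fun ω => - e.a (e.h • ω)) f := rfl
        rw [h1]
        simp
      · intro ω
        rw [mul_a, inv_a, inv_h, inv_inv, one_a]
        simp
      · rw [mul_h, inv_h, one_h, inv_mul_cancel])

/-- projection -/
def rt : Ext H Ω p k →* H where
  toFun e := e.h
  map_one' := rfl
  map_mul' _ _ := rfl

theorem rt_apply (e : Ext H Ω p k) : rt e = e.h := rfl

/-- section -/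
def inr : H →* Ext H Ω p k where
  toFun h :=
    { x := fun _ _ _ => 0
      a := fun _ => 0
      h := h
      hx0 := by intro ω f; simp
      hx1 := by intro ω f; simp }
  map_one' := rfl
  map_mul' h h' := by
    apply ext'
    · intro ω f t; rw [mul_x]; simp
    · intro ω; rw [mul_a]; simp
    · rfl

theorem inr_x (h : H) (ω : Ω) (f : Ω → ZMod p) (t : ZMod p) :
    (inr h : Ext H Ω p k).x ω f t = 0 := rfl
theorem inr_a (h : H) (ω : Ω) : (inr h : Ext H Ω p k).a ω = 0 := rfl
theorem inr_h (h : H) : (inr h : Ext H Ω p k).h = h := rfl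

/-- augmentation -/
def aug : Ext H Ω p k →* Multiplicative (ZMod p) where
  toFun e := Multiplicative.ofAdd (∑ ω, e.a ω)
  map_one' := by
    simp [one_a]
  map_mul' e e' := by
    rw [← ofAdd_add]
    congr 1
    have h1 : ∑ ω, (e * e').a ω = ∑ ω, e.a ω + ∑ ω, e'.a (e.h⁻¹ • ω) := by
      rw [← Finset.sum_add_distrib]
      exact Finset.sum_congr rfl (fun ω _ => mul_a e e' ω)
    rw [h1, sum_smul]

theorem aug_apply (e : Ext H Ω p k) : aug e = Multiplicative.ofAdd (∑ ω, e.a ω) := rfl

variable [DecidableEq Ω]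

/-- generator -/
def gen (ω0 : Ω) : Multiplicative (ZMod p) →* Ext H Ω p k where
  toFun b :=
    { x := fun ω f t => if ω = ω0 then
        ((if t = 0 then 1 else 0) - (if t = b.toAdd * f ω0 then 1 else 0)) else 0
      a := fun ω => if ω = ω0 then b.toAdd else 0
      h := 1
      hx0 := by
        intro ω f
        by_cases hω : ω = ω0
        · simp [hω]
        · simp [hω]
      hx1 := by
        intro ω f
        by_cases hω : ω = ω0
        · subst hω
          simp only [if_true, map_sub, mul_sub, Finset.sum_sub_distrib]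
          have h1 : ∀ s : ZMod p, ∑ t : ZMod p, t * red p k (if t = s then 1 else 0) = s := by
            intro s
            rw [Finset.sum_eq_single s]
            · simp
            · intro b _ hb; simp [hb]
            · intro h; exact absurd (Finset.mem_univ _) h
          rw [h1, h1, zero_sub]
        · simp [hω] }
  map_one' := by
    apply ext'
    · intro ω f t; rw [one_x]; simp
    · intro ω; rw [one_a]; simp
    · rfl
  map_mul' b b' := by
    apply ext'
    · intro ω f t
      rw [mul_x]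
      have h1 : pr (fun ω => if ω = ω0 then b.toAdd else 0) f = b.toAdd * f ω0 := by
        unfold pr
        rw [Finset.sum_eq_single ω0]
        · simp
        · intro c _ hc; simp [hc]
        · intro h; exact absurd (Finset.mem_univ _) h
      simp only [h1, inv_one, one_smul]
      by_cases hω : ω = ω0
      · simp only [hω, if_true, toAdd_mul, add_mul]
        have h2 : (t - b.toAdd * f ω0 = 0) ↔ (t = b.toAdd * f ω0) := sub_eq_zero
        have h3 : (t - b.toAdd * f ω0 = b'.toAdd * f ω0) ↔
            (t = b.toAdd * f ω0 + b'.toAdd * f ω0) := by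
          rw [sub_eq_iff_eq_add, add_comm]
        simp only [h2, h3]
        ring
      · simp [hω]
    · intro ω
      rw [mul_a]
      simp only [inv_one, one_smul]
      by_cases hω : ω = ω0 <;> simp [hω]
    · change (1 : H) = 1 * 1
      rw [one_mul]

theorem gen_x (ω0 : Ω) (b : Multiplicative (ZMod p)) (ω : Ω) (f : Ω → ZMod p) (t : ZMod p) :
    (gen ω0 b : Ext H Ω p k).x ω f t = if ω = ω0 then
        ((if t = 0 then 1 else 0) - (if t = b.toAdd * f ω0 then 1 else 0)) else 0 := rfl
theorem gen_a (ω0 : Ω) (b : Multiplicative (ZMod p)) (ω : Ω) :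
    (gen ω0 b : Ext H Ω p k).a ω = if ω = ω0 then b.toAdd else 0 := rfl
theorem gen_h (ω0 : Ω) (b : Multiplicative (ZMod p)) :
    (gen ω0 b : Ext H Ω p k).h = 1 := rfl

theorem aug_gen (ω0 : Ω) (b : Multiplicative (ZMod p)) :
    aug (gen ω0 b : Ext H Ω p k) = b := by
  rw [aug_apply]
  simp [gen_a]

theorem gen_comm (ω0 : Ω) (b : Multiplicative (ZMod p)) (h : H) (hh : h • ω0 = ω0) :
    (inr h : Ext H Ω p k) * gen ω0 b = gen ω0 b * inr h := by
  have h1 : ∀ ω, (h⁻¹ • ω = ω0) ↔ (ω = ω0) := by
    intro ω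
    rw [inv_smul_eq_iff, hh]
  apply ext'
  · intro ω f t
    rw [mul_x, mul_x, inr_x, inr_x, inr_h, gen_x, gen_x, zero_add, add_zero]
    have h2 : pr (inr h : Ext H Ω p k).a f = 0 := by simp [pr, inr_a]
    rw [h2, sub_zero, hh]
    simp only [h1]
  · intro ω
    rw [mul_a, mul_a, inr_a, inr_a, inr_h, gen_a, gen_a, zero_add, add_zero]
    simp only [h1]
  · rw [mul_h, mul_h, inr_h, gen_h, mul_one, one_mul]

end Ext

end Pool.Agent.Helper407.Cat
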