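import Pool.Agent.Helper407.CatExt

set_option autoImplicit false

namespace Pool.Agent.Helper407.Cat

namespace Ext

variable {H Ω : Type} [Group H] [MulAction H Ω] [Fintype Ω] {p k : ℕ} [NeZero p]

instance [Finite H] : Finite (Ext H Ω p k) := by
  have h0 : NeZero (p ^ (k + 1)) := ⟨pow_ne_zero _ (NeZero.ne p)⟩
  let f : Ext H Ω p k → (Ω → (Ω → ZMod p) → ZMod p → ZMod (p ^ (k + 1))) × (Ω → ZMod p) × H :=
    fun e => (e.x, e.a, e.h)
  apply Finite.of_injective f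
  intro e e' h
  simp only [f, Prod.mk.injEq] at h
  exact Ext.ext h.1 h.2.1 h.2.2

theorem pow_h {e : Ext H Ω p k} (he : e.h = 1) (n : ℕ) : (e ^ n).h = 1 := by
  have h1 : rt (e ^ n) = 1 := by
    rw [map_pow, rt_apply, he, one_pow]
  exact h1

theorem pow_a {e : Ext H Ω p k} (he : e.h = 1) (n : ℕ) (ω : Ω) :
    (e ^ n).a ω = n * e.a ω := by
  induction n with
  | zero => simp [one_a]
  | succ n ih =>
    rw [pow_succ, mul_a, ih, pow_h he]
    simp
    ring

theorem pow_x {e : Ext H Ω p k} (he : e.h = 1) {f : Ω → ZMod p} (hf : pr e.a f = 0)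
    (n : ℕ) (ω : Ω) (t : ZMod p) : (e ^ n).x ω f t = n * e.x ω f t := by
  induction n with
  | zero => simp [one_x]
  | succ n ih =>
    have h1 : pr (e ^ n).a f = 0 := by
      have h2 : pr (e ^ n).a f = n * pr e.a f := by
        unfold pr
        rw [Finset.mul_sum]
        apply Finset.sum_congr rfl
        intro c _
        rw [pow_a he]
        ring
      rw [h2, hf, mul_zero]
    have h2 : e ^ (n + 1) = e ^ n * e := pow_succ e n
    rw [h2, mul_x, ih, pow_h he, h1]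
    simp
    ring

theorem ker_pgroup : IsPGroup p (rt : Ext H Ω p k →* H).ker := by
  rintro ⟨e, he⟩
  refine ⟨k + 2, ?_⟩
  apply Subtype.ext
  have he' : e.h = 1 := he
  change e ^ (p ^ (k + 2)) = 1
  have h1 : e ^ (p ^ (k + 2)) = (e ^ p) ^ (p ^ (k + 1)) := by
    rw [← pow_mul]
    congr 1
    ring
  rw [h1]
  have h2 : (e ^ p).h = 1 := pow_h he' p
  have h3 : ∀ ω, (e ^ p).a ω = 0 := by
    intro ω
    rw [pow_a he']
    simp
  apply ext'
  · intro ω f t
    rw [pow_x h2 _ (p ^ (k + 1)) ω t, one_x, ZMod.natCast_self, zero_mul]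
    simp [pr, h3]
  · intro ω
    rw [pow_a h2, h3, mul_zero, one_a]
  · rw [pow_h h2, one_h]

theorem key [hp : Fact p.Prime] {e : Ext H Ω p k} (he : e.h = 1) {ω1 ω2 : Ω} (hne : ω1 ≠ ω2)
    (h1 : e.a ω1 ≠ 0) (h2 : e.a ω2 ≠ 0) {N : ℕ} (hN : e ^ N = 1) : p ^ (k + 1) ∣ N := by
  classical
  have h0 : NeZero (p ^ (k + 1)) := ⟨pow_ne_zero _ (NeZero.ne p)⟩
  let f : Ω → ZMod p := fun ω => if ω = ω1 then e.a ω2 else if ω = ω2 then - e.a ω1 else 0
  have hf : pr e.a f = 0 := by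
    unfold pr
    rw [Finset.sum_eq_add ω1 ω2 hne]
    · simp only [f, if_true, if_neg hne.symm]
      ring
    · intro c _ hc
      simp [f, hc.1, hc.2]
    · intro h; exact absurd (Finset.mem_univ _) h
    · intro h; exact absurd (Finset.mem_univ _) h
  have h3 := e.hx1 ω1 f
  have h4 : - (e.a ω1 * f ω1) ≠ 0 := by
    simp only [f, if_true]
    exact neg_ne_zero.2 (mul_ne_zero h1 h2)
  rw [← h3] at h4
  obtain ⟨t, -, ht⟩ := Finset.exists_ne_zero_of_sum_ne_zero h4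
  have ht' : red p k (e.x ω1 f t) ≠ 0 := right_ne_zero_of_mul ht
  have h5 : (N : ZMod (p ^ (k + 1))) * e.x ω1 f t = 0 := by
    rw [← pow_x he hf N ω1 t, hN, one_x]
  set y := e.x ω1 f t with hy
  have h6 : ((N * y.val : ℕ) : ZMod (p ^ (k + 1))) = 0 := by
    rw [Nat.cast_mul, ZMod.natCast_zmod_val, h5]
  rw [ZMod.natCast_eq_zero_iff] at h6
  have h7 : ¬ p ∣ y.val := by
    intro h
    apply ht'
    have h8 : red p k y = ((y.val : ℕ) : ZMod p) := by
      conv_lhs => rw [← ZMod.natCast_zmod_val y]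
      rw [map_natCast]
    rw [h8, ZMod.natCast_eq_zero_iff]
    exact h
  have h8 : Nat.Coprime (p ^ (k + 1)) y.val := by
    apply Nat.Coprime.pow_left
    exact (hp.out.coprime_iff_not_dvd).2 h7
  exact h8.dvd_of_dvd_mul_right h6

theorem unique_support [hp : Fact p.Prime] (hk : 1 ≤ k) {e : Ext H Ω p k} (he : e.h = 1)
    (hep : e ^ p = 1) (ha : aug e ≠ 1) : ∃ ω, e.a ω ≠ 0 ∧ ∀ ω', ω' ≠ ω → e.a ω' = 0 := by
  have h1 : ∑ ω, e.a ω ≠ 0 := by
    intro h
    apply ha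
    rw [aug_apply, h]
    rfl
  obtain ⟨ω, -, hω⟩ := Finset.exists_ne_zero_of_sum_ne_zero h1
  refine ⟨ω, hω, ?_⟩
  intro ω' hne
  by_contra h2
  have h3 := key he hne h2 hω hep
  have h4 : p ^ (k + 1) ≤ p := Nat.le_of_dvd hp.out.pos h3
  have h5 : p ^ 1 < p ^ (k + 1) := Nat.pow_lt_pow_right hp.out.one_lt (by omega)
  rw [pow_one] at h5
  omega

theorem conj_a {e y : Ext H Ω p k} (he : e.h = 1) (ω : Ω) :
    (y * e * y⁻¹).a ω = e.a (y.h⁻¹ • ω) := by
  rw [mul_a, mul_a, inv_a, mul_h, he, mul_one, smul_inv_smul]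
  ring

theorem big [hp : Fact p.Prime] [Finite H] {e y : Ext H Ω p k} (he : e.h = 1) {ω : Ω}
    (h1 : e.a ω ≠ 0) (h2 : ∀ ω', ω' ≠ ω → e.a ω' = 0) (hy : y.h • ω ≠ ω) :
    p ^ (k + 1) ≤ Nat.card (Subgroup.closure ({e, y} : Set (Ext H Ω p k))) := by
  set z := e * (y * e * y⁻¹) with hz
  have hzh : z.h = 1 := by
    rw [hz, mul_h, mul_h, mul_h, he, inv_h]
    simp
  have hza : ∀ ω', z.a ω' = e.a ω' + e.a (y.h⁻¹ • ω') := by
    intro ω'
    rw [hz, mul_a, he, conj_a he]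
    simp
  have h3 : z.a ω ≠ 0 := by
    rw [hza, h2 (y.h⁻¹ • ω), add_zero]
    · exact h1
    · intro h
      apply hy
      rw [← h, smul_inv_smul, h]
  have h4 : z.a (y.h • ω) ≠ 0 := by
    rw [hza, inv_smul_smul, h2 _ hy, zero_add]
    exact h1
  have h5 : p ^ (k + 1) ∣ orderOf z := key hzh hy.symm h3 h4 (pow_orderOf_eq_one z)
  have h6 : z ∈ Subgroup.closure ({e, y} : Set (Ext H Ω p k)) := by
    have he' : e ∈ Subgroup.closure ({e, y} : Set (Ext H Ω p k)) :=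
      Subgroup.subset_closure (by simp)
    have hy' : y ∈ Subgroup.closure ({e, y} : Set (Ext H Ω p k)) :=
      Subgroup.subset_closure (by simp)
    exact Subgroup.mul_mem _ he' (Subgroup.mul_mem _ (Subgroup.mul_mem _ hy' he')
      (Subgroup.inv_mem _ hy'))
  have h7 : orderOf z ∣ Nat.card (Subgroup.closure ({e, y} : Set (Ext H Ω p k))) := by
    have h8 := orderOf_dvd_natCard (⟨z, h6⟩ : Subgroup.closure ({e, y} : Set (Ext H Ω p k)))
    rwa [Subgroup.orderOf_mk] at h8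
  exact Nat.le_of_dvd Nat.card_pos (h5.trans h7)

theorem commute_fix {e y : Ext H Ω p k} (he : e.h = 1) {ω : Ω}
    (h1 : e.a ω ≠ 0) (h2 : ∀ ω', ω' ≠ ω → e.a ω' = 0) (hc : y * e = e * y) :
    y.h • ω = ω := by
  have h3 : y * e * y⁻¹ = e := by rw [hc, mul_inv_cancel_right]
  by_contra hne
  have h4 := conj_a (y := y) he (y.h • ω)
  rw [h3, inv_smul_smul, h2 _ hne] at h4
  exact h1 h4.symm

end Ext

end Pool.Agent.Helper407.Cat
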