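import Pool.Agent.Helper407.CatMain

set_option autoImplicit false

namespace Pool.Agent.Helper407.Cat

theorem diag {Y : ℕ → Type} [∀ i, Nonempty (Y i)] (P : ℕ → ∀ i, Y i → Prop)
    (h1 : ∀ m i, m < i → ∃ c, P m i c)
    (h2 : ∀ m' m, m' ≤ m → ∃ M, ∀ i, M ≤ i → ∀ c, P m i c → P m' i c) :
    ∃ c : ∀ i, Y i, ∀ m, ∃ M, ∀ i, M ≤ i → P m i (c i) := by
  classical
  let Q : ℕ → ℕ → Prop := fun i m => ∃ c : Y i, ∀ m', m' ≤ m → P m' i c
  let c : ∀ i, Y i := fun i =>
    if h : Q i (Nat.findGreatest (Q i) i) then h.choose else Classical.arbitrary _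
  refine ⟨c, ?_⟩
  intro m
  have h3 : ∀ m' : ℕ, ∃ M, m' ≤ m → ∀ i, M ≤ i → ∀ c, P m i c → P m' i c := by
    intro m'
    by_cases h : m' ≤ m
    · obtain ⟨M, hM⟩ := h2 m' m h
      exact ⟨M, fun _ => hM⟩
    · exact ⟨0, fun h' => absurd h' h⟩
  choose M hM using h3
  refine ⟨m + 1 + (Finset.range (m + 1)).sup M, ?_⟩
  intro i hi
  obtain ⟨d, hd⟩ := h1 m i (by omega)
  have h4 : Q i m := by
    refine ⟨d, fun m' hm' => ?_⟩
    have h5 : M m' ≤ (Finset.range (m + 1)).sup M :=
      Finset.le_sup (Finset.mem_range.2 (by omega))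
    exact hM m' hm' i (by omega) d hd
  have h5 : Q i (Nat.findGreatest (Q i) i) := Nat.findGreatest_spec (by omega : m ≤ i) h4
  have h6 : m ≤ Nat.findGreatest (Q i) i := Nat.le_findGreatest (by omega) h4
  have h7 : c i = h5.choose := by
    simp only [c, dif_pos h5]
  rw [h7]
  exact h5.choose_spec m h6

namespace Sys

variable {r q : ℕ → ℕ} {S : Sys r q} {E : Type} [Group E] {ρ : E →* (∀ i, S.Y i)}

theorem finite_trunc (S : Sys r q) (m : ℕ) : Finite {b : A r // trunc m b = b} := by
  have h0 : ∀ j, NeZero (r j) := fun j => ⟨(S.rprime j).pos.ne'⟩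
  have h1 : ∀ j, Finite (Multiplicative (ZMod (r j))) := fun j =>
    inferInstanceAs (Finite (ZMod (r j)))
  let f : {b : A r // trunc m b = b} → (∀ j : Fin m, Multiplicative (ZMod (r j))) :=
    fun b j => b.1 j
  apply Finite.of_injective f
  intro a b hab
  apply Subtype.ext
  rw [← a.2, ← b.2]
  funext j
  by_cases hj : j < m
  · rw [trunc_apply_lt _ hj, trunc_apply_lt _ hj]
    exact congrFun hab ⟨j, hj⟩
  · rw [trunc_apply_ge _ (not_lt.1 hj), trunc_apply_ge _ (not_lt.1 hj)]

namespace Ctx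

variable (C : S.Ctx ρ)
include C

/-- C8 -/
theorem single_mem (i : ℕ) (y : S.Y i) (hy : S.χ i y = 1) :
    (Pi.mulSingle i y : ∀ i, S.Y i) ∈ ρ.range := by
  have hN : 0 < orderOf y := orderOf_pos y
  obtain ⟨J, hJ⟩ := C.unif (orderOf y) hN
  let ι : ∀ i, S.Y i := Pi.mulSingle i y
  have hι : ∀ k, S.χ k (ι k) = 1 := by
    intro k
    by_cases h : k = i
    · subst h
      simpa [ι] using hy
    · simp only [ι]
      rw [Pi.mulSingle_eq_of_ne h, map_one]
  let b : ℕ → ℕ := fun j => Nat.card (Subgroup.closure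
    ({(fun i => S.σ i (e j)), ι} : Set (∀ i, S.Y i)))
  obtain ⟨m, hm⟩ := hJ ((Finset.range (J + 1)).sup b)
  let n := i + J + orderOf y + m + 1
  obtain ⟨φ, hφ1, hφ2⟩ := C.sec n
  have hιD : ι ∈ S.D n := S.mulSingle_mem_D (by omega) hy
  let g : E := φ ⟨ι, hιD⟩
  have hgN : g ^ orderOf y = 1 := by
    have h1 : (⟨ι, hιD⟩ : S.D n) ^ orderOf y = 1 := by
      apply Subtype.ext
      change ι ^ orderOf y = 1
      simp only [ι]
      rw [← Pi.mulSingle_pow, pow_orderOf_eq_one, Pi.mulSingle_one]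
    change (φ ⟨ι, hιD⟩) ^ orderOf y = 1
    rw [← map_pow, h1, map_one]
  have hga : S.alpha ρ g = 1 := by
    funext j
    by_cases hj : j < n
    · rw [S.alpha_apply, hφ2 _ (j + 1) hj, hι]
    · rw [← alpha_trunc_of_pow g _ hN hgN, trunc_apply_ge _ (by omega)]
      rfl
  have hfinal : ρ g = ι := by
    funext k
    by_cases hk : k ≤ n
    · exact hφ2 _ k hk
    · have h1 : ι k = 1 := Pi.mulSingle_eq_of_ne (by omega) _
      rw [h1]
      apply hm k (by omega) g hgN hga
      intro j hj
      have hjn : j < n := by omega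
      let d : S.D n := ⟨fun i => S.σ i (e j), V_mem (trunc_e_lt hjn)⟩
      refine ⟨φ d, ?_, ?_, ?_⟩
      · rw [← map_pow]
        have h3 : d ^ r j = 1 := by
          apply Subtype.ext
          funext i
          change (S.σ i (e j)) ^ r j = 1
          rw [← map_pow, e_pow, map_one]
        rw [h3, map_one]
      · rw [S.alpha_apply, hφ2 d (j + 1) hjn]
        change S.χ (j + 1) (S.σ (j + 1) (e j)) j ≠ 1
        rw [S.χσ, trunc_apply_lt _ (Nat.lt_succ_self j), e_self]
        intro h4
        have h5 : (1 : ZMod (r j)) = 0 := h4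
        have h6 : Fact (1 < r j) := ⟨(S.rprime j).one_lt⟩
        exact one_ne_zero h5
      · have h2 : b j ≤ (Finset.range (J + 1)).sup b :=
          Finset.le_sup (Finset.mem_range.2 (by omega))
        refine le_trans ?_ h2
        have hle : Subgroup.closure ({d.1, ι} : Set (∀ i, S.Y i)) ≤ S.D n := by
          rw [Subgroup.closure_le]
          intro z hz
          rcases hz with hz | hz
          · rw [hz]; exact d.2
          · rw [Set.mem_singleton_iff.1 hz]; exact hιD
        have hfin : Finite (Subgroup.closure ({d.1, ι} : Set (∀ i, S.Y i))) :=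
          Finite.of_injective _ (Subgroup.inclusion_injective hle)
        let f : Subgroup.closure ({d.1, ι} : Set (∀ i, S.Y i)) →* E :=
          φ.comp (Subgroup.inclusion hle)
        have h6 : Subgroup.closure ({φ d, g} : Set E) ≤ f.range := by
          rw [Subgroup.closure_le]
          intro z hz
          rcases hz with hz | hz
          · exact ⟨⟨d.1, Subgroup.subset_closure (by simp)⟩, hz.symm⟩
          · exact ⟨⟨ι, Subgroup.subset_closure (by simp)⟩, (Set.mem_singleton_iff.1 hz).symm⟩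
        have hfr : Finite f.range := Finite.of_surjective _ f.rangeRestrict_surjective
        calc Nat.card (Subgroup.closure ({φ d, g} : Set E))
            ≤ Nat.card f.range := Nat.card_le_card_of_injective _ (Subgroup.inclusion_injective h6)
          _ ≤ b j := Nat.card_le_card_of_surjective _ f.rangeRestrict_surjective
  exact ⟨g, hfinal⟩

theorem fin_supp_mem (n : ℕ) : ∀ y : ∀ i, S.Y i, (∀ i, S.χ i (y i) = 1) →
    (∀ i, n ≤ i → y i = 1) → y ∈ ρ.range := by
  induction n with
  | zero =>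
    intro y _ h2
    have : y = 1 := funext fun i => h2 i (Nat.zero_le i)
    rw [this]
    exact ρ.range.one_mem
  | succ n ih =>
    intro y h1 h2
    have h3 := C.single_mem n (y n) (h1 n)
    have h4 : y * (Pi.mulSingle n (y n))⁻¹ ∈ ρ.range := by
      apply ih
      · intro i
        rw [Pi.mul_apply, map_mul, h1, one_mul, Pi.inv_apply, map_inv, inv_eq_one]
        by_cases hi : i = n
        · subst hi
          simpa using h1 i
        · rw [Pi.mulSingle_eq_of_ne hi, map_one]
      · intro i hi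
        rw [Pi.mul_apply, Pi.inv_apply]
        by_cases hin : i = n
        · subst hin
          simp
        · rw [Pi.mulSingle_eq_of_ne hin, h2 i (by omega)]
          simp
    have h5 := ρ.range.mul_mem h4 h3
    rwa [inv_mul_cancel_right] at h5

theorem exists_tau (n : ℕ) : ∃ τ : A r →* E, (∀ a, S.alpha ρ (τ a) = trunc n a) := by
  obtain ⟨φ, hφ1, hφ2⟩ := C.sec n
  let V : A r →* (∀ i, S.Y i) :=
    { toFun := fun a i => S.σ i (trunc n a)
      map_one' := by funext i; simp
      map_mul' := by intro a b; funext i; simp }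
  let V' : A r →* S.D n := V.codRestrict (S.D n) (fun a => V_mem (trunc_trunc_le le_rfl a))
  refine ⟨φ.comp V', ?_⟩
  intro a
  funext j
  by_cases hj : j < n
  · rw [S.alpha_apply, trunc_apply_lt _ hj]
    change S.χ (j + 1) (ρ (φ (V' a)) (j + 1)) j = a j
    rw [hφ2 _ (j + 1) hj]
    change S.χ (j + 1) (S.σ (j + 1) (trunc n a)) j = a j
    rw [S.χσ, trunc_apply_lt _ (Nat.lt_succ_self j), trunc_apply_lt _ hj]
  · rw [trunc_apply_ge _ (not_lt.1 hj)]
    let P : ℕ := ∏ k ∈ Finset.range n, r k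
    have h1 : (trunc n a) ^ P = 1 := by
      funext k
      rw [Pi.pow_apply, Pi.one_apply]
      by_cases hk : k < n
      · have h2 : r k ∣ P := Finset.dvd_prod_of_mem _ (Finset.mem_range.2 hk)
        obtain ⟨c, hc⟩ := h2
        rw [hc, pow_mul, zmod_pow_card, one_pow]
      · rw [trunc_apply_ge _ (not_lt.1 hk), one_pow]
    have h2 : (V' a) ^ P = 1 := by
      apply Subtype.ext
      funext i
      change (S.σ i (trunc n a)) ^ P = 1
      rw [← map_pow, h1, map_one]
    have h3 : (S.alpha ρ ((φ.comp V') a)) ^ P = 1 := by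
      rw [← map_pow]
      have h4 : ((φ.comp V') a) ^ P = 1 := by
        change (φ (V' a)) ^ P = 1
        rw [← map_pow, h2, map_one]
      rw [h4, map_one]
    apply zmod_pow_coprime (m := P) _ _ (congrFun h3 j)
    apply Nat.Coprime.prod_left
    intro k hk
    rw [Finset.mem_range] at hk
    exact S.coprime_rr (by omega)

theorem exists_conj : ∃ τ : ℕ → (A r →* E), (∀ n a, S.alpha ρ (τ n a) = trunc n a) ∧
    ∃ c : ∀ i, S.Y i, ∀ m, ∃ M, ∀ i, M ≤ i → ∀ a, ρ (τ (m + 1) (trunc m a)) i =
      c i * S.σ i (trunc m a) * (c i)⁻¹ := by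
  choose τ hτ using C.exists_tau
  refine ⟨τ, hτ, ?_⟩
  apply diag (P := fun m i c => ∀ a, ρ (τ (m + 1) (trunc m a)) i =
      c * S.σ i (trunc m a) * c⁻¹)
  · intro m i hmi
    apply S.A2 i m hmi ((Pi.evalMonoidHom S.Y i).comp (ρ.comp (τ (m + 1))))
    intro a
    change S.χ i (ρ (τ (m + 1) a) i) = _
    rw [C.alpha_spec, hτ, trunc_trunc_ge hmi]
  · intro m' m hm'
    have h1 : ∀ b : {b : A r // trunc m' b = b}, ∃ M, ∀ i, M ≤ i →
        ρ (τ (m' + 1) b.1) i = ρ (τ (m + 1) b.1) i := by
      intro b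
      have h2 : S.alpha ρ ((τ (m' + 1) b.1) * (τ (m + 1) b.1)⁻¹) = 1 := by
        rw [map_mul, map_inv, hτ, hτ, trunc_eq_of_le (by omega : m' ≤ m' + 1) b.2,
          trunc_eq_of_le (by omega : m' ≤ m + 1) b.2, mul_inv_cancel]
      obtain ⟨M, hM⟩ := C.eventually_one _ h2
      refine ⟨M, fun i hi => ?_⟩
      have h3 := hM i hi
      rw [map_mul, map_inv, Pi.mul_apply, Pi.inv_apply, mul_inv_eq_one] at h3
      exact h3
    choose M hM using h1
    have hfin := S.finite_trunc m'
    obtain ⟨B, hB⟩ := (Set.finite_range M).bddAbove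
    refine ⟨B, fun i hi c hc a => ?_⟩
    have h3 := hM ⟨trunc m' a, trunc_trunc_le le_rfl a⟩ i (le_trans (hB ⟨_, rfl⟩) hi)
    have h4 := hc (trunc m' a)
    rw [trunc_trunc_ge hm'] at h4
    rw [← h4]
    exact h3

theorem iso : Nonempty (S.G ≃* E) := by
  obtain ⟨τ, hτ, c, hc⟩ := C.exists_conj
  have h1 : S.G.map (MulAut.conj c).toMonoidHom = ρ.range := by
    apply le_antisymm
    · rintro z ⟨y, hy, rfl⟩
      obtain ⟨a, ha, n, hn, hσ⟩ := S.G_cls hy
      obtain ⟨M, hM⟩ := hc n
      have h2 : (MulAut.conj c).toMonoidHom y * (ρ (τ (n + 1) a))⁻¹ ∈ ρ.range := by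
        apply C.fin_supp_mem (M + n)
        · intro i
          change S.χ i (c i * y i * (c i)⁻¹ * (ρ (τ (n + 1) a) i)⁻¹) = 1
          rw [map_mul, map_mul, map_mul, map_inv, map_inv, C.alpha_spec, hτ, ha,
            trunc_eq_of_le (Nat.le_succ n) hn, mul_comm (S.χ i (c i)), mul_inv_cancel_right,
            mul_inv_cancel]
        · intro i hi
          change c i * y i * (c i)⁻¹ * (ρ (τ (n + 1) a) i)⁻¹ = 1
          have h3 := hM i (by omega) a
          rw [hn] at h3
          rw [h3, hσ i (by omega), mul_inv_cancel]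
      have h3 := ρ.range.mul_mem h2 ⟨τ (n + 1) a, rfl⟩
      rwa [inv_mul_cancel_right] at h3
    · rintro z ⟨g, rfl⟩
      obtain ⟨n, hn⟩ := C.alpha_fin g
      obtain ⟨M, hM⟩ := hc n
      have h2 : S.alpha ρ (g * (τ (n + 1) (S.alpha ρ g))⁻¹) = 1 := by
        rw [map_mul, map_inv, hτ, trunc_eq_of_le (Nat.le_succ n) hn, mul_inv_cancel]
      obtain ⟨M', hM'⟩ := C.eventually_one _ h2
      refine ⟨c⁻¹ * ρ g * c, ?_, ?_⟩
      · apply S.mem_G_of (S.alpha ρ g) _ (M + M' + n)
        · exact trunc_eq_of_le (by omega) hn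
        · intro i hi
          have h3 := hM' i (by omega)
          rw [map_mul, map_inv, Pi.mul_apply, Pi.inv_apply, mul_inv_eq_one] at h3
          have h4 := hM i (by omega) (S.alpha ρ g)
          rw [hn] at h4
          change (c i)⁻¹ * ρ g i * c i = _
          rw [h3, h4]
          group
        · intro i
          change S.χ i ((c i)⁻¹ * ρ g i * c i) = _
          rw [map_mul, map_mul, map_inv, C.alpha_spec, mul_comm (S.χ i (c i))⁻¹,
            inv_mul_cancel_right]
      · change c * (c⁻¹ * ρ g * c) * c⁻¹ = ρ g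
        group
  have e1 : S.G ≃* S.G.map (MulAut.conj c).toMonoidHom :=
    S.G.equivMapOfInjective _ (MulAut.conj c).injective
  have e2 : E ≃* ρ.range := MonoidHom.ofInjective C.rho_injective
  rw [h1] at e1
  exact ⟨e1.trans e2.symm⟩

end Ctx

/-- every group locally equivalent to G is isomorphic to G -/
theorem categorical (S : Sys r q) (E : Type) [Group E]
    (h1 : ∀ K : Subgroup S.G, K.FG → ∃ L : Subgroup E, Nonempty (K ≃* L))
    (h2 : ∀ L : Subgroup E, L.FG → ∃ K : Subgroup S.G, Nonempty (L ≃* K)) :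
    Nonempty (S.G ≃* E) := by
  have h3 : ∀ L : Subgroup E, L.FG → Finite L ∧ ∃ f : L →* (∀ i, S.Y i), Function.Injective f ∧
      ∀ g, f g ∈ S.G := by
    intro L hL
    obtain ⟨K, ⟨f⟩⟩ := h2 L hL
    have hK : K.FG := by
      have h4 : Group.FG L := (Group.fg_iff_subgroup_fg L).2 hL
      have h5 : Group.FG K := Group.fg_of_surjective (f := f.toMonoidHom) f.surjective
      exact (Group.fg_iff_subgroup_fg K).1 h5
    have h6 : Finite K := S.fg_finite K hK
    refine ⟨Finite.of_equiv K f.symm.toEquiv, S.G.subtype.comp (K.subtype.comp f.toMonoidHom),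
      ?_, ?_⟩
    · exact S.G.subtype_injective.comp (K.subtype_injective.comp f.injective)
    · intro g
      exact (K.subtype (f g)).2
  obtain ⟨ρ, hρ⟩ := exists_rho S.G h3
  have C : S.Ctx ρ := by
    refine ⟨fun L hL => (h3 L hL).1, hρ, ?_⟩
    intro n
    let K : Subgroup S.G := (S.D n).subgroupOf S.G
    let e1 : K ≃* S.D n := Subgroup.subgroupOfEquivOfLe (S.D_le_G n)
    have hKfin : Finite K := Finite.of_equiv (S.D n) e1.symm.toEquiv
    have hK : K.FG := by
      rw [Subgroup.fg_iff]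
      exact ⟨(K : Set S.G), Subgroup.closure_eq _, Set.toFinite _⟩
    obtain ⟨L, ⟨f⟩⟩ := h1 K hK
    apply S.exists_section ρ hρ n (L.subtype.comp (f.toMonoidHom.comp e1.symm.toMonoidHom))
    exact L.subtype_injective.comp (f.injective.comp e1.symm.injective)
  exact C.iso

end Sys

end Pool.Agent.Helper407.Cat
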