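import Pool.Agent.Helper407.CatStage
import Pool.Agent.Helper407.CatFinal

set_option autoImplicit false

namespace Pool.Agent.Helper407.Cat

namespace W

variable {Q : Type} [Group Q] {q : ℕ}

abbrev WP (q : ℕ) (Q : Type) [Group Q] := RegularWreathProduct (Multiplicative (ZMod q)) Q

theorem pow_left {y : WP q Q} (hy : y.right = 1) (n : ℕ) :
    (y ^ n).left = y.left ^ n ∧ (y ^ n).right = 1 := by
  induction n with
  | zero =>
    rw [pow_zero, pow_zero]
    exact ⟨rfl, rfl⟩
  | succ n ih =>
    rw [pow_succ]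
    refine ⟨?_, ?_⟩
    · rw [RegularWreathProduct.mul_left, ih.1, ih.2, pow_succ]
      simp
    · rw [RegularWreathProduct.mul_right, ih.2, hy, one_mul]

theorem pow_q {y : WP q Q} (hy : y.right = 1) : y ^ q = 1 := by
  apply RegularWreathProduct.ext
  · rw [(pow_left hy q).1]
    funext x
    exact zmod_pow_card _
  · rw [(pow_left hy q).2]
    rfl

theorem ker_pgroup : IsPGroup q (RegularWreathProduct.rightHom : WP q Q →* Q).ker := by
  rintro ⟨y, hy⟩
  refine ⟨1, ?_⟩
  apply Subtype.ext
  change y ^ (q ^ 1) = 1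
  rw [pow_one]
  exact pow_q hy

theorem F4 [hq : Fact q.Prime] (y : WP q Q) (h : ∀ f : WP q Q, f ^ q = 1 → y * f = f * y) :
    y ^ q = 1 := by
  classical
  apply pow_q
  let u : Q → Multiplicative (ZMod q) := fun x => if x = 1 then Multiplicative.ofAdd 1 else 1
  let f : WP q Q := ⟨u, 1⟩
  have h1 := h f (pow_q rfl)
  have h2 := congrFun (congrArg RegularWreathProduct.left h1) y.right
  rw [RegularWreathProduct.mul_left, RegularWreathProduct.mul_left] at h2
  simp only [Pi.mul_apply] at h2
  have h3 : f.left (y.right⁻¹ * y.right) = Multiplicative.ofAdd 1 := by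
    simp [f, u]
  rw [h3] at h2
  have h4 : f.right = 1 := rfl
  rw [h4, inv_one, one_mul, mul_comm (f.left y.right)] at h2
  have h5 := mul_left_cancel h2
  by_contra hne
  have h6 : f.left y.right = 1 := by
    simp [f, u, hne]
  rw [h6] at h5
  have h7 : (1 : ZMod q) = 0 := h5
  have h8 : Fact (1 < q) := ⟨hq.out.one_lt⟩
  exact one_ne_zero h7

theorem card_dvd [NeZero q] [Finite Q] (hq : q.Prime) {s : ℕ} (hs : s.Prime)
    (hd : s ∣ Nat.card (WP q Q)) : s = q ∨ s ∣ Nat.card Q := by
  rw [RegularWreathProduct.card] at hd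
  rcases (hs.dvd_mul).1 hd with h | h
  · left
    have h1 := hs.dvd_of_dvd_pow h
    rw [Nat.card_congr Multiplicative.toAdd, Nat.card_zmod] at h1
    exact (Nat.prime_dvd_prime_iff_eq hs hq).1 h1
  · exact Or.inr h

theorem order_right (hq : q.Prime) {s : ℕ} (hs : s.Prime) (hsq : s ≠ q) {y : WP q Q}
    (hy : orderOf y = s) : orderOf y.right = s := by
  have h3 : y.right ^ s = 1 := by
    have h4 : RegularWreathProduct.rightHom (y ^ s) = 1 := by
      rw [← hy, pow_orderOf_eq_one, map_one]
    rw [map_pow] at h4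
    exact h4
  apply orderOf_eq_prime (hp := ⟨hs⟩) h3
  intro h4
  have h5 : y = 1 := by
    apply eq_one_of_pgroup (RegularWreathProduct.rightHom : WP q Q →* Q) ker_pgroup (s := s)
    · rw [← hy, pow_orderOf_eq_one]
    · exact (Nat.coprime_primes hs hq).2 hsq
    · exact h4
  rw [h5, orderOf_one] at hy
  exact hs.one_lt.ne hy

end W

section

variable {r q : ℕ → ℕ} (hr : ∀ j, (r j).Prime) (hmono : StrictMono r)
  (hq : ∀ i, (q i).Prime) (hqinj : Function.Injective q) (hqr : ∀ i j, q i ≠ r j)
  (hq2 : ∀ i, q i ≠ 2) (T : ∀ i, Stage r (i + 1) i)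

abbrev Yf (q : ℕ → ℕ) {r : ℕ → ℕ} (T : ∀ i, Stage r (i + 1) i) (i : ℕ) : Type :=
  W.WP (q i) (T i).H

include hq in
theorem finY (i : ℕ) : Finite (Yf q T i) := by
  have h0 : NeZero (q i) := ⟨(hq i).pos.ne'⟩
  have h1 : Finite (Multiplicative (ZMod (q i))) := inferInstanceAs (Finite (ZMod (q i)))
  infer_instance

include hq in
theorem cardY {i : ℕ} {s : ℕ} (hs : s.Prime) (hd : s ∣ Nat.card (Yf q T i)) :
    s = q i ∨ s = 2 ∨ ∃ j, j < i ∧ s = r j := by
  have h0 : NeZero (q i) := ⟨(hq i).pos.ne'⟩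
  rcases W.card_dvd (hq i) hs hd with h | h
  · exact Or.inl h
  · exact Or.inr ((T i).card s hs h)

include hq hqinj hqr hq2 in
theorem F3Y (i i' : ℕ) (hne : i' ≠ i) (y : Yf q T i') (hy : y ^ q i = 1) : y = 1 := by
  have hfin := finY hq T i'
  by_contra h1
  have h3 : orderOf y = q i := orderOf_eq_prime (hp := ⟨hq i⟩) hy h1
  have h4 : q i ∣ Nat.card (Yf q T i') := h3 ▸ orderOf_dvd_natCard y
  rcases cardY hq T (hq i) h4 with h | h | ⟨j, -, h⟩
  · exact hne (hqinj h).symm
  · exact hq2 i h
  · exact hqr i j h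

include hr hmono hq hqinj hqr hq2 T in
theorem exists_sys : ∃ S : Sys r q, (∀ i, ∃ x : S.Y i, S.χ i x = 1 ∧ orderOf x = 2) ∧
    (∀ i (y : S.Y i) (m : ℕ), y ^ (2 ^ m) = 1 → y ^ 2 = 1) := by
  have hfin := finY hq T
  have hq' : ∀ i, Fact (q i).Prime := fun i => ⟨hq i⟩
  refine ⟨
    { Y := Yf q T
      grp := fun i => inferInstance
      fin := hfin
      solv := ?_
      χ := fun i => (T i).χ.comp RegularWreathProduct.rightHom
      σ := fun i => RegularWreathProduct.inl.comp (T i).σ
      χσ := fun i a => (T i).χσ a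
      χt := fun i y => (T i).χt _
      A1 := ?_
      A2 := ?_
      F3 := F3Y hq hqinj hqr hq2 T
      F4 := fun i y h => W.F4 y h
      rprime := hr
      rmono := hmono
      qprime := hq
      qinj := hqinj
      qr := hqr }, ?_, ?_⟩
  · intro i
    have h1 : Group.IsNilpotent
        (RegularWreathProduct.rightHom : Yf q T i →* (T i).H).ker := W.ker_pgroup.isNilpotent
    have h3 : Group.IsSolvable
        (RegularWreathProduct.rightHom : Yf q T i →* (T i).H).ker := inferInstance
    have h4 := (T i).solv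
    exact Group.isSolvable_of_ker_le_range
      (RegularWreathProduct.rightHom : Yf q T i →* (T i).H).ker.subtype
      (RegularWreathProduct.rightHom : Yf q T i →* (T i).H) (by rw [Subgroup.range_subtype])
  · intro s hs
    have key : ∀ (i j : ℕ), j < i → ∀ y w : Yf q T i,
        (T i).χ y.right = 1 → (orderOf y = 2 ∨ ∃ l, l < j ∧ orderOf y = r l) →
        w ^ r j = 1 → (T i).χ w.right j ≠ 1 →
        i + 1 < Nat.card (Subgroup.closure ({w, y} : Set (Yf q T i))) := by
      intro i j hj y w hy hord hw hwj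
      have h3 := (T i).S4 j hj y.right w.right hy (by
        rcases hord with h | ⟨l, hl, h⟩
        · left
          exact W.order_right (hq i) Nat.prime_two (hq2 i).symm h
        · right
          exact ⟨l, hl, W.order_right (hq i) (hr l) (hqr i l).symm h⟩) (by
        have h4 : RegularWreathProduct.rightHom (w ^ r j) = 1 := by rw [hw, map_one]
        rw [map_pow] at h4
        exact h4) hwj
      exact lt_of_lt_of_le h3
        (card_closure_map_le (RegularWreathProduct.rightHom : Yf q T i →* (T i).H) w y)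
    by_cases hs2 : s = 2
    · refine ⟨0, fun B => ⟨B + 1, ?_⟩⟩
      intro i hi y w hy hys hw hwj
      have h3 := key i 0 (by omega) y w hy (Or.inl (by rw [hys, hs2])) hw hwj
      omega
    by_cases hsr : ∃ l, s = r l
    · obtain ⟨l, hl⟩ := hsr
      refine ⟨l + 1, fun B => ⟨B + l + 2, ?_⟩⟩
      intro i hi y w hy hys hw hwj
      have h3 := key i (l + 1) (by omega) y w hy
        (Or.inr ⟨l, Nat.lt_succ_self l, by rw [hys, hl]⟩) hw hwj
      omega
    by_cases hsq : ∃ i, s = q i
    · obtain ⟨i0, hi0⟩ := hsq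
      refine ⟨0, fun B => ⟨i0 + 1, ?_⟩⟩
      intro i hi y w hy hys hw hwj
      exfalso
      have h3 : s ∣ Nat.card (Yf q T i) := hys ▸ orderOf_dvd_natCard y
      rcases cardY hq T hs h3 with h | h | ⟨j, -, h⟩
      · rw [hi0] at h
        have := hqinj h
        omega
      · exact hs2 h
      · exact hsr ⟨j, h⟩
    · refine ⟨0, fun B => ⟨0, ?_⟩⟩
      intro i hi y w hy hys hw hwj
      exfalso
      have h3 : s ∣ Nat.card (Yf q T i) := hys ▸ orderOf_dvd_natCard y
      rcases cardY hq T hs h3 with h | h | ⟨j, -, h⟩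
      · exact hsq ⟨i, h⟩
      · exact hs2 h
      · exact hsr ⟨j, h⟩
  · intro i m hm τ hτ
    obtain ⟨c, hc⟩ := (T i).S5 m hm (RegularWreathProduct.rightHom.comp τ) hτ
    apply lift_conj hr (RegularWreathProduct.rightHom : Yf q T i →* (T i).H) W.ker_pgroup τ
      (RegularWreathProduct.inl.comp (T i).σ) m (fun j _ h => hqr i j h.symm)
      (RegularWreathProduct.inl c)
    intro a
    exact hc a
  · intro i
    obtain ⟨x, hx1, hx2⟩ := (T i).inv
    refine ⟨RegularWreathProduct.inl x, hx1, ?_⟩
    refine Eq.trans (orderOf_injective (RegularWreathProduct.inl : (T i).H →* Yf q T i) ?_ x) hx2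
    intro a b hab
    exact congrArg RegularWreathProduct.right hab
  · intro i y m hy
    change (y : Yf q T i) ^ 2 = 1
    apply eq_one_of_pgroup (RegularWreathProduct.rightHom : Yf q T i →* (T i).H) W.ker_pgroup
      (s := 2 ^ m)
    · rw [← pow_mul, mul_comm, pow_mul]
      change (y ^ (2 ^ m)) ^ 2 = 1
      rw [hy, one_pow]
    · exact Nat.Coprime.pow_left m ((Nat.coprime_primes Nat.prime_two (hq i)).2 (hq2 i).symm)
    · rw [map_pow]
      apply (T i).two _ m
      rw [← map_pow]
      change RegularWreathProduct.rightHom (y ^ (2 ^ m)) = 1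
      rw [hy, map_one]

end

end Pool.Agent.Helper407.Cat
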