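import Mathlib

set_option autoImplicit false

namespace Pool.Agent.Helper407.Cat

open Filter

theorem exists_rho {Y : ℕ → Type} [∀ i, Group (Y i)] [∀ i, Finite (Y i)]
    (T : Subgroup (∀ i, Y i)) {E : Type} [Group E]
    (h : ∀ L : Subgroup E, L.FG → Finite L ∧ ∃ f : L →* (∀ i, Y i), Function.Injective f ∧
      ∀ g, f g ∈ T) :
    ∃ ρ : E →* (∀ i, Y i), ∀ L : Subgroup E, L.FG → ∀ n : ℕ, ∃ ψ : L →* (∀ i, Y i),
      Function.Injective ψ ∧ (∀ g, ψ g ∈ T) ∧ ∀ g : L, ∀ i, i ≤ n → ψ g i = ρ g i := by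
  classical
  have hfg : ∀ S : Finset E, (Subgroup.closure (S : Set E)).FG := fun S => ⟨S, rfl⟩
  choose f hf using fun S : Finset E => (h _ (hfg S)).2
  let F : Finset E → E → (∀ i, Y i) := fun S g =>
    if hg : g ∈ Subgroup.closure (S : Set E) then f S ⟨g, hg⟩ else 1
  have hF : ∀ (S : Finset E) (g : E) (hg : g ∈ Subgroup.closure (S : Set E)), F S g = f S ⟨g, hg⟩ := by
    intro S g hg
    simp only [F, dif_pos hg]
  let U : Ultrafilter (Finset E) := Ultrafilter.of (atTop : Filter (Finset E))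
  have hU : (U : Filter (Finset E)) ≤ atTop := Ultrafilter.of_le _
  have hlim : ∀ (g : E) (i : ℕ), ∃ y : Y i, ∀ᶠ S in (U : Filter (Finset E)), F S g i = y := by
    intro g i
    obtain ⟨y, hy⟩ := Ultrafilter.eq_pure_of_finite (U.map (fun S => F S g i))
    refine ⟨y, ?_⟩
    have h1 : ({y} : Set (Y i)) ∈ U.map (fun S => F S g i) := by
      rw [hy]
      exact Ultrafilter.mem_pure.2 rfl
    rw [Ultrafilter.mem_map] at h1
    exact h1
  choose R hR using hlim
  have huniq : ∀ (g : E) (i : ℕ) (y : Y i),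
      (∀ᶠ S in (U : Filter (Finset E)), F S g i = y) → R g i = y := by
    intro g i y hy
    obtain ⟨S, hS1, hS2⟩ := ((hR g i).and hy).exists
    rw [← hS1, hS2]
  have hmem : ∀ g : E, ∀ᶠ (S : Finset E) in (U : Filter (Finset E)), g ∈ Subgroup.closure (S : Set E) := by
    intro g
    have h1 : ∀ᶠ S in (atTop : Filter (Finset E)), ({g} : Finset E) ≤ S := eventually_ge_atTop _
    filter_upwards [hU h1] with S hS
    exact Subgroup.subset_closure (hS (Finset.mem_singleton_self g))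
  let ρ : E →* (∀ i, Y i) := MonoidHom.mk' (fun g i => R g i) (by
    intro a b
    funext i
    apply huniq
    filter_upwards [hmem a, hmem b, hR a i, hR b i] with S h1 h2 h3 h4
    rw [hF S (a * b) (Subgroup.mul_mem _ h1 h2)]
    have h5 : (⟨a * b, Subgroup.mul_mem _ h1 h2⟩ : Subgroup.closure (S : Set E)) =
      ⟨a, h1⟩ * ⟨b, h2⟩ := rfl
    rw [h5, map_mul, Pi.mul_apply, Pi.mul_apply, ← h3, ← h4, hF S a h1, hF S b h2])
  refine ⟨ρ, ?_⟩
  intro L hL n
  have : Finite L := (h L hL).1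
  have h1 : ∀ᶠ (S : Finset E) in (U : Filter (Finset E)), ∀ g : L, (g : E) ∈ Subgroup.closure (S : Set E) :=
    eventually_all.2 (fun g => hmem g)
  have h2 : ∀ᶠ S in (U : Filter (Finset E)), ∀ g : L, ∀ i : Fin (n + 1), F S g i = R g i :=
    eventually_all.2 (fun g => eventually_all.2 (fun i => hR g i))
  obtain ⟨S, hS1, hS2⟩ := (h1.and h2).exists
  refine ⟨(f S).comp (Subgroup.inclusion (fun g hg => hS1 ⟨g, hg⟩)), ?_, ?_, ?_⟩
  · exact (hf S).1.comp (Subgroup.inclusion_injective _)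
  · intro g
    exact (hf S).2 _
  · intro g i hi
    have h3 := hS2 g ⟨i, by omega⟩
    rw [hF S g (hS1 g)] at h3
    exact h3

end Pool.Agent.Helper407.Cat
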