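import Pool.Agent.Helper407.CatSec
import Pool.Agent.Helper407.CatRho

set_option autoImplicit false

namespace Pool.Agent.Helper407.Cat

namespace Sys

variable {r q : ℕ → ℕ} (S : Sys r q)

structure Ctx {E : Type} [Group E] (ρ : E →* (∀ i, S.Y i)) : Prop where
  fin : ∀ L : Subgroup E, L.FG → Finite L
  hρ : ∀ L : Subgroup E, L.FG → ∀ n : ℕ, ∃ ψ : L →* (∀ i, S.Y i),
      Function.Injective ψ ∧ (∀ g, ψ g ∈ S.G) ∧ ∀ g : L, ∀ i, i ≤ n → ψ g i = ρ g i
  sec : ∀ n, ∃ φ : S.D n →* E, Function.Injective φ ∧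
    ∀ d : S.D n, ∀ i, i ≤ n → ρ (φ d) i = d.1 i

variable {E : Type} [Group E] {ρ : E →* (∀ i, S.Y i)}

def alpha (ρ : E →* (∀ i, S.Y i)) : E →* A r where
  toFun g := fun j => S.χ (j + 1) (ρ g (j + 1)) j
  map_one' := by funext j; simp
  map_mul' a b := by funext j; simp

theorem alpha_apply (g : E) (j : ℕ) : S.alpha ρ g j = S.χ (j + 1) (ρ g (j + 1)) j := rfl

theorem fg_closure (s : Set E) (hs : s.Finite) : (Subgroup.closure s).FG := by
  rw [Subgroup.fg_iff]
  exact ⟨s, rfl, hs⟩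

variable {S}

namespace Ctx

variable (C : S.Ctx ρ)
include C

theorem alpha_spec (g : E) (i : ℕ) : S.χ i (ρ g i) = trunc i (S.alpha ρ g) := by
  obtain ⟨ψ, -, h2, h3⟩ := C.hρ (Subgroup.closure {g}) (fg_closure _ (Set.finite_singleton _)) i
  have hg : g ∈ Subgroup.closure ({g} : Set E) := Subgroup.subset_closure rfl
  obtain ⟨a, ha, -⟩ := S.G_cls (h2 ⟨g, hg⟩)
  funext j
  by_cases hj : j < i
  · rw [trunc_apply_lt _ hj, S.alpha_apply, ← h3 ⟨g, hg⟩ i le_rfl, ha,
      ← h3 ⟨g, hg⟩ (j + 1) hj, ha, trunc_apply_lt _ hj, trunc_apply_lt _ (Nat.lt_succ_self j)]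
  · rw [← S.χt, trunc_apply_ge _ (not_lt.1 hj), trunc_apply_ge _ (not_lt.1 hj)]

omit C in
theorem alpha_trunc_of_pow (g : E) (N : ℕ) (hN : 0 < N) (h : g ^ N = 1) :
    trunc N (S.alpha ρ g) = S.alpha ρ g := by
  rw [eq_trunc_iff]
  intro j hj
  have h1 : (S.alpha ρ g) ^ N = 1 := by rw [← map_pow, h, map_one]
  apply zmod_pow_coprime (m := N) _ _ (congrFun h1 j)
  rw [Nat.coprime_comm, (S.rprime j).coprime_iff_not_dvd]
  intro h2
  have h3 := Nat.le_of_dvd hN h2
  have h4 := S.lt_r j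
  omega

theorem ofFin (g : E) : 0 < orderOf g := by
  have h1 : Finite (Subgroup.closure ({g} : Set E)) :=
    C.fin _ (fg_closure _ (Set.finite_singleton _))
  rw [← Subgroup.zpowers_eq_closure] at h1
  exact orderOf_pos_iff.2 (finite_zpowers.1 h1)

theorem alpha_fin (g : E) : ∃ n, trunc n (S.alpha ρ g) = S.alpha ρ g :=
  ⟨_, alpha_trunc_of_pow g (orderOf g) (C.ofFin g) (pow_orderOf_eq_one g)⟩

theorem card_le (w g : E) (i k : ℕ) :
    Nat.card (Subgroup.closure ({ρ w i, (ρ g i) ^ k} : Set (S.Y i))) ≤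
      Nat.card (Subgroup.closure ({w, g} : Set E)) := by
  have h1 : Finite (Subgroup.closure ({w, g} : Set E)) :=
    C.fin _ (fg_closure _ (Set.toFinite _))
  let f : E →* S.Y i := (Pi.evalMonoidHom S.Y i).comp ρ
  have h2 : Subgroup.closure ({ρ w i, (ρ g i) ^ k} : Set (S.Y i)) ≤
      (Subgroup.closure ({w, g} : Set E)).map f := by
    rw [Subgroup.closure_le]
    intro z hz
    rcases hz with hz | hz
    · exact ⟨w, Subgroup.subset_closure (by simp), hz.symm⟩
    · rw [Set.mem_singleton_iff] at hz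
      refine ⟨g ^ k, Subgroup.pow_mem _ (Subgroup.subset_closure (by simp)) k, ?_⟩
      rw [hz, map_pow]
      rfl
  calc Nat.card (Subgroup.closure ({ρ w i, (ρ g i) ^ k} : Set (S.Y i)))
      ≤ Nat.card ((Subgroup.closure ({w, g} : Set E)).map f) :=
        Nat.card_le_card_of_injective _ (Subgroup.inclusion_injective h2)
    _ ≤ Nat.card (Subgroup.closure ({w, g} : Set E)) :=
        Nat.card_le_card_of_surjective _ (MonoidHom.subgroupMap_surjective f _)

/-- uniform bound -/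
theorem unif (N : ℕ) (hN : 0 < N) : ∃ J, ∀ B, ∃ m, ∀ i, m ≤ i → ∀ g : E, g ^ N = 1 →
    S.alpha ρ g = 1 →
    (∀ j, j ≤ J → ∃ w : E, w ^ r j = 1 ∧ S.alpha ρ w j ≠ 1 ∧
      Nat.card (Subgroup.closure ({w, g} : Set E)) ≤ B) → ρ g i = 1 := by
  have h0 : ∀ s : ℕ, ∃ j, s.Prime → ∀ B : ℕ, ∃ m, ∀ i, m ≤ i → ∀ y w : S.Y i, S.χ i y = 1 →
      orderOf y = s → w ^ r j = 1 → S.χ i w j ≠ 1 →
      B < Nat.card (Subgroup.closure {w, y}) := by
    intro s
    by_cases hs : s.Prime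
    · obtain ⟨j, hj⟩ := S.A1 s hs
      exact ⟨j, fun _ => hj⟩
    · exact ⟨0, fun h => absurd h hs⟩
  choose j hj using h0
  refine ⟨(Finset.range (N + 1)).sup j, ?_⟩
  intro B
  have h1 : ∀ s : ℕ, ∃ m, s.Prime → ∀ i, m ≤ i → ∀ y w : S.Y i, S.χ i y = 1 →
      orderOf y = s → w ^ r (j s) = 1 → S.χ i w (j s) ≠ 1 →
      B < Nat.card (Subgroup.closure {w, y}) := by
    intro s
    by_cases hs : s.Prime
    · obtain ⟨m, hm⟩ := hj s hs B
      exact ⟨m, fun _ => hm⟩
    · exact ⟨0, fun h => absurd h hs⟩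
  choose m hm using h1
  refine ⟨(Finset.range (N + 1)).sup m + (Finset.range (N + 1)).sup j + 1, ?_⟩
  intro i hi g hg ha hw
  by_contra hne
  have ho : orderOf (ρ g i) ≠ 1 := fun h => hne (orderOf_eq_one_iff.1 h)
  obtain ⟨s, hs, hso⟩ := Nat.exists_prime_and_dvd ho
  have hoN : orderOf (ρ g i) ∣ N := by
    apply orderOf_dvd_of_pow_eq_one
    have h2 : (ρ g) ^ N = 1 := by rw [← map_pow, hg, map_one]
    exact congrFun h2 i
  have hsN : s ≤ N := Nat.le_of_dvd hN (hso.trans hoN)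
  have hmem : s ∈ Finset.range (N + 1) := Finset.mem_range.2 (by omega)
  have hjs : j s ≤ (Finset.range (N + 1)).sup j := Finset.le_sup hmem
  have hms : m s ≤ (Finset.range (N + 1)).sup m := Finset.le_sup hmem
  obtain ⟨w, hw1, hw2, hw3⟩ := hw (j s) hjs
  have h3 : orderOf ((ρ g i) ^ (orderOf (ρ g i) / s)) = s :=
    orderOf_pow_orderOf_div (orderOf_pos _).ne' hso
  have h4 := hm s hs i (by omega) ((ρ g i) ^ (orderOf (ρ g i) / s)) (ρ w i) (by
    rw [map_pow, C.alpha_spec, ha, map_one, one_pow]) h3 (by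
    have h5 : (ρ w) ^ r (j s) = 1 := by rw [← map_pow, hw1, map_one]
    exact congrFun h5 i) (by
    rw [C.alpha_spec, trunc_apply_lt _ (by omega)]
    exact hw2)
  have h5 := C.card_le w g i (orderOf (ρ g i) / s)
  omega

omit C in
/-- the diagonal homomorphism -/
theorem V_mem {n : ℕ} {a : A r} (ha : trunc n a = a) :
    (fun i => S.σ i a : ∀ i, S.Y i) ∈ S.D n := by
  refine ⟨fun i _ => ?_, fun i _ => ?_⟩
  · rw [S.χσ, S.χσ, ha]
  · rw [S.χσ, ha]

theorem exists_w (j : ℕ) : ∃ w : E, w ^ r j = 1 ∧ S.alpha ρ w j ≠ 1 := by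
  obtain ⟨φ, h1, h2⟩ := C.sec (j + 1)
  let d : S.D (j + 1) := ⟨fun i => S.σ i (e j), V_mem (trunc_e_lt (Nat.lt_succ_self j))⟩
  refine ⟨φ d, ?_, ?_⟩
  · rw [← map_pow]
    have h3 : d ^ r j = 1 := by
      apply Subtype.ext
      funext i
      change (S.σ i (e j)) ^ r j = 1
      rw [← map_pow, e_pow, map_one]
    rw [h3, map_one]
  · rw [S.alpha_apply, h2 d (j + 1) le_rfl]
    change S.χ (j + 1) (S.σ (j + 1) (e j)) j ≠ 1
    rw [S.χσ, trunc_apply_lt _ (Nat.lt_succ_self j), e_self]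
    intro h4
    have h5 : (1 : ZMod (r j)) = 0 := h4
    have := (S.rprime j).one_lt
    have h6 : Fact (1 < r j) := ⟨this⟩
    exact one_ne_zero h5

/-- C6 -/
theorem eventually_one (g : E) (hg : S.alpha ρ g = 1) : ∃ m, ∀ i, m ≤ i → ρ g i = 1 := by
  obtain ⟨J, hJ⟩ := C.unif (orderOf g) (C.ofFin g)
  choose w hw1 hw2 using C.exists_w
  obtain ⟨m, hm⟩ := hJ ((Finset.range (J + 1)).sup
    (fun j => Nat.card (Subgroup.closure ({w j, g} : Set E))))
  refine ⟨m, fun i hi => hm i hi g (pow_orderOf_eq_one g) hg ?_⟩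
  intro j hj
  refine ⟨w j, hw1 j, hw2 j, ?_⟩
  exact Finset.le_sup (f := fun j => Nat.card (Subgroup.closure ({w j, g} : Set E)))
    (Finset.mem_range.2 (by omega))

/-- C7 -/
theorem rho_injective : Function.Injective ρ := by
  rw [injective_iff_map_eq_one]
  intro g0 hg0
  by_contra hne
  have ho : orderOf g0 ≠ 1 := fun h => hne (orderOf_eq_one_iff.1 h)
  obtain ⟨s, hs, hso⟩ := Nat.exists_prime_and_dvd ho
  obtain ⟨g, hg, hgs⟩ : ∃ g : E, ρ g = 1 ∧ orderOf g = s := by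
    refine ⟨g0 ^ (orderOf g0 / s), ?_, ?_⟩
    · rw [map_pow, hg0, one_pow]
    · exact orderOf_pow_orderOf_div (C.ofFin g0).ne' hso
  obtain ⟨j, hj⟩ := S.A1 s hs
  obtain ⟨w, hw1, hw2⟩ := C.exists_w j
  let K : Subgroup E := Subgroup.closure ({w, g} : Set E)
  have hK : K.FG := fg_closure _ (Set.toFinite _)
  have hfin : Finite K := C.fin K hK
  obtain ⟨m, hm⟩ := hj (Nat.card K)
  obtain ⟨ψ, h1, h2, h3⟩ := C.hρ K hK (m + j + s + 1)
  let w' : K := ⟨w, Subgroup.subset_closure (by simp)⟩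
  let g' : K := ⟨g, Subgroup.subset_closure (by simp)⟩
  have hg' : orderOf g' = s := by
    rw [← hgs]
    exact (orderOf_injective K.subtype K.subtype_injective g').symm
  have hg'1 : g' ≠ 1 := by
    intro h
    rw [h, orderOf_one] at hg'
    exact hs.one_lt.ne hg'
  obtain ⟨ag, hag, -⟩ := S.G_cls (h2 g')
  obtain ⟨aw, haw, -⟩ := S.G_cls (h2 w')
  have hψg : ∀ i, i ≤ m + j + s + 1 → ψ g' i = 1 := by
    intro i hi
    rw [h3 g' i hi]
    change ρ g i = 1
    rw [hg]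
    rfl
  have hψs : (ψ g') ^ s = 1 := by
    rw [← map_pow, ← hg', pow_orderOf_eq_one, map_one]
  have hag1 : ag = 1 := by
    funext l
    by_cases hl : l < m + j + s + 1
    · have h4 := congrFun (hag (m + j + s + 1)) l
      rw [trunc_apply_lt _ hl, hψg _ le_rfl, map_one] at h4
      exact h4.symm
    · apply zmod_pow_coprime (m := s)
      · rw [Nat.coprime_primes hs (S.rprime l)]
        have := S.lt_r l
        omega
      · have h4 : (S.χ (l + 1) (ψ g' (l + 1))) ^ s = 1 := by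
          rw [← map_pow]
          have h5 : (ψ g' (l + 1)) ^ s = 1 := congrFun hψs (l + 1)
          rw [h5, map_one]
        rw [hag] at h4
        have h5 := congrFun h4 l
        rw [Pi.pow_apply, trunc_apply_lt _ (Nat.lt_succ_self l)] at h5
        exact h5
  have hψne : ψ g' ≠ 1 := fun h => hg'1 (h1 (by rw [h, map_one]))
  obtain ⟨i, hi⟩ : ∃ i, ψ g' i ≠ 1 := by
    by_contra hcon
    push Not at hcon
    exact hψne (funext hcon)
  have him : m + j + s + 1 < i := by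
    by_contra hcon
    exact hi (hψg i (by omega))
  have hord : orderOf (ψ g' i) = s :=
    orderOf_eq_prime (hp := ⟨hs⟩) (congrFun hψs i) hi
  have h4 := hm i (by omega) (ψ g' i) (ψ w' i) (by rw [hag, hag1, map_one]) hord (by
    have h5 : (ψ w') ^ r j = 1 := by
      rw [← map_pow]
      have h6 : w' ^ r j = 1 := Subtype.ext hw1
      rw [h6, map_one]
    exact congrFun h5 i) (by
    rw [haw, trunc_apply_lt _ (by omega)]
    have h5 : S.χ (j + 1) (ψ w' (j + 1)) j = aw j := by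
      rw [haw, trunc_apply_lt _ (Nat.lt_succ_self j)]
    rw [← h5, h3 w' (j + 1) (by omega)]
    exact hw2)
  have h5 : Nat.card (Subgroup.closure ({ψ w' i, ψ g' i} : Set (S.Y i))) ≤ Nat.card K := by
    let f : K →* S.Y i := (Pi.evalMonoidHom S.Y i).comp ψ
    have h6 : Subgroup.closure ({ψ w' i, ψ g' i} : Set (S.Y i)) ≤ f.range := by
      rw [Subgroup.closure_le]
      intro z hz
      rcases hz with hz | hz
      · exact ⟨w', hz.symm⟩
      · exact ⟨g', (Set.mem_singleton_iff.1 hz).symm⟩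
    calc Nat.card (Subgroup.closure ({ψ w' i, ψ g' i} : Set (S.Y i)))
        ≤ Nat.card f.range := Nat.card_le_card_of_injective _ (Subgroup.inclusion_injective h6)
      _ ≤ Nat.card K := Nat.card_le_card_of_surjective _ f.rangeRestrict_surjective
  omega

end Ctx

end Sys

end Pool.Agent.Helper407.Cat
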