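import Mathlib

set_option autoImplicit false

namespace Pool.Agent.Helper407.Cat

theorem sz {G : Type} [Group G] (M : Subgroup G) [M.Normal] [Finite M]
    (w v : ℕ → G) (r : ℕ → ℕ) (m : ℕ) (hr : ∀ j, j < m → (r j).Prime)
    (hco : ∀ j, j < m → Nat.Coprime (r j) (Nat.card M))
    (hw : ∀ i, i < m → ∀ j, j < m → w i * w j = w j * w i)
    (hv : ∀ i, i < m → ∀ j, j < m → v i * v j = v j * v i)
    (hwp : ∀ j, j < m → w j ^ r j = 1) (hvp : ∀ j, j < m → v j ^ r j = 1)
    (hwv : ∀ j, j < m → w j * (v j)⁻¹ ∈ M) :
    ∃ d ∈ M, ∀ j, j < m → w j * d = d * v j := by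
  classical
  induction m with
  | zero => exact ⟨1, M.one_mem, fun j hj => absurd hj (Nat.not_lt_zero j)⟩
  | succ m ih =>
    obtain ⟨d0, hd0, hd0'⟩ := ih (fun j hj => hr j (by omega)) (fun j hj => hco j (by omega))
      (fun i hi j hj => hw i (by omega) j (by omega))
      (fun i hi j hj => hv i (by omega) j (by omega))
      (fun j hj => hwp j (by omega)) (fun j hj => hvp j (by omega))
      (fun j hj => hwv j (by omega))
    let X := {d : G // d ∈ M ∧ ∀ j, j < m → w j * d = d * v j}
    let C : Subgroup M :=
      { carrier := {c | ∀ j, j < m → (c : G) * v j = v j * c}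
        one_mem' := by intro j _; simp
        mul_mem' := by
          intro a b ha hb j hj
          have h1 := ha j hj
          have h2 := hb j hj
          simp only [Subgroup.coe_mul]
          rw [mul_assoc, h2, ← mul_assoc, h1, mul_assoc]
        inv_mem' := by
          intro a ha j hj
          have h1 := ha j hj
          simp only [Subgroup.coe_inv]
          rw [inv_mul_eq_iff_eq_mul, ← mul_assoc, h1, mul_inv_cancel_right] }
    have hXC : Nat.card X = Nat.card C := by
      apply Nat.card_congr
      refine ⟨fun d => ⟨⟨d0⁻¹ * d.1, M.mul_mem (M.inv_mem hd0) d.2.1⟩, ?_⟩,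
        fun c => ⟨d0 * c.1.1, M.mul_mem hd0 c.1.2, ?_⟩, ?_, ?_⟩
      · intro j hj
        change d0⁻¹ * d.1 * v j = v j * (d0⁻¹ * d.1)
        have h1 := d.2.2 j hj
        have h2 := hd0' j hj
        have h3 : v j * d0⁻¹ = d0⁻¹ * w j := by
          rw [mul_inv_eq_iff_eq_mul, mul_assoc, h2, inv_mul_cancel_left]
        rw [mul_assoc, ← h1, ← mul_assoc, ← mul_assoc, h3]
      · intro j hj
        have h1 := hd0' j hj
        have h2 : (c.1 : G) * v j = v j * c.1 := c.2 j hj
        rw [← mul_assoc, h1, mul_assoc, mul_assoc, h2]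
      · intro d
        apply Subtype.ext
        simp
      · intro c
        apply Subtype.ext
        apply Subtype.ext
        simp
    have hXdvd : Nat.card X ∣ Nat.card M := by
      rw [hXC]
      exact Subgroup.card_subgroup_dvd_card C
    have hfin : Finite X := by
      have : Function.Injective (fun x : X => (⟨x.1, x.2.1⟩ : M)) := by
        intro a b hab
        apply Subtype.ext
        exact congrArg (fun z : M => z.1) hab
      exact Finite.of_injective _ this
    have hXprime : ¬ r m ∣ Nat.card X := by
      intro h1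
      have h2 : r m ∣ Nat.card M := h1.trans hXdvd
      have h3 := hco m (by omega)
      rw [(hr m (by omega)).coprime_iff_not_dvd] at h3
      exact h3 h2
    let T : Function.End X := fun d => ⟨w m * d.1 * (v m)⁻¹, by
      have h1 : w m * d.1 * (v m)⁻¹ = (w m * (v m)⁻¹) * (v m * d.1 * (v m)⁻¹) := by group
      rw [h1]
      exact M.mul_mem (hwv m (by omega)) (‹M.Normal›.conj_mem _ d.2.1 _), by
      intro j hj
      have h1 := d.2.2 j hj
      have h2 := hw j (by omega) m (by omega)
      have h3 := hv j (by omega) m (by omega)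
      have h4 : (v m)⁻¹ * v j = v j * (v m)⁻¹ := by
        rw [inv_mul_eq_iff_eq_mul, ← mul_assoc, ← h3, mul_inv_cancel_right]
      calc w j * (w m * d.1 * (v m)⁻¹) = (w j * w m) * d.1 * (v m)⁻¹ := by group
        _ = w m * (w j * d.1) * (v m)⁻¹ := by rw [h2]; group
        _ = w m * d.1 * (v j * (v m)⁻¹) := by rw [h1]; group
        _ = w m * d.1 * (v m)⁻¹ * v j := by rw [← h4]; group⟩
    have hT : ∀ (n : ℕ) (d : X), ((T ^ n) d).1 = (w m) ^ n * d.1 * ((v m)⁻¹) ^ n := by
      intro n
      induction n with
      | zero => intro d; simp [Function.End.one_def]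
      | succ n ihn =>
        intro d
        rw [pow_succ]
        change ((T ^ n) (T d)).1 = _
        rw [ihn]
        change (w m) ^ n * (w m * d.1 * (v m)⁻¹) * ((v m)⁻¹) ^ n = _
        rw [pow_succ, pow_succ']
        group
    have hT1 : T ^ (r m) ^ 1 = 1 := by
      rw [pow_one]
      funext d
      apply Subtype.ext
      rw [hT, inv_pow, hwp m (by omega), hvp m (by omega)]
      simp [Function.End.one_def]
    have hF : Fact (r m).Prime := ⟨hr m (by omega)⟩
    have hFX : Fintype X := Fintype.ofFinite X
    have h5 := Equiv.Perm.card_fixedPoints_modEq hT1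
    have h6 : Nonempty (Function.fixedPoints T) := by
      by_contra hne
      rw [not_nonempty_iff] at hne
      have h7 : Fintype.card (Function.fixedPoints T) = 0 := Fintype.card_eq_zero
      rw [h7] at h5
      apply hXprime
      rw [Nat.card_eq_fintype_card]
      exact (Nat.modEq_zero_iff_dvd).1 h5
    obtain ⟨⟨d, hd⟩⟩ := h6
    refine ⟨d.1, d.2.1, ?_⟩
    intro j hj
    by_cases hjm : j = m
    · subst hjm
      have h8 : w j * d.1 * (v j)⁻¹ = d.1 := congrArg Subtype.val hd
      rw [mul_inv_eq_iff_eq_mul] at h8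
      exact h8
    · exact d.2.2 j (by omega)

end Pool.Agent.Helper407.Cat
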