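import Pool.Agent.Helper407.CatBase

set_option autoImplicit false

namespace Pool.Agent.Helper407.Cat

namespace Sys

variable {r q : ℕ → ℕ} (S : Sys r q)

theorem χ_eq_one_of_q {i : ℕ} {f : S.Y i} (hf : f ^ q i = 1) : S.χ i f = 1 := by
  funext j
  apply zmod_pow_coprime (m := q i)
  · exact (Nat.coprime_primes (S.qprime i) (S.rprime j)).2 (S.qr i j)
  · have h1 : (S.χ i f) ^ q i = 1 := by rw [← map_pow, hf, map_one]
    exact congrFun h1 j

theorem mulSingle_mem_D {i n : ℕ} (hi : i ≤ n) {f : S.Y i} (hf : S.χ i f = 1) :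
    (Pi.mulSingle i f : ∀ i, S.Y i) ∈ S.D n := by
  have h1 : ∀ k, S.χ k ((Pi.mulSingle i f : ∀ i, S.Y i) k) = 1 := by
    intro k
    by_cases h : k = i
    · subst h
      simpa using hf
    · rw [Pi.mulSingle_eq_of_ne h, map_one]
  refine ⟨fun k _ => ?_, fun k hk => ?_⟩
  · rw [h1, h1, map_one]
  · rw [h1, map_one, Pi.mulSingle_eq_of_ne (by omega)]

theorem eps_inj (n : ℕ) {f : S.D n →* (∀ i, S.Y i)} (hf : Function.Injective f) (y : S.D n)
    (hy : ∀ i, i ≤ n → f y i = 1) : y = 1 := by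
  classical
  have h1 : ∀ i, i ≤ n → (y.1 i) ^ q i = 1 := by
    intro i hi
    apply S.F4
    intro g hg
    let ι : S.D n := ⟨Pi.mulSingle i g, S.mulSingle_mem_D hi (S.χ_eq_one_of_q hg)⟩
    have hι : ι ^ q i = 1 := by
      apply Subtype.ext
      change (Pi.mulSingle i g : ∀ i, S.Y i) ^ q i = 1
      rw [← Pi.mulSingle_pow, hg, Pi.mulSingle_one]
    have h2 : y * ι = ι * y := by
      apply hf
      rw [map_mul, map_mul]
      funext k
      by_cases hk : k = i
      · subst hk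
        simp [hy k hi]
      · have h3 : f ι k = 1 := by
          apply S.F3 i k hk
          have h4 : f ι ^ q i = 1 := by rw [← map_pow, hι, map_one]
          exact congrFun h4 k
        simp [h3]
    have h3 := congrFun (congrArg Subtype.val h2) i
    simpa [ι] using h3
  have h2 : ∀ i, n < i → y.1 i = 1 := by
    intro i hi
    rw [y.2.2 i hi, S.χ_eq_one_of_q (h1 n le_rfl), map_one]
  apply Subtype.ext
  funext i
  change y.1 i = 1
  by_cases hi : i ≤ n
  swap
  · exact h2 i (by omega)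
  by_contra hne
  let Q : ℕ := ∏ k ∈ (Finset.range (n + 1)).erase i, q k
  have hQ : Nat.Coprime (q i) Q := by
    apply Nat.Coprime.prod_right
    intro k hk
    rw [Finset.mem_erase] at hk
    exact (Nat.coprime_primes (S.qprime i) (S.qprime k)).2 (fun h => hk.1 (S.qinj h).symm)
  have hz : ∀ k, k ≠ i → (y ^ Q).1 k = 1 := by
    intro k hk
    change (y.1 k) ^ Q = 1
    by_cases hkn : k ≤ n
    · have h3 : q k ∣ Q := by
        apply Finset.dvd_prod_of_mem
        rw [Finset.mem_erase, Finset.mem_range]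
        exact ⟨hk, by omega⟩
      obtain ⟨c, hc⟩ := h3
      rw [hc, pow_mul, h1 k hkn, one_pow]
    · rw [h2 k (by omega), one_pow]
  have hz2 : (y ^ Q) ^ q i = 1 := by
    apply Subtype.ext
    funext k
    change ((y ^ Q).1 k) ^ q i = 1
    by_cases hk : k = i
    · subst hk
      change ((y.1 k) ^ Q) ^ q k = 1
      rw [← pow_mul, mul_comm, pow_mul, h1 k hi, one_pow]
    · rw [hz k hk, one_pow]
  have hz3 : y ^ Q = 1 := by
    apply hf
    rw [map_one]
    funext k
    by_cases hk : k = i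
    · subst hk
      rw [map_pow, Pi.pow_apply, hy k hi, one_pow, Pi.one_apply]
    · rw [Pi.one_apply]
      apply S.F3 i k hk
      have h4 : (f (y ^ Q)) ^ q i = 1 := by rw [← map_pow, hz2, map_one]
      exact congrFun h4 k
  have hz4 : (y.1 i) ^ Q = 1 := by
    have := congrFun (congrArg Subtype.val hz3) i
    simpa using this
  have h5 : orderOf (y.1 i) ∣ Nat.gcd (q i) Q :=
    Nat.dvd_gcd (orderOf_dvd_of_pow_eq_one (h1 i hi)) (orderOf_dvd_of_pow_eq_one hz4)
  rw [hQ] at h5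
  exact hne (orderOf_eq_one_iff.1 (Nat.eq_one_of_dvd_one h5))

/-- the retraction to level n -/
def R (n : ℕ) : (∀ i, S.Y i) →* (∀ i, S.Y i) where
  toFun y := fun i => if i ≤ n then y i else S.σ i (S.χ n (y n))
  map_one' := by funext i; simp
  map_mul' a b := by funext i; by_cases h : i ≤ n <;> simp [h]

theorem R_apply_le {n i : ℕ} (h : i ≤ n) (y : ∀ i, S.Y i) : S.R n y i = y i := by
  simp [R, h]

theorem R_apply_gt {n i : ℕ} (h : n < i) (y : ∀ i, S.Y i) :
    S.R n y i = S.σ i (S.χ n (y n)) := by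
  simp [R, not_le.2 h]

theorem R_congr {n : ℕ} {y z : ∀ i, S.Y i} (h : ∀ i, i ≤ n → y i = z i) : S.R n y = S.R n z := by
  funext i
  by_cases hi : i ≤ n
  · rw [S.R_apply_le hi, S.R_apply_le hi, h i hi]
  · rw [S.R_apply_gt (by omega), S.R_apply_gt (by omega), h n le_rfl]

theorem R_mem {n : ℕ} {y : ∀ i, S.Y i} (hy : y ∈ S.G) : S.R n y ∈ S.D n := by
  obtain ⟨a, ha, -⟩ := S.G_cls hy
  have h1 : S.R n y n = y n := S.R_apply_le le_rfl y
  refine ⟨fun i hi => ?_, fun i hi => ?_⟩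
  · rw [h1, S.R_apply_le hi, ha, ha, trunc_trunc_le hi]
  · rw [h1, S.R_apply_gt hi]

theorem exists_section {E : Type} [Group E] (ρ : E →* (∀ i, S.Y i))
    (hρ : ∀ L : Subgroup E, L.FG → ∀ n : ℕ, ∃ ψ : L →* (∀ i, S.Y i),
      Function.Injective ψ ∧ (∀ g, ψ g ∈ S.G) ∧ ∀ g : L, ∀ i, i ≤ n → ψ g i = ρ g i)
    (n : ℕ) (f : S.D n →* E) (hf : Function.Injective f) :
    ∃ φ : S.D n →* E, Function.Injective φ ∧ ∀ d : S.D n, ∀ i, i ≤ n → ρ (φ d) i = d.1 i := by
  have hfg : (f.range).FG := by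
    rw [Subgroup.fg_iff]
    refine ⟨(f.range : Set E), Subgroup.closure_eq _, ?_⟩
    rw [MonoidHom.coe_range]
    exact Set.finite_range f
  obtain ⟨ψ, hψ1, hψ2, hψ3⟩ := hρ f.range hfg n
  have hθ : ∀ d : S.D n, S.R n (ρ (f d)) ∈ S.D n := by
    intro d
    have h1 : S.R n (ρ (f d)) = S.R n (ψ ⟨f d, ⟨d, rfl⟩⟩) := by
      apply S.R_congr
      intro i hi
      exact (hψ3 ⟨f d, ⟨d, rfl⟩⟩ i hi).symm
    rw [h1]
    exact S.R_mem (hψ2 _)
  let θ : S.D n →* S.D n := ((S.R n).comp (ρ.comp f)).codRestrict (S.D n) hθ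
  have hθi : ∀ d : S.D n, ∀ i, i ≤ n → (θ d).1 i = ρ (f d) i := by
    intro d i hi
    exact S.R_apply_le hi _
  have hinj : Function.Injective θ := by
    rw [injective_iff_map_eq_one]
    intro d hd
    have hf' : Function.Injective (ψ.comp f.rangeRestrict) :=
      hψ1.comp (fun a b hab => hf (congrArg Subtype.val hab))
    apply S.eps_inj n hf' d
    intro i hi
    have h1 : (ψ.comp f.rangeRestrict) d i = ρ (f d) i := hψ3 (f.rangeRestrict d) i hi
    rw [h1, ← hθi d i hi, hd]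
    rfl
  have hbij : Function.Bijective θ := Finite.injective_iff_bijective.1 hinj
  let θe := MulEquiv.ofBijective θ hbij
  refine ⟨f.comp θe.symm.toMonoidHom, hf.comp θe.symm.injective, ?_⟩
  intro d i hi
  have h1 : θ (θe.symm d) = d := θe.apply_symm_apply d
  have h2 := hθi (θe.symm d) i hi
  rw [h1] at h2
  exact h2.symm

end Sys

end Pool.Agent.Helper407.Cat
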