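import Pool.Agent.Helper407.CatExt2
import Pool.Agent.Helper407.CatSZ
import Pool.Agent.Helper407.CatBase

set_option autoImplicit false

namespace Pool.Agent.Helper407.Cat

theorem trunc_succ {r : ℕ → ℕ} (m : ℕ) (a : A r) :
    trunc (m + 1) a = trunc m a * Pi.mulSingle m (a m) := by
  funext j
  rw [Pi.mul_apply]
  by_cases h1 : j < m
  · rw [trunc_apply_lt _ h1, trunc_apply_lt _ (by omega), Pi.mulSingle_eq_of_ne (by omega), mul_one]
  · by_cases h2 : j = m
    · subst h2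
      rw [trunc_apply_lt _ (Nat.lt_succ_self j), trunc_apply_ge _ le_rfl, one_mul,
        Pi.mulSingle_eq_same]
    · rw [trunc_apply_ge _ (by omega), trunc_apply_ge _ (by omega), Pi.mulSingle_eq_of_ne h2,
        one_mul]

theorem mulSingle_eq_pow {r : ℕ → ℕ} (hr : ∀ j, (r j).Prime) (m : ℕ) (b : Multiplicative (ZMod (r m))) :
    (Pi.mulSingle m b : A r) = e m ^ (Multiplicative.toAdd b).val := by
  have h0 : NeZero (r m) := ⟨(hr m).pos.ne'⟩
  funext j
  rw [Pi.pow_apply]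
  by_cases h : j = m
  · subst h
    rw [Pi.mulSingle_eq_same, e_self]
    apply Multiplicative.toAdd.injective
    simp
  · rw [Pi.mulSingle_eq_of_ne h, e_ne h, one_pow]

theorem hom_ext_e {r : ℕ → ℕ} (hr : ∀ j, (r j).Prime) {K : Type} [Group K] (f g : A r →* K) (m : ℕ)
    (h : ∀ j, j < m → f (e j) = g (e j)) (a : A r) : f (trunc m a) = g (trunc m a) := by
  induction m with
  | zero =>
    have h1 : trunc 0 a = 1 := by
      funext j
      rw [trunc_apply_ge _ (Nat.zero_le j)]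
      rfl
    rw [h1, map_one, map_one]
  | succ m ih =>
    rw [trunc_succ, map_mul, map_mul, ih (fun j hj => h j (by omega)), mulSingle_eq_pow hr,
      map_pow, map_pow, h m (Nat.lt_succ_self m)]

theorem eq_one_of_pgroup {G H : Type} [Group G] [Group H] (f : G →* H) {p : ℕ}
    (hp : IsPGroup p f.ker) {y : G} {s : ℕ} (hs : y ^ s = 1) (hsp : Nat.Coprime s p)
    (hy : f y = 1) : y = 1 := by
  obtain ⟨k, hk⟩ := hp ⟨y, hy⟩
  have h1 : y ^ (p ^ k) = 1 := congrArg Subtype.val hk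
  have h2 : orderOf y ∣ Nat.gcd s (p ^ k) :=
    Nat.dvd_gcd (orderOf_dvd_of_pow_eq_one hs) (orderOf_dvd_of_pow_eq_one h1)
  rw [Nat.Coprime.pow_right k hsp] at h2
  exact orderOf_eq_one_iff.1 (Nat.eq_one_of_dvd_one h2)

theorem card_closure_map_le {G H : Type} [Group G] [Group H] [Finite G] (f : G →* H) (w y : G) :
    Nat.card (Subgroup.closure ({f w, f y} : Set H)) ≤
      Nat.card (Subgroup.closure ({w, y} : Set G)) := by
  have h2 : Subgroup.closure ({f w, f y} : Set H) ≤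
      (Subgroup.closure ({w, y} : Set G)).map f := by
    rw [Subgroup.closure_le]
    intro z hz
    rcases hz with hz | hz
    · exact ⟨w, Subgroup.subset_closure (by simp), hz.symm⟩
    · exact ⟨y, Subgroup.subset_closure (by simp), (Set.mem_singleton_iff.1 hz).symm⟩
  have hfin : Finite ((Subgroup.closure ({w, y} : Set G)).map f) :=
    Finite.of_surjective _ (MonoidHom.subgroupMap_surjective f _)
  calc Nat.card (Subgroup.closure ({f w, f y} : Set H))
      ≤ Nat.card ((Subgroup.closure ({w, y} : Set G)).map f) :=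
        Nat.card_le_card_of_injective _ (Subgroup.inclusion_injective h2)
    _ ≤ Nat.card (Subgroup.closure ({w, y} : Set G)) :=
        Nat.card_le_card_of_surjective _ (MonoidHom.subgroupMap_surjective f _)

/-- conjugacy lifting through an extension by a p-group -/
theorem lift_conj {r : ℕ → ℕ} (hr : ∀ j, (r j).Prime) {G H : Type} [Group G] [Group H] [Finite G]
    (f : G →* H) {p : ℕ} [Fact p.Prime] (hp : IsPGroup p f.ker) (τ σ : A r →* G) (m : ℕ)
    (hm : ∀ j, j < m → r j ≠ p) (c : G)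
    (hc : ∀ a, f (τ (trunc m a)) = f (c * σ (trunc m a) * c⁻¹)) :
    ∃ c', ∀ a, τ (trunc m a) = c' * σ (trunc m a) * c'⁻¹ := by
  have hpp : p.Prime := Fact.out
  obtain ⟨n, hn⟩ := IsPGroup.iff_card.1 hp
  let g : A r →* G := (MulAut.conj c).toMonoidHom.comp σ
  have hg : ∀ a, g a = c * σ a * c⁻¹ := fun _ => rfl
  obtain ⟨d, hd, hd'⟩ := sz f.ker (fun j => τ (e j)) (fun j => g (e j)) r m (fun j _ => hr j)
    (by
      intro j hj
      rw [hn]
      apply Nat.Coprime.pow_right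
      exact (Nat.coprime_primes (hr j) hpp).2 (hm j hj))
    (by intro i _ j _; rw [← map_mul, ← map_mul, mul_comm])
    (by intro i _ j _; rw [← map_mul, ← map_mul, mul_comm])
    (by intro j _; rw [← map_pow, e_pow, map_one])
    (by intro j _; rw [← map_pow, e_pow, map_one])
    (by
      intro j hj
      rw [MonoidHom.mem_ker, map_mul, map_inv, mul_inv_eq_one, hg]
      have h1 := hc (e j)
      rw [trunc_e_lt hj] at h1
      exact h1)
  refine ⟨d * c, ?_⟩
  intro a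
  let g' : A r →* G := (MulAut.conj (d * c)).toMonoidHom.comp σ
  have h1 : τ (trunc m a) = g' (trunc m a) := by
    apply hom_ext_e hr
    intro j hj
    have h2 : τ (e j) * d = d * (c * σ (e j) * c⁻¹) := hd' j hj
    change τ (e j) = (d * c) * σ (e j) * (d * c)⁻¹
    rw [← mul_inv_eq_iff_eq_mul.2 h2.symm]
    group
  exact h1

structure Stage (r : ℕ → ℕ) (k n : ℕ) where
  H : Type
  grp : Group H
  fin : Finite H
  solv : Group.IsSolvable H
  χ : H →* A r
  σ : A r →* H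
  χσ : ∀ a, χ (σ a) = trunc n a
  χt : ∀ h, trunc n (χ h) = χ h
  σt : ∀ a, σ (trunc n a) = σ a
  card : ∀ s : ℕ, s.Prime → s ∣ Nat.card H → s = 2 ∨ ∃ j, j < n ∧ s = r j
  S4 : ∀ j, j < n → ∀ y w : H, χ y = 1 → (orderOf y = 2 ∨ ∃ l, l < j ∧ orderOf y = r l) →
    w ^ r j = 1 → χ w j ≠ 1 → k < Nat.card (Subgroup.closure ({w, y} : Set H))
  S5 : ∀ m, m < n → ∀ τ : A r →* H, (∀ a, χ (τ a) = trunc (m + 1) a) →
    ∃ c, ∀ a, τ (trunc m a) = c * σ (trunc m a) * c⁻¹
  inv : ∃ x : H, χ x = 1 ∧ orderOf x = 2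
  two : ∀ (y : H) (m : ℕ), y ^ (2 ^ m) = 1 → y ^ 2 = 1

attribute [instance] Stage.grp Stage.fin

theorem stage_zero (r : ℕ → ℕ) (k : ℕ) : Nonempty (Stage r k 0) := by
  have h0 : ∀ a : A r, trunc 0 a = 1 := by
    intro a
    funext j
    rw [trunc_apply_ge _ (Nat.zero_le j)]
    rfl
  have hcard : Nat.card (Multiplicative (ZMod 2)) = 2 := by
    rw [Nat.card_congr Multiplicative.toAdd, Nat.card_zmod]
  refine ⟨⟨Multiplicative (ZMod 2), inferInstance, inferInstanceAs (Finite (ZMod 2)),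
    inferInstance, 1, 1, ?_, ?_, ?_, ?_, ?_, ?_, ?_, ?_⟩⟩
  · intro a
    rw [h0]
    rfl
  · intro h
    rw [h0]
    rfl
  · intro a
    rfl
  · intro s hs hd
    rw [hcard] at hd
    exact Or.inl ((Nat.prime_dvd_prime_iff_eq hs Nat.prime_two).1 hd)
  · intro j hj
    omega
  · intro m hm
    omega
  · refine ⟨Multiplicative.ofAdd 1, rfl, ?_⟩
    apply orderOf_eq_prime (zmod_pow_card _)
    intro h
    have h1 : (1 : ZMod 2) = 0 := h
    exact one_ne_zero h1
  · intro y m _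
    exact zmod_pow_card y


namespace Stage

variable {r : ℕ → ℕ} {k n : ℕ} (T : Stage r k n)

abbrev Om : Type := T.H ⧸ T.σ.range

noncomputable instance : Fintype T.Om := Fintype.ofFinite _
noncomputable instance : DecidableEq T.Om := Classical.decEq _

def ω0 : T.Om := ((1 : T.H) : T.H ⧸ T.σ.range)

theorem smul_mk (y g : T.H) : y • ((g : T.H ⧸ T.σ.range) : T.Om) = ((y * g : T.H) : T.H ⧸ T.σ.range) :=
  rfl

theorem σ_ω0 (a : A r) : T.σ a • T.ω0 = T.ω0 := by
  unfold ω0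
  rw [smul_mk, QuotientGroup.eq]
  exact ⟨a⁻¹, by rw [map_inv]; group⟩

theorem fix_iff (y g : T.H) (h : y • ((g : T.H ⧸ T.σ.range) : T.Om) = ((g : T.H ⧸ T.σ.range) : T.Om)) :
    ∃ b, g⁻¹ * y * g = T.σ b := by
  rw [smul_mk, QuotientGroup.eq] at h
  obtain ⟨b, hb⟩ := h
  refine ⟨b⁻¹, ?_⟩
  rw [map_inv, hb]
  group

theorem free (y : T.H) (hy : T.χ y = 1) (hy1 : y ≠ 1) (ω : T.Om) : y • ω ≠ ω := by
  obtain ⟨g, rfl⟩ := QuotientGroup.mk_surjective ω
  intro h
  obtain ⟨b, hb⟩ := T.fix_iff y g h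
  have h1 : T.χ (T.σ b) = 1 := by
    rw [← hb, map_mul, map_mul, hy, mul_one, map_inv, inv_mul_cancel]
  rw [T.χσ] at h1
  have h2 : T.σ b = 1 := by rw [← T.σt, h1, map_one]
  rw [h2] at hb
  apply hy1
  have h3 : y = g * (g⁻¹ * y * g) * g⁻¹ := by group
  rw [h3, hb]
  group

theorem χ_n (y : T.H) {j : ℕ} (hj : n ≤ j) : T.χ y j = 1 := by
  rw [← T.χt, trunc_apply_ge _ hj]

section

variable [hp : Fact (r n).Prime] [NeZero (r n)]

abbrev X : Type := Ext T.H T.Om (r n) k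

noncomputable def χ' : T.X →* A r :=
  (T.χ.comp Ext.rt) * ((MonoidHom.mulSingle (fun j => Multiplicative (ZMod (r j))) n).comp Ext.aug)

theorem χ'_apply (x : T.X) : T.χ' x = T.χ x.h * (Pi.mulSingle n (Ext.aug x) : A r) := rfl

theorem χ'_ne (x : T.X) {j : ℕ} (hj : j ≠ n) : T.χ' x j = T.χ x.h j := by
  rw [χ'_apply, Pi.mul_apply, Pi.mulSingle_eq_of_ne hj, mul_one]

theorem χ'_eq (x : T.X) : T.χ' x n = Ext.aug x := by
  rw [χ'_apply, Pi.mul_apply, T.χ_n _ le_rfl, one_mul, Pi.mulSingle_eq_same]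

noncomputable def σ' : A r →* T.X :=
  MonoidHom.mk' (fun a => Ext.gen T.ω0 (a n) * Ext.inr (T.σ a)) (by
    intro a b
    rw [Pi.mul_apply, map_mul, map_mul, map_mul]
    have h1 := Ext.gen_comm (k := k) T.ω0 (b n) (T.σ a) (T.σ_ω0 a)
    rw [mul_assoc, mul_assoc, ← mul_assoc _ (Ext.inr (T.σ a)), ← h1, mul_assoc])

theorem σ'_apply (a : A r) : T.σ' a = Ext.gen T.ω0 (a n) * Ext.inr (T.σ a) := rfl

theorem σ'_h (a : A r) : (T.σ' a).h = T.σ a := by
  rw [σ'_apply, Ext.mul_h, Ext.gen_h, Ext.inr_h, one_mul]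

theorem χσ' (a : A r) : T.χ' (T.σ' a) = trunc (n + 1) a := by
  rw [χ'_apply, σ'_h, T.χσ, trunc_succ, σ'_apply, map_mul, Ext.aug_gen]
  have h1 : Ext.aug (Ext.inr (T.σ a) : T.X) = 1 := by
    rw [Ext.aug_apply]
    simp [Ext.inr_a]
  rw [h1, mul_one]

theorem χt' (x : T.X) : trunc (n + 1) (T.χ' x) = T.χ' x := by
  rw [eq_trunc_iff]
  intro j hj
  rw [T.χ'_ne x (by omega), T.χ_n _ (by omega)]

theorem σt' (a : A r) : T.σ' (trunc (n + 1) a) = T.σ' a := by
  rw [σ'_apply, σ'_apply, trunc_apply_lt _ (Nat.lt_succ_self n)]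
  congr 2
  rw [← T.σt, trunc_trunc_le (Nat.le_succ n), T.σt]

theorem card_ker : ∃ m, Nat.card (Ext.rt : T.X →* T.H).ker = r n ^ m :=
  IsPGroup.iff_card.1 Ext.ker_pgroup

theorem card_X : ∃ m, Nat.card T.X = r n ^ m * Nat.card T.H := by
  obtain ⟨m, hm⟩ := T.card_ker
  refine ⟨m, ?_⟩
  have h1 : Function.Surjective (Ext.rt : T.X →* T.H) := fun h => ⟨Ext.inr h, rfl⟩
  have h2 := Subgroup.card_eq_card_quotient_mul_card_subgroup (Ext.rt : T.X →* T.H).ker
  rw [h2, hm, Nat.card_congr (QuotientGroup.quotientKerEquivOfSurjective _ h1).toEquiv, mul_comm]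

theorem coprime_two (h2 : ∀ j, r j ≠ 2) : Nat.Coprime 2 (r n) :=
  (Nat.coprime_primes Nat.prime_two hp.out).2 (h2 n).symm

theorem coprime_card (hr : ∀ j, (r j).Prime) (hinj : Function.Injective r)
    (h2 : ∀ j, r j ≠ 2) : Nat.Coprime (r n) (Nat.card T.H) := by
  rw [hp.out.coprime_iff_not_dvd]
  intro h
  rcases T.card _ hp.out h with h3 | ⟨j, hj, h3⟩
  · exact h2 n h3
  · have := hinj h3
    omega

theorem h_eq_one_of_pow (hr : ∀ j, (r j).Prime) (hinj : Function.Injective r)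
    (h2 : ∀ j, r j ≠ 2) (w : T.X) (hw : w ^ r n = 1) : w.h = 1 := by
  have h3 : w.h ^ r n = 1 := by
    have h4 : Ext.rt (w ^ r n) = 1 := by rw [hw, map_one]
    rw [map_pow] at h4
    exact h4
  have h5 : orderOf w.h ∣ Nat.gcd (r n) (Nat.card T.H) :=
    Nat.dvd_gcd (orderOf_dvd_of_pow_eq_one h3) (orderOf_dvd_natCard _)
  rw [T.coprime_card hr hinj h2] at h5
  exact orderOf_eq_one_iff.1 (Nat.eq_one_of_dvd_one h5)

theorem order_h (hr : ∀ j, (r j).Prime) (hinj : Function.Injective r)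
    (h2 : ∀ j, r j ≠ 2) (y : T.X) {s : ℕ} (hs : s.Prime) (hsn : s ≠ r n) (hy : orderOf y = s) :
    orderOf y.h = s := by
  have h3 : y.h ^ s = 1 := by
    have h4 : Ext.rt (y ^ s) = 1 := by rw [← hy, pow_orderOf_eq_one, map_one]
    rw [map_pow] at h4
    exact h4
  apply orderOf_eq_prime (hp := ⟨hs⟩) h3
  intro h4
  have h5 : y = 1 := by
    apply eq_one_of_pgroup (Ext.rt : T.X →* T.H) Ext.ker_pgroup (s := s)
    · rw [← hy, pow_orderOf_eq_one]
    · exact (Nat.coprime_primes hs hp.out).2 hsn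
    · exact h4
  rw [h5, orderOf_one] at hy
  exact hs.one_lt.ne hy

theorem S4' (hr : ∀ j, (r j).Prime) (hinj : Function.Injective r)
    (h2 : ∀ j, r j ≠ 2) (hk : 1 ≤ k) : ∀ j, j < n + 1 → ∀ y w : T.X, T.χ' y = 1 →
    (orderOf y = 2 ∨ ∃ l, l < j ∧ orderOf y = r l) →
    w ^ r j = 1 → T.χ' w j ≠ 1 → k < Nat.card (Subgroup.closure ({w, y} : Set T.X)) := by
  intro j hj y w hy hord hw hwj
  have hyh : T.χ y.h = 1 := by
    funext i
    by_cases hi : i = n
    · rw [hi, T.χ_n _ le_rfl]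
      rfl
    · rw [← T.χ'_ne y hi, hy]
  obtain ⟨s, hs, hsn, hys⟩ : ∃ s : ℕ, s.Prime ∧ s ≠ r n ∧ orderOf y = s := by
    rcases hord with h | ⟨l, hl, h⟩
    · exact ⟨2, Nat.prime_two, (h2 n).symm, h⟩
    · exact ⟨r l, hr l, fun h' => by have := hinj h'; omega, h⟩
  have hyo := T.order_h hr hinj h2 y hs hsn hys
  by_cases hjn : j = n
  · subst hjn
    have hwh : w.h = 1 := T.h_eq_one_of_pow hr hinj h2 w hw
    rw [T.χ'_eq] at hwj
    obtain ⟨ω, hω1, hω2⟩ := Ext.unique_support hk hwh hw hwj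
    have hyne : y.h ≠ 1 := by
      intro h
      rw [h, orderOf_one] at hyo
      exact hs.one_lt.ne hyo
    have h3 := Ext.big hwh hω1 hω2 (T.free y.h hyh hyne ω)
    have h4 : k + 1 < r j ^ (k + 1) := Nat.lt_pow_self hp.out.one_lt
    exact lt_of_lt_of_le (lt_trans (Nat.lt_succ_self k) h4) h3
  · have h3 := T.S4 j (by omega) y.h w.h hyh (by
      rw [hyo, ← hys]
      exact hord) (by
      have h4 : Ext.rt (w ^ r j) = 1 := by rw [hw, map_one]
      rw [map_pow] at h4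
      exact h4) (by rw [← T.χ'_ne w hjn]; exact hwj)
    exact lt_of_lt_of_le h3 (card_closure_map_le (Ext.rt : T.X →* T.H) w y)

theorem S5' (hr : ∀ j, (r j).Prime) (hinj : Function.Injective r)
    (h2 : ∀ j, r j ≠ 2) (hk : 1 ≤ k) : ∀ m, m < n + 1 → ∀ τ : A r →* T.X,
    (∀ a, T.χ' (τ a) = trunc (m + 1) a) →
    ∃ c, ∀ a, τ (trunc m a) = c * T.σ' (trunc m a) * c⁻¹ := by
  intro m hm τ hτ
  have h1 : ∃ c : T.H, ∀ a, (τ (trunc m a)).h = c * T.σ (trunc m a) * c⁻¹ := by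
    by_cases hmn : m < n
    · have h3 := T.S5 m hmn (Ext.rt.comp τ) (by
        intro a
        funext j
        change T.χ (τ a).h j = _
        by_cases hj : j = n
        · rw [hj, T.χ_n _ le_rfl, trunc_apply_ge _ (by omega)]
        · rw [← T.χ'_ne _ hj, hτ])
      exact h3
    · have hmn' : m = n := by omega
      subst hmn'
      set w := τ (e m) with hw
      have hw1 : w ^ r m = 1 := by rw [hw, ← map_pow, e_pow, map_one]
      have hwh : w.h = 1 := T.h_eq_one_of_pow hr hinj h2 w hw1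
      have hwa : Ext.aug w ≠ 1 := by
        rw [← T.χ'_eq, hw, hτ, trunc_apply_lt _ (Nat.lt_succ_self m), e_self]
        intro h4
        have h5 : (1 : ZMod (r m)) = 0 := h4
        have h6 : Fact (1 < r m) := ⟨(hr m).one_lt⟩
        exact one_ne_zero h5
      obtain ⟨ω, hω1, hω2⟩ := Ext.unique_support hk hwh hw1 hwa
      obtain ⟨g, rfl⟩ := QuotientGroup.mk_surjective ω
      refine ⟨g, ?_⟩
      intro a
      have h3 : (τ (trunc m a)).h • ((g : T.H ⧸ T.σ.range) : T.Om) =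
          ((g : T.H ⧸ T.σ.range) : T.Om) := by
        apply Ext.commute_fix hwh hω1 hω2
        rw [hw, ← map_mul, ← map_mul, mul_comm]
      obtain ⟨b, hb⟩ := T.fix_iff _ _ h3
      have h4 : T.χ (T.σ b) = trunc m a := by
        rw [← hb, map_mul, map_mul, map_inv]
        have h5 : T.χ (τ (trunc m a)).h = trunc m a := by
          funext j
          by_cases hj : j = m
          · rw [hj, T.χ_n _ le_rfl, trunc_apply_ge _ le_rfl]
          · rw [← T.χ'_ne _ hj, hτ, trunc_trunc_ge (Nat.le_succ m)]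
        rw [h5, mul_comm (T.χ g)⁻¹, inv_mul_cancel_right]
      rw [T.χσ] at h4
      have h5 : T.σ b = T.σ (trunc m a) := by rw [← T.σt b, h4]
      rw [← h5, ← hb]
      group
  obtain ⟨c, hc⟩ := h1
  apply lift_conj hr (Ext.rt : T.X →* T.H) Ext.ker_pgroup τ T.σ' m
    (fun j hj h => by have := hinj h; omega) (Ext.inr c)
  intro a
  rw [map_mul, map_mul, map_inv]
  change (τ (trunc m a)).h = c * (T.σ' (trunc m a)).h * c⁻¹
  rw [T.σ'_h]
  exact hc a

theorem two' (h2 : ∀ j, r j ≠ 2) (y : T.X) (m : ℕ) (hy : y ^ (2 ^ m) = 1) : y ^ 2 = 1 := by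
  apply eq_one_of_pgroup (Ext.rt : T.X →* T.H) Ext.ker_pgroup (s := 2 ^ m)
  · rw [← pow_mul, mul_comm, pow_mul, hy, one_pow]
  · exact Nat.Coprime.pow_left m (coprime_two h2)
  · rw [map_pow]
    apply T.two _ m
    rw [← map_pow, hy, map_one]

theorem solv' : Group.IsSolvable T.X := by
  have h1 : Group.IsNilpotent (Ext.rt : T.X →* T.H).ker := Ext.ker_pgroup.isNilpotent
  have h2 : Group.IsSolvable (Ext.rt : T.X →* T.H).ker := inferInstance
  have h3 := T.solv
  exact Group.isSolvable_of_ker_le_range (Ext.rt : T.X →* T.H).ker.subtype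
    (Ext.rt : T.X →* T.H) (by rw [Subgroup.range_subtype])

end

end Stage

theorem stage_succ {r : ℕ → ℕ} (hr : ∀ j, (r j).Prime) (hinj : Function.Injective r)
    (h2 : ∀ j, r j ≠ 2) {k : ℕ} (hk : 1 ≤ k) {n : ℕ} (T : Stage r k n) :
    Nonempty (Stage r k (n + 1)) := by
  have hp : Fact (r n).Prime := ⟨hr n⟩
  have hp0 : NeZero (r n) := ⟨(hr n).pos.ne'⟩
  refine ⟨⟨T.X, inferInstance, inferInstance, T.solv', T.χ', T.σ', T.χσ', T.χt', T.σt', ?_,
    T.S4' hr hinj h2 hk, T.S5' hr hinj h2 hk, ?_, T.two' h2⟩⟩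
  · intro s hs hd
    obtain ⟨m, hm⟩ := T.card_X
    rw [hm] at hd
    rcases (hs.dvd_mul).1 hd with h | h
    · have h3 := hs.dvd_of_dvd_pow h
      rw [Nat.prime_dvd_prime_iff_eq hs (hr n)] at h3
      exact Or.inr ⟨n, Nat.lt_succ_self n, h3⟩
    · rcases T.card s hs h with h3 | ⟨j, hj, h3⟩
      · exact Or.inl h3
      · exact Or.inr ⟨j, by omega, h3⟩
  · obtain ⟨x, hx1, hx2⟩ := T.inv
    refine ⟨Ext.inr x, ?_, ?_⟩
    · rw [T.χ'_apply, Ext.inr_h, hx1, one_mul]
      have h1 : Ext.aug (Ext.inr x : T.X) = 1 := by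
        rw [Ext.aug_apply]
        simp [Ext.inr_a]
      rw [h1, Pi.mulSingle_one]
    · rw [← hx2]
      apply orderOf_injective
      intro a b hab
      exact congrArg Ext.h hab

theorem exists_stage {r : ℕ → ℕ} (hr : ∀ j, (r j).Prime) (hinj : Function.Injective r)
    (h2 : ∀ j, r j ≠ 2) {k : ℕ} (hk : 1 ≤ k) (n : ℕ) : Nonempty (Stage r k n) := by
  induction n with
  | zero => exact stage_zero r k
  | succ n ih =>
    obtain ⟨T⟩ := ih
    exact stage_succ hr hinj h2 hk T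

end Pool.Agent.Helper407.Cat
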