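import Mathlib

set_option autoImplicit false

namespace Pool.Agent.Helper407.PL

section
variable {k : Type} [Field k] [IsAlgClosed k] {p : ℕ} [hp : Fact p.Prime] [CharP k p]

omit [IsAlgClosed k] in
theorem conj_aux {K V : Type} [Group K] [AddCommGroup V] [Module k V]
    (σ : K →* Module.End k V) {g h : K} {t : k} (ht : σ h * σ g = t • (σ g * σ h)) :
    σ h * σ g * σ h⁻¹ = t • σ g := by
  rw [ht, smul_mul_assoc, mul_assoc, ← map_mul, mul_inv_cancel, map_one, mul_one]

/-- the average of a group element over conjugation: scalar elements are fixed, others have average zero -/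
theorem alg_avg {K V : Type} [Group K] [Finite K] [AddCommGroup V] [Module k V]
    (σ : K →* Module.End k V) (X : Subgroup K) [Fintype X]
    (h2 : ∀ g ∈ X, ∀ h ∈ X, ∃ t : k, σ h * σ g = t • (σ g * σ h)) (g : K) (hg : g ∈ X)
    (h1 : ∃ h ∈ X, ∃ t : k, t ≠ 1 ∧ σ h * σ g = t • (σ g * σ h)) :
    ∑ x : X, σ x * σ g * σ (x : K)⁻¹ = 0 := by
  have hx : ∀ x : X, ∃ t : k, σ x * σ g * σ (x : K)⁻¹ = t • σ g := by
    intro x
    obtain ⟨t, ht⟩ := h2 g hg x x.2
    exact ⟨t, conj_aux σ ht⟩
  choose t ht using hx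
  have hS : ∑ x : X, σ x * σ g * σ (x : K)⁻¹ = (∑ x : X, t x) • σ g := by
    rw [Finset.sum_smul]
    exact Finset.sum_congr rfl (fun x _ => ht x)
  obtain ⟨h, hh, t0, ht0, e0⟩ := h1
  have hconj : σ h * (∑ x : X, σ x * σ g * σ (x : K)⁻¹) * σ h⁻¹ =
      ∑ x : X, σ x * σ g * σ (x : K)⁻¹ := by
    rw [Finset.mul_sum, Finset.sum_mul]
    apply Fintype.sum_equiv (Equiv.mulLeft (⟨h, hh⟩ : X))
    intro x
    simp only [Equiv.coe_mulLeft, Subgroup.coe_mul, map_mul, mul_inv_rev, mul_assoc]
  rw [hS] at hconj ⊢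
  rw [mul_smul_comm, smul_mul_assoc, conj_aux σ e0, smul_smul] at hconj
  have h3 : ((∑ x : X, t x) * (t0 - 1)) • σ g = 0 := by
    rw [mul_sub, mul_one, sub_smul, hconj, sub_self]
  have h4 : t0 - 1 ≠ 0 := sub_ne_zero.2 ht0
  have h5 : (∑ x : X, t x) • σ g = (t0 - 1)⁻¹ • (((∑ x : X, t x) * (t0 - 1)) • σ g) := by
    rw [smul_smul]
    congr 1
    field_simp
  rw [h5, h3, smul_zero]

/-- an element of the span of X vanishing on a nonzero X-stable subspace is zero -/
theorem alg_LI {K V : Type} [Group K] [Finite K] [AddCommGroup V] [Module k V]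
    (σ : K →* Module.End k V) (X : Subgroup K) (hX : (Nat.card X).Coprime p)
    (h1 : ∀ g ∈ X, (∃ a : k, σ g = a • 1) ∨
      ∃ h ∈ X, ∃ t : k, t ≠ 1 ∧ σ h * σ g = t • (σ g * σ h))
    (h2 : ∀ g ∈ X, ∀ h ∈ X, ∃ t : k, σ h * σ g = t • (σ g * σ h))
    (a : Module.End k V) (ha : a ∈ Submodule.span k ((fun g => σ g) '' (X : Set K)))
    (U : Submodule k V) (hU : U ≠ ⊥) (hUi : ∀ g ∈ X, ∀ u ∈ U, σ g u ∈ U)
    (hz : ∀ u ∈ U, a u = 0) : a = 0 := by
  classical
  haveI : Fintype X := Fintype.ofFinite X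
  obtain ⟨u0, hu0, hu0'⟩ := (Submodule.ne_bot_iff U).1 hU
  have h10 : (1 : Module.End k V) ≠ 0 := by
    intro h
    apply hu0'
    have := LinearMap.congr_fun h u0
    simpa using this
  -- the subgroup of scalar elements
  let Z : Subgroup X :=
    { carrier := {z | ∃ c : k, σ (z : K) = c • 1}
      one_mem' := ⟨1, by simp⟩
      mul_mem' := by
        rintro x y ⟨c, hc⟩ ⟨d, hd⟩
        refine ⟨c * d, ?_⟩
        rw [Subgroup.coe_mul, map_mul, hc, hd, smul_mul_assoc, one_mul, smul_smul]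
      inv_mem' := by
        rintro x ⟨c, hc⟩
        have e1 : σ (x : K) * σ ((x : K)⁻¹) = 1 := by rw [← map_mul, mul_inv_cancel, map_one]
        rw [hc, smul_mul_assoc, one_mul] at e1
        have hc0 : c ≠ 0 := by
          rintro rfl
          rw [zero_smul] at e1
          exact h10 e1.symm
        refine ⟨c⁻¹, ?_⟩
        rw [Subgroup.coe_inv, ← e1, smul_smul, inv_mul_cancel₀ hc0, one_smul] }
  let Av : Module.End k V → Module.End k V := fun b => ∑ x : X, σ x * b * σ (x : K)⁻¹
  have Av_add : ∀ b c, Av (b + c) = Av b + Av c := by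
    intro b c
    simp only [Av, mul_add, add_mul, Finset.sum_add_distrib]
  have Av_smul : ∀ (r : k) b, Av (r • b) = r • Av b := by
    intro r b
    simp only [Av, mul_smul_comm, smul_mul_assoc, Finset.smul_sum]
  have Av_zero : Av 0 = 0 := by simp [Av]
  have Av_Z : ∀ g : X, g ∈ Z → Av (σ (g : K)) = (Nat.card X : k) • σ (g : K) := by
    rintro g ⟨c, hc⟩
    have : ∀ x : X, σ x * σ (g : K) * σ (x : K)⁻¹ = σ (g : K) := by
      intro x
      rw [hc, mul_smul_comm, mul_one, smul_mul_assoc, ← map_mul, mul_inv_cancel, map_one]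
    simp only [Av, this]
    rw [Finset.sum_const, Finset.card_univ, ← Nat.card_eq_fintype_card, Nat.cast_smul_eq_nsmul]
  have Av_nZ : ∀ g : X, g ∉ Z → Av (σ (g : K)) = 0 := by
    intro g hg
    rcases h1 g g.2 with h | h
    · exact absurd h hg
    · exact alg_avg σ X h2 g g.2 h
  have Av_scalar : ∀ b ∈ Submodule.span k ((fun g => σ g) '' (X : Set K)), ∃ c : k, Av b = c • 1 := by
    intro b hb
    induction hb using Submodule.span_induction with
    | mem b hb =>
      obtain ⟨g, hg, rfl⟩ := hb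
      by_cases hgZ : (⟨g, hg⟩ : X) ∈ Z
      · obtain ⟨c, hc⟩ := id hgZ
        refine ⟨(Nat.card X : k) * c, ?_⟩
        have := Av_Z ⟨g, hg⟩ hgZ
        simp only at this hc ⊢
        rw [this, hc, smul_smul]
      · exact ⟨0, by rw [zero_smul]; exact Av_nZ ⟨g, hg⟩ hgZ⟩
    | zero => exact ⟨0, by rw [Av_zero, zero_smul]⟩
    | add b c _ _ hb hc =>
      obtain ⟨r, hr⟩ := hb
      obtain ⟨s, hs⟩ := hc
      exact ⟨r + s, by rw [Av_add, hr, hs, add_smul]⟩
    | smul r b _ hb =>
      obtain ⟨s, hs⟩ := hb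
      exact ⟨r * s, by rw [Av_smul, hs, smul_smul]⟩
  have mul_mem : ∀ b ∈ Submodule.span k ((fun g => σ g) '' (X : Set K)), ∀ g : X,
      b * σ (g : K)⁻¹ ∈ Submodule.span k ((fun g => σ g) '' (X : Set K)) := by
    intro b hb g
    induction hb using Submodule.span_induction with
    | mem b hb =>
      obtain ⟨h, hh, rfl⟩ := hb
      apply Submodule.subset_span
      exact ⟨h * (g : K)⁻¹, X.mul_mem hh (X.inv_mem g.2), by simp⟩
    | zero => rw [zero_mul]; exact Submodule.zero_mem _
    | add b c _ _ hb hc => rw [add_mul]; exact Submodule.add_mem _ hb hc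
    | smul r b _ hb => rw [smul_mul_assoc]; exact Submodule.smul_mem _ _ hb
  have Av0 : ∀ g : X, Av (a * σ (g : K)⁻¹) = 0 := by
    intro g
    obtain ⟨c, hc⟩ := Av_scalar _ (mul_mem a ha g)
    have e1 : Av (a * σ (g : K)⁻¹) u0 = 0 := by
      simp only [Av, LinearMap.sum_apply, Module.End.mul_apply]
      apply Finset.sum_eq_zero
      intro x _
      rw [hz _ (hUi _ (X.inv_mem g.2) _ (hUi _ (X.inv_mem x.2) _ hu0)), map_zero]
    rw [hc] at e1 ⊢
    simp only [LinearMap.smul_apply, Module.End.one_apply] at e1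
    rcases smul_eq_zero.1 e1 with h | h
    · rw [h, zero_smul]
    · exact absurd h hu0'
  have key : ∀ b ∈ Submodule.span k ((fun g => σ g) '' (X : Set K)),
      ∑ g : X, Av (b * σ (g : K)⁻¹) * σ (g : K) = ((Nat.card X : k) * (Nat.card Z : k)) • b := by
    intro b hb
    induction hb using Submodule.span_induction with
    | mem b hb =>
      obtain ⟨h, hh, rfl⟩ := hb
      simp only
      have e1 : ∑ g : X, Av (σ h * σ (g : K)⁻¹) * σ (g : K) =
          ∑ g : X, (if g ∈ Z then (Nat.card X : k) • σ h else 0) := by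
        apply Fintype.sum_equiv ((Equiv.inv X).trans (Equiv.mulLeft (⟨h, hh⟩ : X)))
        intro g
        have e2 : σ h * σ (g : K)⁻¹ = σ (((⟨h, hh⟩ : X) * g⁻¹ : X) : K) := by
          rw [Subgroup.coe_mul, Subgroup.coe_inv, map_mul]
        simp only [Equiv.trans_apply, Equiv.inv_apply, Equiv.coe_mulLeft]
        rw [e2]
        split_ifs with hZ
        · rw [Av_Z _ hZ, smul_mul_assoc, ← map_mul]
          congr 2
          rw [Subgroup.coe_mul, Subgroup.coe_inv, inv_mul_cancel_right]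
        · rw [Av_nZ _ hZ, zero_mul]
      rw [e1, ← Finset.sum_filter, Finset.sum_const]
      have e3 : (Finset.univ.filter (fun g : X => g ∈ Z)).card = Nat.card Z := by
        rw [Nat.card_eq_fintype_card, Fintype.card_subtype]
      rw [e3, ← Nat.cast_smul_eq_nsmul k, smul_smul, mul_comm]
    | zero => simp [Av_zero]
    | add b c _ _ hb hc =>
      rw [smul_add, ← hb, ← hc, ← Finset.sum_add_distrib]
      apply Finset.sum_congr rfl
      intro g _
      rw [add_mul, Av_add, add_mul]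
    | smul r b _ hb =>
      rw [smul_comm, ← hb, Finset.smul_sum]
      apply Finset.sum_congr rfl
      intro g _
      rw [smul_mul_assoc, Av_smul, smul_mul_assoc]
  have hfin := key a ha
  simp only [Av0, zero_mul, Finset.sum_const_zero] at hfin
  have hne : ∀ n : ℕ, n ∣ Nat.card X → (n : k) ≠ 0 := by
    intro n hn h0
    rw [CharP.cast_eq_zero_iff k p] at h0
    have h3 : p ∣ Nat.card X := h0.trans hn
    have h4 : p ∣ 1 := by
      have := Nat.dvd_gcd h3 (dvd_refl p)
      rwa [Nat.Coprime.gcd_eq_one hX] at this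
    exact hp.out.one_lt.ne' (Nat.dvd_one.1 h4)
  have h3 : (Nat.card X : k) * (Nat.card Z : k) ≠ 0 :=
    mul_ne_zero (hne _ dvd_rfl) (hne _ (Subgroup.card_subgroup_dvd_card Z))
  rcases smul_eq_zero.1 hfin.symm with h | h
  · exact absurd h h3
  · exact h

end

end Pool.Agent.Helper407.PL
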