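import Pool.Agent.Helper407.PLMod2
import Pool.Agent.Helper407.PLAlg

set_option autoImplicit false

namespace Pool.Agent.Helper407.PL

section
variable {k : Type} [Field k] [IsAlgClosed k] {p : ℕ} [hp : Fact p.Prime] [CharP k p]

/-- the element of the span of `X` -/
noncomputable def aop {K S : Type} [Group K] [AddCommGroup S] [Module k S]
    (σ : K →* Module.End k S) (X : Subgroup K) [Fintype X] (x : S) (τ : S →ₗ[k] k) :
    Module.End k S := ∑ g : X, τ (σ (g : K)⁻¹ x) • σ g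

/-- the averaged rank one operator -/
noncomputable def tpp {K S : Type} [Group K] [AddCommGroup S] [Module k S]
    (σ : K →* Module.End k S) (X : Subgroup K) [Fintype X] (v : S) (τ : S →ₗ[k] k) :
    Module.End k S := ∑ g : X, (τ ∘ₗ σ (g : K)⁻¹).smulRight (σ g v)

section
variable {K S : Type} [Group K] [AddCommGroup S] [Module k S]
    (σ : K →* Module.End k S) (X : Subgroup K) [Fintype X]

omit [IsAlgClosed k] in
theorem tpp_apply (v : S) (τ : S →ₗ[k] k) (x : S) :
    tpp σ X v τ x = ∑ g : X, τ (σ (g : K)⁻¹ x) • σ g v := by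
  rw [tpp, LinearMap.sum_apply]; rfl

omit [IsAlgClosed k] in
theorem aop_apply (x : S) (τ : S →ₗ[k] k) (v : S) : aop σ X x τ v = tpp σ X v τ x := by
  rw [tpp_apply, aop, LinearMap.sum_apply]; rfl

omit [IsAlgClosed k] in
theorem aop_mem (x : S) (τ : S →ₗ[k] k) :
    aop σ X x τ ∈ Submodule.span k ((fun g => σ g) '' (X : Set K)) := by
  refine Submodule.sum_mem _ fun g _ => Submodule.smul_mem _ _ ?_
  exact Submodule.subset_span ⟨g, g.2, rfl⟩

omit [IsAlgClosed k] in
theorem tpp_comm (v : S) (τ : S →ₗ[k] k) (h : K) (hh : h ∈ X) :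
    tpp σ X v τ * σ h = σ h * tpp σ X v τ := by
  ext x
  rw [Module.End.mul_apply, Module.End.mul_apply, tpp_apply, tpp_apply, map_sum]
  refine (Fintype.sum_equiv (Equiv.mulLeft (⟨h, hh⟩ : X)) _ _ (fun g => ?_)).symm
  simp only [Equiv.coe_mulLeft, map_smul]
  rw [Subgroup.coe_mul, mul_inv_rev]
  simp only [map_mul, Module.End.mul_apply]
  have e : σ h⁻¹ (σ h x) = x := by
    rw [← Module.End.mul_apply, ← map_mul, inv_mul_cancel, map_one, Module.End.one_apply]
  rw [e]

end

/-- the averaging argument -/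
theorem aop_zero {K S : Type} [Group K] [Finite K] [AddCommGroup S] [Module k S] [Nontrivial S]
    (σ : K →* Module.End k S) (X : Subgroup K) [Fintype X] (hX : (Nat.card X).Coprime p)
    (h1 : ∀ g ∈ X, (∃ a : k, σ g = a • 1) ∨
      ∃ h ∈ X, ∃ t : k, t ≠ 1 ∧ σ h * σ g = t • (σ g * σ h))
    (h2 : ∀ g ∈ X, ∀ h ∈ X, ∃ t : k, σ h * σ g = t • (σ g * σ h))
    (x : S) (τ : S →ₗ[k] k) (h : aop σ X x τ = 0) : τ x = 0 := by
  classical
  -- the scalar subgroup
  let Z : Subgroup K :=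
    { carrier := {g | g ∈ X ∧ ∃ a : k, σ g = a • 1}
      one_mem' := ⟨X.one_mem, 1, by simp⟩
      mul_mem' := by
        rintro g h ⟨hg, a, ha⟩ ⟨hh, b, hb⟩
        exact ⟨X.mul_mem hg hh, a * b, by rw [map_mul, ha, hb]; simp [smul_smul, mul_comm]⟩
      inv_mem' := by
        rintro g ⟨hg, a, ha⟩
        refine ⟨X.inv_mem hg, a⁻¹, ?_⟩
        have h3 : σ g * σ g⁻¹ = 1 := by rw [← map_mul, mul_inv_cancel, map_one]
        rw [ha, smul_mul_assoc, one_mul] at h3
        have ha0 : a ≠ 0 := by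
          rintro rfl
          rw [zero_smul] at h3
          exact zero_ne_one h3
        rw [← h3, smul_smul, inv_mul_cancel₀ ha0, one_smul] }
  have hZX : Z ≤ X := fun g hg => hg.1
  have hcardX : (Nat.card X : k) ≠ 0 := by
    intro h
    rw [CharP.cast_eq_zero_iff k p] at h
    exact hp.out.one_lt.ne' (Nat.Coprime.eq_one_of_dvd (Nat.coprime_comm.1 hX) h)
  have hcardZ : (Nat.card Z : k) ≠ 0 := by
    intro h
    rw [CharP.cast_eq_zero_iff k p] at h
    have h3 := h.trans (Subgroup.card_dvd_of_le hZX)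
    exact hp.out.one_lt.ne' (Nat.Coprime.eq_one_of_dvd (Nat.coprime_comm.1 hX) h3)
  have hterm : ∀ g : X, τ (σ (g : K)⁻¹ x) • ∑ y : X, σ y * σ g * σ (y : K)⁻¹ =
      if (g : K) ∈ Z then ((Nat.card X : k) * τ x) • (1 : Module.End k S) else 0 := by
    intro g
    by_cases hg : (g : K) ∈ Z
    · rw [if_pos hg]
      obtain ⟨-, a, ha⟩ := hg
      have h3 : σ (g : K) * σ (g : K)⁻¹ = 1 := by rw [← map_mul, mul_inv_cancel, map_one]
      rw [ha, smul_mul_assoc, one_mul] at h3
      have h4 : ∀ y : X, σ (y : K) * σ (g : K) * σ (y : K)⁻¹ = a • (1 : Module.End k S) := by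
        intro y
        rw [ha, mul_smul_comm, mul_one, smul_mul_assoc, ← map_mul, mul_inv_cancel, map_one]
      rw [Finset.sum_congr rfl (fun y _ => h4 y), Finset.sum_const, Finset.card_univ,
        ← Nat.card_eq_fintype_card, ← Nat.cast_smul_eq_nsmul k, smul_smul, smul_smul]
      congr 1
      have h5 : a * τ (σ (g : K)⁻¹ x) = τ x := by
        rw [← smul_eq_mul, ← map_smul, ← LinearMap.smul_apply, h3]; rfl
      rw [← h5]; ring
    · rw [if_neg hg]
      have h3 : ¬ ∃ a : k, σ (g : K) = a • 1 := fun h => hg ⟨g.2, h⟩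
      rw [alg_avg σ X h2 g g.2 ((h1 g g.2).resolve_left h3), smul_zero]
  have hsum : ∑ g : X, τ (σ (g : K)⁻¹ x) • ∑ y : X, σ y * σ g * σ (y : K)⁻¹ = 0 := by
    have h3 : ∑ y : X, σ y * aop σ X x τ * σ (y : K)⁻¹ = 0 := by
      simp [h]
    rw [← h3]
    simp only [aop]
    simp_rw [Finset.mul_sum, Finset.sum_mul, Finset.smul_sum]
    rw [Finset.sum_comm]
    refine Finset.sum_congr rfl fun y _ => Finset.sum_congr rfl fun g _ => ?_
    rw [mul_smul_comm, smul_mul_assoc]
  simp_rw [hterm] at hsum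
  rw [← Finset.sum_filter, Finset.sum_const] at hsum
  have hcz : (Finset.univ.filter fun g : X => (g : K) ∈ Z).card = Nat.card Z := by
    rw [← Fintype.card_subtype, ← Nat.card_eq_fintype_card]
    refine Nat.card_congr ⟨fun g => ⟨g.1.1, g.2⟩, fun g => ⟨⟨g.1, hZX g.2⟩, g.2⟩, ?_, ?_⟩
    · intro g; rfl
    · intro g; rfl
  rw [hcz, ← Nat.cast_smul_eq_nsmul k, smul_smul] at hsum
  rcases smul_eq_zero.1 hsum with h3 | h3
  · rcases mul_eq_zero.1 h3 with h4 | h4
    · exact absurd h4 hcardZ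
    · exact (mul_eq_zero.1 h4).resolve_left hcardX
  · exact absurd h3 one_ne_zero

/-- conjugation -/
noncomputable def cnj {K S : Type} [Group K] [AddCommGroup S] [Module k S]
    (σ : K →* Module.End k S) : K →* Module.End k (Module.End k S) where
  toFun g := (LinearMap.mulLeft k (σ g)).comp (LinearMap.mulRight k (σ g⁻¹))
  map_one' := by
    ext T v
    simp
  map_mul' a b := by
    ext T v
    simp [mul_inv_rev, map_mul]

omit [IsAlgClosed k] in
theorem cnj_apply {K S : Type} [Group K] [AddCommGroup S] [Module k S]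
    (σ : K →* Module.End k S) (g : K) (T : Module.End k S) :
    cnj σ g T = σ g * (T * σ g⁻¹) := rfl

/-- Lemma S: the commutant of X on an irreducible (X,P)-module is k -/
theorem alg_comm {K S : Type} [Group K] [Finite K] [AddCommGroup S] [Module k S]
    [FiniteDimensional k S] [Nontrivial S]
    (σ : K →* Module.End k S) (X P : Subgroup K) (hX : (Nat.card X).Coprime p)
    (hP : IsPGroup p P) (hPX : ∀ g ∈ P, ∀ x ∈ X, g * x * g⁻¹ ∈ X)
    (h1 : ∀ g ∈ X, (∃ a : k, σ g = a • 1) ∨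
      ∃ h ∈ X, ∃ t : k, t ≠ 1 ∧ σ h * σ g = t • (σ g * σ h))
    (h2 : ∀ g ∈ X, ∀ h ∈ X, ∃ t : k, σ h * σ g = t • (σ g * σ h))
    (hirr : ∀ W : Submodule k S, (∀ g ∈ X, ∀ w ∈ W, σ g w ∈ W) → (∀ g ∈ P, ∀ w ∈ W, σ g w ∈ W) →
      W = ⊥ ∨ W = ⊤)
    (T : Module.End k S) (hT : ∀ g ∈ X, T * σ g = σ g * T) : ∃ a : k, T = a • 1 := by
  classical
  have : Fintype X := Fintype.ofFinite X
  have hinv : ∀ g : K, σ g * σ g⁻¹ = 1 := fun g => by rw [← map_mul, mul_inv_cancel, map_one]
  have hinv' : ∀ g : K, σ g⁻¹ * σ g = 1 := fun g => by rw [← map_mul, inv_mul_cancel, map_one]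
  -- an operator commuting with X and P is scalar
  have hscal : ∀ A : Module.End k S, (∀ g ∈ X, A * σ g = σ g * A) →
      (∀ g ∈ P, A * σ g = σ g * A) → ∃ a : k, A = a • 1 := by
    intro A hAX hAP
    obtain ⟨a, ha⟩ := Module.End.exists_eigenvalue A
    refine ⟨a, ?_⟩
    have hst : ∀ g : K, A * σ g = σ g * A → ∀ w ∈ A.eigenspace a, σ g w ∈ A.eigenspace a := by
      intro g hg w hw
      rw [Module.End.mem_eigenspace_iff] at hw ⊢
      rw [← Module.End.mul_apply, hg, Module.End.mul_apply, hw, map_smul]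
    rcases hirr (A.eigenspace a) (fun g hg => hst g (hAX g hg)) (fun g hg => hst g (hAP g hg))
      with h | h
    · exact absurd h ha
    · ext w
      have : w ∈ A.eigenspace a := by rw [h]; trivial
      rw [Module.End.mem_eigenspace_iff] at this
      rw [this]; rfl
  by_contra hcon
  let C0 : Submodule k (Module.End k S) :=
    { carrier := {A | ∀ g ∈ X, A * σ g = σ g * A}
      zero_mem' := fun g _ => by simp
      add_mem' := fun {A B} hA hB g hg => by rw [add_mul, mul_add, hA g hg, hB g hg]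
      smul_mem' := fun c A hA g hg => by rw [smul_mul_assoc, mul_smul_comm, hA g hg] }
  let A0 : Submodule k (Module.End k S) := Submodule.span k {1}
  have hC0P : ∀ g ∈ P, ∀ A ∈ C0, cnj σ g A ∈ C0 := by
    intro g hg A hA x hx
    have hx' : g⁻¹ * x * g ∈ X := by
      have := hPX g⁻¹ (P.inv_mem hg) x hx
      simpa using this
    have h3 := hA _ hx'
    rw [cnj_apply]
    have e1 : σ g⁻¹ * σ x = σ (g⁻¹ * x * g) * σ g⁻¹ := by
      rw [← map_mul, ← map_mul]; congr 1; group
    have e2 : σ g * σ (g⁻¹ * x * g) = σ x * σ g := by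
      rw [← map_mul, ← map_mul]; congr 1; group
    calc σ g * (A * σ g⁻¹) * σ x = σ g * (A * (σ g⁻¹ * σ x)) := by noncomm_ring
      _ = σ g * ((A * σ (g⁻¹ * x * g)) * σ g⁻¹) := by rw [e1]; noncomm_ring
      _ = (σ g * σ (g⁻¹ * x * g)) * (A * σ g⁻¹) := by rw [h3]; noncomm_ring
      _ = σ x * (σ g * (A * σ g⁻¹)) := by rw [e2]; noncomm_ring
  have hA0P : ∀ g ∈ P, ∀ A ∈ A0, cnj σ g A ∈ A0 := by
    intro g _ A hA
    obtain ⟨a, rfl⟩ := Submodule.mem_span_singleton.1 hA
    rw [cnj_apply, smul_mul_assoc, one_mul, mul_smul_comm, hinv]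
    exact Submodule.smul_mem _ _ (Submodule.mem_span_singleton_self _)
  have hne : ¬ C0 ≤ A0 := by
    intro h
    obtain ⟨a, ha⟩ := Submodule.mem_span_singleton.1 (h (show T ∈ C0 from hT))
    exact hcon ⟨a, ha.symm⟩
  obtain ⟨T, hTC, hTA, hTP⟩ := exists_fixed_quot (cnj σ) hP A0 C0 hne hA0P hC0P
  have hchi : ∀ g ∈ P, ∃ c : k, σ g * (T * σ g⁻¹) = T + c • 1 := by
    intro g hg
    obtain ⟨c, hc⟩ := Submodule.mem_span_singleton.1 (hTP g hg)
    refine ⟨c, ?_⟩
    rw [hc, cnj_apply]; abel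
  -- some element moves `T`
  obtain ⟨g0, hg0, δ, hδ, hgδ⟩ : ∃ g0 ∈ P, ∃ δ : k, δ ≠ 0 ∧ σ g0 * (T * σ g0⁻¹) = T + δ • 1 := by
    by_contra hno
    push Not at hno
    apply hTA
    obtain ⟨a, ha⟩ := hscal T hTC (by
      intro g hg
      obtain ⟨c, hc⟩ := hchi g hg
      have hc0 : c = 0 := by
        by_contra h
        exact hno g hg c h hc
      rw [hc0, zero_smul, add_zero] at hc
      calc T * σ g = σ g * (T * σ g⁻¹) * σ g := by rw [hc]
        _ = σ g * T * (σ g⁻¹ * σ g) := by noncomm_ring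
        _ = σ g * T := by rw [hinv', mul_one])
    rw [ha]
    exact Submodule.smul_mem _ _ (Submodule.mem_span_singleton_self _)
  obtain ⟨s, hs⟩ := Module.End.exists_eigenvalue T
  obtain ⟨v0, hv0, hv0n⟩ := hs.exists_hasEigenvector
  rw [Module.End.mem_eigenspace_iff] at hv0
  -- the second eigenspace
  set U' := T.eigenspace (s - δ) with hU'
  have hU'X : ∀ g ∈ X, ∀ w ∈ U', σ g w ∈ U' := by
    intro g hg w hw
    rw [hU', Module.End.mem_eigenspace_iff] at hw ⊢
    rw [← Module.End.mul_apply, hTC g hg, Module.End.mul_apply, hw, map_smul]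
  have hU'0 : U' ≠ ⊥ := by
    intro h
    have h3 : σ g0 v0 ∈ U' := by
      rw [hU', Module.End.mem_eigenspace_iff]
      have h4 : T * σ g0 = σ g0 * T - δ • σ g0 := by
        have h5 : σ g0 * T = T * σ g0 + δ • σ g0 := by
          calc σ g0 * T = σ g0 * T * (σ g0⁻¹ * σ g0) := by rw [hinv', mul_one]
            _ = (σ g0 * (T * σ g0⁻¹)) * σ g0 := by noncomm_ring
            _ = T * σ g0 + δ • σ g0 := by rw [hgδ, add_mul, smul_mul_assoc, one_mul]
        rw [h5]; abel
      rw [← Module.End.mul_apply, h4, LinearMap.sub_apply, Module.End.mul_apply, hv0, map_smul,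
        LinearMap.smul_apply, sub_smul]
    rw [h, Submodule.mem_bot] at h3
    apply hv0n
    have h4 : σ g0⁻¹ (σ g0 v0) = v0 := by
      rw [← Module.End.mul_apply, hinv']; rfl
    rw [← h4, h3, map_zero]
  -- the functional
  obtain ⟨τ, hτ, hτT⟩ : ∃ τ : S →ₗ[k] k, τ ≠ 0 ∧ ∀ x, τ (T x) = s * τ x := by
    have hns : LinearMap.range (T - s • 1) ≠ ⊤ := by
      intro h
      have hinj : Function.Injective (T - s • (1 : Module.End k S)) :=
        LinearMap.injective_iff_surjective.2 (LinearMap.range_eq_top.1 h)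
      apply hv0n
      apply hinj
      rw [map_zero, LinearMap.sub_apply, hv0]
      simp
    obtain ⟨τ, hτ0, hτ⟩ := Submodule.exists_le_ker_of_lt_top _ (lt_top_iff_ne_top.2 hns)
    refine ⟨τ, hτ0, fun x => ?_⟩
    have h3 : τ ((T - s • (1 : Module.End k S)) x) = 0 := hτ ⟨x, rfl⟩
    rw [LinearMap.sub_apply, map_sub, sub_eq_zero] at h3
    rw [h3]
    simp
  let D : Submodule k (Module.End k S) :=
    { carrier := {A | (∀ g ∈ X, A * σ g = σ g * A) ∧ T * A - A * T = -δ • A}
      zero_mem' := ⟨fun g _ => by simp, by simp⟩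
      add_mem' := fun {A B} hA hB => ⟨fun g hg => by rw [add_mul, mul_add, hA.1 g hg, hB.1 g hg],
        by
          rw [smul_add, ← hA.2, ← hB.2]; noncomm_ring⟩
      smul_mem' := fun c A hA => ⟨fun g hg => by rw [smul_mul_assoc, mul_smul_comm, hA.1 g hg],
        by
          rw [smul_comm, ← hA.2, smul_mul_assoc, mul_smul_comm, smul_sub]⟩ }
  have hDne : D ≠ ⊥ := by
    intro hD
    apply hτ
    have hz : ∀ v ∈ U', tpp σ X v τ = 0 := by
      intro v hv
      have hmem : tpp σ X v τ ∈ D := by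
        refine ⟨fun g hg => tpp_comm σ X v τ g hg, ?_⟩
        have hvT : T v = (s - δ) • v := Module.End.mem_eigenspace_iff.1 hv
        have e1 : T * tpp σ X v τ = (s - δ) • tpp σ X v τ := by
          ext x
          rw [Module.End.mul_apply, LinearMap.smul_apply, tpp_apply, map_sum, Finset.smul_sum]
          refine Finset.sum_congr rfl fun g _ => ?_
          have h5 : T (σ g v) = (s - δ) • σ g v := by
            rw [← Module.End.mul_apply, hTC g g.2, Module.End.mul_apply, hvT, map_smul]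
          rw [map_smul, h5, smul_comm]
        have e2 : tpp σ X v τ * T = s • tpp σ X v τ := by
          ext x
          rw [Module.End.mul_apply, LinearMap.smul_apply, tpp_apply, tpp_apply, Finset.smul_sum]
          refine Finset.sum_congr rfl fun g _ => ?_
          have h5 : σ (g : K)⁻¹ (T x) = T (σ (g : K)⁻¹ x) := by
            rw [← Module.End.mul_apply, ← hTC _ (X.inv_mem g.2), Module.End.mul_apply]
          rw [h5, hτT, mul_smul]
        rw [e1, e2, ← sub_smul]
        congr 1; ring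
      rw [hD, Submodule.mem_bot] at hmem
      exact hmem
    ext x
    have h3 : aop σ X x τ = 0 := by
      refine alg_LI σ X hX h1 h2 _ (aop_mem σ X x τ) U' hU'0 hU'X ?_
      intro u hu
      rw [aop_apply, hz u hu]; rfl
    rw [aop_zero σ X hX h1 h2 x τ h3]; rfl
  have hDP : ∀ g ∈ P, ∀ A ∈ D, cnj σ g A ∈ D := by
    intro g hg A hA
    refine ⟨hC0P g hg A hA.1, ?_⟩
    obtain ⟨c, hc⟩ := hchi g hg
    have h3 : T * σ g = σ g * T - c • σ g := by
      have h5 : σ g * T = T * σ g + c • σ g := by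
        calc σ g * T = σ g * T * (σ g⁻¹ * σ g) := by rw [hinv', mul_one]
          _ = (σ g * (T * σ g⁻¹)) * σ g := by noncomm_ring
          _ = T * σ g + c • σ g := by rw [hc, add_mul, smul_mul_assoc, one_mul]
      rw [h5]; abel
    have h4 : σ g⁻¹ * T = T * σ g⁻¹ - c • σ g⁻¹ := by
      have h5 : T * σ g⁻¹ = σ g⁻¹ * T + c • σ g⁻¹ := by
        calc T * σ g⁻¹ = (σ g⁻¹ * σ g) * (T * σ g⁻¹) := by rw [hinv', one_mul]
          _ = σ g⁻¹ * (σ g * (T * σ g⁻¹)) := by noncomm_ring
          _ = σ g⁻¹ * T + c • σ g⁻¹ := by rw [hc, mul_add, mul_smul_comm, mul_one]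
      rw [h5]; abel
    rw [cnj_apply]
    calc T * (σ g * (A * σ g⁻¹)) - σ g * (A * σ g⁻¹) * T
        = (T * σ g) * (A * σ g⁻¹) - σ g * A * (σ g⁻¹ * T) := by noncomm_ring
      _ = (σ g * T - c • σ g) * (A * σ g⁻¹) - σ g * A * (T * σ g⁻¹ - c • σ g⁻¹) := by
          rw [h3, h4]
      _ = σ g * ((T * A - A * T) * σ g⁻¹) := by
          rw [sub_mul, mul_sub, smul_mul_assoc, mul_smul_comm]
          noncomm_ring
      _ = -δ • (σ g * (A * σ g⁻¹)) := by
          rw [hA.2, smul_mul_assoc, mul_smul_comm]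
  obtain ⟨A, hAD, hA0, hAP⟩ := exists_fixed_sub (cnj σ) hP D hDne hDP
  obtain ⟨a, ha⟩ := hscal A hAD.1 (by
    intro g hg
    have h3 := hAP g hg
    rw [cnj_apply] at h3
    calc A * σ g = σ g * (A * σ g⁻¹) * σ g := by rw [h3]
      _ = σ g * A * (σ g⁻¹ * σ g) := by noncomm_ring
      _ = σ g * A := by rw [hinv', mul_one])
  have h3 := hAD.2
  have h4 : T * A - A * T = 0 := by
    rw [ha, smul_mul_assoc, mul_smul_comm, mul_one, one_mul, sub_self]
  rw [h4] at h3
  rcases smul_eq_zero.1 h3.symm with h5 | h5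
  · exact hδ (neg_eq_zero.1 h5)
  · exact hA0 h5

/-- the span of X is the full endomorphism algebra of an irreducible (X,P)-module -/
theorem alg_surj {K S : Type} [Group K] [Finite K] [AddCommGroup S] [Module k S]
    [FiniteDimensional k S] [Nontrivial S]
    (σ : K →* Module.End k S) (X P : Subgroup K) (hX : (Nat.card X).Coprime p)
    (hP : IsPGroup p P) (hPX : ∀ g ∈ P, ∀ x ∈ X, g * x * g⁻¹ ∈ X)
    (h1 : ∀ g ∈ X, (∃ a : k, σ g = a • 1) ∨
      ∃ h ∈ X, ∃ t : k, t ≠ 1 ∧ σ h * σ g = t • (σ g * σ h))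
    (h2 : ∀ g ∈ X, ∀ h ∈ X, ∃ t : k, σ h * σ g = t • (σ g * σ h))
    (hirr : ∀ W : Submodule k S, (∀ g ∈ X, ∀ w ∈ W, σ g w ∈ W) → (∀ g ∈ P, ∀ w ∈ W, σ g w ∈ W) →
      W = ⊥ ∨ W = ⊤)
    (T : Module.End k S) : T ∈ Submodule.span k ((fun g => σ g) '' (X : Set K)) := by
  classical
  have : Fintype X := Fintype.ofFinite X
  obtain ⟨x0, hx0⟩ := exists_ne (0 : S)
  obtain ⟨l, hl⟩ : ∃ l : S →ₗ[k] k, l x0 = 1 := by
    obtain ⟨f, hf⟩ := Module.Projective.exists_dual_ne_zero k hx0
    exact ⟨(f x0)⁻¹ • f, by rw [LinearMap.smul_apply, smul_eq_mul, inv_mul_cancel₀ hf]⟩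
  let Φ : (S →ₗ[k] k) →ₗ[k] (S →ₗ[k] k) :=
    { toFun := fun τ => ∑ g : X, τ (σ (g : K)⁻¹ x0) • (l ∘ₗ σ g)
      map_add' := fun a b => by
        simp only [LinearMap.add_apply, add_smul, Finset.sum_add_distrib]
      map_smul' := fun c a => by
        simp only [LinearMap.smul_apply, RingHom.id_apply, Finset.smul_sum, smul_smul, smul_eq_mul] }
  have hΦ : ∀ τ v, Φ τ v = l (tpp σ X v τ x0) := by
    intro τ v
    show (∑ g : X, τ (σ (g : K)⁻¹ x0) • (l ∘ₗ σ g)) v = _
    rw [LinearMap.sum_apply, tpp_apply, map_sum]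
    refine Finset.sum_congr rfl fun g _ => ?_
    rw [map_smul]; rfl
  have hbeta : ∀ τ v x, aop σ X x τ v = Φ τ v • x := by
    intro τ v x
    obtain ⟨b, hb⟩ := alg_comm σ X P hX hP hPX h1 h2 hirr (tpp σ X v τ)
      (fun g hg => tpp_comm σ X v τ g hg)
    rw [aop_apply, hΦ, hb]
    simp only [LinearMap.smul_apply, Module.End.one_apply, map_smul, hl, smul_eq_mul, mul_one]
  have hinj : Function.Injective Φ := by
    rw [injective_iff_map_eq_zero]
    intro τ hτ
    ext x
    have h3 : aop σ X x τ = 0 := by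
      ext v
      rw [hbeta, hτ]; simp
    rw [aop_zero σ X hX h1 h2 x τ h3]; rfl
  have hsurj : Function.Surjective Φ := LinearMap.injective_iff_surjective.1 hinj
  let b := Module.finBasis k S
  have hT : T = ∑ i, (b.coord i).smulRight (T (b i)) := by
    refine b.ext fun j => ?_
    rw [LinearMap.sum_apply]
    simp [Finsupp.single_apply]
  rw [hT]
  refine Submodule.sum_mem _ fun i _ => ?_
  obtain ⟨τ, hτ⟩ := hsurj (b.coord i)
  have e : (b.coord i).smulRight (T (b i)) = aop σ X (T (b i)) τ := by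
    ext v
    rw [hbeta, hτ]; rfl
  rw [e]
  exact aop_mem σ X _ τ

end

end Pool.Agent.Helper407.PL
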