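import Mathlib

set_option autoImplicit false

namespace Pool.Agent.Helper407.PL

section Defs
variable {G : Type*} [Group G]

/-- B/A is a p-group, elementwise -/
def PF (p : ℕ) (A B : Subgroup G) : Prop := ∀ b ∈ B, ∃ k : ℕ, b ^ (p ^ k) ∈ A
/-- B/A is a p'-group, elementwise -/
def PF' (p : ℕ) (A B : Subgroup G) : Prop := ∀ b ∈ B, ∃ m : ℕ, m.Coprime p ∧ b ^ m ∈ A
/-- N normalises S -/
def Inv (N S : Subgroup G) : Prop := ∀ g ∈ N, ∀ x ∈ S, g * x * g⁻¹ ∈ S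

/-- N/K has a series (N-invariant, from K to N) with at most n p-factors -/
def RLp (p n : ℕ) (K N : Subgroup G) : Prop :=
  ∃ S : ℕ → Subgroup G, S 0 = K ∧ S (2 * n + 1) = N ∧ (∀ i, Inv N (S i)) ∧
    (∀ i, S i ≤ S (i + 1)) ∧ (∀ i ≤ n, PF' p (S (2 * i)) (S (2 * i + 1))) ∧
    (∀ i < n, PF p (S (2 * i + 1)) (S (2 * i + 2)))

/-- N acts on D1/D2 as a group with a normal p-subgroup of p-length at most n on top -/
def Sm (p n : ℕ) (N D1 D2 : Subgroup G) : Prop :=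
  ∃ K : Subgroup G, K ≤ N ∧ Inv N K ∧ RLp p n K N ∧
    ∀ g ∈ K, ∃ e : ℕ, ∀ y ∈ D1, g ^ (p ^ e) * y * (g ^ (p ^ e))⁻¹ * y⁻¹ ∈ D2

end Defs

section Basic
variable {G : Type*} [Group G] {p : ℕ}

lemma Inv.inf {N S T : Subgroup G} (h1 : Inv N S) (h2 : Inv N T) : Inv N (S ⊓ T) :=
  fun g hg x hx => ⟨h1 g hg x hx.1, h2 g hg x hx.2⟩

lemma Inv.mono {N N' S : Subgroup G} (h : Inv N S) (hN : N' ≤ N) : Inv N' S :=
  fun g hg x hx => h g (hN hg) x hx

lemma Inv.self (N : Subgroup G) : Inv N N :=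
  fun _ hg _ hx => N.mul_mem (N.mul_mem hg hx) (N.inv_mem hg)

lemma Inv.of_normal (N S : Subgroup G) [h : S.Normal] : Inv N S :=
  fun g _ x hx => h.conj_mem x hx g

lemma Inv.bot (N : Subgroup G) : Inv N ⊥ := by
  intro g _ x hx
  rw [Subgroup.mem_bot] at hx ⊢
  subst hx; simp

lemma Inv.conj_iff {N S : Subgroup G} (h : Inv N S) {g : G} (hg : g ∈ N) (x : G) :
    g * x * g⁻¹ ∈ S ↔ x ∈ S := by
  constructor
  · intro hx
    have := h g⁻¹ (N.inv_mem hg) _ hx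
    simpa [mul_assoc] using this
  · exact h g hg x

lemma Inv.sup {N S T : Subgroup G} (h1 : Inv N S) (h2 : Inv N T) : Inv N (S ⊔ T) := by
  intro g hg x hx
  have h : S ⊔ T ≤ (S ⊔ T).comap (MulAut.conj g).toMonoidHom := by
    apply sup_le
    · intro y hy; exact (le_sup_left : S ≤ S ⊔ T) (h1 g hg y hy)
    · intro y hy; exact (le_sup_right : T ≤ S ⊔ T) (h2 g hg y hy)
  exact h hx

lemma PF.mono {A A' B B' : Subgroup G} (h : PF p A B) (hA : A ≤ A') (hB : B' ≤ B) : PF p A' B' := by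
  intro b hb
  obtain ⟨k, hk⟩ := h b (hB hb)
  exact ⟨k, hA hk⟩

lemma PF'.mono {A A' B B' : Subgroup G} (h : PF' p A B) (hA : A ≤ A') (hB : B' ≤ B) :
    PF' p A' B' := by
  intro b hb
  obtain ⟨k, hk, hk'⟩ := h b (hB hb)
  exact ⟨k, hk, hA hk'⟩

lemma PF.trans {A B C : Subgroup G} (h1 : PF p A B) (h2 : PF p B C) : PF p A C := by
  intro c hc
  obtain ⟨k, hk⟩ := h2 c hc
  obtain ⟨l, hl⟩ := h1 _ hk
  exact ⟨k + l, by rwa [pow_add, pow_mul]⟩

lemma PF'.trans {A B C : Subgroup G} (h1 : PF' p A B) (h2 : PF' p B C) : PF' p A C := by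
  intro c hc
  obtain ⟨k, hk0, hk⟩ := h2 c hc
  obtain ⟨l, hl0, hl⟩ := h1 _ hk
  exact ⟨k * l, Nat.Coprime.mul_left hk0 hl0, by rwa [pow_mul]⟩

lemma PF.inf {A B A' B' : Subgroup G} (h1 : PF p A B) (h2 : PF p A' B') :
    PF p (A ⊓ A') (B ⊓ B') := by
  intro b hb
  obtain ⟨k, hk⟩ := h1 b hb.1
  obtain ⟨l, hl⟩ := h2 b hb.2
  refine ⟨k + l, ?_, ?_⟩
  · rw [pow_add, pow_mul]; exact A.pow_mem hk _
  · rw [add_comm, pow_add, pow_mul]; exact A'.pow_mem hl _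

lemma PF'.inf {A B A' B' : Subgroup G} (h1 : PF' p A B) (h2 : PF' p A' B') :
    PF' p (A ⊓ A') (B ⊓ B') := by
  intro b hb
  obtain ⟨k, hk0, hk⟩ := h1 b hb.1
  obtain ⟨l, hl0, hl⟩ := h2 b hb.2
  refine ⟨k * l, Nat.Coprime.mul_left hk0 hl0, ?_, ?_⟩
  · rw [pow_mul]; exact A.pow_mem hk _
  · rw [mul_comm, pow_mul]; exact A'.pow_mem hl _

lemma PF.refl (A : Subgroup G) : PF p A A := fun b hb => ⟨0, by simpa using hb⟩
lemma PF'.refl (A : Subgroup G) : PF' p A A := fun b hb => ⟨1, Nat.coprime_one_left p, by simpa using hb⟩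

/-- elements of S ⊔ T when S normalises T -/
lemma mem_sup_inv {S T : Subgroup G} (h : Inv S T) {x : G} :
    x ∈ S ⊔ T ↔ ∃ s ∈ S, ∃ t ∈ T, x = s * t := by
  constructor
  · intro hx
    have : S ⊔ T ≤ 
      { carrier := {x | ∃ s ∈ S, ∃ t ∈ T, x = s * t}
        one_mem' := ⟨1, S.one_mem, 1, T.one_mem, by simp⟩
        mul_mem' := by
          rintro _ _ ⟨s, hs, t, ht, rfl⟩ ⟨s', hs', t', ht', rfl⟩
          refine ⟨s * s', S.mul_mem hs hs', s'⁻¹ * t * s' * t', T.mul_mem ?_ ht', by group⟩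
          have := h s'⁻¹ (S.inv_mem hs') t ht
          simpa using this
        inv_mem' := by
          rintro _ ⟨s, hs, t, ht, rfl⟩
          refine ⟨s⁻¹, S.inv_mem hs, s * t⁻¹ * s⁻¹, h s hs _ (T.inv_mem ht), by group⟩ :
          Subgroup G } := by
      apply sup_le
      · intro s hs; exact ⟨s, hs, 1, T.one_mem, by simp⟩
      · intro t ht; exact ⟨1, S.one_mem, t, ht, by simp⟩
    exact this hx
  · rintro ⟨s, hs, t, ht, rfl⟩
    exact (S ⊔ T).mul_mem (Subgroup.mem_sup_left hs) (Subgroup.mem_sup_right ht)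

/-- (s t)^m ∈ s^m T if s normalises T -/
lemma pow_mul_mem {T : Subgroup G} {s : G} (h : ∀ x ∈ T, s * x * s⁻¹ ∈ T)
    (h' : ∀ x ∈ T, s⁻¹ * x * s ∈ T) {t : G} (ht : t ∈ T) (m : ℕ) :
    ∃ t' ∈ T, (s * t) ^ m = s ^ m * t' := by
  induction m with
  | zero => exact ⟨1, T.one_mem, by simp⟩
  | succ m ih =>
    obtain ⟨t', ht', he⟩ := ih
    refine ⟨s⁻¹ * t' * s * t, T.mul_mem (h' _ ht') ht, ?_⟩
    rw [pow_succ, he]; group

lemma PF.sup {N A B T : Subgroup G} (h : PF p A B) (hB : B ≤ N) (hT : Inv N T) :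
    PF p (A ⊔ T) (B ⊔ T) := by
  intro x hx
  obtain ⟨s, hs, t, ht, rfl⟩ := (mem_sup_inv (hT.mono hB)).1 hx
  obtain ⟨k, hk⟩ := h s hs
  obtain ⟨t', ht', he⟩ := pow_mul_mem (fun x hx => hT s (hB hs) x hx)
    (fun x hx => by simpa using hT s⁻¹ (N.inv_mem (hB hs)) x hx) ht (p ^ k)
  exact ⟨k, he ▸ (A ⊔ T).mul_mem (Subgroup.mem_sup_left hk) (Subgroup.mem_sup_right ht')⟩

lemma PF'.sup {N A B T : Subgroup G} (h : PF' p A B) (hB : B ≤ N) (hT : Inv N T) :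
    PF' p (A ⊔ T) (B ⊔ T) := by
  intro x hx
  obtain ⟨s, hs, t, ht, rfl⟩ := (mem_sup_inv (hT.mono hB)).1 hx
  obtain ⟨k, hk0, hk⟩ := h s hs
  obtain ⟨t', ht', he⟩ := pow_mul_mem (fun x hx => hT s (hB hs) x hx)
    (fun x hx => by simpa using hT s⁻¹ (N.inv_mem (hB hs)) x hx) ht k
  exact ⟨k, hk0, he ▸ (A ⊔ T).mul_mem (Subgroup.mem_sup_left hk) (Subgroup.mem_sup_right ht')⟩

end Basic

section RLpLemmas
variable {G : Type*} [Group G] {p : ℕ}

lemma chain_le {S : ℕ → Subgroup G} (h : ∀ i, S i ≤ S (i + 1)) {i j : ℕ} (hij : i ≤ j) :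
    S i ≤ S j := monotone_nat_of_le_succ h hij

lemma RLp.le {n : ℕ} {K N : Subgroup G} (h : RLp p n K N) : K ≤ N := by
  obtain ⟨S, h0, h1, -, h2, -, -⟩ := h
  rw [← h0, ← h1]
  exact chain_le h2 (Nat.zero_le _)

lemma RLp.inv {n : ℕ} {K N : Subgroup G} (h : RLp p n K N) : Inv N K := by
  obtain ⟨S, h0, h1, h3, -, -, -⟩ := h
  rw [← h0]; exact h3 0

lemma RLp.refl (n : ℕ) (N : Subgroup G) : RLp p n N N :=
  ⟨fun _ => N, rfl, rfl, fun _ => Inv.self N, fun _ => le_rfl, fun _ _ => PF'.refl _,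
    fun _ _ => PF.refl _⟩

/-- enlarge K -/
lemma RLp.enlarge {n : ℕ} {K K' N : Subgroup G} (h : RLp p n K N) (hK : K ≤ K') (hK' : K' ≤ N)
    (hi : Inv N K') : RLp p n K' N := by
  obtain ⟨S, h0, h1, h2, h3, h4, h5⟩ := h
  have hS : ∀ i ≤ 2 * n + 1, S i ≤ N := fun i hi => h1 ▸ chain_le h3 hi
  refine ⟨fun i => S i ⊔ K', ?_, ?_, fun i => (h2 i).sup hi,
    fun i => sup_le_sup_right (h3 i) _, ?_, ?_⟩
  · simp only [h0]; exact sup_eq_right.2 hK
  · simp only [h1]; exact sup_eq_left.2 hK'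
  · intro i hi'
    exact (h4 i hi').sup (hS _ (by omega)) hi
  · intro i hi'
    exact (h5 i hi').sup (hS _ (by omega)) hi

/-- restrict N -/
lemma RLp.restrict {n : ℕ} {K N N' : Subgroup G} (h : RLp p n K N) (hN : N' ≤ N) :
    RLp p n (K ⊓ N') N' := by
  obtain ⟨S, h0, h1, h2, h3, h4, h5⟩ := h
  refine ⟨fun i => S i ⊓ N', by simp only [h0], ?_, fun i => ((h2 i).mono hN).inf (Inv.self N'),
    fun i => inf_le_inf_right _ (h3 i), ?_, ?_⟩
  · simp only [h1]; exact inf_eq_right.2 hN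
  · intro i hi'
    exact (h4 i hi').inf (PF'.refl _)
  · intro i hi'
    exact (h5 i hi').inf (PF.refl _)

lemma RLp.inf {n : ℕ} {K K' N : Subgroup G} (h : RLp p n K N) (h' : RLp p n K' N) :
    RLp p n (K ⊓ K') N := by
  obtain ⟨S, h0, h1, h2, h3, h4, h5⟩ := h
  obtain ⟨S', h0', h1', h2', h3', h4', h5'⟩ := h'
  refine ⟨fun i => S i ⊓ S' i, by simp only [h0, h0'], ?_, fun i => (h2 i).inf (h2' i),
    fun i => inf_le_inf (h3 i) (h3' i), ?_, ?_⟩
  · simp only [h1, h1']; exact inf_idem _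
  · intro i hi'
    exact (h4 i hi').inf (h4' i hi')
  · intro i hi'
    exact (h5 i hi').inf (h5' i hi')

lemma RLp.succ {n : ℕ} {K N : Subgroup G} (h : RLp p n K N) : RLp p (n + 1) K N := by
  obtain ⟨S, h0, h1, h2, h3, h4, h5⟩ := h
  refine ⟨fun i => if i ≤ 2 * n + 1 then S i else N, by simp [h0], ?_, ?_, ?_, ?_, ?_⟩
  · simp
  · intro i
    dsimp only
    split_ifs
    · exact h2 i
    · exact Inv.self N
  · intro i
    dsimp only
    split_ifs with ha hb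
    · exact h3 i
    · have : i = 2 * n + 1 := by omega
      rw [this, h1]
    · omega
    · exact le_rfl
  · intro i hi
    dsimp only
    by_cases hin : i ≤ n
    · rw [if_pos (by omega), if_pos (by omega)]; exact h4 i hin
    · rw [if_neg (by omega), if_neg (by omega)]; exact PF'.refl _
  · intro i hi
    dsimp only
    by_cases hin : i < n
    · rw [if_pos (by omega), if_pos (by omega)]; exact h5 i hin
    · have : i = n := by omega
      subst this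
      rw [if_pos (by omega), if_neg (by omega), h1]; exact PF.refl _

lemma RLp.mono_n {n m : ℕ} {K N : Subgroup G} (h : RLp p n K N) (hnm : n ≤ m) : RLp p m K N := by
  induction hnm with
  | refl => exact h
  | step _ ih => exact ih.succ

lemma RLp.map {H : Type*} [Group H] (f : G →* H) {n : ℕ} {K N : Subgroup G} (h : RLp p n K N) :
    RLp p n (K.map f) (N.map f) := by
  obtain ⟨S, h0, h1, h2, h3, h4, h5⟩ := h
  refine ⟨fun i => (S i).map f, by simp only [h0], by simp only [h1], ?_, ?_, ?_, ?_⟩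
  · rintro i _ ⟨g, hg, rfl⟩ _ ⟨x, hx, rfl⟩
    exact ⟨g * x * g⁻¹, h2 i g hg x hx, by simp⟩
  · intro i; exact Subgroup.map_mono (h3 i)
  · rintro i hi _ ⟨x, hx, rfl⟩
    obtain ⟨m, hm, hm'⟩ := h4 i hi x hx
    exact ⟨m, hm, x ^ m, hm', by simp⟩
  · rintro i hi _ ⟨x, hx, rfl⟩
    obtain ⟨m, hm'⟩ := h5 i hi x hx
    exact ⟨m, x ^ (p ^ m), hm', by simp⟩

lemma RLp.comap {H : Type*} [Group H] (f : G →* H) {n : ℕ} {K N : Subgroup H} (h : RLp p n K N) :
    RLp p n (K.comap f) (N.comap f) := by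
  obtain ⟨S, h0, h1, h2, h3, h4, h5⟩ := h
  refine ⟨fun i => (S i).comap f, by simp only [h0], by simp only [h1], ?_, ?_, ?_, ?_⟩
  · rintro i g hg x hx
    simp only [Subgroup.mem_comap, map_mul, map_inv] at hx ⊢
    exact h2 i _ hg _ hx
  · intro i; exact Subgroup.comap_mono (h3 i)
  · rintro i hi x hx
    obtain ⟨m, hm, hm'⟩ := h4 i hi (f x) hx
    exact ⟨m, hm, by simpa using hm'⟩
  · rintro i hi x hx
    obtain ⟨m, hm'⟩ := h5 i hi (f x) hx
    exact ⟨m, by simpa using hm'⟩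

end RLpLemmas

end Pool.Agent.Helper407.PL
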