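import Pool.Agent.Helper407.PLBase

set_option autoImplicit false

namespace Pool.Agent.Helper407.PL

section Ext
variable {G : Type*} [Group G] [Finite G] {p : ℕ}

/-- intersection of all N-conjugates -/
def core (N S : Subgroup G) : Subgroup G where
  carrier := {x | ∀ g ∈ N, g * x * g⁻¹ ∈ S}
  one_mem' := by intro g _; simp
  mul_mem' := by
    intro a b ha hb g hg
    have := S.mul_mem (ha g hg) (hb g hg)
    simpa [mul_assoc] using this
  inv_mem' := by
    intro a ha g hg
    have := S.inv_mem (ha g hg)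
    simpa [mul_assoc] using this

omit [Finite G] in
lemma mem_core {N S : Subgroup G} {x : G} : x ∈ core N S ↔ ∀ g ∈ N, g * x * g⁻¹ ∈ S := Iff.rfl

omit [Finite G] in
lemma core_inv (N S : Subgroup G) : Inv N (core N S) := by
  intro g hg x hx h hh
  have := hx (h * g) (N.mul_mem hh hg)
  simpa [mul_assoc] using this

omit [Finite G] in
lemma core_le (N S : Subgroup G) : core N S ≤ S := by
  intro x hx
  simpa using hx 1 N.one_mem

omit [Finite G] in
lemma core_eq {N S : Subgroup G} (h : Inv N S) : core N S = S :=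
  le_antisymm (core_le N S) (fun x hx g hg => h g hg x hx)

omit [Finite G] in
lemma core_mono {N S T : Subgroup G} (h : S ≤ T) : core N S ≤ core N T :=
  fun _ hx g hg => h (hx g hg)

lemma PF.core {N A B : Subgroup G} (h : PF p A B) : PF p (core N A) (core N B) := by
  intro x hx
  have h1 : ∀ g : N, ∃ k : ℕ, ((g : G) * x * (g : G)⁻¹) ^ (p ^ k) ∈ A := fun g => h _ (hx g g.2)
  choose k hk using h1
  obtain ⟨m, hm⟩ := (Set.finite_range k).bddAbove
  refine ⟨m, fun g hg => ?_⟩
  have h2 := hk ⟨g, hg⟩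
  have h3 : k ⟨g, hg⟩ ≤ m := hm ⟨_, rfl⟩
  obtain ⟨d, hd⟩ := Nat.exists_eq_add_of_le h3
  rw [← conj_pow, hd, pow_add, pow_mul]
  exact A.pow_mem h2 _

lemma PF'.core {N A B : Subgroup G} (h : PF' p A B) : PF' p (core N A) (core N B) := by
  intro x hx
  have h1 : ∀ g : N, ∃ k : ℕ, k.Coprime p ∧ ((g : G) * x * (g : G)⁻¹) ^ k ∈ A :=
    fun g => h _ (hx g g.2)
  choose k hk hk' using h1
  have : Fintype N := Fintype.ofFinite N
  refine ⟨∏ g : N, k g, Nat.Coprime.prod_left (fun g _ => hk g), fun g hg => ?_⟩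
  have h2 := hk' ⟨g, hg⟩
  obtain ⟨d, hd⟩ := Finset.dvd_prod_of_mem k (Finset.mem_univ (⟨g, hg⟩ : N))
  rw [← conj_pow, hd, pow_mul]
  exact A.pow_mem h2 _

/-- make a series invariant under a bigger group -/
lemma RLp.coreN {n : ℕ} {K N N1 : Subgroup G} (h : RLp p n K N1)
    (hK : Inv N K) (hN1 : Inv N N1) :
    ∃ S : ℕ → Subgroup G, S 0 = K ∧ S (2 * n + 1) = N1 ∧ (∀ i, Inv N (S i)) ∧
    (∀ i, S i ≤ S (i + 1)) ∧ (∀ i ≤ n, PF' p (S (2 * i)) (S (2 * i + 1))) ∧
    (∀ i < n, PF p (S (2 * i + 1)) (S (2 * i + 2))) := by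
  obtain ⟨S, h0, h1, h2, h3, h4, h5⟩ := h
  refine ⟨fun i => PL.core N (S i), ?_, ?_, fun i => core_inv N _, fun i => core_mono (h3 i),
    fun i hi => (h4 i hi).core, fun i hi => (h5 i hi).core⟩
  · simp only [h0]; exact core_eq hK
  · simp only [h1]; exact core_eq hN1

/-- extension lemma -/
lemma RLp.trans {b c : ℕ} {K N N1 : Subgroup G} (h : RLp p b K N1) (h' : RLp p c N1 N)
    (hK : Inv N K) : RLp p (b + c) K N := by
  obtain ⟨S, h0, h1, h2, h3, h4, h5⟩ := h.coreN hK h'.inv
  obtain ⟨T, t0, t1, t2, t3, t4, t5⟩ := h'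
  refine ⟨fun i => if i ≤ 2 * b then S i else T (i - 2 * b), ?_, ?_, ?_, ?_, ?_, ?_⟩
  · simp [h0]
  · dsimp only
    rw [if_neg (by omega), ← t1]; congr 1; omega
  · intro i; dsimp only; split_ifs
    · exact h2 i
    · exact t2 _
  · intro i; dsimp only
    split_ifs with ha hb
    · exact h3 i
    · have e1 : i = 2 * b := by omega
      have e2 : i + 1 - 2 * b = 0 + 1 := by omega
      rw [e1, show 2 * b + 1 - 2 * b = 0 + 1 by omega]
      exact (h3 (2 * b)).trans (h1 ▸ t0 ▸ t3 0)
    · omega
    · have e2 : i + 1 - 2 * b = (i - 2 * b) + 1 := by omega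
      rw [e2]; exact t3 _
  · intro i hi; dsimp only
    by_cases h6 : i < b
    · rw [if_pos (by omega), if_pos (by omega)]; exact h4 i h6.le
    · by_cases h7 : i = b
      · subst h7
        rw [if_pos (by omega), if_neg (by omega), show 2 * i + 1 - 2 * i = 1 by omega]
        have h8 := h4 i le_rfl
        rw [h1, ← t0] at h8
        exact h8.trans (by simpa using t4 0 (by omega))
      · rw [if_neg (by omega), if_neg (by omega)]
        have e1 : 2 * i - 2 * b = 2 * (i - b) := by omega
        have e2 : 2 * i + 1 - 2 * b = 2 * (i - b) + 1 := by omega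
        rw [e1, e2]; exact t4 _ (by omega)
  · intro i hi; dsimp only
    by_cases h6 : i < b
    · rw [if_pos (by omega), if_pos (by omega)]; exact h5 i h6
    · rw [if_neg (by omega), if_neg (by omega)]
      have e1 : 2 * i + 1 - 2 * b = 2 * (i - b) + 1 := by omega
      have e2 : 2 * i + 2 - 2 * b = 2 * (i - b) + 2 := by omega
      rw [e1, e2]; exact t5 _ (by omega)

omit [Finite G] in
lemma RLp.of_PF' {K N : Subgroup G} (n : ℕ) (h : PF' p K N) (hle : K ≤ N) (hi : Inv N K) :
    RLp p n K N := by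
  refine ⟨fun i => if i = 0 then K else N, by simp, by simp, ?_, ?_, ?_, ?_⟩
  · intro i; dsimp only; split_ifs
    · exact hi
    · exact Inv.self N
  · rintro (_ | i)
    · simpa using hle
    · simp
  · rintro (_ | i) _
    · simpa using h
    · simpa using PF'.refl N
  · intro i _; dsimp only
    rw [if_neg (by omega), if_neg (by omega)]; exact PF.refl _

omit [Finite G] in
lemma RLp.of_PF {K N : Subgroup G} (h : PF p K N) (hle : K ≤ N) (hi : Inv N K) :
    RLp p 1 K N := by
  refine ⟨fun i => if i ≤ 1 then K else N, by simp, by simp, ?_, ?_, ?_, ?_⟩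
  · intro i; dsimp only; split_ifs
    · exact hi
    · exact Inv.self N
  · intro i; dsimp only; split_ifs
    · exact le_rfl
    · exact hle
    · omega
    · exact le_rfl
  · intro i _; dsimp only; split_ifs
    · exact PF'.refl _
    · have : i = 0 := by omega
      omega
    · omega
    · exact PF'.refl _
  · intro i hi'; dsimp only
    have : i = 0 := by omega
    subst this
    rw [if_pos (by omega), if_neg (by omega)]; exact h

/-- p-soluble groups of bounded index have bounded p-length -/
lemma RLp.of_index {m : ℕ} {K N : Subgroup G} (h : RLp p m K N) :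
    RLp p (K.relIndex N) K N := by
  induction' hr : K.relIndex N using Nat.strong_induction_on with r ih generalizing K
  by_cases hKN : K = N
  · subst hKN; exact RLp.refl _ _
  obtain ⟨S, h0, h1, h2, h3, h4, h5⟩ := h
  -- first index where S leaves K
  have hex : ∃ i, S i ≠ K := ⟨2 * m + 1, by rw [h1]; exact fun h => hKN h.symm⟩
  classical
  let i := Nat.find hex
  have hi : S i ≠ K := Nat.find_spec hex
  have hi0 : i ≠ 0 := fun h => hi (by rw [h, h0])
  obtain ⟨j, hj⟩ := Nat.exists_eq_succ_of_ne_zero hi0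
  have hjK : S j = K := by
    by_contra hcon
    have := Nat.find_min' hex hcon
    omega
  have him : i ≤ 2 * m + 1 := Nat.find_min' hex (by rw [h1]; exact fun h => hKN h.symm)
  have hlt : K < S i := lt_of_le_of_ne (by rw [← hjK, hj]; exact h3 j) hi.symm
  have hSN : S i ≤ N := h1 ▸ chain_le h3 him
  have hKi : Inv N K := by rw [← hjK]; exact h2 j
  have hfac : RLp p 1 K (S i) := by
    rcases Nat.even_or_odd' j with ⟨t, ht | ht⟩
    · have := h4 t (by omega)
      rw [← ht, hjK] at this
      exact RLp.of_PF' 1 (by rw [hj]; exact this) hlt.le (hKi.mono hSN)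
    · have := h5 t (by omega)
      rw [← ht, hjK, show 2 * t + 2 = i by omega] at this
      exact RLp.of_PF this hlt.le (hKi.mono hSN)
  have hupper : RLp p m (S i) N := RLp.enlarge ⟨S, h0, h1, h2, h3, h4, h5⟩ hlt.le hSN (h2 i)
  have hmul : K.relIndex (S i) * (S i).relIndex N = K.relIndex N :=
    Subgroup.relIndex_mul_relIndex K (S i) N hlt.le hSN
  have hne : K.relIndex (S i) ≠ 1 := by
    intro h; exact absurd (Subgroup.relIndex_eq_one.1 h) (not_le_of_gt hlt)
  have hpos : (S i).relIndex N ≠ 0 := Subgroup.index_ne_zero_of_finite (H := (S i).subgroupOf N)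
  have hpos1 : K.relIndex (S i) ≠ 0 := Subgroup.index_ne_zero_of_finite (H := K.subgroupOf (S i))
  have hge2 : 2 ≤ K.relIndex (S i) := by omega
  have hlt' : (S i).relIndex N < r := by
    rw [← hr, ← hmul]; nlinarith [Nat.pos_of_ne_zero hpos]
  have h6 := ih _ hlt' hupper rfl
  have h7 := hfac.trans h6 hKi
  refine h7.mono_n ?_
  rw [← hr, ← hmul]; nlinarith [Nat.pos_of_ne_zero hpos]

end Ext

end Pool.Agent.Helper407.PL
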