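import Pool.Agent.Helper407.PLCoprime

set_option autoImplicit false

namespace Pool.Agent.Helper407.PL

section
variable {p : ℕ} [hp : Fact p.Prime]

/-- [Y,b,b]=1 implies [Y,b]=1 in coprime action -/
theorem comm_comm {G : Type} [Group G] [Finite G] (Y : Subgroup G) (hY : (Nat.card Y).Coprime p)
    (b : G) (hb : ∃ e : ℕ, ∀ y ∈ Y, b ^ (p ^ e) * y = y * b ^ (p ^ e))
    (hbY : ∀ y ∈ Y, b * y * b⁻¹ ∈ Y)
    (h : ∀ y ∈ Y, b * (b * y * b⁻¹ * y⁻¹) = (b * y * b⁻¹ * y⁻¹) * b) : ∀ y ∈ Y, b * y = y * b := by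
  obtain ⟨e, he⟩ := hb
  intro y hy
  have hzY : b * y * b⁻¹ * y⁻¹ ∈ Y := Y.mul_mem (hbY y hy) (Y.inv_mem hy)
  have hbz : b * (b * y * b⁻¹ * y⁻¹) * b⁻¹ = b * y * b⁻¹ * y⁻¹ := by
    rw [h y hy, mul_inv_cancel_right]
  set z := b * y * b⁻¹ * y⁻¹ with hz
  have hby : b * y * b⁻¹ = z * y := by rw [hz, inv_mul_cancel_right]
  have hpow : ∀ m : ℕ, b ^ m * y * (b ^ m)⁻¹ = z ^ m * y := by
    intro m
    induction m with
    | zero => simp
    | succ m ih =>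
      have e1 : b ^ (m + 1) * y * (b ^ (m + 1))⁻¹ = b * (b ^ m * y * (b ^ m)⁻¹) * b⁻¹ := by
        rw [pow_succ']; group
      have e2 : b * (z ^ m * y) * b⁻¹ = (b * z * b⁻¹) ^ m * (b * y * b⁻¹) := by
        rw [conj_pow]; group
      rw [e1, ih, e2, hbz, hby, pow_succ]
      exact (mul_assoc _ _ _).symm
  have h1 := hpow (p ^ e)
  have h2 : b ^ (p ^ e) * y * (b ^ (p ^ e))⁻¹ = y := by rw [he y hy, mul_inv_cancel_right]
  rw [h2] at h1
  have hz1 : z ^ (p ^ e) = 1 := mul_eq_right.1 h1.symm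
  have h5 : orderOf z ∣ Nat.gcd (p ^ e) (Nat.card Y) :=
    Nat.dvd_gcd (orderOf_dvd_of_pow_eq_one hz1) (Subgroup.orderOf_dvd_natCard Y hzY)
  have h6 : Nat.gcd (p ^ e) (Nat.card Y) = 1 := Nat.Coprime.pow_left e hY.symm
  rw [h6, Nat.dvd_one, orderOf_eq_one_iff] at h5
  rw [h5, one_mul] at hby
  calc b * y = b * y * b⁻¹ * b := by group
    _ = y * b := by rw [hby]

/-- conjugation automorphism of an invariant subgroup -/
noncomputable def cj {G : Type} [Group G] [Finite G] (Y : Subgroup G) (g : G)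
    (hg : ∀ y ∈ Y, g * y * g⁻¹ ∈ Y) : MulAut Y :=
  resAut (MulAut.conj g) Y (fun t ht => by rw [MulAut.conj_apply]; exact hg t ht)

theorem cj_coe {G : Type} [Group G] [Finite G] (Y : Subgroup G) (g : G)
    (hg : ∀ y ∈ Y, g * y * g⁻¹ ∈ Y) (y : Y) : ((cj Y g hg y : Y) : G) = g * y * g⁻¹ := rfl

theorem cj_pow_coe {G : Type} [Group G] [Finite G] (Y : Subgroup G) (g : G)
    (hg : ∀ y ∈ Y, g * y * g⁻¹ ∈ Y) (n : ℕ) (y : Y) :
    ((((cj Y g hg) ^ n) y : Y) : G) = g ^ n * y * (g ^ n)⁻¹ := by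
  rw [cj, resAut_pow, ← map_pow, MulAut.conj_apply]

/-- Lemma G, ambient form -/
theorem lemmaG_amb {G : Type} [Group G] [Finite G] (Y : Subgroup G)
    (hY : (Nat.card Y).Coprime p) (g x : G) (hg : ∀ y ∈ Y, g * y * g⁻¹ ∈ Y)
    (hx : ∀ y ∈ Y, x * y * x⁻¹ ∈ Y) (hgx : ∀ y ∈ Y, g * x * y * (g * x)⁻¹ = x * g * y * (x * g)⁻¹)
    (hgp : ∀ y ∈ Y, g ^ p * y = y * g ^ p) (hxp : ∀ y ∈ Y, x ^ p * y = y * x ^ p)
    (h : ∀ i j : ℕ, i < p → j < p → ¬ (i = 0 ∧ j = 0) → ∀ y ∈ Y,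
      g ^ i * x ^ j * y = y * (g ^ i * x ^ j) → x * y = y * x) :
    ∀ y ∈ Y, x * y = y * x := by
  have hfix : ∀ u y : G, u * y * u⁻¹ = y ↔ u * y = y * u := fun u y => mul_inv_eq_iff_eq_mul
  have key := lemmaG p Y hY (cj Y g hg) (cj Y x hx) ?_ ?_ ?_ ?_
  · intro y hy
    have h1 := congrArg (fun a : MulAut Y => ((a ⟨y, hy⟩ : Y) : G)) key
    simp only [cj_coe, MulAut.one_apply] at h1
    exact (hfix x y).1 h1
  · apply MulEquiv.ext
    intro y
    apply Subtype.ext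
    rw [MulAut.mul_apply, MulAut.mul_apply, cj_coe, cj_coe, cj_coe, cj_coe]
    have := hgx y y.2
    calc g * (x * y * x⁻¹) * g⁻¹ = g * x * y * (g * x)⁻¹ := by group
      _ = x * g * y * (x * g)⁻¹ := this
      _ = x * (g * y * g⁻¹) * x⁻¹ := by group
  · apply MulEquiv.ext
    intro y
    apply Subtype.ext
    rw [cj_pow_coe, (hfix _ _).2 (hgp y y.2)]
    rfl
  · apply MulEquiv.ext
    intro y
    apply Subtype.ext
    rw [cj_pow_coe, (hfix _ _).2 (hxp y y.2)]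
    rfl
  · intro i j hi hj hij y hy
    apply Subtype.ext
    rw [cj_coe, hfix]
    apply h i j hi hj hij y y.2
    have h1 := congrArg (fun a : Y => (a : G)) hy
    simp only [MulAut.mul_apply, cj_pow_coe] at h1
    rw [← hfix]
    calc g ^ i * x ^ j * y * (g ^ i * x ^ j)⁻¹
        = g ^ i * (x ^ j * y * (x ^ j)⁻¹) * (g ^ i)⁻¹ := by group
      _ = y := h1

/-- invariant Sylow subgroup, ambient form -/
theorem inv_sylow_amb {G : Type} [Group G] [Finite G] (Y C : Subgroup G)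
    (hY : (Nat.card Y).Coprime p) (hC : IsPGroup p C) (hCY : ∀ g ∈ C, ∀ y ∈ Y, g * y * g⁻¹ ∈ Y)
    (b : G) (hb : b ∈ C) (hbY : ∃ y ∈ Y, b * y ≠ y * b) :
    ∃ q : ℕ, q.Prime ∧ ∃ T : Subgroup G, T ≤ Y ∧ IsPGroup q T ∧
      (∀ g ∈ C, ∀ y ∈ T, g * y * g⁻¹ ∈ T) ∧ ∃ y ∈ T, b * y ≠ y * b := by
  let φ : C →* MulAut Y :=
    { toFun := fun c => cj Y (c : G) (hCY c c.2)
      map_one' := by
        apply MulEquiv.ext
        intro y
        apply Subtype.ext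
        rw [cj_coe]
        simp
      map_mul' := by
        intro c d
        apply MulEquiv.ext
        intro y
        apply Subtype.ext
        rw [MulAut.mul_apply, cj_coe, cj_coe, cj_coe]
        push_cast
        group }
  have hφ : ∀ (c : C) (y : Y), ((φ c y : Y) : G) = c * y * (c : G)⁻¹ := fun c y => rfl
  have hP : IsPGroup p φ.range := hC.of_surjective φ.rangeRestrict φ.rangeRestrict_surjective
  obtain ⟨y0, hy0, hne⟩ := hbY
  have hb1 : φ ⟨b, hb⟩ ≠ 1 := by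
    intro h1
    apply hne
    have h2 := congrArg (fun a : MulAut Y => ((a ⟨y0, hy0⟩ : Y) : G)) h1
    simp only [hφ, MulAut.one_apply] at h2
    exact mul_inv_eq_iff_eq_mul.1 h2
  obtain ⟨q, hq, S, hS, hSinv, s, hs, hbs⟩ := exists_inv_sylow p Y hY φ.range hP _ hb1
  refine ⟨q, hq, S.map Y.subtype, ?_, hS.map Y.subtype, ?_, (s : G), ?_, ?_⟩
  · rintro _ ⟨t, _, rfl⟩
    exact t.2
  · rintro g hg _ ⟨t, ht, rfl⟩
    refine ⟨φ ⟨g, hg⟩ t, hSinv _ ⟨⟨g, hg⟩, rfl⟩ t ht, ?_⟩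
    exact hφ ⟨g, hg⟩ t
  · exact ⟨s, hs, rfl⟩
  · intro h1
    apply hbs
    apply Subtype.ext
    rw [hφ]
    exact mul_inv_eq_iff_eq_mul.2 h1

/-- Q = [Q,b] for a minimal invariant subgroup -/
theorem min_comm {G : Type} [Group G] [Finite G] (C Q : Subgroup G)
    (hQ : (Nat.card Q).Coprime p) (hCQ : ∀ g ∈ C, ∀ y ∈ Q, g * y * g⁻¹ ∈ Q)
    (b : G) (hbC : b ∈ C) (hb : b ^ p = 1) (hbc : ∀ x ∈ C, b * x = x * b)
    (hbQ : ∃ y ∈ Q, b * y ≠ y * b)
    (hmin : ∀ Q2 : Subgroup G, Q2 ≤ Q → (∀ g ∈ C, ∀ y ∈ Q2, g * y * g⁻¹ ∈ Q2) → Q2 ≠ Q →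
      ∀ y ∈ Q2, b * y = y * b) :
    Q = Subgroup.closure {u | ∃ y ∈ Q, u = b * y * b⁻¹ * y⁻¹} := by
  by_contra hne
  obtain ⟨y0, hy0, hy1⟩ := hbQ
  set D := Subgroup.closure {u | ∃ y ∈ Q, u = b * y * b⁻¹ * y⁻¹} with hD
  have hDQ : D ≤ Q := by
    rw [hD, Subgroup.closure_le]
    rintro u ⟨y, hy, rfl⟩
    exact Q.mul_mem (hCQ b hbC y hy) (Q.inv_mem hy)
  have hinv : ∀ g ∈ C, ∀ y ∈ D, g * y * g⁻¹ ∈ D := by
    intro g hg y hy
    have h1 : D ≤ D.comap (MulAut.conj g).toMonoidHom := by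
      conv_lhs => rw [hD]
      rw [Subgroup.closure_le]
      rintro u ⟨y, hy, rfl⟩
      show g * (b * y * b⁻¹ * y⁻¹) * g⁻¹ ∈ D
      have h2 : g * (b * y * b⁻¹ * y⁻¹) * g⁻¹ =
          b * (g * y * g⁻¹) * b⁻¹ * (g * y * g⁻¹)⁻¹ := by
        have h3 := hbc g hg
        calc g * (b * y * b⁻¹ * y⁻¹) * g⁻¹ = (g * b) * y * (g * b)⁻¹ * g * y⁻¹ * g⁻¹ := by group
          _ = (b * g) * y * (b * g)⁻¹ * g * y⁻¹ * g⁻¹ := by rw [h3]
          _ = b * (g * y * g⁻¹) * b⁻¹ * (g * y * g⁻¹)⁻¹ := by group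
      rw [h2]
      exact Subgroup.subset_closure ⟨g * y * g⁻¹, hCQ g hg y hy, rfl⟩
    exact h1 hy
  have hcent := hmin D hDQ hinv (Ne.symm hne)
  apply hy1
  refine comm_comm (p := p) Q hQ b ⟨1, fun y _ => by rw [pow_one, hb]; simp⟩
    (fun y hy => hCQ b hbC y hy) (fun y hy => ?_) y0 hy0
  exact hcent _ (Subgroup.subset_closure ⟨y, hy, rfl⟩)

/-- a minimal invariant subgroup is nilpotent of class at most two -/
theorem claimD_class2 {G : Type} [Group G] [Finite G] (C Q : Subgroup G) (hC : IsPGroup p C)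
    (hQ : (Nat.card Q).Coprime p) (hCQ : ∀ g ∈ C, ∀ y ∈ Q, g * y * g⁻¹ ∈ Q)
    (b : G) (hbC : b ∈ C) (hb : b ^ p = 1) (hbc : ∀ x ∈ C, b * x = x * b)
    (hbQ : ∃ y ∈ Q, b * y ≠ y * b)
    (hmin : ∀ Q2 : Subgroup G, Q2 ≤ Q → (∀ g ∈ C, ∀ y ∈ Q2, g * y * g⁻¹ ∈ Q2) → Q2 ≠ Q →
      ∀ y ∈ Q2, b * y = y * b) :
    ∀ x ∈ Q, ∀ y ∈ Q, ∀ z ∈ Q, (x * y * x⁻¹ * y⁻¹) * z = z * (x * y * x⁻¹ * y⁻¹) := by
  obtain ⟨q, hq, T, hTQ, hTq, hTinv, hTb⟩ := inv_sylow_amb Q C hQ hC hCQ b hbC hbQ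
  have hTeq : T = Q := by
    by_contra hne
    obtain ⟨y, hy, hy2⟩ := hTb
    exact hy2 (hmin T hTQ hTinv hne y hy)
  have : Fact q.Prime := ⟨hq⟩
  have hQq : IsPGroup q Q := hTeq ▸ hTq
  -- commutator subgroup
  set D : Subgroup G := ⁅Q, Q⁆ with hD
  have hDQ : D ≤ Q := by
    rw [hD, Subgroup.commutator_le]
    intro x hx y hy
    exact Q.mul_mem (Q.mul_mem (Q.mul_mem hx hy) (Q.inv_mem hx)) (Q.inv_mem hy)
  have hDinv : ∀ g ∈ C, ∀ y ∈ D, g * y * g⁻¹ ∈ D := by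
    intro g hg y hy
    have h1 : D ≤ D.comap (MulAut.conj g).toMonoidHom := by
      conv_lhs => rw [hD]
      rw [Subgroup.commutator_le]
      intro x hx y hy
      show g * (x * y * x⁻¹ * y⁻¹) * g⁻¹ ∈ D
      have h0 : g * (x * y * x⁻¹ * y⁻¹) * g⁻¹ = (g * x * g⁻¹) * (g * y * g⁻¹) * (g * x * g⁻¹)⁻¹ *
          (g * y * g⁻¹)⁻¹ := by group
      rw [h0]
      exact Subgroup.commutator_mem_commutator (hCQ g hg x hx) (hCQ g hg y hy)
    exact h1 hy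
  have hDne : D ≠ Q := by
    intro h
    obtain ⟨y0, hy0, hy1⟩ := hbQ
    have : Nontrivial Q := by
      refine ⟨⟨y0, hy0⟩, 1, ?_⟩
      intro h2
      have h3 : y0 = 1 := congrArg Subtype.val h2
      apply hy1
      rw [h3]; simp
    have : Group.IsNilpotent Q := hQq.isNilpotent
    have : Group.IsSolvable Q := inferInstance
    have h1 : commutator Q ≠ ⊤ := (Group.IsSolvable.commutator_lt_top_of_nontrivial Q).ne
    apply h1
    apply Subgroup.map_injective Q.subtype_injective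
    rw [commutator_def, Subgroup.map_commutator, ← MonoidHom.range_eq_map, Subgroup.range_subtype]
    exact h
  have hbD := hmin D hDQ hDinv hDne
  have hQeq := min_comm C Q hQ hCQ b hbC hb hbc hbQ hmin
  -- three subgroups
  let B := Subgroup.zpowers b
  have h1 : ⁅D, B⁆ = ⊥ := by
    rw [Subgroup.commutator_eq_bot_iff_le_centralizer]
    intro d hd
    rw [Subgroup.mem_centralizer_iff]
    rintro _ ⟨n, rfl⟩
    have h2 : Commute b d := hbD d hd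
    exact h2.zpow_left n
  have h2 : ⁅⁅Q, D⁆, B⁆ = ⊥ := by
    rw [eq_bot_iff, ← h1]
    apply Subgroup.commutator_mono _ le_rfl
    exact Subgroup.commutator_mono le_rfl hDQ
  have h3 : ⁅⁅D, B⁆, Q⁆ = ⊥ := by
    rw [h1]; exact Subgroup.commutator_bot_left _
  have h4 : ⁅⁅B, Q⁆, D⁆ = ⊥ := Subgroup.commutator_commutator_eq_bot_of_rotate h2 h3
  have hQB : Q ≤ ⁅B, Q⁆ := by
    conv_lhs => rw [hQeq]
    rw [Subgroup.closure_le]
    rintro u ⟨y, hy, rfl⟩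
    exact Subgroup.commutator_mem_commutator (Subgroup.mem_zpowers b) hy
  intro x hx y hy z hz
  have h5 : x * y * x⁻¹ * y⁻¹ ∈ D := Subgroup.commutator_mem_commutator hx hy
  have h6 : z ∈ Subgroup.centralizer (D : Set G) :=
    (Subgroup.commutator_eq_bot_iff_le_centralizer.1 h4) (hQB hz)
  exact Subgroup.mem_centralizer_iff.1 h6 _ h5

theorem pow_gen {G : Type} [Group G] {b : G} (hb : b ^ p = 1) {i : ℕ} (hi : b ^ i ≠ 1) :
    ∃ k : ℕ, (b ^ i) ^ k = b := by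
  apply exists_pow_eq_self_of_coprime
  have h1 : ¬ p ∣ i := by
    rintro ⟨c, rfl⟩
    apply hi
    rw [pow_mul, hb, one_pow]
  have h2 : Nat.Coprime i p := ((Nat.Prime.coprime_iff_not_dvd hp.out).2 h1).symm
  exact Nat.Coprime.coprime_dvd_right (orderOf_dvd_of_pow_eq_one hb) h2

/-- the group theoretical configuration in Claim D -/
theorem claimD_group {G : Type} [Group G] [Finite G] (C Q : Subgroup G) (hC : IsPGroup p C)
    (hQ : (Nat.card Q).Coprime p) (hCQ : ∀ g ∈ C, ∀ y ∈ Q, g * y * g⁻¹ ∈ Q)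
    (b : G) (hbC : b ∈ C) (hb : b ^ p = 1) (hbc : ∀ x ∈ C, b * x = x * b)
    (hcomm : ∀ x ∈ C, ∀ y ∈ C, ∃ i : ℕ, x * y = b ^ i * (y * x))
    (hbQ : ∃ y ∈ Q, b * y ≠ y * b)
    (hmin : ∀ Q2 : Subgroup G, Q2 ≤ Q → (∀ g ∈ C, ∀ y ∈ Q2, g * y * g⁻¹ ∈ Q2) → Q2 ≠ Q →
      ∀ y ∈ Q2, b * y = y * b)
    (hcl : ∀ x ∈ Q, ∀ y ∈ Q, ∀ z ∈ Q, (x * y * x⁻¹ * y⁻¹) * z = z * (x * y * x⁻¹ * y⁻¹))
    (hD : ∀ x ∈ Q, ∀ y ∈ Q, ∀ z ∈ C, (x * y * x⁻¹ * y⁻¹) * z = z * (x * y * x⁻¹ * y⁻¹)) :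
    ∃ B G0 X0 : Subgroup G, B ≤ C ∧ G0 ≤ C ∧ X0 ≤ Q ∧ b ∈ G0 ∧ B ≤ G0 ∧
      (∀ x ∈ C, x ∈ G0 ↔ ∀ β ∈ B, x * β = β * x) ∧
      (∀ β ∈ B, ∀ y ∈ X0, β * y = y * β) ∧
      (∀ g ∈ G0, ∀ y ∈ X0, g * y * g⁻¹ ∈ X0) ∧ (∃ y ∈ X0, b * y ≠ y * b) ∧
      (∀ x ∈ C, x ∉ G0 → ∀ y ∈ X0, ∀ y' ∈ X0, y * (x * y' * x⁻¹) = (x * y' * x⁻¹) * y) ∧
      (∀ g ∈ G0, g ^ p ∈ B → ∃ i : ℕ, ∃ β ∈ B, g = b ^ i * β) ∧
      (∀ u : G, (∀ x ∈ C, ∀ y ∈ X0, u * (x * y * x⁻¹) = (x * y * x⁻¹) * u) →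
        ∀ y ∈ Q, u * y = y * u) := by
  classical
  obtain ⟨y1, hy1Q, hy1⟩ := hbQ
  -- the maximal subgroup `B`
  let PB : Subgroup G → Prop := fun B =>
    B ≤ C ∧ ∃ y ∈ Q, (∀ β ∈ B, β * y = y * β) ∧ b * y ≠ y * b
  have hbot : PB ⊥ := ⟨bot_le, y1, hy1Q, by
    intro β hβ
    rw [Subgroup.mem_bot] at hβ
    simp [hβ], hy1⟩
  obtain ⟨B, -, hBmax⟩ := (Set.toFinite {B : Subgroup G | PB B}).exists_le_maximal hbot
  obtain ⟨hBC, y0, hy0Q, hy0B, hy0b⟩ : PB B := hBmax.prop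
  have hmaxB : ∀ B' : Subgroup G, PB B' → B ≤ B' → B' ≤ B := fun B' h1 h2 => hBmax.le_of_ge h1 h2
  have hbB : b ∉ B := fun h => hy0b (hy0B b h)
  have hbpow : ∀ i : ℕ, b ^ i ∈ B → b ^ i = 1 := by
    intro i hi
    by_contra hne
    obtain ⟨k, hk⟩ := pow_gen (p := p) hb hne
    apply hbB
    rw [← hk]
    exact B.pow_mem hi k
  have hnorm : ∀ x ∈ C, (∀ β ∈ B, x * β * x⁻¹ ∈ B) → ∀ β ∈ B, x * β = β * x := by
    intro x hx h β hβ
    obtain ⟨i, hi⟩ := hcomm x hx β (hBC hβ)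
    have h1 : b ^ i = x * β * x⁻¹ * β⁻¹ := by
      rw [hi]; group
    have h2 : b ^ i = 1 := hbpow i (by rw [h1]; exact B.mul_mem (h β hβ) (B.inv_mem hβ))
    rw [hi, h2, one_mul]
  have hBab : ∀ x ∈ B, ∀ β ∈ B, x * β = β * x := fun x hx =>
    hnorm x (hBC hx) (fun β hβ => B.mul_mem (B.mul_mem hx hβ) (B.inv_mem hx))
  -- `G0` and `Y`
  set G0 : Subgroup G := C ⊓ Subgroup.centralizer (B : Set G) with hG0
  set Y : Subgroup G := Q ⊓ Subgroup.centralizer (B : Set G) with hYdef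
  have hG0m : ∀ x, x ∈ G0 ↔ x ∈ C ∧ ∀ β ∈ B, β * x = x * β := by
    intro x
    rw [hG0, Subgroup.mem_inf, Subgroup.mem_centralizer_iff]
    rfl
  have hYm : ∀ x, x ∈ Y ↔ x ∈ Q ∧ ∀ β ∈ B, β * x = x * β := by
    intro x
    rw [hYdef, Subgroup.mem_inf, Subgroup.mem_centralizer_iff]
    rfl
  have hG0C : G0 ≤ C := inf_le_left
  have hYQ : Y ≤ Q := inf_le_left
  have hBG0 : B ≤ G0 := fun x hx => (hG0m x).2 ⟨hBC hx, fun β hβ => hBab β hβ x hx⟩
  have hbG0 : b ∈ G0 := (hG0m b).2 ⟨hbC, fun β hβ => (hbc β (hBC hβ)).symm⟩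
  have hG0Y : ∀ g ∈ G0, ∀ y ∈ Y, g * y * g⁻¹ ∈ Y := by
    intro g hg y hy
    obtain ⟨hgC, hgB⟩ := (hG0m g).1 hg
    obtain ⟨hyQ, hyB⟩ := (hYm y).1 hy
    refine (hYm _).2 ⟨hCQ g hgC y hyQ, fun β hβ => ?_⟩
    have c1 : Commute β g := hgB β hβ
    have c2 : Commute β y := hyB β hβ
    exact ((c1.mul_right c2).mul_right c1.inv_right).eq
  have hy0Y : y0 ∈ Y := (hYm y0).2 ⟨hy0Q, hy0B⟩
  -- the minimal subgroup `X0`
  let PX : Subgroup G → Prop := fun X =>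
    X ≤ Y ∧ (∀ g ∈ G0, ∀ y ∈ X, g * y * g⁻¹ ∈ X) ∧ ∃ y ∈ X, b * y ≠ y * b
  have hPY : PX Y := ⟨le_rfl, hG0Y, y0, hy0Y, hy0b⟩
  obtain ⟨X0, -, hX0min⟩ := (Set.toFinite {X : Subgroup G | PX X}).exists_le_minimal hPY
  obtain ⟨hX0Y, hX0inv, hX0b⟩ : PX X0 := hX0min.prop
  have hX0Q : X0 ≤ Q := hX0Y.trans hYQ
  have hX0m : ∀ X : Subgroup G, X ≤ X0 → (∀ g ∈ G0, ∀ y ∈ X, g * y * g⁻¹ ∈ X) → X ≠ X0 →
      ∀ y ∈ X, b * y = y * b := by
    intro X hX hXinv hne y hy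
    by_contra hcon
    have h1 : PX X := ⟨hX.trans hX0Y, hXinv, y, hy, hcon⟩
    exact hne (le_antisymm hX (hX0min.le_of_le h1 hX))
  have hX0cop : (Nat.card X0).Coprime p :=
    Nat.Coprime.coprime_dvd_left (Subgroup.card_dvd_of_le hX0Q) hQ
  have hYcop : (Nat.card Y).Coprime p :=
    Nat.Coprime.coprime_dvd_left (Subgroup.card_dvd_of_le hYQ) hQ
  have hX0cl := min_comm G0 X0 hX0cop hX0inv b hbG0 hb (fun x hx => hbc x (hG0C hx)) hX0b hX0m
  refine ⟨B, G0, X0, hBC, hG0C, hX0Q, hbG0, hBG0, ?_, ?_, hX0inv, hX0b, ?_, ?_, ?_⟩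
  · intro x hx
    rw [hG0m]
    constructor
    · rintro ⟨_, h⟩ β hβ
      exact (h β hβ).symm
    · intro h
      exact ⟨hx, fun β hβ => (h β hβ).symm⟩
  · intro β hβ y hy
    exact ((hYm y).1 (hX0Y hy)).2 β hβ
  · -- (f)
    intro x hxC hxG0 y hy y' hy'
    obtain ⟨β, hβ, hxβ⟩ : ∃ β ∈ B, x * β ≠ β * x := by
      by_contra hcon
      push Not at hcon
      exact hxG0 ((hG0m x).2 ⟨hxC, fun β hβ => (hcon β hβ).symm⟩)
    obtain ⟨i, hi⟩ := hcomm x hxC β (hBC hβ)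
    have hbi : b ^ i ≠ 1 := by
      intro h
      apply hxβ
      rw [hi, h, one_mul]
    set h := x * β * x⁻¹ with hh
    have hhb : h = b ^ i * β := by
      rw [hh, hi]; group
    set z := x * y' * x⁻¹ with hz
    have hzQ : z ∈ Q := hCQ x hxC y' (hX0Q hy')
    have hhC : h ∈ C := C.mul_mem (C.mul_mem hxC (hBC hβ)) (C.inv_mem hxC)
    have hβX : ∀ w ∈ X0, β * w = w * β := fun w hw => ((hYm w).1 (hX0Y hw)).2 β hβ
    have hhz : h * z = z * h := by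
      have c1 : Commute β y' := hβX y' hy'
      have c2 : Commute (x * β * x⁻¹) (x * y' * x⁻¹) := by
        rw [Commute, SemiconjBy]
        calc x * β * x⁻¹ * (x * y' * x⁻¹) = x * (β * y') * x⁻¹ := by group
          _ = x * (y' * β) * x⁻¹ := by rw [c1.eq]
          _ = x * y' * x⁻¹ * (x * β * x⁻¹) := by group
      exact c2.eq
    have hbX0 : ∀ w ∈ X0, ∀ j : ℕ, b ^ j * w * (b ^ j)⁻¹ ∈ X0 := fun w hw j =>
      hX0inv _ (G0.pow_mem hbG0 j) w hw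
    -- conjugation by `h` on `X0`
    have hconj : ∀ w ∈ X0, h * w * h⁻¹ = b ^ i * w * (b ^ i)⁻¹ := by
      intro w hw
      rw [hhb]
      calc b ^ i * β * w * (b ^ i * β)⁻¹ = b ^ i * (β * w) * β⁻¹ * (b ^ i)⁻¹ := by group
        _ = b ^ i * (w * β) * β⁻¹ * (b ^ i)⁻¹ := by rw [hβX w hw]
        _ = b ^ i * w * (b ^ i)⁻¹ := by group
    -- commutators with `z`
    have hcomm1 : ∀ w ∈ X0, (b ^ i * w * (b ^ i)⁻¹) * z * (b ^ i * w * (b ^ i)⁻¹)⁻¹ * z⁻¹ =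
        w * z * w⁻¹ * z⁻¹ := by
      intro w hw
      rw [← hconj w hw]
      have h1 := hD w (hX0Q hw) z hzQ h hhC
      have h2 : h * z * h⁻¹ = z := by rw [hhz, mul_inv_cancel_right]
      calc (h * w * h⁻¹) * z * (h * w * h⁻¹)⁻¹ * z⁻¹
          = (h * w * h⁻¹) * (h * z * h⁻¹) * (h * w * h⁻¹)⁻¹ * (h * z * h⁻¹)⁻¹ := by rw [h2]
        _ = h * (w * z * w⁻¹ * z⁻¹) * h⁻¹ := by group
        _ = w * z * w⁻¹ * z⁻¹ := by rw [← h1, mul_inv_cancel_right]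
    -- `b^i w b^-i w⁻¹` commutes with `z`
    have hcz : ∀ w ∈ X0, Commute (b ^ i * w * (b ^ i)⁻¹ * w⁻¹) z := by
      intro w hw
      set c := b ^ i * w * (b ^ i)⁻¹ * w⁻¹ with hc
      have hcX : c ∈ X0 := X0.mul_mem (hbX0 w hw i) (X0.inv_mem hw)
      have hcw : b ^ i * w * (b ^ i)⁻¹ = c * w := by rw [hc]; group
      have h1 := hcomm1 w hw
      rw [hcw] at h1
      have h2 := hcl w (hX0Q hw) z hzQ c (hX0Q hcX)
      have h3 : c * w * z * (c * w)⁻¹ * z⁻¹ = (w * z * w⁻¹ * z⁻¹) * (c * z * c⁻¹ * z⁻¹) := by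
        calc c * w * z * (c * w)⁻¹ * z⁻¹ = (c * (w * z * w⁻¹ * z⁻¹)) * z * c⁻¹ * z⁻¹ := by group
          _ = ((w * z * w⁻¹ * z⁻¹) * c) * z * c⁻¹ * z⁻¹ := by rw [h2]
          _ = _ := by group
      rw [h3] at h1
      have h4 : c * z * c⁻¹ * z⁻¹ = 1 := mul_eq_left.1 h1
      have h5 : c * z * c⁻¹ = z := mul_inv_eq_one.1 h4
      exact mul_inv_eq_iff_eq_mul.1 h5
    -- the same with powers of `b^i`
    have hpow : ∀ k : ℕ, ∀ w ∈ X0, Commute ((b ^ i) ^ k * w * ((b ^ i) ^ k)⁻¹ * w⁻¹) z := by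
      intro k
      induction k with
      | zero => intro w hw; simp
      | succ k ih =>
        intro w hw
        have hw' : (b ^ i) ^ k * w * ((b ^ i) ^ k)⁻¹ ∈ X0 := by
          rw [← pow_mul]; exact hbX0 w hw _
        have h1 := hcz _ hw'
        have h2 := h1.mul_left (ih w hw)
        have h3 : (b ^ i) ^ (k + 1) * w * ((b ^ i) ^ (k + 1))⁻¹ * w⁻¹ =
            b ^ i * ((b ^ i) ^ k * w * ((b ^ i) ^ k)⁻¹) * (b ^ i)⁻¹ *
              ((b ^ i) ^ k * w * ((b ^ i) ^ k)⁻¹)⁻¹ *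
              ((b ^ i) ^ k * w * ((b ^ i) ^ k)⁻¹ * w⁻¹) := by
          rw [pow_succ']
          group
        rw [h3]
        exact h2
    obtain ⟨k, hk⟩ := pow_gen (p := p) hb hbi
    have hall : X0 ≤ Subgroup.centralizer {z} := by
      conv_lhs => rw [hX0cl]
      rw [Subgroup.closure_le]
      rintro u ⟨w, hw, rfl⟩
      have h1 := hpow k w hw
      rw [hk] at h1
      rw [SetLike.mem_coe, Subgroup.mem_centralizer_iff]
      intro z' hz'
      rw [Set.mem_singleton_iff] at hz'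
      rw [hz']
      exact h1.eq.symm
    have h1 := Subgroup.mem_centralizer_iff.1 (hall hy) z (Set.mem_singleton z)
    exact h1.symm
  · -- (g)
    intro g hg hgp
    by_contra hcon
    push Not at hcon
    have hbB' : ∀ β ∈ B, Commute b β := fun β hβ => hbc β (hBC hβ)
    have hgb : Commute b g := hbc g (hG0C hg)
    -- the subgroup `K = <b> B`
    let K : Subgroup G := Subgroup.closure ({b} ∪ (B : Set G))
    have hKm : ∀ u ∈ K, ∃ i : ℕ, ∃ β ∈ B, u = b ^ i * β := by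
      intro u hu
      induction hu using Subgroup.closure_induction with
      | mem x hx =>
        rcases hx with hx | hx
        · rw [Set.mem_singleton_iff] at hx
          exact ⟨1, 1, B.one_mem, by rw [hx]; simp⟩
        · exact ⟨0, x, hx, by simp⟩
      | one => exact ⟨0, 1, B.one_mem, by simp⟩
      | mul x y _ _ ihx ihy =>
        obtain ⟨i, β, hβ, rfl⟩ := ihx
        obtain ⟨j, γ, hγ, rfl⟩ := ihy
        refine ⟨i + j, β * γ, B.mul_mem hβ hγ, ?_⟩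
        have h1 : β * b ^ j = b ^ j * β := ((hbB' β hβ).pow_left j).eq.symm
        calc b ^ i * β * (b ^ j * γ) = b ^ i * (β * b ^ j) * γ := by group
          _ = b ^ i * (b ^ j * β) * γ := by rw [h1]
          _ = b ^ (i + j) * (β * γ) := by rw [pow_add]; group
      | inv x _ ih =>
        obtain ⟨i, β, hβ, rfl⟩ := ih
        have hp1 : 1 ≤ p := hp.out.one_lt.le
        refine ⟨i * (p - 1), β⁻¹, B.inv_mem hβ, ?_⟩
        have h1 : (b ^ i)⁻¹ = b ^ (i * (p - 1)) := by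
          rw [inv_eq_iff_mul_eq_one, ← pow_add]
          have : i + i * (p - 1) = p * i := by
            obtain ⟨m, hm⟩ : ∃ m, p = m + 1 := ⟨p - 1, by omega⟩
            rw [hm]; simp; ring
          rw [this, pow_mul, hb, one_pow]
        have h2 : β⁻¹ * (b ^ i)⁻¹ = (b ^ i)⁻¹ * β⁻¹ :=
          (((hbB' β hβ).pow_left i).inv_inv).eq.symm
        rw [mul_inv_rev, h2, h1]
    have hbK : b ∈ K := Subgroup.subset_closure (Or.inl rfl)
    have hBK : B ≤ K := fun x hx => Subgroup.subset_closure (Or.inr hx)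
    have hgK : g ∉ K := by
      intro h
      obtain ⟨i, β, hβ, h1⟩ := hKm g h
      exact hcon i β hβ h1
    apply hy0b
    refine lemmaG_amb (p := p) Y hYcop g b (hG0Y g hg) (hG0Y b hbG0) ?_ ?_ ?_ ?_ y0 hy0Y
    · intro y _
      rw [hgb.eq]
    · intro y hy
      exact ((hYm y).1 hy).2 _ hgp
    · intro y _
      rw [hb]; simp
    · intro i j hi hj hij y hy hcy
      by_contra hby
      set h := g ^ i * b ^ j with hh
      have hhC : h ∈ C := C.mul_mem (C.pow_mem (hG0C hg) i) (C.pow_mem hbC j)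
      have hhB : h ∉ B := by
        intro hmem
        rcases Nat.eq_zero_or_pos i with hi0 | hi0
        · subst hi0
          rw [hh, pow_zero, one_mul] at hmem
          have h1 := hbpow j hmem
          have hj0 : j ≠ 0 := fun h => hij ⟨rfl, h⟩
          -- `b^j = 1` with `0 < j < p` gives `b = 1`
          have h2 : Nat.Coprime j p :=
            (Nat.coprime_of_lt_prime hj0 hj hp.out).symm
          have h3 : orderOf b ∣ Nat.gcd j p :=
            Nat.dvd_gcd (orderOf_dvd_of_pow_eq_one h1) (orderOf_dvd_of_pow_eq_one hb)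
          rw [h2, Nat.dvd_one, orderOf_eq_one_iff] at h3
          exact hy0b (by rw [h3]; simp)
        · apply hgK
          have h1 : g ^ i ∈ K := by
            have : g ^ i = h * (b ^ j)⁻¹ := by rw [hh]; group
            rw [this]
            exact K.mul_mem (hBK hmem) (K.inv_mem (K.pow_mem hbK j))
          have h2 : g ^ p ∈ K := hBK hgp
          have h3 : Nat.Coprime i p := (Nat.coprime_of_lt_prime hi0.ne' hi hp.out).symm
          have h4 : (1 : ℤ) = i * Nat.gcdA i p + p * Nat.gcdB i p := by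
            have := Nat.gcd_eq_gcd_ab i p
            rw [h3] at this
            exact_mod_cast this
          have h5 : g = (g ^ i) ^ (Nat.gcdA i p) * (g ^ p) ^ (Nat.gcdB i p) := by
            rw [← zpow_natCast, ← zpow_natCast, ← zpow_mul, ← zpow_mul, ← zpow_add, ← h4, zpow_one]
          rw [h5]
          exact K.mul_mem (K.zpow_mem h1 _) (K.zpow_mem h2 _)
      -- a larger subgroup
      let B' : Subgroup G := Subgroup.closure ((B : Set G) ∪ {h})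
      have hBB' : B ≤ B' := fun x hx => Subgroup.subset_closure (Or.inl hx)
      have hhB' : h ∈ B' := Subgroup.subset_closure (Or.inr rfl)
      have hB'C : B' ≤ C := by
        rw [Subgroup.closure_le]
        rintro x (hx | hx)
        · exact hBC hx
        · rw [Set.mem_singleton_iff] at hx
          rw [hx]; exact hhC
      have hB'y : B' ≤ Subgroup.centralizer {y} := by
        rw [Subgroup.closure_le]
        intro x hx
        rw [SetLike.mem_coe, Subgroup.mem_centralizer_iff]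
        intro y' hy'
        rw [Set.mem_singleton_iff] at hy'
        rw [hy']
        rcases hx with hx | hx
        · exact (((hYm y).1 hy).2 x hx).symm
        · rw [Set.mem_singleton_iff] at hx
          rw [hx]; exact hcy.symm
      have hPB' : PB B' := by
        refine ⟨hB'C, y, hYQ hy, fun β hβ => ?_, hby⟩
        exact (Subgroup.mem_centralizer_iff.1 (hB'y hβ) y (Set.mem_singleton y)).symm
      exact hhB (hmaxB B' hPB' hBB' hhB')
  · -- (h)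
    intro u hu
    let Q2 : Subgroup G := Subgroup.closure {v | ∃ x ∈ C, ∃ y ∈ X0, v = x * y * x⁻¹}
    have hQ2Q : Q2 ≤ Q := by
      rw [Subgroup.closure_le]
      rintro v ⟨x, hx, y, hy, rfl⟩
      exact hCQ x hx y (hX0Q hy)
    have hQ2inv : ∀ g ∈ C, ∀ y ∈ Q2, g * y * g⁻¹ ∈ Q2 := by
      intro g hg y hy
      have h1 : Q2 ≤ Q2.comap (MulAut.conj g).toMonoidHom := by
        refine (Subgroup.closure_le _).2 ?_
        rintro v ⟨x, hx, y, hy, rfl⟩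
        show g * (x * y * x⁻¹) * g⁻¹ ∈ Q2
        have h2 : g * (x * y * x⁻¹) * g⁻¹ = (g * x) * y * (g * x)⁻¹ := by group
        rw [h2]
        exact Subgroup.subset_closure ⟨g * x, C.mul_mem hg hx, y, hy, rfl⟩
      exact h1 hy
    have hX0Q2 : X0 ≤ Q2 := by
      intro y hy
      exact Subgroup.subset_closure ⟨1, C.one_mem, y, hy, by simp⟩
    have hQ2 : Q2 = Q := by
      by_contra hne
      obtain ⟨y, hy, hy2⟩ := hX0b
      exact hy2 (hmin Q2 hQ2Q hQ2inv hne y (hX0Q2 hy))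
    have hcent : Q2 ≤ Subgroup.centralizer {u} := by
      rw [Subgroup.closure_le]
      rintro v ⟨x, hx, y, hy, rfl⟩
      rw [SetLike.mem_coe, Subgroup.mem_centralizer_iff]
      intro u' hu'
      rw [Set.mem_singleton_iff] at hu'
      rw [hu']
      exact hu x hx y hy
    intro y hy
    rw [← hQ2] at hy
    exact Subgroup.mem_centralizer_iff.1 (hcent hy) u (Set.mem_singleton u)

end

end Pool.Agent.Helper407.PL
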