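import Pool.Agent.Helper407.PLMod2
import Pool.Agent.Helper407.PLGroup

set_option autoImplicit false

namespace Pool.Agent.Helper407.PL

section
variable {k : Type} [Field k] {p : ℕ} [hp : Fact p.Prime] [CharP k p]

/-- vectors fixed by a subgroup -/
def fxd {k H M : Type} [Field k] [Group H] [AddCommGroup M] [Module k M]
    (ρ : H →* Module.End k M) (P : Subgroup H) : Submodule k M where
  carrier := {v | ∀ g ∈ P, ρ g v = v}
  zero_mem' := fun g _ => by simp
  add_mem' := fun {a b} ha hb g hg => by rw [map_add, ha g hg, hb g hg]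
  smul_mem' := fun c a ha g hg => by rw [map_smul, ha g hg]

theorem mem_fxd {k H M : Type} [Field k] [Group H] [AddCommGroup M] [Module k M]
    (ρ : H →* Module.End k M) (P : Subgroup H) (v : M) :
    v ∈ fxd ρ P ↔ ∀ g ∈ P, ρ g v = v := Iff.rfl

theorem mem_of_pow_coprime {H : Type} [Group H] (S : Subgroup H) (g : H) {p i : ℕ}
    (hp : p.Prime) (hi : 0 < i) (hip : i < p) (h1 : g ^ i ∈ S) (h2 : g ^ p ∈ S) : g ∈ S := by
  have hcop : Nat.Coprime i p := (Nat.coprime_of_lt_prime hi.ne' hip hp).symm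
  have h3 := Nat.gcd_eq_gcd_ab i p
  rw [hcop] at h3
  have h4 : g = (g ^ i) ^ (Nat.gcdA i p) * (g ^ p) ^ (Nat.gcdB i p) := by
    rw [← zpow_natCast g i, ← zpow_natCast g p, ← zpow_mul, ← zpow_mul, ← zpow_add, ← h3]
    simp
  rw [h4]
  exact S.mul_mem (S.zpow_mem h1 _) (S.zpow_mem h2 _)

/-- rank one vectors for an elementary abelian section D1/E0 acting on a p'-group Q0 -/
theorem caseA_rankone {H M : Type} [Group H] [Finite H] [AddCommGroup M] [Module k M]
    (ρ : H →* Module.End k M) (hρ : Function.Injective ρ) (Q0 E0 D1 : Subgroup H)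
    (hQ : (Nat.card Q0).Coprime p) (hD1 : IsPGroup p D1)
    (hDQ : ∀ g ∈ D1, ∀ y ∈ Q0, g * y * g⁻¹ ∈ Q0) (hED : E0 ≤ D1)
    (hE : ∀ x ∈ D1, x ∈ E0 ↔ ∀ y ∈ Q0, x * y = y * x)
    (hab : ∀ x ∈ D1, ∀ y ∈ D1, x * y * x⁻¹ * y⁻¹ ∈ E0) (hpp : ∀ x ∈ D1, x ^ p ∈ E0)
    (x : H) (hx : x ∈ D1) (hxE : x ∉ E0) :
    ∃ (F c : M) (φ : H → k), c ≠ 0 ∧ (∀ g ∈ D1, ρ g c = c ∧ ρ g F = F + φ g • c) ∧
      φ x ≠ 0 ∧ ∀ y ∈ E0, φ y = 0 := by
  classical
  have hE' : ∀ e ∈ E0, ∀ y ∈ Q0, e * y = y * e := fun e he => (hE e (hED he)).1 he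
  -- maximal W
  obtain ⟨W, hWmem, hWmax⟩ : ∃ W : Subgroup H, (E0 ≤ W ∧ W ≤ D1 ∧
      ∃ y ∈ Q0, (∀ w ∈ W, w * y = y * w) ∧ x * y ≠ y * x) ∧
      ∀ W' : Subgroup H, (E0 ≤ W' ∧ W' ≤ D1 ∧
        ∃ y ∈ Q0, (∀ w ∈ W', w * y = y * w) ∧ x * y ≠ y * x) → W ≤ W' → W' ≤ W := by
    have hfin : {W : Subgroup H | E0 ≤ W ∧ W ≤ D1 ∧
      ∃ y ∈ Q0, (∀ w ∈ W, w * y = y * w) ∧ x * y ≠ y * x}.Finite := Set.toFinite _
    have hne : {W : Subgroup H | E0 ≤ W ∧ W ≤ D1 ∧
      ∃ y ∈ Q0, (∀ w ∈ W, w * y = y * w) ∧ x * y ≠ y * x}.Nonempty := by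
      refine ⟨E0, le_rfl, hED, ?_⟩
      by_contra hcon
      push Not at hcon
      apply hxE
      rw [hE x hx]
      intro y hy
      exact hcon y hy (fun w hw => hE' w hw y hy)
    obtain ⟨W, hW⟩ := hfin.exists_maximal hne
    exact ⟨W, hW.1, fun W' hW' hle => hW.2 hW' hle⟩
  obtain ⟨hEW, hWD, y0, hy0, hy0W, hy0x⟩ := hWmem
  have hnormW : ∀ g ∈ D1, ∀ w ∈ W, g * w * g⁻¹ ∈ W := by
    intro g hg w hw
    have h1 := W.mul_mem (hEW (hab g hg w (hWD hw))) hw
    simpa using h1
  have hnormW' : ∀ g ∈ D1, ∀ w ∈ W, g⁻¹ * w * g ∈ W := by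
    intro g hg w hw
    have := hnormW g⁻¹ (D1.inv_mem hg) w hw
    simpa using this
  set Y : Subgroup H := Q0 ⊓ Subgroup.centralizer (W : Set H) with hYdef
  have hYmem : ∀ y, y ∈ Y ↔ y ∈ Q0 ∧ ∀ w ∈ W, w * y = y * w := by
    intro y
    rw [hYdef, Subgroup.mem_inf, Subgroup.mem_centralizer_iff]
    rfl
  have hy0Y : y0 ∈ Y := (hYmem y0).2 ⟨hy0, hy0W⟩
  have hnormY : ∀ g ∈ D1, ∀ y ∈ Y, g * y * g⁻¹ ∈ Y := by
    intro g hg y hy
    rw [hYmem] at hy ⊢
    refine ⟨hDQ g hg y hy.1, ?_⟩
    intro w hw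
    have h1 := hy.2 _ (hnormW' g hg w hw)
    calc w * (g * y * g⁻¹) = g * (g⁻¹ * w * g * y) * g⁻¹ := by group
      _ = g * (y * (g⁻¹ * w * g)) * g⁻¹ := by rw [h1]
      _ = g * y * g⁻¹ * w := by group
  have hxW : x ∉ W := fun h => hy0x (hy0W x h)
  have hYcard : (Nat.card Y).Coprime p :=
    Nat.Coprime.coprime_dvd_left (Subgroup.card_dvd_of_le inf_le_left) hQ
  -- D1 is generated by W and x
  have hgen : D1 ≤ W ⊔ Subgroup.zpowers x := by
    intro g hg
    by_contra hgW
    have hxS : x ∈ W ⊔ Subgroup.zpowers x :=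
      (le_sup_right : Subgroup.zpowers x ≤ _) (Subgroup.mem_zpowers x)
    have hWS : W ≤ W ⊔ Subgroup.zpowers x := le_sup_left
    apply hy0x
    refine lemmaG_amb (p := p) Y hYcard g x (hnormY g hg) (hnormY x hx) ?_ ?_ ?_ ?_ y0 hy0Y
    · intro y hy
      have he := hab g hg x hx
      set e := g * x * g⁻¹ * x⁻¹ with hedef
      have h1 : g * x = e * (x * g) := by rw [hedef]; group
      have h2 : x * g * y * (x * g)⁻¹ ∈ Q0 := hDQ (x * g) (D1.mul_mem hx hg) y ((hYmem y).1 hy).1
      have h3 := hE' e he _ h2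
      calc g * x * y * (g * x)⁻¹ = e * (x * g * y * (x * g)⁻¹) * e⁻¹ := by rw [h1]; group
        _ = (x * g * y * (x * g)⁻¹) * e * e⁻¹ := by rw [h3]
        _ = x * g * y * (x * g)⁻¹ := by group
    · intro y hy
      exact hE' _ (hpp g hg) y ((hYmem y).1 hy).1
    · intro y hy
      exact hE' _ (hpp x hx) y ((hYmem y).1 hy).1
    · intro i j hi hj hij y hy hcomm
      by_contra hxy
      have hhD : g ^ i * x ^ j ∈ D1 := D1.mul_mem (D1.pow_mem hg _) (D1.pow_mem hx _)
      have hhW : g ^ i * x ^ j ∉ W := by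
        intro hh
        by_cases hi0 : i = 0
        · subst hi0
          rw [pow_zero, one_mul] at hh
          have hj0 : 0 < j := by
            rcases Nat.eq_zero_or_pos j with h | h
            · exact absurd ⟨rfl, h⟩ hij
            · exact h
          exact hxW (mem_of_pow_coprime W x hp.out hj0 hj hh (hEW (hpp x hx)))
        · apply hgW
          apply mem_of_pow_coprime _ g hp.out (Nat.pos_of_ne_zero hi0) hi _
            (hWS (hEW (hpp g hg)))
          have h1 : g ^ i = (g ^ i * x ^ j) * (x ^ j)⁻¹ := by group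
          rw [h1]
          exact Subgroup.mul_mem _ (hWS hh) (Subgroup.inv_mem _ (Subgroup.pow_mem _ hxS _))
      have hle := hWmax (W ⊔ Subgroup.zpowers (g ^ i * x ^ j)) ⟨hEW.trans le_sup_left,
        sup_le hWD (by rwa [Subgroup.zpowers_le]), y, ((hYmem y).1 hy).1, ?_, hxy⟩ le_sup_left
      · exact hhW (hle ((le_sup_right : Subgroup.zpowers (g ^ i * x ^ j) ≤ _)
          (Subgroup.mem_zpowers _)))
      · have h5 : W ⊔ Subgroup.zpowers (g ^ i * x ^ j) ≤ Subgroup.centralizer {y} := by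
          apply sup_le
          · intro w hw
            rw [Subgroup.mem_centralizer_iff]
            intro z hz
            rw [Set.mem_singleton_iff] at hz
            rw [hz]
            exact (((hYmem y).1 hy).2 w hw).symm
          · rw [Subgroup.zpowers_le, Subgroup.mem_centralizer_iff]
            intro z hz
            rw [Set.mem_singleton_iff] at hz
            rw [hz]
            exact hcomm.symm
        intro w hw
        have h6 := h5 hw
        rw [Subgroup.mem_centralizer_iff] at h6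
        exact (h6 y rfl).symm
  -- the module part
  have hBstab : ∀ g ∈ D1, ∀ v ∈ fxd ρ W, ρ g v ∈ fxd ρ W := by
    intro g hg v hv
    rw [mem_fxd] at hv ⊢
    intro w hw
    have h1 := hv _ (hnormW' g hg w hw)
    calc ρ w (ρ g v) = ρ (w * g) v := by rw [map_mul, Module.End.mul_apply]
      _ = ρ (g * (g⁻¹ * w * g)) v := by congr 2; group
      _ = ρ g (ρ (g⁻¹ * w * g) v) := by rw [map_mul, Module.End.mul_apply]
      _ = ρ g v := by rw [h1]
  set B : Submodule k M := fxd ρ W with hB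
  set A : Submodule k M := fxd ρ W ⊓ fxd ρ (Subgroup.zpowers x) with hA
  have hAfix : ∀ v ∈ A, ∀ g ∈ D1, ρ g v = v := by
    intro v hv g hg
    have hS : W ⊔ Subgroup.zpowers x ≤
        { carrier := {g | ρ g v = v}
          one_mem' := by simp
          mul_mem' := fun {a b} ha hb => by
            change ρ (a * b) v = v
            rw [map_mul, Module.End.mul_apply]
            rw [Set.mem_ofPred_eq] at ha hb
            rw [hb, ha]
          inv_mem' := fun {a} ha => by
            change ρ a⁻¹ v = v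
            have ha' : ρ a v = v := ha
            calc ρ a⁻¹ v = ρ a⁻¹ (ρ a v) := by rw [ha']
              _ = v := by rw [← Module.End.mul_apply, ← map_mul]; simp : Subgroup H } := by
      apply sup_le
      · intro w hw
        exact hv.1 w hw
      · intro w hw
        exact hv.2 w hw
    exact hS (hgen hg)
  have hxfix : ∀ v, ρ x v = v → v ∈ fxd ρ (Subgroup.zpowers x) := by
    intro v hv
    have hS : Subgroup.zpowers x ≤
        { carrier := {g | ρ g v = v}
          one_mem' := by simp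
          mul_mem' := fun {a b} ha hb => by
            change ρ (a * b) v = v
            rw [map_mul, Module.End.mul_apply]
            rw [Set.mem_ofPred_eq] at ha hb
            rw [hb, ha]
          inv_mem' := fun {a} ha => by
            change ρ a⁻¹ v = v
            have ha' : ρ a v = v := ha
            calc ρ a⁻¹ v = ρ a⁻¹ (ρ a v) := by rw [ha']
              _ = v := by rw [← Module.End.mul_apply, ← map_mul]; simp : Subgroup H } := by
      rw [Subgroup.zpowers_le]
      exact hv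
    exact fun g hg => hS hg
  have hBA : ¬ B ≤ A := by
    intro hle
    have hxB : ∀ v ∈ B, ρ x v = v := fun v hv => (hle hv).2 x (Subgroup.mem_zpowers x)
    have hxB' : ∀ v ∈ B, ρ x⁻¹ v = v := by
      intro v hv
      calc ρ x⁻¹ v = ρ x⁻¹ (ρ x v) := by rw [hxB v hv]
        _ = v := by rw [← Module.End.mul_apply, ← map_mul]; simp
    have hYB : ∀ y ∈ Y, ∀ v ∈ B, ρ y v ∈ B := by
      intro y hy v hv
      rw [hB, mem_fxd] at hv ⊢
      intro w hw
      rw [← Module.End.mul_apply, ← map_mul, ((hYmem y).1 hy).2 w hw, map_mul,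
        Module.End.mul_apply, hv w hw]
    let X' : Subgroup H :=
      { carrier := {z | z ∈ Y ∧ ∀ v ∈ B, ρ z v = v}
        one_mem' := ⟨Y.one_mem, fun v _ => by simp⟩
        mul_mem' := fun {a b} ha hb => ⟨Y.mul_mem ha.1 hb.1, fun v hv => by
          rw [map_mul, Module.End.mul_apply, hb.2 v hv, ha.2 v hv]⟩
        inv_mem' := fun {a} ha => ⟨Y.inv_mem ha.1, fun v hv => by
          calc ρ a⁻¹ v = ρ a⁻¹ (ρ a v) := by rw [ha.2 v hv]
            _ = v := by rw [← Module.End.mul_apply, ← map_mul]; simp⟩ }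
    have hX'Y : X' ≤ Y := fun z hz => hz.1
    have hX'card : (Nat.card X').Coprime p :=
      Nat.Coprime.coprime_dvd_left (Subgroup.card_dvd_of_le hX'Y) hYcard
    have hWp : IsPGroup p W := hD1.to_le hWD
    have hab2 := ab_lemma ρ hWp hX'card
      (fun g hg z hz => ((hYmem z).1 (hX'Y hz)).2 g hg)
      (fun v hv z hz => hz.2 v hv)
    have htriv : ∀ z ∈ X', z = 1 := by
      intro z hz
      apply hρ
      ext v
      rw [hab2 z hz v]
      simp
    apply hy0x
    have hz : x * y0 * x⁻¹ * y0⁻¹ ∈ X' := by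
      refine ⟨Y.mul_mem (hnormY x hx y0 hy0Y) (Y.inv_mem hy0Y), ?_⟩
      intro v hv
      have h1 := hYB y0⁻¹ (Y.inv_mem hy0Y) v hv
      rw [map_mul, map_mul, map_mul, Module.End.mul_apply, Module.End.mul_apply,
        Module.End.mul_apply, hxB' _ h1]
      have h2 : ρ y0 (ρ y0⁻¹ v) = v := by
        rw [← Module.End.mul_apply, ← map_mul]; simp
      rw [h2, hxB v hv]
    have h3 := htriv _ hz
    have h4 : x * y0 = (x * y0 * x⁻¹ * y0⁻¹) * (y0 * x) := by group
    rw [h4, h3, one_mul]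
  obtain ⟨F, hFB, hFA, hF⟩ := exists_fixed_quot ρ hD1 A B hBA
    (fun g hg w hw => by rw [hAfix w hw g hg]; exact hw) hBstab
  set c : M := ρ x F - F with hc
  have hcA : c ∈ A := hF x hx
  have hc0 : c ≠ 0 := by
    intro h
    apply hFA
    refine ⟨hFB, hxfix F ?_⟩
    rw [hc] at h
    exact sub_eq_zero.1 h
  have hS : W ⊔ Subgroup.zpowers x ≤
      { carrier := {g | ρ g c = c ∧ ∃ a : k, ρ g F = F + a • c}
        one_mem' := ⟨by simp, 0, by simp⟩
        mul_mem' := fun {a b} ha hb => by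
          obtain ⟨ha1, s, hs⟩ := ha
          obtain ⟨hb1, t, ht⟩ := hb
          refine ⟨?_, s + t, ?_⟩
          · rw [map_mul, Module.End.mul_apply, hb1, ha1]
          · rw [map_mul, Module.End.mul_apply, ht, map_add, map_smul, hs, ha1, add_smul, add_assoc]
        inv_mem' := fun {a} ha => by
          obtain ⟨ha1, s, hs⟩ := ha
          have hinv : ∀ v, ρ a⁻¹ (ρ a v) = v := by
            intro v
            rw [← Module.End.mul_apply, ← map_mul]; simp
          have h1 : ρ a⁻¹ c = c := by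
            calc ρ a⁻¹ c = ρ a⁻¹ (ρ a c) := by rw [ha1]
              _ = c := hinv c
          refine ⟨h1, -s, ?_⟩
          have h2 := hinv F
          rw [hs, map_add, map_smul, h1] at h2
          rw [neg_smul, ← sub_eq_add_neg]
          exact eq_sub_of_add_eq h2 : Subgroup H } := by
    apply sup_le
    · intro w hw
      exact ⟨hcA.1 w hw, 0, by rw [hFB w hw]; simp⟩
    · rw [Subgroup.zpowers_le]
      exact ⟨hcA.2 x (Subgroup.mem_zpowers x), 1, by rw [hc]; simp⟩
  have hex : ∀ g ∈ D1, ∃ a : k, ρ g F = F + a • c := fun g hg => (hS (hgen hg)).2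
  refine ⟨F, c, fun g => if h : ∃ a : k, ρ g F = F + a • c then h.choose else 0, hc0, ?_, ?_, ?_⟩
  · intro g hg
    refine ⟨(hS (hgen hg)).1, ?_⟩
    have h := hex g hg
    simp only [dif_pos h]
    exact h.choose_spec
  · have h := hex x hx
    simp only [dif_pos h]
    intro h0
    have h1 := h.choose_spec
    rw [h0, zero_smul, add_zero] at h1
    apply hc0
    rw [hc, h1, sub_self]
  · intro y hy
    have h := hex y (hED hy)
    simp only [dif_pos h]
    have h1 := h.choose_spec
    have h2 : h.choose • c = 0 := by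
      have h3 : F + h.choose • c = F + 0 := by
        rw [add_zero]; exact h1.symm.trans (hFB y (hEW hy))
      exact add_left_cancel h3
    rcases smul_eq_zero.1 h2 with h3 | h3
    · exact h3
    · exact absurd h3 hc0

end


end Pool.Agent.Helper407.PL
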