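import Pool.Agent.Helper407.PLCore
import Pool.Agent.Helper407.PLGroup

set_option autoImplicit false

namespace Pool.Agent.Helper407.PL

section
variable {k : Type} [Field k] [IsAlgClosed k] {p : ℕ} [hp : Fact p.Prime] [CharP k p]

/-- Claim D for a minimal configuration -/
theorem claimD_core {G V : Type} [Group G] [Finite G] [AddCommGroup V] [Module k V]
    [FiniteDimensional k V] [Nontrivial V] (ρ : G →* Module.End k V) (hρ : Function.Injective ρ)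
    (C Q Z : Subgroup G) (hC : IsPGroup p C)
    (hQ : (Nat.card Q).Coprime p) (hCQ : ∀ g ∈ C, ∀ y ∈ Q, g * y * g⁻¹ ∈ Q)
    (b : G) (hbC : b ∈ C) (hb : b ^ p = 1) (hbc : ∀ x ∈ C, b * x = x * b)
    (hcomm : ∀ x ∈ C, ∀ y ∈ C, ∃ i : ℕ, x * y = b ^ i * (y * x))
    (hbQ : ∃ y ∈ Q, b * y ≠ y * b)
    (hmin : ∀ Q2 : Subgroup G, Q2 ≤ Q → (∀ g ∈ C, ∀ y ∈ Q2, g * y * g⁻¹ ∈ Q2) → Q2 ≠ Q →
      ∀ y ∈ Q2, b * y = y * b)
    (hirr : ∀ W : Submodule k V, (∀ g ∈ Q, ∀ w ∈ W, ρ g w ∈ W) → (∀ g ∈ C, ∀ w ∈ W, ρ g w ∈ W) →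
      W = ⊥ ∨ W = ⊤)
    (hZ : ∀ x, x ∈ Z ↔ x ∈ C ∧ ∀ y ∈ C, x * y = y * x)
    (hidx : p ^ (p ^ 3 + 3) < Z.relIndex C) : RO ρ C := by
  classical
  have hcl := claimD_class2 C Q hC hQ hCQ b hbC hb hbc hbQ hmin
  -- centre of Q
  let ZQ : Subgroup G :=
    { carrier := {z | z ∈ Q ∧ ∀ y ∈ Q, z * y = y * z}
      one_mem' := ⟨Q.one_mem, fun y _ => by simp⟩
      mul_mem' := fun {a c} ha hc => ⟨Q.mul_mem ha.1 hc.1, fun y hy => by
        rw [mul_assoc, hc.2 y hy, ← mul_assoc, ha.2 y hy, mul_assoc]⟩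
      inv_mem' := fun {a} ha => ⟨Q.inv_mem ha.1, fun y hy => by
        have := ha.2 y hy
        calc a⁻¹ * y = a⁻¹ * (y * a) * a⁻¹ := by group
          _ = a⁻¹ * (a * y) * a⁻¹ := by rw [this]
          _ = y * a⁻¹ := by group⟩ }
  have hZQ : ∀ z, z ∈ ZQ ↔ z ∈ Q ∧ ∀ y ∈ Q, z * y = y * z := fun z => Iff.rfl
  have hZQle : ZQ ≤ Q := fun z hz => hz.1
  have hZQc : (Nat.card ZQ).Coprime p :=
    Nat.Coprime.coprime_dvd_left (Subgroup.card_dvd_of_le hZQle) hQ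
  have hZQab : ∀ x ∈ ZQ, ∀ y ∈ ZQ, x * y = y * x := fun x hx y hy => hx.2 y hy.1
  have hCZQ : ∀ g ∈ C, ∀ z ∈ ZQ, g * z * g⁻¹ ∈ ZQ := by
    intro g hg z hz
    refine ⟨hCQ g hg z hz.1, fun y hy => ?_⟩
    have h1 : g⁻¹ * y * g ∈ Q := by simpa using hCQ g⁻¹ (C.inv_mem hg) y hy
    have h2 := hz.2 _ h1
    calc g * z * g⁻¹ * y = g * (z * (g⁻¹ * y * g)) * g⁻¹ := by group
      _ = g * ((g⁻¹ * y * g) * z) * g⁻¹ := by rw [h2]
      _ = y * (g * z * g⁻¹) := by group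
  obtain ⟨μ, v, hv, hμ⟩ := exists_weight ρ ZQ hZQab
  by_cases hmove : ∃ x ∈ C, ∃ z ∈ ZQ, μ (x⁻¹ * z * x) ≠ μ z
  · exact weights_rankone ρ C ZQ hC hZQc hZQab hCZQ μ v hv hμ hmove
  push Not at hmove
  -- the weight space is everything
  let W : Submodule k V :=
    { carrier := {u | ∀ z ∈ ZQ, ρ z u = μ z • u}
      zero_mem' := fun z _ => by simp
      add_mem' := fun {a c} ha hc z hz => by rw [map_add, ha z hz, hc z hz, smul_add]
      smul_mem' := fun a c hc z hz => by rw [map_smul, hc z hz, smul_comm] }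
  have hW : W = ⊤ := by
    rcases hirr W (by
        intro g hg w hw z hz
        rw [← Module.End.mul_apply, ← map_mul, hz.2 g hg, map_mul, Module.End.mul_apply, hw z hz,
          map_smul]) (by
        intro g hg w hw z hz
        have h1 : g⁻¹ * z * g ∈ ZQ := by simpa using hCZQ g⁻¹ (C.inv_mem hg) z hz
        have h2 := hw _ h1
        rw [hmove g hg z hz] at h2
        have h3 : z * g = g * (g⁻¹ * z * g) := by group
        rw [← Module.End.mul_apply, ← map_mul, h3, map_mul, Module.End.mul_apply, h2, map_smul])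
        with h | h
    · exfalso
      apply hv
      have : v ∈ W := hμ
      rwa [h, Submodule.mem_bot] at this
    · exact h
  have hscal : ∀ z ∈ ZQ, ρ z = μ z • 1 := by
    intro z hz
    ext u
    have : u ∈ W := by rw [hW]; trivial
    exact this z hz
  have hcen : ∀ z ∈ ZQ, ∀ g : G, z * g = g * z := by
    intro z hz g
    apply hρ
    rw [map_mul, map_mul, hscal z hz, smul_mul_assoc, one_mul, mul_smul_comm, mul_one]
  have hcommZ : ∀ x ∈ Q, ∀ y ∈ Q, x * y * x⁻¹ * y⁻¹ ∈ ZQ := fun x hx y hy =>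
    ⟨Q.mul_mem (Q.mul_mem (Q.mul_mem hx hy) (Q.inv_mem hx)) (Q.inv_mem hy), hcl x hx y hy⟩
  obtain ⟨B, G0, X0, hBC, hG0C, hX0Q, hbG0, hBG0, hG0, hBX, hG0X, hbX, hX0, hU, hlast⟩ :=
    claimD_group C Q hC hQ hCQ b hbC hb hbc hcomm hbQ hmin hcl
      (fun x hx y hy z _ => hcen _ (hcommZ x hx y hy) z)
  have hXc : (Nat.card X0).Coprime p :=
    Nat.Coprime.coprime_dvd_left (Subgroup.card_dvd_of_le hX0Q) hQ
  have hcommρ : ∀ g ∈ X0, ∀ h ∈ X0, ρ h * ρ g = μ (h * g * h⁻¹ * g⁻¹) • (ρ g * ρ h) := by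
    intro g hg h hh
    have h1 := hscal _ (hcommZ h (hX0Q hh) g (hX0Q hg))
    have h2 : h * g = (h * g * h⁻¹ * g⁻¹) * (g * h) := by group
    rw [← map_mul, h2, map_mul, h1, smul_mul_assoc, one_mul, map_mul, h2.symm]
  refine core_final ρ hρ C B G0 X0 Z hC hXc b hbC hb hbc hcomm hG0C hbG0 hBG0 hG0 hBX hG0X hbX
    hX0 hU ?_ (fun g hg h hh => ⟨_, hcommρ g hg h hh⟩) hZ hidx
  intro g hg
  by_cases hc : ∀ h ∈ X0, h * g = g * h
  · left
    have hgZ : g ∈ ZQ := by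
      refine ⟨hX0Q hg, fun y hy => hlast g ?_ y hy⟩
      intro x hx y hy
      by_cases hxG : x ∈ G0
      · exact (hc _ (hG0X x hxG y hy)).symm
      · exact hX0 x hx hxG g hg y hy
    exact ⟨_, hscal g hgZ⟩
  · right
    push Not at hc
    obtain ⟨h, hh, hne⟩ := hc
    refine ⟨h, hh, _, ?_, hcommρ g hg h hh⟩
    intro hμ1
    have h1 := hcommρ g hg h hh
    rw [hμ1, one_smul, ← map_mul, ← map_mul] at h1
    exact hne (hρ h1)

end

end Pool.Agent.Helper407.PL
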