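import Pool.Agent.Helper407.PLClaimD

set_option autoImplicit false

namespace Pool.Agent.Helper407.PL

section
variable {k : Type} [Field k] [IsAlgClosed k] {p : ℕ} [hp : Fact p.Prime] [CharP k p]

/-- Claim D -/
theorem claimD {G V : Type} [Group G] [Finite G] [AddCommGroup V] [Module k V]
    [FiniteDimensional k V] (ρ : G →* Module.End k V) (hρ : Function.Injective ρ)
    (C Q Z : Subgroup G) (hC : IsPGroup p C)
    (hQ : (Nat.card Q).Coprime p) (hCQ : ∀ g ∈ C, ∀ y ∈ Q, g * y * g⁻¹ ∈ Q)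
    (b : G) (hbC : b ∈ C) (hb : b ^ p = 1) (hbc : ∀ x ∈ C, b * x = x * b)
    (hcomm : ∀ x ∈ C, ∀ y ∈ C, ∃ i : ℕ, x * y = b ^ i * (y * x))
    (hbQ : ∃ y ∈ Q, b * y ≠ y * b)
    (hZ : ∀ x, x ∈ Z ↔ x ∈ C ∧ ∀ y ∈ C, x * y = y * x)
    (hidx : p ^ (p ^ 3 + 3) < Z.relIndex C) : RO ρ C := by
  classical
  -- minimal Q1
  let T : Set ℕ := {n | ∃ Q1 : Subgroup G, Q1 ≤ Q ∧ (∀ g ∈ C, ∀ y ∈ Q1, g * y * g⁻¹ ∈ Q1) ∧
    (∃ y ∈ Q1, b * y ≠ y * b) ∧ Nat.card Q1 = n}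
  have hTne : T.Nonempty := ⟨_, Q, le_rfl, hCQ, hbQ, rfl⟩
  obtain ⟨Q1, hQ1Q, hCQ1, hbQ1, hQ1c⟩ := Nat.sInf_mem hTne
  have hmin : ∀ Q2 : Subgroup G, Q2 ≤ Q1 → (∀ g ∈ C, ∀ y ∈ Q2, g * y * g⁻¹ ∈ Q2) → Q2 ≠ Q1 →
      ∀ y ∈ Q2, b * y = y * b := by
    intro Q2 hle hinv hne y hy
    by_contra hcon
    apply hne
    have h1 : sInf T ≤ Nat.card Q2 := Nat.sInf_le ⟨Q2, hle.trans hQ1Q, hinv, ⟨y, hy, hcon⟩, rfl⟩
    rw [← hQ1c] at h1
    exact Subgroup.eq_of_le_of_card_ge hle h1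
  have hQ1p : (Nat.card Q1).Coprime p :=
    Nat.Coprime.coprime_dvd_left (Subgroup.card_dvd_of_le hQ1Q) hQ
  have hQ1b := min_comm C Q1 hQ1p hCQ1 b hbC hb hbc hbQ1 hmin
  have hcard : (Nat.card Q1 : k) ≠ 0 := by
    intro h
    rw [CharP.cast_eq_zero_iff k p] at h
    exact hp.out.one_lt.ne' (Nat.Coprime.eq_one_of_dvd (Nat.coprime_comm.1 hQ1p) h)
  have : Fintype Q1 := Fintype.ofFinite Q1
  let A : Module.End k V := ∑ x : Q1, ρ x
  have hA : ∀ v, A v = ∑ x : Q1, ρ x v := fun v => LinearMap.sum_apply _ _ _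
  have hAQ : ∀ (y : G), y ∈ Q1 → ∀ v, A (ρ y v) = A v := by
    intro y hy v
    rw [hA, hA]
    have : ∀ x : Q1, ρ x (ρ y v) = ρ ((x * ⟨y, hy⟩ : Q1) : G) v := by
      intro x; simp
    simp_rw [this]
    exact Fintype.sum_equiv (Equiv.mulRight (⟨y, hy⟩ : Q1)) _ _ (fun y => rfl)
  have hker0 : LinearMap.ker A ≠ ⊥ := by
    intro hker
    obtain ⟨y, hy, hne⟩ := hbQ1
    apply hne
    have h1 : ρ y = 1 := by
      ext v
      have h2 : ρ y v - v ∈ LinearMap.ker A := by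
        rw [LinearMap.mem_ker, map_sub, hAQ y hy, sub_self]
      rw [hker, Submodule.mem_bot, sub_eq_zero] at h2
      exact h2
    have h3 : y = 1 := hρ (by rw [h1, map_one])
    rw [h3]; simp
  have hkerC : ∀ g ∈ C, ∀ v ∈ LinearMap.ker A, ρ g v ∈ LinearMap.ker A := by
    intro g hg v hv
    rw [LinearMap.mem_ker, hA] at hv ⊢
    have h1 : ∀ x : Q1, ρ x (ρ g v) = ρ g (ρ (g⁻¹ * x * g) v) := by
      intro x
      rw [← Module.End.mul_apply, ← map_mul, ← Module.End.mul_apply, ← map_mul]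
      congr 2; group
    simp_rw [h1]
    rw [← map_sum]
    have h2 : ∑ x : Q1, ρ (g⁻¹ * (x : G) * g) v = ∑ x : Q1, ρ x v := by
      let e : Q1 ≃ Q1 :=
        { toFun := fun x => ⟨g⁻¹ * x * g, by simpa using hCQ1 g⁻¹ (C.inv_mem hg) x x.2⟩
          invFun := fun x => ⟨g * x * g⁻¹, hCQ1 g hg x x.2⟩
          left_inv := fun x => by ext; simp [mul_assoc]
          right_inv := fun x => by ext; simp [mul_assoc] }
      exact Fintype.sum_equiv e _ _ (fun x => rfl)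
    rw [h2, hv, map_zero]
  have hkerQ : ∀ g ∈ Q1, ∀ v ∈ LinearMap.ker A, ρ g v ∈ LinearMap.ker A := by
    intro g hg v hv
    rw [LinearMap.mem_ker] at hv ⊢
    rw [hAQ g hg, hv]
  have hkerfix : ∀ v ∈ LinearMap.ker A, (∀ y ∈ Q1, ρ y v = v) → v = 0 := by
    intro v hv hfix
    have h2 : ∀ x ∈ (Finset.univ : Finset Q1), ρ (x : G) v = v := fun x _ => hfix x x.2
    rw [LinearMap.mem_ker, hA, Finset.sum_congr rfl h2, Finset.sum_const,
      Finset.card_univ, ← Nat.card_eq_fintype_card, ← Nat.cast_smul_eq_nsmul k] at hv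
    exact (smul_eq_zero.1 hv).resolve_left hcard
  -- minimal V1
  let SS : Set ℕ := {n | ∃ W : Submodule k V, W ≠ ⊥ ∧ W ≤ LinearMap.ker A ∧
    (∀ g ∈ Q1, ∀ w ∈ W, ρ g w ∈ W) ∧ (∀ g ∈ C, ∀ w ∈ W, ρ g w ∈ W) ∧ Module.finrank k W = n}
  have hSSne : SS.Nonempty := ⟨_, LinearMap.ker A, hker0, le_rfl, hkerQ, hkerC, rfl⟩
  obtain ⟨S, hS0, hSA, hSQ, hSC, hSd⟩ := Nat.sInf_mem hSSne
  have hminS : ∀ W : Submodule k V, W ≤ S → (∀ g ∈ Q1, ∀ w ∈ W, ρ g w ∈ W) →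
      (∀ g ∈ C, ∀ w ∈ W, ρ g w ∈ W) → W = ⊥ ∨ W = S := by
    intro W hle hWX hWG
    by_cases h0 : W = ⊥
    · exact Or.inl h0
    · right
      refine Submodule.eq_of_le_of_finrank_le hle ?_
      rw [hSd]; exact Nat.sInf_le ⟨W, h0, hle.trans hSA, hWX, hWG, rfl⟩
  have hSnt : Nontrivial S := (Submodule.nontrivial_iff_ne_bot).2 hS0
  -- pass to the quotient acting faithfully on S
  let K : Subgroup G := stab ρ S
  let σ : K →* Module.End k S := stabRep ρ S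
  have hQK : Q1 ≤ K := fun g hg => hSQ g hg
  have hCK : C ≤ K := fun g hg => hSC g hg
  let N : Subgroup K := σ.ker
  let π : K →* K ⧸ N := QuotientGroup.mk' N
  let ρ' : (K ⧸ N) →* Module.End k S := QuotientGroup.lift N σ (fun g hg => hg)
  have hρ'π : ∀ g : K, ρ' (π g) = σ g := fun g => rfl
  have hπs : Function.Surjective π := QuotientGroup.mk'_surjective N
  have hρ'inj : Function.Injective ρ' := by
    rw [injective_iff_map_eq_one]
    intro x hx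
    obtain ⟨g, rfl⟩ := hπs x
    have : σ g = 1 := hx
    exact (QuotientGroup.eq_one_iff g).2 this
  let C1 : Subgroup (K ⧸ N) := (C.subgroupOf K).map π
  let Q' : Subgroup (K ⧸ N) := (Q1.subgroupOf K).map π
  have hC1mem : ∀ g (hg : g ∈ C), π ⟨g, hCK hg⟩ ∈ C1 := fun g hg => ⟨⟨g, hCK hg⟩, hg, rfl⟩
  have hQ1mem : ∀ g (hg : g ∈ Q1), π ⟨g, hQK hg⟩ ∈ Q' := fun g hg => ⟨⟨g, hQK hg⟩, hg, rfl⟩
  have hC1ex : ∀ x ∈ C1, ∃ (g : G) (hg : g ∈ C), π ⟨g, hCK hg⟩ = x := by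
    rintro _ ⟨⟨g, hgK⟩, hg, rfl⟩
    exact ⟨g, hg, rfl⟩
  have hQ1ex : ∀ x ∈ Q', ∃ (g : G) (hg : g ∈ Q1), π ⟨g, hQK hg⟩ = x := by
    rintro _ ⟨⟨g, hgK⟩, hg, rfl⟩
    exact ⟨g, hg, rfl⟩
  have hC1p : IsPGroup p C1 := (hC.comap_subtype).map π
  have hQ'c : (Nat.card Q').Coprime p := by
    have h1 : Nat.card (Q1.subgroupOf K) = Nat.card Q1 :=
      Nat.card_congr (Subgroup.subgroupOfEquivOfLe hQK).toEquiv
    have h2 : Nat.card Q' ∣ Nat.card (Q1.subgroupOf K) := Subgroup.card_map_dvd _ _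
    rw [h1] at h2
    exact Nat.Coprime.coprime_dvd_left h2 hQ1p
  set b1 : K ⧸ N := π ⟨b, hCK hbC⟩ with hb1
  have hkerb : ∃ y ∈ Q', b1 * y ≠ y * b1 := by
    by_contra hcon
    push Not at hcon
    have h1 : Q1 ≤ N.map K.subtype := by
      rw [hQ1b, Subgroup.closure_le]
      rintro _ ⟨y, hy, rfl⟩
      have h2 := hcon _ (hQ1mem y hy)
      have h3 : π (⟨b, hCK hbC⟩ * ⟨y, hQK hy⟩ * ⟨b, hCK hbC⟩⁻¹ * ⟨y, hQK hy⟩⁻¹) = 1 := by
        have h9 : b1 * π ⟨y, hQK hy⟩ * b1⁻¹ * (π ⟨y, hQK hy⟩)⁻¹ = 1 := by rw [h2]; group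
        simpa only [map_mul, map_inv] using h9
      exact ⟨_, (QuotientGroup.eq_one_iff _).1 h3, by simp⟩
    obtain ⟨s, hs⟩ := exists_ne (0 : S)
    apply hs
    apply Subtype.ext
    apply hkerfix s (hSA s.2)
    intro y hy
    obtain ⟨g, hg, hgy⟩ := h1 hy
    have h4 : σ g = 1 := hg
    have h5 := congrArg (fun T : Module.End k S => ((T s : S) : V)) h4
    have h6 : ρ g s = s := h5
    have h7 : (g : G) = y := hgy
    rwa [h7] at h6
  let Z1 : Subgroup (K ⧸ N) :=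
    { carrier := {z | z ∈ C1 ∧ ∀ y ∈ C1, z * y = y * z}
      one_mem' := ⟨C1.one_mem, fun y _ => by simp⟩
      mul_mem' := fun {a c} ha hc => ⟨C1.mul_mem ha.1 hc.1, fun y hy => by
        rw [mul_assoc, hc.2 y hy, ← mul_assoc, ha.2 y hy, mul_assoc]⟩
      inv_mem' := fun {a} ha => ⟨C1.inv_mem ha.1, fun y hy => by
        have := ha.2 y hy
        calc a⁻¹ * y = a⁻¹ * (y * a) * a⁻¹ := by group
          _ = a⁻¹ * (a * y) * a⁻¹ := by rw [this]
          _ = y * a⁻¹ := by group⟩ }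
  have hb1c : ∀ x ∈ C1, b1 * x = x * b1 := by
    intro x hx
    obtain ⟨g, hg, rfl⟩ := hC1ex x hx
    rw [hb1, ← map_mul, ← map_mul]
    congr 1; exact Subtype.ext (hbc g hg)
  have hb1ne : ∀ i : ℕ, b1 ^ i = 1 → b ^ i = 1 := by
    intro i hi
    by_contra hcon
    -- then b1 = 1
    have h1 : ¬ p ∣ i := by
      rintro ⟨j, rfl⟩
      apply hcon
      rw [pow_mul, hb, one_pow]
    have h2 : b1 ^ p = 1 := by
      rw [hb1, ← map_pow]
      have : (⟨b, hCK hbC⟩ : K) ^ p = 1 := Subtype.ext (by simpa using hb)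
      rw [this, map_one]
    have h3 : b1 = 1 := by
      rw [← orderOf_eq_one_iff]
      exact Nat.eq_one_of_dvd_coprimes ((Nat.Prime.coprime_iff_not_dvd hp.out).2 h1)
        (orderOf_dvd_of_pow_eq_one h2) (orderOf_dvd_of_pow_eq_one hi)
    obtain ⟨y, hy, hne⟩ := hkerb
    apply hne
    rw [h3]; simp
  have hidx1 : p ^ (p ^ 3 + 3) < Z1.relIndex C1 := by
    refine lt_of_lt_of_le hidx ?_
    let f : C →* C1 :=
      { toFun := fun g => ⟨π ⟨g, hCK g.2⟩, hC1mem g g.2⟩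
        map_one' := Subtype.ext (by
          change π ⟨1, _⟩ = 1
          exact map_one π)
        map_mul' := fun x y => Subtype.ext (by
          change π (⟨x, hCK x.2⟩ * ⟨y, hCK y.2⟩) = _
          rw [map_mul]; rfl) }
    have hf : Function.Surjective f := by
      rintro ⟨x, hx⟩
      obtain ⟨g, hg, rfl⟩ := hC1ex x hx
      exact ⟨⟨g, hg⟩, rfl⟩
    have h1 : ((Z1.subgroupOf C1).comap f).index = (Z1.subgroupOf C1).index :=
      Subgroup.index_comap_of_surjective _ hf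
    have h2 : (Z1.subgroupOf C1).comap f ≤ Z.subgroupOf C := by
      intro x hx
      rw [Subgroup.mem_comap, Subgroup.mem_subgroupOf] at hx
      rw [Subgroup.mem_subgroupOf, hZ]
      refine ⟨x.2, fun y hy => ?_⟩
      have h3 := hx.2 _ (hC1mem y hy)
      obtain ⟨i, hi⟩ := hcomm x x.2 y hy
      have h4 : b1 ^ i = 1 := by
        have h5 : (⟨x, hCK x.2⟩ * ⟨y, hCK hy⟩ : K) =
            ⟨b, hCK hbC⟩ ^ i * (⟨y, hCK hy⟩ * ⟨x, hCK x.2⟩) := Subtype.ext (by simpa using hi)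
        have h6 := congrArg π h5
        rw [map_mul, map_mul, map_pow, map_mul] at h6
        have h7 : π ⟨x, hCK x.2⟩ * π ⟨y, hCK hy⟩ = π ⟨y, hCK hy⟩ * π ⟨x, hCK x.2⟩ := h3
        rw [h7] at h6
        exact (right_eq_mul.1 h6)
      rw [hi, hb1ne i h4, one_mul]
    calc Z.relIndex C ≤ ((Z1.subgroupOf C1).comap f).index :=
          Nat.le_of_dvd (Nat.pos_of_ne_zero (Subgroup.index_ne_zero_of_finite))
            (Subgroup.index_dvd_of_le h2)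
      _ = Z1.relIndex C1 := h1
  have hRO : RO ρ' C1 := by
    refine claimD_core ρ' hρ'inj C1 Q' Z1 hC1p hQ'c ?_ b1 (hC1mem b hbC) ?_ hb1c ?_ hkerb ?_ ?_
      (fun x => Iff.rfl) hidx1
    · intro g0 hg0 y0 hy0
      obtain ⟨g, hg, rfl⟩ := hC1ex g0 hg0
      obtain ⟨y, hy, rfl⟩ := hQ1ex y0 hy0
      rw [← map_mul, ← map_inv, ← map_mul]
      exact hQ1mem _ (hCQ1 g hg y hy)
    · rw [hb1, ← map_pow]
      have : (⟨b, hCK hbC⟩ : K) ^ p = 1 := Subtype.ext (by simpa using hb)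
      rw [this, map_one]
    · intro x0 hx0 y0 hy0
      obtain ⟨x, hx, rfl⟩ := hC1ex x0 hx0
      obtain ⟨y, hy, rfl⟩ := hC1ex y0 hy0
      obtain ⟨i, hi⟩ := hcomm x hx y hy
      refine ⟨i, ?_⟩
      rw [hb1, ← map_pow, ← map_mul, ← map_mul, ← map_mul]
      congr 1; exact Subtype.ext (by simpa using hi)
    · intro Q2 hle hinv hne y2 hy2
      let Qt : Subgroup G := ((Q2.comap π).map K.subtype) ⊓ Q1
      have hQtinv : ∀ g ∈ C, ∀ y ∈ Qt, g * y * g⁻¹ ∈ Qt := by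
        rintro g hg y ⟨⟨y', hy', hyy⟩, hy1⟩
        refine ⟨⟨⟨g, hCK hg⟩ * y' * ⟨g, hCK hg⟩⁻¹, ?_, ?_⟩, hCQ1 g hg y hy1⟩
        · change π _ ∈ Q2
          rw [map_mul, map_mul, map_inv]
          exact hinv _ (hC1mem g hg) _ hy'
        · rw [← hyy]; simp
      have hQtne : Qt ≠ Q1 := by
        intro heq
        apply hne
        apply le_antisymm hle
        intro x hx
        obtain ⟨g, hg, rfl⟩ := hQ1ex x hx
        have hg2 : g ∈ Qt := by rw [heq]; exact hg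
        obtain ⟨⟨y', hy', hyy⟩, -⟩ := hg2
        have : y' = ⟨g, hQK hg⟩ := Subtype.ext hyy
        rw [← this]; exact hy'
      obtain ⟨y, hy, rfl⟩ := hQ1ex y2 (hle hy2)
      have hyt : y ∈ Qt := ⟨⟨⟨y, hQK hy⟩, hy2, rfl⟩, hy⟩
      have h1 := hmin Qt inf_le_right hQtinv hQtne y hyt
      rw [hb1, ← map_mul, ← map_mul]
      congr 1; exact Subtype.ext h1
    · intro W hWQ hWC
      rcases hminS (W.map S.subtype) (Submodule.map_subtype_le S W) (by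
          rintro g hg _ ⟨u, hu, rfl⟩
          exact ⟨_, hWQ _ (hQ1mem g hg) u hu, rfl⟩) (by
          rintro g hg _ ⟨u, hu, rfl⟩
          exact ⟨_, hWC _ (hC1mem g hg) u hu, rfl⟩) with h | h
      · left
        rw [eq_bot_iff]
        intro u hu
        have h3 : (u : V) ∈ W.map S.subtype := ⟨u, hu, rfl⟩
        rw [h, Submodule.mem_bot] at h3
        exact (Submodule.mem_bot k).2 (Subtype.ext h3)
      · right
        rw [eq_top_iff]
        rintro ⟨w, hw⟩ _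
        rw [← h] at hw
        obtain ⟨u, hu, hu'⟩ := hw
        have : u = ⟨w, hu' ▸ u.2⟩ := Subtype.ext hu'
        rwa [← this]
  obtain ⟨F, c, hc, hc1, hc2, g, hg, hgF⟩ := hRO
  refine ⟨F, c, fun h => hc (Subtype.ext h), fun g hg => ?_, fun g hg => ?_, ?_⟩
  · exact congrArg Subtype.val (hc1 _ (hC1mem g hg))
  · obtain ⟨a, ha⟩ := hc2 _ (hC1mem g hg)
    exact ⟨a, congrArg Subtype.val ha⟩
  · obtain ⟨g1, hg1, rfl⟩ := hC1ex g hg
    exact ⟨g1, hg1, fun h => hgF (Subtype.ext h)⟩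

end

end Pool.Agent.Helper407.PL
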