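import Mathlib

set_option autoImplicit false

namespace Pool.Agent.Helper407.PL

open scoped Pointwise in
/-- Invariant Sylow subgroup: a p-group P of automorphisms of a finite p'-group Y normalises a Sylow q-subgroup
for every q; if b moves something then b moves something in a P-invariant Sylow subgroup. -/
theorem exists_inv_sylow (p : ℕ) [Fact p.Prime] (Y : Type*) [Group Y] [Finite Y]
    (hY : (Nat.card Y).Coprime p) (P : Subgroup (MulAut Y)) (hP : IsPGroup p P)
    (b : MulAut Y) (hb : b ≠ 1) :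
    ∃ q : ℕ, q.Prime ∧ ∃ S : Subgroup Y, IsPGroup q S ∧ (∀ a ∈ P, ∀ s ∈ S, a s ∈ S) ∧
      ∃ s ∈ S, b s ≠ s := by
  by_contra hcon
  push Not at hcon
  apply hb
  -- the fixed subgroup of b
  let F : Subgroup Y := MonoidHom.eqLocus (b : Y →* Y) (MonoidHom.id Y)
  have hF : ∀ y, y ∈ F ↔ b y = y := fun y => Iff.rfl
  have hdvd : Nat.card Y ∣ Nat.card F := by
    rw [← Nat.factorization_prime_le_iff_dvd Nat.card_pos.ne' Nat.card_pos.ne']
    intro q hq
    haveI : Fact q.Prime := ⟨hq⟩
    -- fixed Sylow subgroup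
    have hnd : ¬ p ∣ Nat.card (Sylow q Y) := by
      intro hd
      obtain ⟨S0⟩ := (inferInstance : Nonempty (Sylow q Y))
      have h1 : Nat.card (Sylow q Y) ∣ Nat.card Y :=
        (S0.card_dvd_index).trans (Subgroup.index_dvd_card _)
      have h2 : p ∣ Nat.card Y := hd.trans h1
      have h3 : p ∣ Nat.gcd (Nat.card Y) p := Nat.dvd_gcd h2 dvd_rfl
      rw [hY] at h3
      exact (Fact.out : p.Prime).one_lt.ne' (Nat.dvd_one.1 h3)
    obtain ⟨S, hS⟩ := hP.nonempty_fixed_point_of_prime_not_dvd_card (Sylow q Y) hnd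
    have hinv : ∀ a ∈ P, ∀ s ∈ (S : Subgroup Y), a s ∈ (S : Subgroup Y) := by
      intro a ha s hs
      have h1 : (⟨a, ha⟩ : P) • S = S := hS ⟨a, ha⟩
      have h2 : (⟨a, ha⟩ : P) • s ∈ (⟨a, ha⟩ : P) • (S : Subgroup Y) :=
        Subgroup.smul_mem_pointwise_smul _ _ _ hs
      have h3 : (⟨a, ha⟩ : P) • (S : Subgroup Y) = (S : Subgroup Y) := by
        have := congrArg (fun T : Sylow q Y => (T : Subgroup Y)) h1
        exact this
      rw [h3] at h2
      exact h2
    have hSF : (S : Subgroup Y) ≤ F := by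
      intro s hs
      rw [hF]
      exact hcon q hq S S.2 hinv s hs
    have h3 : Nat.card S ∣ Nat.card F := Subgroup.card_dvd_of_le hSF
    rw [S.card_eq_multiplicity] at h3
    exact (hq.pow_dvd_iff_le_factorization Nat.card_pos.ne').1 h3
  have hFtop : F = ⊤ := by
    apply Subgroup.eq_top_of_le_card
    exact Nat.le_of_dvd Nat.card_pos hdvd
  ext y
  have : y ∈ F := by rw [hFtop]; trivial
  exact (hF y).1 this

/-- restriction of an automorphism to an invariant subgroup -/
noncomputable def resAut {Y : Type*} [Group Y] [Finite Y] (a : MulAut Y) (T : Subgroup Y)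
    (h : ∀ t ∈ T, a t ∈ T) : MulAut T :=
  MulEquiv.ofBijective
    ({ toFun := fun t => ⟨a t, h t t.2⟩
       map_one' := by ext; simp
       map_mul' := fun s t => by ext; simp } : T →* T)
    (Finite.injective_iff_bijective.1 (by
      intro s t hst
      have := congrArg Subtype.val hst
      exact Subtype.ext (a.injective this)))

@[simp] lemma resAut_coe {Y : Type*} [Group Y] [Finite Y] (a : MulAut Y) (T : Subgroup Y)
    (h : ∀ t ∈ T, a t ∈ T) (t : T) : ((resAut a T h t : T) : Y) = a t := rfl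

lemma resAut_pow {Y : Type*} [Group Y] [Finite Y] (a : MulAut Y) (T : Subgroup Y)
    (h : ∀ t ∈ T, a t ∈ T) (n : ℕ) (t : T) : (((resAut a T h) ^ n) t : Y) = (a ^ n) t := by
  induction n generalizing t with
  | zero => simp
  | succ n ih => rw [pow_succ, pow_succ, MulAut.mul_apply, MulAut.mul_apply, ih, resAut_coe]

/-- the p-group generated by two commuting automorphisms -/
def pSub {Y : Type*} [Group Y] (g x : MulAut Y) (hgx : Commute g x) : Subgroup (MulAut Y) where
  carrier := {a | ∃ i j : ℤ, a = g ^ i * x ^ j}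
  one_mem' := ⟨0, 0, by simp⟩
  mul_mem' := by
    rintro a b ⟨i, j, rfl⟩ ⟨k, l, rfl⟩
    refine ⟨i + k, j + l, ?_⟩
    have h1 : x ^ j * g ^ k = g ^ k * x ^ j := ((hgx.symm.zpow_zpow j k)).eq
    rw [zpow_add, zpow_add, mul_assoc, ← mul_assoc (x ^ j), h1, mul_assoc, mul_assoc]
  inv_mem' := by
    rintro a ⟨i, j, rfl⟩
    refine ⟨-i, -j, ?_⟩
    rw [mul_inv_rev, ← zpow_neg, ← zpow_neg]
    exact (hgx.symm.zpow_zpow (-j) (-i)).eq

lemma pSub_pgroup (p : ℕ) {Y : Type*} [Group Y] (g x : MulAut Y) (hgx : Commute g x)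
    (hg : g ^ p = 1) (hx : x ^ p = 1) : IsPGroup p (pSub g x hgx) := by
  rintro ⟨a, i, j, rfl⟩
  refine ⟨1, ?_⟩
  ext1
  simp only [pow_one, Subgroup.coe_pow, Subgroup.coe_one]
  rw [(hgx.zpow_zpow i j).mul_pow, ← zpow_natCast, ← zpow_natCast, ← zpow_mul, ← zpow_mul,
    mul_comm i, mul_comm j, zpow_mul, zpow_mul, zpow_natCast, zpow_natCast, hg, hx]
  simp

/-- iterated product -/
def np {Y : Type*} [Group Y] (f : ℕ → Y) : ℕ → Y
  | 0 => 1
  | n + 1 => np f n * f n

lemma map_np {Y A : Type*} [Group Y] [CommGroup A] (φ : Y →* A) (f : ℕ → Y) (n : ℕ) :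
    φ (np f n) = ∏ t ∈ Finset.range n, φ (f t) := by
  induction n with
  | zero => simp [np]
  | succ n ih => rw [np, map_mul, ih, Finset.prod_range_succ]

lemma aut_np {Y : Type*} [Group Y] (h : MulAut Y) (f : ℕ → Y) (n : ℕ) :
    h (np f n) = np (fun t => h (f t)) n := by
  induction n with
  | zero => simp [np]
  | succ n ih => rw [np, map_mul, ih, np]

/-- coset lemma -/
lemma coset_fix (p : ℕ) [Fact p.Prime] {Y : Type*} [Group Y] [Finite Y]
    (hY : (Nat.card Y).Coprime p) (D : Subgroup Y) (h : MulAut Y) (hp : h ^ p = 1)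
    (hD : ∀ y, h y ∈ D ↔ y ∈ D) (z : Y) (hz : z⁻¹ * h z ∈ D) :
    ∃ w, z⁻¹ * w ∈ D ∧ h w = w := by
  classical
  have hiff : ∀ w : Y, z⁻¹ * (MulEquiv.toEquiv h w) ∈ D ↔ z⁻¹ * w ∈ D := by
    intro w
    have e : z⁻¹ * h w = (z⁻¹ * h z) * h (z⁻¹ * w) := by
      rw [map_mul, map_inv]; group
    change z⁻¹ * h w ∈ D ↔ _
    rw [e, D.mul_mem_cancel_left hz, hD]
  let σ : Equiv.Perm {w : Y // z⁻¹ * w ∈ D} :=
    Equiv.Perm.subtypePerm (MulEquiv.toEquiv h) hiff
  have hσ : ∀ (n : ℕ) (w : {w : Y // z⁻¹ * w ∈ D}), ((σ ^ n) w : Y) = (h ^ n) w := by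
    intro n
    induction n with
    | zero => intro w; simp
    | succ n ih =>
      intro w
      rw [pow_succ, pow_succ, Equiv.Perm.mul_apply, MulAut.mul_apply, ih]
      rfl
  have hσp : σ ^ p ^ 1 = 1 := by
    ext w
    rw [pow_one, hσ, hp]
    rfl
  haveI : Fintype {w : Y // z⁻¹ * w ∈ D} := Fintype.ofFinite _
  have hcard : Fintype.card {w : Y // z⁻¹ * w ∈ D} = Nat.card D := by
    rw [← Nat.card_eq_fintype_card]
    refine Nat.card_congr
      { toFun := fun w => ⟨z⁻¹ * w, w.2⟩
        invFun := fun d => ⟨z * d, by simp⟩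
        left_inv := fun w => by simp
        right_inv := fun d => by simp }
  have hnd : ¬ p ∣ Fintype.card {w : Y // z⁻¹ * w ∈ D} := by
    rw [hcard]
    intro hd
    have h2 : p ∣ Nat.card Y := hd.trans (Subgroup.card_subgroup_dvd_card D)
    have h3 : p ∣ Nat.gcd (Nat.card Y) p := Nat.dvd_gcd h2 dvd_rfl
    rw [hY] at h3
    exact (Fact.out : p.Prime).one_lt.ne' (Nat.dvd_one.1 h3)
  obtain ⟨a, ha⟩ := Equiv.Perm.exists_fixed_point_of_prime hnd hσp
  refine ⟨a, a.2, ?_⟩
  have := congrArg Subtype.val ha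
  exact this

lemma prod_mul_mod (p : ℕ) [Fact p.Prime] {A : Type*} [CommGroup A] (F : ℕ → A)
    (hF : ∀ j, F j = F (j % p)) (t : ℕ) (ht0 : 0 < t) (htp : t < p) :
    ∏ i ∈ Finset.range p, F (i * t) = ∏ j ∈ Finset.range p, F j := by
  have hp : p.Prime := Fact.out
  have hmaps : ∀ i ∈ Finset.range p, (i * t) % p ∈ Finset.range p := fun i _ =>
    Finset.mem_range.2 (Nat.mod_lt _ hp.pos)
  have hcop : Nat.Coprime t p := (Nat.coprime_of_lt_prime ht0.ne' htp hp).symm
  have hinj : Set.InjOn (fun i => (i * t) % p) (Finset.range p : Set ℕ) := by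
    intro i hi j hj hij
    have h1 : i * t ≡ j * t [MOD p] := hij
    have h2 : i ≡ j [MOD p] := Nat.ModEq.cancel_right_of_coprime (by
      rw [Nat.gcd_comm]; exact hcop) h1
    have hi' := Finset.mem_range.1 (Finset.mem_coe.1 hi)
    have hj' := Finset.mem_range.1 (Finset.mem_coe.1 hj)
    rwa [Nat.ModEq, Nat.mod_eq_of_lt hi', Nat.mod_eq_of_lt hj'] at h2
  refine Finset.prod_nbij (fun i => (i * t) % p) hmaps hinj ?_ ?_
  · exact Finset.surjOn_of_injOn_of_card_le _ hmaps hinj le_rfl
  · intro i _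
    exact hF _

/-- Lemma G -/
theorem lemmaG_aux (p : ℕ) [Fact p.Prime] : ∀ (n : ℕ) (Y : Type*) [Group Y] [Finite Y]
    (_ : Nat.card Y = n)
    (_ : (Nat.card Y).Coprime p) (g x : MulAut Y) (_ : Commute g x) (_ : g ^ p = 1)
    (_ : x ^ p = 1)
    (_ : ∀ i j : ℕ, i < p → j < p → ¬ (i = 0 ∧ j = 0) → ∀ y : Y, (g ^ i * x ^ j) y = y → x y = y),
    x = 1 := by
  intro n
  induction n using Nat.strong_induction_on with
  | _ n ih =>
  intro Y _ _ hn hY g x hgx hg hx h
  by_contra hx1
  have hp : p.Prime := Fact.out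
  obtain ⟨q, hq, S, hSq, hSinv, s, hs, hxs⟩ :=
    exists_inv_sylow p Y hY (pSub g x hgx) (pSub_pgroup p g x hgx hg hx) x hx1
  haveI : Fact q.Prime := ⟨hq⟩
  have hgS : ∀ t ∈ S, g t ∈ S := hSinv g ⟨1, 0, by simp⟩
  have hxS : ∀ t ∈ S, x t ∈ S := hSinv x ⟨0, 1, by simp⟩
  -- the induction step for invariant proper subgroups
  have step : ∀ T : Subgroup Y, (∀ t ∈ T, g t ∈ T) → (∀ t ∈ T, x t ∈ T) → T ≠ ⊤ →
      ∀ t ∈ T, x t = t := by
    intro T hgT hxT hT t ht
    have hlt : Nat.card T < n := by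
      rw [← hn]
      refine lt_of_le_of_ne (Subgroup.card_le_card_group T) ?_
      intro hc
      exact hT (Subgroup.eq_top_of_card_eq T hc)
    have h1 := ih (Nat.card T) hlt T rfl
      (Nat.Coprime.coprime_dvd_left (Subgroup.card_subgroup_dvd_card T) hY)
      (resAut g T hgT) (resAut x T hxT) ?_ ?_ ?_ ?_
    · have := congrArg (fun a : MulAut T => ((a ⟨t, ht⟩ : T) : Y)) h1
      simpa using this
    · apply MulEquiv.ext
      intro y
      apply Subtype.ext
      rw [MulAut.mul_apply, MulAut.mul_apply, resAut_coe, resAut_coe, resAut_coe, resAut_coe]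
      have := congrArg (fun a : MulAut Y => a (y : Y)) hgx.eq
      simpa using this
    · apply MulEquiv.ext
      intro y
      apply Subtype.ext
      rw [resAut_pow, hg]; rfl
    · apply MulEquiv.ext
      intro y
      apply Subtype.ext
      rw [resAut_pow, hx]; rfl
    · intro i j hi hj hij y hy
      apply Subtype.ext
      rw [resAut_coe]
      apply h i j hi hj hij
      have := congrArg Subtype.val hy
      rw [MulAut.mul_apply, resAut_pow, resAut_pow] at this
      exact this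
  by_cases hStop : S = ⊤
  swap
  · exact hxs (step S hgS hxS hStop s hs)
  -- now Y is a q-group
  have hYq : IsPGroup q Y := by
    intro y
    obtain ⟨k, hk⟩ := hSq ⟨y, by rw [hStop]; trivial⟩
    exact ⟨k, by simpa using congrArg Subtype.val hk⟩
  haveI : Nontrivial Y := by
    by_contra hnt
    rw [not_nontrivial_iff_subsingleton] at hnt
    exact hxs (Subsingleton.elim _ _)
  haveI : Group.IsNilpotent Y := hYq.isNilpotent
  haveI : Group.IsSolvable Y := inferInstance
  have hDtop : commutator Y ≠ ⊤ := (Group.IsSolvable.commutator_lt_top_of_nontrivial Y).ne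
  have hDchar : ∀ (a : MulAut Y) (y : Y), a y ∈ commutator Y ↔ y ∈ commutator Y := by
    intro a y
    have h1 : (commutator Y).comap (a : Y ≃* Y).toMonoidHom = commutator Y :=
      Subgroup.characteristic_iff_comap_eq.1 inferInstance a
    constructor
    · intro hy
      rw [← h1]; exact hy
    · intro hy
      rw [← h1] at hy; exact hy
  have hxD : ∀ d ∈ commutator Y, x d = d :=
    step _ (fun t ht => (hDchar g t).2 ht) (fun t ht => (hDchar x t).2 ht) hDtop
  -- the abelianization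
  let φ : Y →* Abelianization Y := Abelianization.of
  have hφ : ∀ a b : Y, φ a = φ b ↔ a⁻¹ * b ∈ commutator Y := by
    intro a b
    rw [← Abelianization.ker_of Y, MonoidHom.mem_ker, map_mul, map_inv, inv_mul_eq_one]
  let F : Subgroup Y := MonoidHom.eqLocus (x : Y →* Y) (MonoidHom.id Y)
  have hF : ∀ y, y ∈ F ↔ x y = y := fun y => Iff.rfl
  let FA : Subgroup (Abelianization Y) := F.map φ
  have hFA : ∀ y, φ y ∈ FA → y ∈ F := by
    intro y hy
    obtain ⟨w, hw, hwy⟩ := Subgroup.mem_map.1 hy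
    have h1 : w⁻¹ * y ∈ commutator Y := (hφ w y).1 hwy
    have h2 : w⁻¹ * y ∈ F := hxD _ h1
    have := F.mul_mem hw h2
    simpa using this
  -- norm elements
  have hnorm : ∀ (k : MulAut Y), k ^ p = 1 → (∀ y, k y = y → x y = y) → ∀ y,
      ∏ t ∈ Finset.range p, φ ((k ^ t) y) ∈ FA := by
    intro k hk hkx y
    set z := np (fun t => (k ^ t) y) p with hz
    rw [← map_np φ]
    have h1 : φ z = φ (k z) := by
      rw [hz, aut_np, map_np, map_np]
      have e : ∀ t, k ((k ^ t) y) = (k ^ (t + 1)) y := by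
        intro t; rw [pow_succ', MulAut.mul_apply]
      simp only [e]
      have h2 := Finset.prod_range_succ (fun t => φ ((k ^ t) y)) p
      rw [Finset.prod_range_succ'] at h2
      rw [hk, pow_zero] at h2
      exact (mul_right_cancel h2).symm
    obtain ⟨w, hw1, hw2⟩ := coset_fix p hY (commutator Y) k hk (hDchar k) z ((hφ _ _).1 h1)
    have h3 : φ z = φ w := (hφ _ _).2 hw1
    change φ z ∈ FA
    rw [h3]
    exact Subgroup.mem_map_of_mem φ (hkx w hw2)
  -- the main identity
  have hxpow : ∀ y, y ∈ F := by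
    intro y
    let f : ℕ → ℕ → Abelianization Y := fun s t => φ ((g ^ s) ((x ^ t) y))
    have hgm : ∀ s, g ^ s = g ^ (s % p) := fun s => pow_eq_pow_mod s hg
    have hxm : ∀ s, x ^ s = x ^ (s % p) := fun s => pow_eq_pow_mod s hx
    have hPgx : ∀ i ∈ Finset.range p, ∏ t ∈ Finset.range p, f t (i * t) ∈ FA := by
      intro i hi
      have h1 := hnorm (g * x ^ i) ?_ ?_ y
      · have e : ∀ t, ((g * x ^ i) ^ t) y = (g ^ t) ((x ^ (i * t)) y) := by
          intro t
          rw [(hgx.pow_right i).mul_pow, ← pow_mul, MulAut.mul_apply]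
        simp only [e] at h1
        exact h1
      · rw [(hgx.pow_right i).mul_pow, ← pow_mul, mul_comm i, pow_mul, hg, hx]; simp
      · intro y hy
        by_cases hp1 : (1 : ℕ) < p
        · exact h 1 i hp1 (Finset.mem_range.1 hi) (by simp) y (by simpa using hy)
        · exact absurd hp.one_lt hp1
    have hxx : ∀ y, (x ^ 1) y = y → x y = y := fun y hy => by simpa using hy
    have hPx : ∏ t ∈ Finset.range p, f 0 t ∈ FA := by
      have h1 := hnorm x hx (fun y hy => hy) y
      simpa [f] using h1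
    have hE : ∏ t ∈ Finset.range p, ∏ s ∈ Finset.range p, f s t ∈ FA := by
      have h1 := hnorm x hx (fun y hy => hy) (np (fun s => (g ^ s) y) p)
      have e : ∀ t, φ ((x ^ t) (np (fun s => (g ^ s) y) p)) = ∏ s ∈ Finset.range p, f s t := by
        intro t
        rw [aut_np, map_np]
        refine Finset.prod_congr rfl fun s _ => ?_
        have h2 : (x ^ t) ((g ^ s) y) = (g ^ s) ((x ^ t) y) := by
          rw [← MulAut.mul_apply, ← MulAut.mul_apply, (hgx.pow_pow s t).eq]
        rw [h2]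
      simp only [e] at h1
      exact h1
    have hid : (∏ i ∈ Finset.range p, ∏ t ∈ Finset.range p, f t (i * t)) *
        ∏ t ∈ Finset.range p, f 0 t =
        (φ y) ^ p * ∏ t ∈ Finset.range p, ∏ s ∈ Finset.range p, f s t := by
      rw [Finset.prod_comm]
      rw [Finset.prod_comm (s := Finset.range p) (t := Finset.range p) (f := fun t s => f s t)]
      obtain ⟨m, rfl⟩ : ∃ m, p = m + 1 := ⟨p - 1, (Nat.succ_pred_eq_of_pos hp.pos).symm⟩
      rw [Finset.prod_range_succ' (fun t => ∏ i ∈ Finset.range (m + 1), f t (i * t)) m]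
      rw [Finset.prod_range_succ' (fun s => ∏ t ∈ Finset.range (m + 1), f s t) m]
      have h1 : ∀ t ∈ Finset.range m, ∏ i ∈ Finset.range (m + 1), f (t + 1) (i * (t + 1)) =
          ∏ j ∈ Finset.range (m + 1), f (t + 1) j := by
        intro t ht
        refine prod_mul_mod (m + 1) (fun j => f (t + 1) j) (fun j => ?_) (t + 1) (Nat.succ_pos _)
          (by have := Finset.mem_range.1 ht; omega)
        simp only [f]
        rw [hxm j]
      rw [Finset.prod_congr rfl h1]
      have h2 : ∏ i ∈ Finset.range (m + 1), f 0 (i * 0) = (φ y) ^ (m + 1) := by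
        simp [f]
      rw [h2]
      rw [mul_comm _ ((φ y) ^ (m + 1)), mul_assoc]
    have h4 : (φ y) ^ p ∈ FA := by
      have h5 : (φ y) ^ p = ((∏ i ∈ Finset.range p, ∏ t ∈ Finset.range p, f t (i * t)) *
        ∏ t ∈ Finset.range p, f 0 t) *
        (∏ t ∈ Finset.range p, ∏ s ∈ Finset.range p, f s t)⁻¹ := by
        rw [hid, mul_inv_cancel_right]
      rw [h5]
      exact FA.mul_mem (FA.mul_mem (FA.prod_mem hPgx) hPx) (FA.inv_mem hE)
    rw [← map_pow] at h4
    have h6 : x (y ^ p) = y ^ p := hFA _ h4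
    rw [map_pow] at h6
    exact (powCoprime hY).injective (by simpa [powCoprime] using h6)
  exact hxs (hxpow s)

/-- Lemma G -/
theorem lemmaG (p : ℕ) [Fact p.Prime] (Y : Type*) [Group Y] [Finite Y]
    (hY : (Nat.card Y).Coprime p) (g x : MulAut Y) (hgx : Commute g x) (hg : g ^ p = 1)
    (hx : x ^ p = 1)
    (h : ∀ i j : ℕ, i < p → j < p → ¬ (i = 0 ∧ j = 0) → ∀ y : Y, (g ^ i * x ^ j) y = y → x y = y) :
    x = 1 :=
  lemmaG_aux p (Nat.card Y) Y rfl hY g x hgx hg hx h

end Pool.Agent.Helper407.PL
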