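import Pool.Agent.Helper407.PLMod2

set_option autoImplicit false

namespace Pool.Agent.Helper407.PL



section aux
variable {K : Type} [Group K]

theorem cyc_sub (B P : Subgroup K) (hBc : ∀ β ∈ B, ∀ x ∈ P, β * x = x * β) (g : K) (hg : g ∈ P) :
    ∃ A : Subgroup K, ∀ x, x ∈ A ↔ ∃ n : ℤ, ∃ β ∈ B, x = g ^ n * β := by
  have hc : ∀ β ∈ B, ∀ n : ℤ, β * g ^ n = g ^ n * β := fun β hβ n => hBc β hβ _ (P.zpow_mem hg n)
  refine ⟨{ carrier := {x | ∃ n : ℤ, ∃ β ∈ B, x = g ^ n * β}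
            mul_mem' := ?_
            one_mem' := ⟨0, 1, B.one_mem, by simp⟩
            inv_mem' := ?_ }, fun x => Iff.rfl⟩
  · rintro _ _ ⟨n, β, hβ, rfl⟩ ⟨m, γ, hγ, rfl⟩
    refine ⟨n + m, β * γ, B.mul_mem hβ hγ, ?_⟩
    calc g ^ n * β * (g ^ m * γ) = g ^ n * (β * g ^ m) * γ := by simp only [mul_assoc]
      _ = g ^ n * (g ^ m * β) * γ := by rw [hc β hβ m]
      _ = g ^ (n + m) * (β * γ) := by rw [zpow_add]; simp only [mul_assoc]
  · rintro _ ⟨n, β, hβ, rfl⟩
    refine ⟨-n, β⁻¹, B.inv_mem hβ, ?_⟩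
    rw [mul_inv_rev, ← zpow_neg, hc β⁻¹ (B.inv_mem hβ)]

theorem exists_max_abelian [Finite K] (P : Subgroup K) :
    ∃ G1 : Subgroup K, G1 ≤ P ∧ (∀ x ∈ G1, ∀ y ∈ G1, x * y = y * x) ∧
      ∀ x ∈ P, (∀ y ∈ G1, x * y = y * x) → x ∈ G1 := by
  classical
  have hne : Nonempty {G : Subgroup K // G ≤ P ∧ ∀ x ∈ G, ∀ y ∈ G, x * y = y * x} :=
    ⟨⟨⊥, bot_le, by
      intro x hx y hy
      rw [Subgroup.mem_bot] at hx hy
      rw [hx, hy]⟩⟩
  obtain ⟨⟨G, hGP, hGc⟩, hmax⟩ := Finite.exists_max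
    (fun G : {G : Subgroup K // G ≤ P ∧ ∀ x ∈ G, ∀ y ∈ G, x * y = y * x} => Nat.card G.1)
  refine ⟨G, hGP, hGc, fun x hx hxc => ?_⟩
  let G' : Subgroup K := Subgroup.closure (insert x (G : Set K))
  have hle : G ≤ G' := fun y hy => Subgroup.subset_closure (Set.mem_insert_of_mem _ hy)
  have hxG : x ∈ G' := Subgroup.subset_closure (Set.mem_insert _ _)
  have hG'P : G' ≤ P := by
    rw [Subgroup.closure_le]
    intro y hy
    rcases hy with rfl | hy
    · exact hx
    · exact hGP hy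
  have hgen : ∀ a ∈ insert x (G : Set K), ∀ c ∈ insert x (G : Set K), a * c = c * a := by
    rintro a (rfl | ha) c (rfl | hc)
    · rfl
    · exact hxc c hc
    · exact (hxc a ha).symm
    · exact hGc a ha c hc
  have hG'c : ∀ a ∈ G', ∀ c ∈ G', a * c = c * a := by
    intro a ha c hc
    have h1 : ∀ c ∈ insert x (G : Set K), a * c = c * a := by
      intro c hc
      induction ha using Subgroup.closure_induction with
      | mem a ha => exact hgen a ha c hc
      | one => simp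
      | mul a b _ _ iha ihb => rw [mul_assoc, ihb, ← mul_assoc, iha, mul_assoc]
      | inv a _ iha =>
        have h : Commute a c := iha
        exact h.inv_left
    induction hc using Subgroup.closure_induction with
    | mem c hc => exact h1 c hc
    | one => simp
    | mul c d _ _ ihc ihd => rw [← mul_assoc, ihc, mul_assoc, ihd, mul_assoc]
    | inv c _ ihc =>
      have h : Commute a c := ihc
      exact h.inv_right
  have h := hmax ⟨G', hG'P, hG'c⟩
  have h2 : G = G' := Subgroup.eq_of_le_of_card_ge hle h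
  rw [h2]; exact hxG

theorem comm_pow {h u c : K} (hu : u * h = c * (h * u)) (hcu : Commute c u) (n : ℕ) :
    u ^ n * h = c ^ n * (h * u ^ n) := by
  induction n with
  | zero => simp
  | succ n ih =>
    calc u ^ (n + 1) * h = u ^ n * (u * h) := by rw [pow_succ, mul_assoc]
      _ = (u ^ n * c) * (h * u) := by rw [hu]; simp only [mul_assoc]
      _ = c * (u ^ n * h) * u := by rw [((hcu.pow_right n).eq).symm]; simp only [mul_assoc]
      _ = c ^ (n + 1) * (h * u ^ (n + 1)) := by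
        rw [ih, pow_succ' c, pow_succ u]; simp only [mul_assoc]

theorem mul_pow_formula {h u c : K} (hu : u * h = c * (h * u)) (hcu : Commute c u)
    (hch : Commute c h) (n : ℕ) : (h * u) ^ n = c ^ (n.choose 2) * (h ^ n * u ^ n) := by
  induction n with
  | zero => simp
  | succ n ih =>
    have e : (n + 1).choose 2 = n.choose 2 + n := by
      rw [Nat.choose_succ_succ' n 1, Nat.choose_one_right, add_comm]
    calc (h * u) ^ (n + 1) = c ^ (n.choose 2) * (h ^ n * (u ^ n * h) * u) := by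
          rw [pow_succ, ih]; simp only [mul_assoc]
      _ = c ^ (n.choose 2) * ((h ^ n * c ^ n) * (h * u ^ n) * u) := by
          rw [comm_pow hu hcu n]; simp only [mul_assoc]
      _ = c ^ (n.choose 2) * c ^ n * (h ^ n * h * (u ^ n * u)) := by
          rw [((hch.pow_pow n n).eq).symm]; simp only [mul_assoc]
      _ = c ^ ((n + 1).choose 2) * (h ^ (n + 1) * u ^ (n + 1)) := by
          rw [e, pow_add, pow_succ h, pow_succ u]

end aux

section
variable {k : Type} [Field k] [IsAlgClosed k] {p : ℕ} [hp : Fact p.Prime] [CharP k p]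

/-- Lemma R -/
theorem lemmaR {K S : Type} [Group K] [Finite K] [AddCommGroup S] [Module k S]
    [FiniteDimensional k S] (σ : K →* Module.End k S) (P B : Subgroup K) (hP : IsPGroup p P)
    (hBP : B ≤ P) (b : K) (hbP : b ∈ P) (hb : b ^ p = 1) (hbc : ∀ x ∈ P, b * x = x * b)
    (hcomm : ∀ x ∈ P, ∀ y ∈ P, ∃ i : ℕ, x * y = b ^ i * (y * x))
    (hBc : ∀ β ∈ B, ∀ x ∈ P, β * x = x * β) (hBt : ∀ β ∈ B, σ β = 1) (hbS : σ b ≠ 1)
    (hU : ∀ g ∈ P, g ^ p ∈ B → ∃ i : ℕ, ∃ β ∈ B, g = b ^ i * β) :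
    ∃ G1 : Subgroup K, G1 ≤ P ∧ B ≤ G1 ∧ b ∈ G1 ∧ (∀ x ∈ G1, ∀ y ∈ G1, x * y = y * x) ∧
      G1.relIndex P ≤ p ∧
      ∃ s0 s1 : S, s0 ≠ 0 ∧ (∀ g ∈ P, σ g s0 = s0) ∧ (∃ g ∈ G1, σ g s1 ≠ s1) ∧
        (∀ g ∈ G1, ∃ a : k, σ g s1 = s1 + a • s0) ∧
        ((∀ g ∈ P, ∃ a : k, σ g s1 = s1 + a • s0) ∨
          ∃ t ∈ P, t ∉ G1 ∧ (∀ x ∈ P, x ∈ G1 ∨ t⁻¹ * x ∈ G1) ∧ ∀ a : k, s1 + σ t s1 ≠ a • s0) := by
  classical
  have hp0 : p.Prime := hp.out
  have hbB : b ∉ B := fun h => hbS (hBt b h)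
  obtain ⟨G1, hG1P, hG1c, hG1m⟩ := exists_max_abelian P
  have hBG : B ≤ G1 := fun β hβ => hG1m β (hBP hβ) (fun y hy => hBc β hβ y (hG1P hy))
  have hbG : b ∈ G1 := hG1m b hbP (fun y hy => hbc y (hG1P hy))
  have hred : ∀ (C : Subgroup K) (x : K), x ∈ P → x ∉ C →
      ∃ j : ℕ, x ^ (p ^ j) ∉ C ∧ (x ^ (p ^ j)) ^ p ∈ C := by
    intro C x hx hxC
    obtain ⟨n, hn⟩ := hP ⟨x, hx⟩
    have hn1 : x ^ (p ^ n) = 1 := by simpa using congrArg Subtype.val hn
    have hn' : x ^ (p ^ n) ∈ C := by rw [hn1]; exact C.one_mem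
    have hex : ∃ n, x ^ (p ^ n) ∈ C := ⟨n, hn'⟩
    obtain ⟨j, hj⟩ : ∃ j, Nat.find hex = j + 1 := Nat.exists_eq_succ_of_ne_zero (by
      intro h0
      have := Nat.find_spec hex
      rw [h0] at this
      simp only [pow_zero, pow_one] at this
      exact hxC this)
    refine ⟨j, Nat.find_min hex (by omega), ?_⟩
    rw [← pow_mul, ← pow_succ, ← hj]
    exact Nat.find_spec hex
  have hA0 : ∀ g : K, ∃ A : Subgroup K, g ∈ P →
      ∀ x, x ∈ A ↔ ∃ n : ℤ, ∃ β ∈ B, x = g ^ n * β := by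
    intro g
    by_cases hg : g ∈ P
    · obtain ⟨A, hA⟩ := cyc_sub B P hBc g hg
      exact ⟨A, fun _ => hA⟩
    · exact ⟨⊥, fun h => absurd h hg⟩
  choose A hA using hA0
  have hAB : ∀ g ∈ P, B ≤ A g := fun g hg β hβ => (hA g hg β).2 ⟨0, β, hβ, by simp⟩
  have hAg : ∀ g ∈ P, g ∈ A g := fun g hg => (hA g hg g).2 ⟨1, 1, B.one_mem, by simp⟩
  obtain ⟨g, hg, hgmax⟩ : ∃ g ∈ G1, ∀ x ∈ G1, Nat.card (A x) ≤ Nat.card (A g) := by
    obtain ⟨g, hg⟩ := Finite.exists_max (fun g : G1 => Nat.card (A g))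
    exact ⟨g, g.2, fun x hx => hg ⟨x, hx⟩⟩
  have hgP : g ∈ P := hG1P hg
  have hmax : ∀ x ∈ G1, A g ≤ A x → A x ≤ A g := by
    intro x hx hle
    have := Subgroup.eq_of_le_of_card_ge hle (hgmax x hx)
    rw [this]
  have hgB : g ∉ B := by
    intro h
    have h1 : A g ≤ B := by
      intro x hx
      obtain ⟨n, β, hβ, rfl⟩ := (hA g hgP x).1 hx
      exact B.mul_mem (B.zpow_mem h n) hβ
    have h2 : A b ≤ A g := hmax b hbG (h1.trans (hAB b hbP))
    exact hbB (h1 (h2 (hAg b hbP)))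
  have hcop : ∀ i : ℤ, ¬ (p : ℤ) ∣ i → IsCoprime i (p : ℤ) := by
    intro i hi
    rw [Int.isCoprime_iff_gcd_eq_one, Int.gcd_comm, ← Int.isCoprime_iff_gcd_eq_one]
    exact (Nat.prime_iff_prime_int.1 hp0).irreducible.coprime_iff_not_dvd.2 hi
  have hbpow : ∀ (C : Subgroup K) (i : ℤ), b ^ i ∈ C → ¬ (p : ℤ) ∣ i → b ∈ C := by
    intro C i hi hpi
    obtain ⟨u, v, huv⟩ := hcop i hpi
    have : b = (b ^ i) ^ u := by
      have h1 : b ^ (1 : ℤ) = b ^ (i * u) * (b ^ p) ^ v := by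
        rw [← zpow_natCast b p, ← zpow_mul, ← zpow_add]
        congr 1
        linarith
      rw [zpow_one, hb, one_zpow, mul_one, zpow_mul] at h1
      exact h1
    rw [this]
    exact C.zpow_mem hi u
  have hbpow' : ∀ i : ℤ, (p : ℤ) ∣ i → b ^ i = 1 := by
    rintro i ⟨m, rfl⟩
    rw [zpow_mul, zpow_natCast, hb, one_zpow]
  have hbA : b ∈ A g := by
    obtain ⟨j, hj1, hj2⟩ := hred B g hgP hgB
    obtain ⟨i, β, hβ, hi⟩ := hU _ (P.pow_mem hgP _) hj2
    have h1 : b ^ i ∈ A g := by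
      have : b ^ i = g ^ (p ^ j) * β⁻¹ := by rw [hi]; group
      rw [this]
      exact (A g).mul_mem ((A g).pow_mem (hAg g hgP) _) (hAB g hgP (B.inv_mem hβ))
    refine hbpow (A g) i (by rwa [zpow_natCast]) ?_
    intro hd
    apply hj1
    rw [hi, ← zpow_natCast, hbpow' _ hd, one_mul]
    exact hβ
  have hG1A : ∀ x ∈ G1, x ∈ A g := by
    intro x hx
    by_contra hxA
    obtain ⟨j, hj1, hj2⟩ := hred (A g) x (hG1P hx) hxA
    obtain ⟨y, hy⟩ : ∃ y, y = x ^ (p ^ j) := ⟨_, rfl⟩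
    rw [← hy] at hj1 hj2
    have hyG : y ∈ G1 := by rw [hy]; exact G1.pow_mem hx _
    have hyP := hG1P hyG
    obtain ⟨n, β, hβ, hn⟩ := (hA g hgP _).1 hj2
    by_cases hd : (p : ℤ) ∣ n
    · obtain ⟨m, rfl⟩ := hd
      have h1 : (y * g ^ (-m)) ^ p ∈ B := by
        have hc : Commute y (g ^ (-m)) := hG1c y hyG _ (G1.zpow_mem hg _)
        have h2 : (y * g ^ (-m)) ^ p = β := by
          rw [hc.mul_pow, hn, ← zpow_natCast (g ^ (-m)), ← zpow_mul, mul_assoc,
            hBc β hβ _ (P.zpow_mem hgP _), ← mul_assoc, ← zpow_add]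
          have : (p : ℤ) * m + -m * p = 0 := by ring
          rw [this, zpow_zero, one_mul]
        rw [h2]; exact hβ
      obtain ⟨i, γ, hγ, hi⟩ := hU _ (P.mul_mem hyP (P.zpow_mem hgP _)) h1
      apply hj1
      have : y = b ^ i * γ * g ^ m := by rw [← hi]; group
      rw [this]
      exact (A g).mul_mem ((A g).mul_mem ((A g).pow_mem hbA _) (hAB g hgP hγ))
        ((A g).zpow_mem (hAg g hgP) _)
    · have h1 : g ^ n ∈ A y := by
        have : g ^ n = y ^ p * β⁻¹ := by rw [hn]; group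
        rw [this]
        exact (A y).mul_mem ((A y).pow_mem (hAg y hyP) _) (hAB y hyP (B.inv_mem hβ))
      obtain ⟨e, he⟩ := hP ⟨g, hgP⟩
      have he' : g ^ (p ^ e) = 1 := by simpa using congrArg Subtype.val he
      have h2 : g ∈ A y := by
        obtain ⟨u, v, huv⟩ := (hcop n hd).pow_right (n := e)
        have : g = (g ^ n) ^ u := by
          have h1 : g ^ (1 : ℤ) = g ^ (n * u) * (g ^ (p ^ e)) ^ v := by
            rw [← zpow_natCast g (p ^ e), ← zpow_mul, ← zpow_add]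
            congr 1
            push_cast
            linarith
          rw [zpow_one, he', one_zpow, mul_one, zpow_mul] at h1
          exact h1
        rw [this]
        exact (A y).zpow_mem h1 u
      have h3 : A g ≤ A y := by
        intro z hz
        obtain ⟨l, γ, hγ, rfl⟩ := (hA g hgP z).1 hz
        exact (A y).mul_mem ((A y).zpow_mem h2 _) (hAB y hyP hγ)
      exact hj1 (hmax y hyG h3 (hAg y hyP))
  have hmem : ∀ x ∈ P, x * g = g * x → x ∈ G1 := by
    intro x hx hxg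
    apply hG1m x hx
    intro y hy
    obtain ⟨n, β, hβ, rfl⟩ := (hA g hgP y).1 (hG1A y hy)
    have h0 : Commute x g := hxg
    have h1 : Commute x (g ^ n) := h0.zpow_right n
    have h2 : Commute x β := (hBc β hβ x hx).symm
    exact h1.mul_right h2
  have hidx : G1.relIndex P ≤ p := by
    have hb' : Nat.card (Subgroup.zpowers b) ≤ p := by
      rw [Nat.card_zpowers]
      exact Nat.le_of_dvd hp0.pos (orderOf_dvd_of_pow_eq_one hb)
    refine le_trans ?_ hb'
    have hcz : ∀ x : P, (x : K) * g * (x : K)⁻¹ * g⁻¹ ∈ Subgroup.zpowers b := by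
      intro x
      obtain ⟨i, hi⟩ := hcomm x x.2 g hgP
      refine ⟨i, ?_⟩
      change b ^ (i : ℤ) = _
      rw [hi, zpow_natCast]
      group
    let f : P ⧸ (G1.subgroupOf P) → Subgroup.zpowers b :=
      fun q => ⟨(q.out : K) * g * (q.out : K)⁻¹ * g⁻¹, hcz q.out⟩
    have hf : Function.Injective f := by
      intro q q' h
      have h1 : (q.out : K) * g * (q.out : K)⁻¹ * g⁻¹ = (q'.out : K) * g * (q'.out : K)⁻¹ * g⁻¹ :=
        congrArg Subtype.val h
      have h2 : (q.out : K) * g * (q.out : K)⁻¹ = (q'.out : K) * g * (q'.out : K)⁻¹ :=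
        mul_right_cancel h1
      rw [← q.out_eq, ← q'.out_eq]
      apply QuotientGroup.eq.2
      rw [Subgroup.mem_subgroupOf]
      apply hmem _ (q.out⁻¹ * q'.out).2
      push_cast
      have h3 : g * (q.out : K)⁻¹ = (q.out : K)⁻¹ * ((q'.out : K) * g * (q'.out : K)⁻¹) := by
        rw [← h2]; group
      rw [← mul_assoc g, h3]
      group
    exact Nat.card_le_card_of_injective f hf
  have hnat : ∀ x ∈ A g, ∃ m : ℕ, ∃ β ∈ B, x = g ^ m * β := by
    intro x hx
    obtain ⟨n, β, hβ, rfl⟩ := (hA g hgP x).1 hx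
    refine ⟨(n % orderOf g).toNat, β, hβ, ?_⟩
    rw [← zpow_natCast, Int.toNat_of_nonneg
      (Int.emod_nonneg _ (by have := orderOf_pos g; omega)), zpow_mod_orderOf]
  have hgS : σ g ≠ 1 := by
    intro h
    obtain ⟨n, β, hβ, hn⟩ := hnat b hbA
    apply hbS
    rw [hn, map_mul, hBt β hβ, mul_one, map_pow, h, one_pow]
  have hW : LinearMap.range (σ g - 1) ≠ ⊥ := by
    rw [Ne, LinearMap.range_eq_bot, sub_eq_zero]
    exact hgS
  have hWi : ∀ x ∈ P, ∀ w ∈ LinearMap.range (σ g - 1), σ x w ∈ LinearMap.range (σ g - 1) := by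
    rintro x hx _ ⟨u, rfl⟩
    obtain ⟨i, hi⟩ := hcomm x hx g hgP
    have h1 : b ^ i * g ∈ A g := (A g).mul_mem ((A g).pow_mem hbA _) (hAg g hgP)
    obtain ⟨m, β, hβ, hm⟩ := hnat _ h1
    have h2 : x * g = g ^ m * β * x := by rw [hi, ← mul_assoc, hm]
    have h3 : σ x (σ g u) = (σ g ^ m) (σ x u) := by
      rw [← Module.End.mul_apply, ← map_mul, h2, map_mul, map_mul, map_pow, hBt β hβ, mul_one,
        Module.End.mul_apply]
    have h4 : σ x ((σ g - 1) u) = (σ g ^ m - 1) (σ x u) := by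
      simp only [LinearMap.sub_apply, Module.End.one_apply, map_sub, h3]
    rw [h4, ← mul_geom_sum]
    exact ⟨_, rfl⟩
  obtain ⟨s0, ⟨s1, hs1⟩, hs0, hfix⟩ := exists_fixed_sub σ hP (LinearMap.range (σ g - 1)) hW hWi
  have hgs1 : σ g s1 = s1 + s0 := by
    rw [← hs1]; simp
  have hpow : ∀ m : ℕ, σ (g ^ m) s1 = s1 + (m : k) • s0 := by
    intro m
    induction m with
    | zero => simp
    | succ m ih =>
      rw [pow_succ', map_mul, Module.End.mul_apply, ih, map_add, map_smul, hfix g hgP, hgs1]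
      push_cast
      rw [add_smul, one_smul]
      abel
  have hG1s : ∀ x ∈ G1, ∃ a : k, σ x s1 = s1 + a • s0 := by
    intro x hx
    obtain ⟨m, β, hβ, rfl⟩ := hnat x (hG1A x hx)
    exact ⟨m, by rw [map_mul, hBt β hβ, mul_one, hpow]⟩
  have hmulT : ∀ x ∈ P, ∀ y ∈ P, (∃ a : k, σ x s1 = s1 + a • s0) →
      (∃ a : k, σ y s1 = s1 + a • s0) → ∃ a : k, σ (x * y) s1 = s1 + a • s0 := by
    rintro x hx y hy ⟨a, ha⟩ ⟨c, hc⟩
    exact ⟨a + c, by
      rw [map_mul, Module.End.mul_apply, hc, map_add, map_smul, hfix x hx, ha, add_smul,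
        add_assoc]⟩
  have hpowT : ∀ x ∈ P, (∃ a : k, σ x s1 = s1 + a • s0) →
      ∀ n : ℕ, ∃ a : k, σ (x ^ n) s1 = s1 + a • s0 := by
    intro x hx h n
    induction n with
    | zero => exact ⟨0, by simp⟩
    | succ n ih => rw [pow_succ]; exact hmulT _ (P.pow_mem hx n) x hx ih h
  have hcp : ∀ h ∈ P, ∀ j : ℕ, h * g = b ^ j * (g * h) →
      ∀ n : ℕ, h ^ n * g = b ^ (j * n) * (g * h ^ n) := by
    intro h hh j hj n
    have hbh : Commute b h := hbc h hh
    rw [comm_pow hj (hbh.pow_left j) n, ← pow_mul]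
  refine ⟨G1, hG1P, hBG, hbG, hG1c, hidx, s0, s1, hs0, hfix, ⟨g, hg, ?_⟩, hG1s, ?_⟩
  · rw [hgs1]
    intro h
    exact hs0 (by simpa using h)
  by_cases hall : ∀ x ∈ P, x ∈ G1
  · exact Or.inl fun x hx => hG1s x (hall x hx)
  push Not at hall
  obtain ⟨h, hh, hhG⟩ := hall
  obtain ⟨j, hj⟩ := hcomm h hh g hgP
  have hjp : ¬ p ∣ j := by
    rintro ⟨m, rfl⟩
    apply hhG
    apply hmem h hh
    rw [hj, pow_mul, hb, one_pow, one_mul]
  have hdec : ∀ x ∈ P, ∃ n : ℕ, ∃ y ∈ G1, x = h ^ n * y := by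
    intro x hx
    obtain ⟨i, hi⟩ := hcomm x hx g hgP
    have hj0 : (j : ZMod p) ≠ 0 := by
      rw [Ne, ZMod.natCast_eq_zero_iff]; exact hjp
    obtain ⟨n, hn⟩ : ∃ n : ℕ, b ^ (j * n) = b ^ i := by
      refine ⟨((i : ZMod p) * (j : ZMod p)⁻¹).val, ?_⟩
      apply pow_eq_pow_of_modEq _ hb
      rw [← ZMod.natCast_eq_natCast_iff]
      push_cast
      rw [ZMod.natCast_zmod_val]
      field_simp
    refine ⟨n, (h ^ n)⁻¹ * x, ?_, by group⟩
    apply hmem _ (P.mul_mem (P.inv_mem (P.pow_mem hh n)) hx)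
    have h1 := hcp h hh j hj n
    rw [hn] at h1
    -- h^n g = b^i g h^n, x g = b^i g x
    have h2 : h ^ n * g * (h ^ n)⁻¹ = x * g * x⁻¹ := by
      rw [h1, hi]; group
    have h3 : x * g = h ^ n * g * (h ^ n)⁻¹ * x := by rw [h2]; group
    rw [mul_assoc, h3]
    group
  by_cases hT : ∃ a : k, σ h s1 = s1 + a • s0
  · left
    intro x hx
    obtain ⟨n, y, hy, rfl⟩ := hdec x hx
    exact hmulT _ (P.pow_mem hh n) y (hG1P hy) (hpowT h hh hT n) (hG1s y hy)
  have hhp : h ^ p ∈ G1 := by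
    apply hmem _ (P.pow_mem hh p)
    rw [hcp h hh j hj p, mul_comm j p, pow_mul, hb, one_pow, one_mul]
  rcases hp0.eq_two_or_odd' with h2 | hodd
  · right
    refine ⟨h, hh, hhG, ?_, ?_⟩
    · intro x hx
      obtain ⟨n, y, hy, rfl⟩ := hdec x hx
      rw [h2] at hhp
      rcases Nat.even_or_odd' n with ⟨m, rfl | rfl⟩
      · left
        rw [pow_mul]
        exact G1.mul_mem (G1.pow_mem hhp m) hy
      · right
        have : h⁻¹ * (h ^ (2 * m + 1) * y) = (h ^ 2) ^ m * y := by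
          rw [pow_succ', pow_mul]; group
        rw [this]
        exact G1.mul_mem (G1.pow_mem hhp m) hy
    · intro a ha
      apply hT
      refine ⟨a, ?_⟩
      have hchar : (2 : k) = 0 := by
        have := CharP.cast_eq_zero k p
        rw [h2] at this
        exact_mod_cast this
      have hs : s1 + s1 = 0 := by
        rw [← two_smul k s1, hchar, zero_smul]
      rw [← ha, ← add_assoc, hs, zero_add]
  · exfalso
    obtain ⟨m, β, hβ, hm⟩ := hnat _ (hG1A _ hhp)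
    -- p divides m
    have h1 : b ^ (j * m) = 1 := by
      -- g^m commutes with h
      have hc1 : Commute h (g ^ m) := by
        have : g ^ m = h ^ p * β⁻¹ := by rw [hm]; group
        rw [this]
        have e1 : Commute h (h ^ p) := (Commute.refl h).pow_right p
        have e2 : Commute h β := (hBc β hβ h hh).symm
        exact e1.mul_right e2.inv_right
      -- h * g = b^j g h
      have hbg : Commute b g := hbc g hgP
      have hbh : Commute b h := hbc h hh
      -- g * h = (b^j)⁻¹ * (h * g)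
      have e3 : g * h = (b ^ j)⁻¹ * (h * g) := by rw [hj]; group
      have e4 := comm_pow e3 ((hbg.pow_left j).inv_left) m
      have e5 : g ^ m * h = h * g ^ m := hc1.eq.symm
      rw [e5, inv_pow, ← pow_mul] at e4
      have e6 : (b ^ (j * m))⁻¹ = 1 := by
        have := e4.symm
        rwa [mul_eq_right] at this
      rwa [inv_eq_one] at e6
    have hpm : p ∣ m := by
      by_contra hpm
      have h3 : ¬ (p : ℤ) ∣ ((j * m : ℕ) : ℤ) := by
        rw [Int.natCast_dvd_natCast, hp0.dvd_mul]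
        push Not
        exact ⟨hjp, hpm⟩
      have h4 := hbpow ⊥ ((j * m : ℕ) : ℤ) (by rw [zpow_natCast, h1]; exact Subgroup.mem_bot.2 rfl) h3
      rw [Subgroup.mem_bot] at h4
      apply hbS
      rw [h4, map_one]
    obtain ⟨m', rfl⟩ := hpm
    have hbg : Commute b (g ^ m')⁻¹ := (Commute.pow_right (hbc g hgP) m').inv_right
    have hbh : Commute b h := hbc h hh
    obtain ⟨i, hi⟩ := hcomm (g ^ m')⁻¹ (P.inv_mem (P.pow_mem hgP m')) h hh
    have h2 : (h * (g ^ m')⁻¹) ^ p ∈ B := by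
      rw [mul_pow_formula hi (hbg.pow_left i) (hbh.pow_left i) p]
      have hd : p ∣ p.choose 2 := by
        apply hp0.dvd_choose_self (by norm_num)
        rcases hodd with ⟨q, hq⟩
        have := hp0.two_le
        omega
      obtain ⟨q, hq⟩ := hd
      rw [hq, ← pow_mul, mul_comm i, mul_assoc, pow_mul b, hb, one_pow, one_mul, hm, inv_pow,
        ← pow_mul, mul_comm m' p, mul_assoc,
        (show β * (g ^ (p * m'))⁻¹ = (g ^ (p * m'))⁻¹ * β from
          hBc β hβ _ (P.inv_mem (P.pow_mem hgP _))), ← mul_assoc, mul_inv_cancel, one_mul]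
      exact hβ
    obtain ⟨i', γ, hγ, hi'⟩ := hU _ (P.mul_mem hh (P.inv_mem (P.pow_mem hgP m'))) h2
    apply hhG
    have : h = b ^ i' * γ * g ^ m' := by rw [← hi']; group
    rw [this]
    exact G1.mul_mem (G1.mul_mem (G1.pow_mem hbG _) (hBG hγ)) (G1.pow_mem hg _)

end

end Pool.Agent.Helper407.PL
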