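import Pool.Agent.Helper407.PLMod2

set_option autoImplicit false

namespace Pool.Agent.Helper407.PL

section
variable {k : Type} [Field k] [IsAlgClosed k] {p : ℕ} [hp : Fact p.Prime] [CharP k p]

theorem sum_coset {J : Type} [Group J] [Fintype J] (T : Subgroup J) [Fintype (J ⧸ T)] [Fintype T]
    (f : J → k) :
    ∑ j, f j = ∑ q : J ⧸ T, ∑ t : T, f (Quotient.out q * t) := by
  have hbij : Function.Bijective (fun x : (J ⧸ T) × T => (Quotient.out x.1 : J) * (x.2 : J)) := by
    constructor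
    · rintro ⟨q, t⟩ ⟨q', t'⟩ h
      simp only at h
      have h1 : q = q' := by
        have := congrArg (QuotientGroup.mk : J → J ⧸ T) h
        rwa [QuotientGroup.mk_mul_of_mem _ t.2, QuotientGroup.mk_mul_of_mem _ t'.2,
          QuotientGroup.out_eq', QuotientGroup.out_eq'] at this
      subst h1
      have h2 := mul_left_cancel h
      rw [Subtype.ext h2]
    · intro j
      refine ⟨(QuotientGroup.mk j, ⟨(Quotient.out (QuotientGroup.mk j : J ⧸ T))⁻¹ * j, ?_⟩), ?_⟩
      · exact QuotientGroup.eq.1 (QuotientGroup.out_eq' _)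
      · simp
  rw [← hbij.sum_comp, Fintype.sum_prod_type]

/-- sums of an additive function over a finite p-group of order divisible by p^2 vanish -/
theorem sum_hom_zero {J : Type} [Group J] [Fintype J] (hJ : p ^ 2 ∣ Fintype.card J)
    (l : J → k) (hl : ∀ x y, l (x * y) = l x + l y) : ∑ j, l j = 0 := by
  classical
  have hp1 : p ∣ Fintype.card J := (dvd_pow_self p two_ne_zero).trans hJ
  obtain ⟨t, ht⟩ := exists_prime_orderOf_dvd_card p hp1
  have hTc : Fintype.card (Subgroup.zpowers t) = p := by rw [Fintype.card_zpowers, ht]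
  have hcard := Subgroup.card_eq_card_quotient_mul_card_subgroup (Subgroup.zpowers t)
  rw [Nat.card_eq_fintype_card, Nat.card_eq_fintype_card, Nat.card_eq_fintype_card, hTc] at hcard
  have hpq : p ∣ Fintype.card (J ⧸ Subgroup.zpowers t) := by
    rw [hcard, pow_two] at hJ
    exact Nat.dvd_of_mul_dvd_mul_right hp.out.pos hJ
  rw [sum_coset (Subgroup.zpowers t)]
  have h1 : ∀ q : J ⧸ Subgroup.zpowers t, ∑ s : Subgroup.zpowers t, l (Quotient.out q * s) =
      ∑ s : Subgroup.zpowers t, l s := by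
    intro q
    simp_rw [hl]
    rw [Finset.sum_add_distrib, Finset.sum_const, Finset.card_univ, hTc, nsmul_eq_mul,
      CharP.cast_eq_zero, zero_mul, zero_add]
  simp_rw [h1]
  rw [Finset.sum_const, Finset.card_univ, nsmul_eq_mul,
    (CharP.cast_eq_zero_iff k p _).2 hpq, zero_mul]

/-- sums of a product of two additive functions, one with small image, vanish if p^3 divides the order -/
theorem sum_hom_mul_zero {J : Type} [Group J] [Fintype J] (hJ : p ^ 3 ∣ Fintype.card J)
    (l m : J → k) (hl : ∀ x y, l (x * y) = l x + l y) (hm : ∀ x y, m (x * y) = m x + m y)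
    (hm' : ∃ a : k, ∀ x, ∃ i : ℕ, m x = i * a) : ∑ j, l j * m j = 0 := by
  classical
  obtain ⟨a, ha⟩ := hm'
  have hm1 : m 1 = 0 := by
    have := hm 1 1
    rw [mul_one] at this
    exact left_eq_add.1 this
  let f : J →* Multiplicative k :=
    { toFun := fun x => Multiplicative.ofAdd (m x)
      map_one' := by rw [hm1]; rfl
      map_mul' := fun x y => by rw [hm]; rfl }
  have hker : ∀ x, x ∈ f.ker ↔ m x = 0 := by
    intro x
    rw [MonoidHom.mem_ker]
    exact Iff.rfl
  have hidx : f.ker.index ≤ p := by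
    rw [Subgroup.index_ker]
    have hsub : (f.range : Set (Multiplicative k)) ⊆
        Set.range (fun i : Fin p => Multiplicative.ofAdd (((i : ℕ) : k) * a)) := by
      rintro _ ⟨x, rfl⟩
      obtain ⟨i, hi⟩ := ha x
      refine ⟨⟨i % p, Nat.mod_lt _ hp.out.pos⟩, ?_⟩
      show Multiplicative.ofAdd (((i % p : ℕ) : k) * a) = Multiplicative.ofAdd (m x)
      rw [hi, ← CharP.cast_eq_mod]
    calc Nat.card f.range ≤ Nat.card (Set.range
          (fun i : Fin p => Multiplicative.ofAdd (((i : ℕ) : k) * a))) :=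
          Nat.card_mono (Set.finite_range _) hsub
      _ ≤ Nat.card (Fin p) := Finite.card_range_le _
      _ = p := by simp
  have hmulc : f.ker.index * Nat.card f.ker = Fintype.card J := by
    rw [← Nat.card_eq_fintype_card]
    exact Subgroup.index_mul_card f.ker
  have hp2 : p ^ 2 ∣ Fintype.card f.ker := by
    rw [← Nat.card_eq_fintype_card]
    rw [← hmulc] at hJ
    rcases hidx.lt_or_eq with h | h
    · have hpos : 0 < f.ker.index := by
        rcases Nat.eq_zero_or_pos f.ker.index with h0 | h0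
        · rw [h0, zero_mul] at hmulc
          exact absurd hmulc.symm Fintype.card_ne_zero
        · exact h0
      have hcop : Nat.Coprime (p ^ 3) f.ker.index :=
        Nat.Coprime.pow_left 3 (Nat.coprime_of_lt_prime hpos.ne' h hp.out)
      exact (pow_dvd_pow p (by norm_num)).trans (hcop.dvd_of_dvd_mul_left hJ)
    · rw [h, show p ^ 3 = p * p ^ 2 by ring] at hJ
      exact Nat.dvd_of_mul_dvd_mul_left hp.out.pos hJ
  rw [sum_coset f.ker]
  apply Finset.sum_eq_zero
  intro q _
  have h0 := sum_hom_zero (p := p) hp2 (fun t : f.ker => l t) (fun x y => hl x y)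
  have h1 : ∀ t : f.ker, l (Quotient.out q * t) * m (Quotient.out q * t) =
      m (Quotient.out q) * l (Quotient.out q) + m (Quotient.out q) * l t := by
    intro t
    rw [hl, hm, (hker t).1 t.2]
    ring
  simp_rw [h1]
  rw [Finset.sum_add_distrib, Finset.sum_const, Finset.card_univ, ← Finset.mul_sum, h0,
    nsmul_eq_mul, (CharP.cast_eq_zero_iff k p _).2 ((dvd_pow_self p two_ne_zero).trans hp2)]
  ring

/-- transfer lemma -/
theorem transfer_rankone {C V : Type} [Group C] [Finite C] (hC : IsPGroup p C) [AddCommGroup V]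
    [Module k V] [FiniteDimensional k V] (ρ : C →* Module.End k V) (b : C) (hb : b ^ p = 1)
    (hbc : ∀ x, b * x = x * b) (hcomm : ∀ x y : C, ∃ i : ℕ, x * y = b ^ i * (y * x))
    (K : Subgroup C) (hbK : b ∈ K) (hidx : p ^ 3 ∣ K.index)
    (w h : V) (hw : w ≠ 0) (hwf : ∀ x, ρ x w = w) (hh : ∀ g ∈ K, ∃ a : k, ρ g h = h + a • w)
    (hne : ∀ (inst : Fintype (C ⧸ K)) (a : k), ∑ j : C ⧸ K, ρ (Quotient.out j) h ≠ a • w) :
    RO ρ (⊤ : Subgroup C) := by
  classical
  have hKn : K.Normal := by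
    refine ⟨fun g hg x => ?_⟩
    obtain ⟨i, hi⟩ := hcomm x g
    rw [hi]
    have : b ^ i * (g * x) * x⁻¹ = b ^ i * g := by group
    rw [this]
    exact K.mul_mem (K.pow_mem hbK i) hg
  let instJ : Fintype (C ⧸ K) := Fintype.ofFinite _
  have hcardJ : Fintype.card (C ⧸ K) = K.index := by
    rw [← Nat.card_eq_fintype_card]; rfl
  have hp3 : p ^ 3 ∣ Fintype.card (C ⧸ K) := by rw [hcardJ]; exact hidx
  have hp2 : p ^ 2 ∣ Fintype.card (C ⧸ K) := (pow_dvd_pow p (by norm_num)).trans hp3
  choose! χ hχ using hh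
  have hw_inj : ∀ a b : k, a • w = b • w → a = b := fun a b h => smul_left_injective k hw h
  have χ_mul : ∀ g ∈ K, ∀ g' ∈ K, χ (g * g') = χ g + χ g' := by
    intro g hg g' hg'
    apply hw_inj
    have h1 := hχ (g * g') (K.mul_mem hg hg')
    rw [map_mul, Module.End.mul_apply, hχ g' hg', map_add, map_smul, hwf, hχ g hg] at h1
    rw [add_smul]
    have h2 : h + (χ g • w + χ g' • w) = h + χ (g * g') • w := by rw [← h1]; abel
    exact (add_left_cancel h2).symm
  have χ_one : χ 1 = 0 := by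
    have := χ_mul 1 K.one_mem 1 K.one_mem
    rw [mul_one] at this
    exact left_eq_add.1 this
  have hχb : ∀ (i : ℕ), ∀ g' ∈ K, χ (b ^ i * g') = i * χ b + χ g' := by
    intro i g' hg'
    induction i with
    | zero => simp
    | succ i ih =>
      rw [pow_succ', mul_assoc, χ_mul b hbK _ (K.mul_mem (K.pow_mem hbK i) hg'), ih]
      push_cast
      ring
  let X : C ⧸ K → C := Quotient.out
  have hX : ∀ j, (QuotientGroup.mk (X j) : C ⧸ K) = j := QuotientGroup.out_eq'
  have hXK : ∀ x : C, (X (QuotientGroup.mk x))⁻¹ * x ∈ K := fun x => QuotientGroup.eq.1 (hX _)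
  let u : C ⧸ K → V := fun j => ρ (X j) h
  let G : C → C ⧸ K → C := fun x j => (X (QuotientGroup.mk x * j))⁻¹ * (x * X j)
  have hG : ∀ x j, G x j ∈ K := by
    intro x j
    apply QuotientGroup.eq.1
    rw [hX, QuotientGroup.mk_mul, hX]
  have hu : ∀ x j, ρ x (u j) = u (QuotientGroup.mk x * j) + χ (G x j) • w := by
    intro x j
    show ρ x (ρ (X j) h) = ρ (X (QuotientGroup.mk x * j)) h + _
    have h1 : x * X j = X (QuotientGroup.mk x * j) * G x j := by simp [G]
    rw [← Module.End.mul_apply, ← map_mul, h1, map_mul, Module.End.mul_apply, hχ _ (hG x j),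
      map_add, map_smul, hwf]
  obtain ⟨F1, hF1def⟩ : ∃ F1 : V, F1 = ∑ j, u j := ⟨_, rfl⟩
  have hF1 : ∀ x, ρ x F1 = F1 + (∑ j, χ (G x j)) • w := by
    intro x
    rw [hF1def, map_sum]
    simp_rw [hu]
    rw [Finset.sum_add_distrib, Finset.sum_smul]
    congr 1
    exact Fintype.sum_equiv (Equiv.mulLeft (QuotientGroup.mk x : C ⧸ K)) _ _ (fun j => rfl)
  by_cases hs1 : ∃ x, ∑ j, χ (G x j) ≠ 0
  · obtain ⟨x, hx⟩ := hs1
    refine ⟨F1, w, hw, fun g _ => hwf g, fun g _ => ⟨_, hF1 g⟩, x, trivial, ?_⟩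
    rw [hF1]
    intro h1
    have : (∑ j, χ (G x j)) • w = 0 := by simpa using h1
    exact (smul_ne_zero hx hw) this
  push Not at hs1
  have hF1f : ∀ x, ρ x F1 = F1 := by
    intro x; rw [hF1, hs1, zero_smul, add_zero]
  have hF1ne : ∀ a : k, F1 ≠ a • w := by
    intro a
    rw [hF1def]
    exact hne instJ a
  let Fl : (C ⧸ K → k) → V := fun l => ∑ j, l j • u j
  let s : (C ⧸ K → k) → C → k := fun l x => ∑ j, l j * χ (G x j)
  have hFl : ∀ l : C ⧸ K → k, (∀ x y, l (x * y) = l x + l y) → ∀ x : C,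
      ρ x (Fl l) = Fl l - l (QuotientGroup.mk x) • F1 + s l x • w := by
    intro l hl x
    show ρ x (∑ j, l j • u j) = ∑ j, l j • u j - l (QuotientGroup.mk x) • F1
      + (∑ j, l j * χ (G x j)) • w
    rw [map_sum]
    simp_rw [map_smul, hu, smul_add, smul_smul]
    rw [Finset.sum_add_distrib, ← Finset.sum_smul]
    congr 1
    have h1 : ∀ j, l j • u (QuotientGroup.mk x * j) =
        (l (QuotientGroup.mk x * j) - l (QuotientGroup.mk x)) • u (QuotientGroup.mk x * j) := by
      intro j; rw [hl]; simp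
    simp_rw [h1]
    rw [Fintype.sum_equiv (Equiv.mulLeft (QuotientGroup.mk x : C ⧸ K))
      (fun j => (l (QuotientGroup.mk x * j) - l (QuotientGroup.mk x)) • u (QuotientGroup.mk x * j))
      (fun j => (l j - l (QuotientGroup.mk x)) • u j) (fun j => rfl)]
    simp_rw [sub_smul]
    rw [Finset.sum_sub_distrib, ← Finset.smul_sum, hF1def]
  have hs_add : ∀ l : C ⧸ K → k, (∀ x y, l (x * y) = l x + l y) → ∀ x y : C,
      s l (x * y) = s l x + s l y := by
    intro l hl x y
    apply hw_inj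
    have h1 := hFl l hl (x * y)
    rw [map_mul, Module.End.mul_apply, hFl l hl y, map_add, map_sub, map_smul, map_smul, hwf,
      hF1f, hFl l hl x, QuotientGroup.mk_mul, hl, add_smul] at h1
    rw [add_smul]
    have h2 : s l (x * y) • w = (Fl l - (l (QuotientGroup.mk x) • F1 + l (QuotientGroup.mk y) • F1)
        + s l (x * y) • w) - (Fl l - (l (QuotientGroup.mk x) • F1 + l (QuotientGroup.mk y) • F1)) := by
      abel
    rw [h2, ← h1]
    abel
  have hs_K : ∀ l : C ⧸ K → k, (∀ x y, l (x * y) = l x + l y) → ∀ g ∈ K, s l g = 0 := by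
    intro l hl g hg
    have hmk : (QuotientGroup.mk g : C ⧸ K) = 1 := (QuotientGroup.eq_one_iff g).2 hg
    have hGg : ∀ j, G g j = (X j)⁻¹ * (g * X j) := by
      intro j
      show (X (QuotientGroup.mk g * j))⁻¹ * (g * X j) = _
      rw [hmk, one_mul]
    have hconj : ∀ x : C, ∃ i : ℕ, x⁻¹ * (g * x) = b ^ i * g := by
      intro x
      obtain ⟨i, hi⟩ := hcomm x⁻¹ g
      refine ⟨i, ?_⟩
      rw [← mul_assoc, hi]
      group
    choose ii hii using hconj
    let m0 : C → k := fun x => χ (x⁻¹ * (g * x)) - χ g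
    have hm0 : ∀ x, m0 x = ii x * χ b := by
      intro x
      show χ (x⁻¹ * (g * x)) - χ g = _
      rw [hii, hχb _ _ hg]
      ring
    have hbcp : ∀ (i : ℕ) (y : C), b ^ i * y = y * b ^ i := by
      intro i y
      exact ((show Commute b y from hbc y).pow_left i).eq
    have hm0_mul : ∀ x y, m0 (x * y) = m0 x + m0 y := by
      intro x y
      have h1 : (x * y)⁻¹ * (g * (x * y)) = b ^ (ii x) * (b ^ (ii y) * g) := by
        calc (x * y)⁻¹ * (g * (x * y)) = y⁻¹ * ((x⁻¹ * (g * x)) * y) := by group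
          _ = y⁻¹ * ((b ^ ii x * g) * y) := by rw [hii x]
          _ = (y⁻¹ * b ^ ii x) * (g * y) := by simp only [mul_assoc]
          _ = (b ^ ii x * y⁻¹) * (g * y) := by rw [hbcp]
          _ = b ^ ii x * (y⁻¹ * (g * y)) := by simp only [mul_assoc]
          _ = _ := by rw [hii y]
      show χ ((x * y)⁻¹ * (g * (x * y))) - χ g = _
      rw [h1, hχb _ _ (K.mul_mem (K.pow_mem hbK _) hg), hχb _ _ hg, hm0, hm0]
      ring
    have hm0_K : ∀ x ∈ K, m0 x = 0 := by
      intro x hx
      show χ (x⁻¹ * (g * x)) - χ g = 0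
      have h1 : χ x⁻¹ + χ x = 0 := by
        rw [← χ_mul _ (K.inv_mem hx) _ hx, inv_mul_cancel, χ_one]
      rw [χ_mul _ (K.inv_mem hx) _ (K.mul_mem hg hx), χ_mul _ hg _ hx]
      linear_combination h1
    let m : C ⧸ K → k := fun j => m0 (X j)
    have hm_mk : ∀ x : C, m0 x = m (QuotientGroup.mk x) := by
      intro x
      have h1 : X (QuotientGroup.mk x) * ((X (QuotientGroup.mk x))⁻¹ * x) = x := by group
      calc m0 x = m0 (X (QuotientGroup.mk x) * ((X (QuotientGroup.mk x))⁻¹ * x)) := by rw [h1]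
        _ = m0 (X (QuotientGroup.mk x)) + m0 ((X (QuotientGroup.mk x))⁻¹ * x) := hm0_mul _ _
        _ = m (QuotientGroup.mk x) := by rw [hm0_K _ (hXK x), add_zero]
    have hm_add : ∀ i j, m (i * j) = m i + m j := by
      intro i j
      have h1 : i * j = QuotientGroup.mk (X i * X j) := by rw [QuotientGroup.mk_mul, hX, hX]
      rw [h1, ← hm_mk, hm0_mul]
    have hm_val : ∃ a : k, ∀ x, ∃ i : ℕ, m x = i * a := ⟨χ b, fun j => ⟨ii (X j), hm0 _⟩⟩
    show ∑ j, l j * χ (G g j) = 0
    have h2 : ∀ j, l j * χ (G g j) = l j * χ g + l j * m j := by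
      intro j
      rw [hGg]
      show l j * χ ((X j)⁻¹ * (g * X j)) = l j * χ g + l j * (χ ((X j)⁻¹ * (g * X j)) - χ g)
      ring
    simp_rw [h2]
    rw [Finset.sum_add_distrib, ← Finset.sum_mul, sum_hom_zero (p := p) hp2 l hl,
      sum_hom_mul_zero (p := p) hp3 l m hl hm_add hm_val]
    simp
  have hs_mk : ∀ l : C ⧸ K → k, (∀ x y, l (x * y) = l x + l y) → ∀ x : C,
      s l x = s l (X (QuotientGroup.mk x)) := by
    intro l hl x
    have h1 : X (QuotientGroup.mk x) * ((X (QuotientGroup.mk x))⁻¹ * x) = x := by group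
    calc s l x = s l (X (QuotientGroup.mk x) * ((X (QuotientGroup.mk x))⁻¹ * x)) := by rw [h1]
      _ = s l (X (QuotientGroup.mk x)) + s l ((X (QuotientGroup.mk x))⁻¹ * x) := hs_add l hl _ _
      _ = s l (X (QuotientGroup.mk x)) := by rw [hs_K l hl _ (hXK x), add_zero]
  let L : Submodule k (C ⧸ K → k) :=
    { carrier := {l | ∀ x y, l (x * y) = l x + l y}
      zero_mem' := fun x y => by simp
      add_mem' := fun {a b} ha hb x y => by
        show a (x * y) + b (x * y) = a x + b x + (a y + b y)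
        rw [ha, hb]; ring
      smul_mem' := fun c a ha x y => by
        show c * a (x * y) = c * a x + c * a y
        rw [ha]; ring }
  have hS : ∀ l : L, (fun j => s l.1 (X j)) ∈ L := by
    intro l i j
    show s l.1 (X (i * j)) = s l.1 (X i) + s l.1 (X j)
    have h1 : i * j = QuotientGroup.mk (X i * X j) := by rw [QuotientGroup.mk_mul, hX, hX]
    rw [h1, ← hs_mk l.1 l.2, hs_add l.1 l.2]
  let S : Module.End k L :=
    { toFun := fun l => ⟨fun j => s l.1 (X j), hS l⟩
      map_add' := fun l l' => by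
        apply Subtype.ext
        funext j
        show ∑ i, (l.1 i + l'.1 i) * χ (G (X j) i) =
          ∑ i, l.1 i * χ (G (X j) i) + ∑ i, l'.1 i * χ (G (X j) i)
        rw [← Finset.sum_add_distrib]
        exact Finset.sum_congr rfl fun i _ => by ring
      map_smul' := fun c l => by
        apply Subtype.ext
        funext j
        show ∑ i, (c * l.1 i) * χ (G (X j) i) = c * ∑ i, l.1 i * χ (G (X j) i)
        rw [Finset.mul_sum]
        exact Finset.sum_congr rfl fun i _ => by ring }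
  have hJp : IsPGroup p (C ⧸ K) := hC.to_quotient K
  have hbot : (⊥ : Subgroup (C ⧸ K)) ≠ ⊤ := by
    intro h0
    have h1 : Nat.card (⊥ : Subgroup (C ⧸ K)) = Nat.card (⊤ : Subgroup (C ⧸ K)) := by rw [h0]
    rw [Subgroup.card_bot, Subgroup.card_top, Nat.card_eq_fintype_card] at h1
    rw [← h1] at hp3
    have h2 := Nat.le_of_dvd one_pos hp3
    have h3 : 1 < p ^ 3 := Nat.one_lt_pow (by norm_num) hp.out.one_lt
    omega
  obtain ⟨l0, hl0, -, x0, hx0⟩ := exists_char (k := k) hJp ⊥ hbot
  have hnt : Nontrivial L := ⟨⟨⟨l0, hl0⟩, 0, fun h0 => hx0 (by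
    have := congrArg (fun t : L => t.1 x0) h0
    exact this)⟩⟩
  obtain ⟨μ, hμ⟩ := Module.End.exists_eigenvalue S
  obtain ⟨l, hl⟩ := hμ.exists_hasEigenvector
  have hl1 : S l = μ • l := hl.apply_eq_smul
  have hl2 : l ≠ 0 := hl.2
  have hsl : ∀ x : C, s l.1 x = μ * l.1 (QuotientGroup.mk x) := by
    intro x
    rw [hs_mk l.1 l.2]
    have := congrArg (fun t : L => t.1 (QuotientGroup.mk x)) hl1
    exact this
  have hFx : ∀ x : C, ρ x (Fl l.1) = Fl l.1 + l.1 (QuotientGroup.mk x) • (μ • w - F1) := by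
    intro x
    rw [hFl l.1 l.2, hsl, smul_sub, smul_smul, mul_comm μ]
    abel
  have hcne : μ • w - F1 ≠ 0 := by
    intro h0
    exact hF1ne μ (sub_eq_zero.1 h0).symm
  refine ⟨Fl l.1, μ • w - F1, hcne, fun g _ => ?_, fun g _ => ⟨_, hFx g⟩, ?_⟩
  · rw [map_sub, map_smul, hwf, hF1f]
  · have hex : ∃ j, l.1 j ≠ 0 := by
      by_contra hcon
      push Not at hcon
      exact hl2 (Subtype.ext (funext hcon))
    obtain ⟨j, hj⟩ := hex
    refine ⟨X j, trivial, ?_⟩
    rw [hFx, hX]
    intro h0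
    have : l.1 j • (μ • w - F1) = 0 := by simpa using h0
    exact (smul_ne_zero hj hcne) this

end

end Pool.Agent.Helper407.PL
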