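import Pool.Agent.Helper407.PLMod2
import Pool.Agent.Helper407.PLAlg

set_option autoImplicit false

namespace Pool.Agent.Helper407.PL

section
variable {k : Type} [Field k] [IsAlgClosed k] {p : ℕ} [hp : Fact p.Prime] [CharP k p]

/-- a C-fixed vector in the image of all conjugates of e -/
theorem exists_w {G V : Type} [Group G] [Finite G] [AddCommGroup V] [Module k V]
    [Nontrivial V] (ρ : G →* Module.End k V) (C G0 X0 : Subgroup G)
    (hC : IsPGroup p C) (hX : (Nat.card X0).Coprime p)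
    (h1 : ∀ g ∈ X0, (∃ a : k, ρ g = a • 1) ∨
      ∃ h ∈ X0, ∃ t : k, t ≠ 1 ∧ ρ h * ρ g = t • (ρ g * ρ h))
    (h2 : ∀ g ∈ X0, ∀ h ∈ X0, ∃ t : k, ρ h * ρ g = t • (ρ g * ρ h))
    (hX0 : ∀ x ∈ C, x ∉ G0 → ∀ y ∈ X0, ∀ y' ∈ X0, y * (x * y' * x⁻¹) = (x * y' * x⁻¹) * y)
    (e : Module.End k V) (he : e ∈ Submodule.span k ((fun g => ρ g) '' (X0 : Set G)))
    (he0 : e ≠ 0) (heG : ∀ g ∈ G0, ρ g * e = e * ρ g) :
    ∃ w : V, w ≠ 0 ∧ (∀ g ∈ C, ρ g w = w) ∧ ∃ w', e w' = w := by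
  classical
  have hri : ∀ (x : G) (v : V), ρ x (ρ x⁻¹ v) = v := by
    intro x v
    rw [← Module.End.mul_apply, ← map_mul, mul_inv_cancel, map_one, Module.End.one_apply]
  have hri' : ∀ (x : G) (v : V), ρ x⁻¹ (ρ x v) = v := by
    intro x v
    rw [← Module.End.mul_apply, ← map_mul, inv_mul_cancel, map_one, Module.End.one_apply]
  obtain ⟨E, hE⟩ : ∃ E : G → Module.End k V, ∀ x, E x = ρ x * e * ρ x⁻¹ := ⟨_, fun _ => rfl⟩
  have hEv : ∀ x v, E x v = ρ x (e (ρ x⁻¹ v)) := by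
    intro x v; rw [hE]; rfl
  -- commutation
  have hstep : ∀ x ∈ C, ∀ x' ∈ C, x'⁻¹ * x ∉ G0 → ∀ y ∈ X0,
      ρ (x * y * x⁻¹) * E x' = E x' * ρ (x * y * x⁻¹) := by
    intro x hx x' hx' hn y hy
    rw [hE]
    refine Submodule.span_induction (p := fun a _ => ρ (x * y * x⁻¹) * (ρ x' * a * ρ x'⁻¹) =
      (ρ x' * a * ρ x'⁻¹) * ρ (x * y * x⁻¹)) ?_ ?_ ?_ ?_ he
    · rintro _ ⟨y', hy', rfl⟩
      have h := hX0 (x'⁻¹ * x) (C.mul_mem (C.inv_mem hx') hx) hn y' hy' y hy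
      have hg : x * y * x⁻¹ * (x' * y' * x'⁻¹) = x' * y' * x'⁻¹ * (x * y * x⁻¹) := by
        calc x * y * x⁻¹ * (x' * y' * x'⁻¹)
            = x' * (((x'⁻¹ * x) * y * (x'⁻¹ * x)⁻¹) * y') * x'⁻¹ := by group
          _ = x' * (y' * ((x'⁻¹ * x) * y * (x'⁻¹ * x)⁻¹)) * x'⁻¹ := by rw [h]
          _ = x' * y' * x'⁻¹ * (x * y * x⁻¹) := by group
      simp only [← map_mul]
      rw [hg]
    · simp
    · intro a b _ _ ha hb
      rw [mul_add, add_mul, mul_add, ha, hb, add_mul]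
    · intro t a _ ha
      rw [mul_smul_comm, smul_mul_assoc, mul_smul_comm, ha, smul_mul_assoc]
  -- the intersections are nonzero
  have hI : ∀ F : Finset G, (∀ x ∈ F, x ∈ C) → F.inf (fun x => LinearMap.range (E x)) ≠ ⊥ := by
    intro F
    induction F using Finset.induction_on with
    | empty =>
      intro _
      rw [Finset.inf_empty]
      exact top_ne_bot
    | insert x F hxF ih =>
      intro hF
      have hFC : ∀ x ∈ F, x ∈ C := fun z hz => hF z (Finset.mem_insert_of_mem hz)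
      have hxC : x ∈ C := hF x (Finset.mem_insert_self _ _)
      have ih' := ih hFC
      rw [Finset.inf_insert]
      by_cases hcase : ∃ x' ∈ F, x'⁻¹ * x ∈ G0
      · obtain ⟨x', hx', hG⟩ := hcase
        have hEE : E x = E x' := by
          rw [hE, hE]
          have h3 : x = x' * (x'⁻¹ * x) := by group
          have h4 : ρ x = ρ x' * ρ (x'⁻¹ * x) := by rw [← map_mul, ← h3]
          have h5 : ρ x⁻¹ = ρ (x'⁻¹ * x)⁻¹ * ρ x'⁻¹ := by
            rw [← map_mul]; congr 1; group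
          have h6 : ρ (x'⁻¹ * x) * ρ (x'⁻¹ * x)⁻¹ = 1 := by
            rw [← map_mul, mul_inv_cancel, map_one]
          rw [h4, h5]
          calc ρ x' * ρ (x'⁻¹ * x) * e * (ρ (x'⁻¹ * x)⁻¹ * ρ x'⁻¹)
              = ρ x' * (ρ (x'⁻¹ * x) * e) * ρ (x'⁻¹ * x)⁻¹ * ρ x'⁻¹ := by
                simp only [mul_assoc]
            _ = ρ x' * (e * ρ (x'⁻¹ * x)) * ρ (x'⁻¹ * x)⁻¹ * ρ x'⁻¹ := by rw [heG _ hG]
            _ = ρ x' * e * (ρ (x'⁻¹ * x) * ρ (x'⁻¹ * x)⁻¹) * ρ x'⁻¹ := by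
                simp only [mul_assoc]
            _ = ρ x' * e * ρ x'⁻¹ := by rw [h6, mul_one]
        have hle : F.inf (fun x => LinearMap.range (E x)) ≤ LinearMap.range (E x) := by
          rw [hEE]
          exact Finset.inf_le (f := fun x => LinearMap.range (E x)) hx'
        rw [inf_eq_right.mpr hle]
        exact ih'
      · push Not at hcase
        obtain ⟨I, hIdef⟩ : ∃ I, I = F.inf (fun x => LinearMap.range (E x)) := ⟨_, rfl⟩
        rw [← hIdef] at ih' ⊢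
        have hmem : ∀ v, v ∈ I ↔ ∀ x' ∈ F, v ∈ LinearMap.range (E x') := by
          intro v; rw [hIdef, Submodule.mem_finsetInf]
        have hstab : ∀ y ∈ X0, ∀ v ∈ I, ρ (x * y * x⁻¹) v ∈ I := by
          intro y hy v hv
          rw [hmem] at hv ⊢
          intro x' hx'
          obtain ⟨u, hu⟩ := hv x' hx'
          refine ⟨ρ (x * y * x⁻¹) u, ?_⟩
          rw [← hu, ← Module.End.mul_apply, ← hstep x hxC x' (hFC x' hx') (hcase x' hx') y hy,
            Module.End.mul_apply]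
        have hstabE : ∀ v ∈ I, E x v ∈ I := by
          intro v hv
          rw [hE]
          refine Submodule.span_induction (p := fun a _ => (ρ x * a * ρ x⁻¹) v ∈ I) ?_ ?_ ?_ ?_ he
          · rintro _ ⟨y, hy, rfl⟩
            simp only [← map_mul]
            exact hstab y hy v hv
          · simp
          · intro a b _ _ ha hb
            rw [mul_add, add_mul, LinearMap.add_apply]
            exact I.add_mem ha hb
          · intro t a _ ha
            rw [mul_smul_comm, smul_mul_assoc, LinearMap.smul_apply]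
            exact I.smul_mem t ha
        have hUne : I.map (ρ x⁻¹) ≠ ⊥ := by
          intro hbot
          apply ih'
          rw [Submodule.eq_bot_iff]
          intro v hv
          have h3 : ρ x⁻¹ v ∈ I.map (ρ x⁻¹) := ⟨v, hv, rfl⟩
          rw [hbot, Submodule.mem_bot] at h3
          rw [← hri x v, h3, map_zero]
        have hUst : ∀ y ∈ X0, ∀ u ∈ I.map (ρ x⁻¹), ρ y u ∈ I.map (ρ x⁻¹) := by
          rintro y hy _ ⟨v, hv, rfl⟩
          refine ⟨ρ (x * y * x⁻¹) v, hstab y hy v hv, ?_⟩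
          rw [← Module.End.mul_apply, ← map_mul, ← Module.End.mul_apply, ← map_mul]
          congr 2
          group
        have hex : ∃ u ∈ I.map (ρ x⁻¹), e u ≠ 0 := by
          by_contra hcon
          push Not at hcon
          exact he0 (alg_LI ρ X0 hX h1 h2 e he (I.map (ρ x⁻¹)) hUne hUst hcon)
        obtain ⟨_, ⟨v, hv, rfl⟩, hne⟩ := hex
        intro hbot
        have h4 : E x v ∈ LinearMap.range (E x) ⊓ I := ⟨⟨v, rfl⟩, hstabE v hv⟩
        rw [hbot, Submodule.mem_bot, hEv] at h4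
        apply hne
        rw [← hri' x (e (ρ x⁻¹ v)), h4, map_zero]
  -- all of C
  have hfin : (C : Set G).Finite := Set.toFinite _
  obtain ⟨F, hF⟩ : ∃ F : Finset G, ∀ x, x ∈ F ↔ x ∈ C := ⟨hfin.toFinset, fun x => by simp⟩
  have hne := hI F fun x hx => (hF x).mp hx
  obtain ⟨w, hwI, hw0, hwf⟩ := exists_fixed_sub ρ hC _ hne (by
    intro g hg v hv
    rw [Submodule.mem_finsetInf] at hv ⊢
    intro x hx
    have hxC := (hF x).mp hx
    obtain ⟨u, hu⟩ := hv (g⁻¹ * x) ((hF _).mpr (C.mul_mem (C.inv_mem hg) hxC))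
    refine ⟨ρ g u, ?_⟩
    rw [← hu, hEv, hEv]
    have h3 : ρ x⁻¹ (ρ g u) = ρ (g⁻¹ * x)⁻¹ u := by
      rw [← Module.End.mul_apply, ← map_mul]; congr 2; group
    have h4 : ∀ z, ρ g (ρ (g⁻¹ * x) z) = ρ x z := by
      intro z
      rw [← Module.End.mul_apply, ← map_mul]; congr 2; group
    rw [h3, h4])
  refine ⟨w, hw0, hwf, ?_⟩
  rw [Submodule.mem_finsetInf] at hwI
  obtain ⟨u, hu⟩ := hwI 1 ((hF 1).mpr C.one_mem)
  refine ⟨u, ?_⟩
  rw [← hu, hEv]
  simp


end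

section
variable {p : ℕ} [hp : Fact p.Prime]

/-- counting: the centraliser G0 has large index -/
theorem index_bound {G : Type} [Group G] [Finite G] (C G0 G1 Z : Subgroup G) (hC : IsPGroup p C)
    (hG0 : G0 ≤ C) (hG1 : G1 ≤ G0) (hab : ∀ x ∈ G1, ∀ y ∈ G1, x * y = y * x)
    (h1 : G1.relIndex G0 ≤ p) (b : G) (hbC : b ∈ C) (hb : b ^ p = 1)
    (hbc : ∀ x ∈ C, b * x = x * b) (hcomm : ∀ x ∈ C, ∀ y ∈ C, ∃ i : ℕ, x * y = b ^ i * (y * x))
    (hZ : ∀ x, x ∈ Z ↔ x ∈ C ∧ ∀ y ∈ C, x * y = y * x)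
    (hidx : p ^ (p ^ 3 + 3) < Z.relIndex C) :
    p ^ 3 ∣ G0.relIndex C ∧ p ^ 3 ∣ G1.relIndex C := by
  classical
  have hG1C : G1 ≤ C := hG1.trans hG0
  have hmul : G1.relIndex G0 * G0.relIndex C = G1.relIndex C :=
    Subgroup.relIndex_mul_relIndex G1 G0 C hG1 hG0
  suffices h3 : p ^ 3 ∣ G0.relIndex C by
    exact ⟨h3, by rw [← hmul]; exact Dvd.dvd.mul_left h3 _⟩
  by_contra hnd
  obtain ⟨a, ha⟩ : ∃ a : ℕ, G0.relIndex C = p ^ a := hC.index (G0.subgroupOf C)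
  have hp1 : 1 < p := hp.out.one_lt
  have hp0 : 0 < p := hp.out.pos
  have ha2 : a ≤ 2 := by
    by_contra hcon
    apply hnd
    rw [ha]
    exact pow_dvd_pow p (by omega)
  have hG0le : G0.relIndex C ≤ p ^ 2 := by
    rw [ha]; exact Nat.pow_le_pow_right hp0 ha2
  obtain ⟨N, hN⟩ : ∃ N, N = G1.relIndex C := ⟨_, rfl⟩
  have hNle : N ≤ p ^ 3 := by
    rw [hN, ← hmul]
    calc G1.relIndex G0 * G0.relIndex C ≤ p * p ^ 2 := Nat.mul_le_mul h1 hG0le
      _ = p ^ 3 := by ring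
  -- the exponent function
  have hpow : ∀ i : ℕ, b ^ i = b ^ (i % p) := by
    intro i
    conv_lhs => rw [← Nat.div_add_mod i p]
    rw [pow_add, pow_mul, hb, one_pow, one_mul]
  have hex : ∀ (z : G1) (j : C ⧸ G1.subgroupOf C), ∃ i : Fin p,
      (z : G) * (j.out : G) = b ^ (i : ℕ) * ((j.out : G) * z) := by
    intro z j
    obtain ⟨i, hi⟩ := hcomm z (hG1C z.2) (j.out : G) (j.out).2
    refine ⟨⟨i % p, Nat.mod_lt _ hp0⟩, ?_⟩
    rw [hi, hpow i]
  choose f hf using hex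
  have hkey : ∀ z z' : G1, f z = f z' → (z : G)⁻¹ * z' ∈ Z := by
    intro z z' hzz
    rw [hZ]
    refine ⟨C.mul_mem (C.inv_mem (hG1C z.2)) (hG1C z'.2), ?_⟩
    have hrep : ∀ j : C ⧸ G1.subgroupOf C,
        (z : G)⁻¹ * z' * (j.out : G) = (j.out : G) * ((z : G)⁻¹ * z') := by
      intro j
      have e1 := hf z j
      have e2 := hf z' j
      rw [← hzz] at e2
      have e3 : (z : G) * (j.out : G) * (z : G)⁻¹ = (z' : G) * (j.out : G) * (z' : G)⁻¹ := by
        rw [e1, e2]; group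
      calc (z : G)⁻¹ * z' * (j.out : G) = (z : G)⁻¹ * ((z' : G) * (j.out : G) * (z' : G)⁻¹) * z' := by
            group
        _ = (z : G)⁻¹ * ((z : G) * (j.out : G) * (z : G)⁻¹) * z' := by rw [e3]
        _ = (j.out : G) * ((z : G)⁻¹ * z') := by group
    intro y hy
    obtain ⟨h, hh⟩ := QuotientGroup.mk_out_eq_mul (G1.subgroupOf C) (⟨y, hy⟩ : C)
    have hh' : (((QuotientGroup.mk (⟨y, hy⟩ : C) : C ⧸ G1.subgroupOf C).out : C) : G) =
        y * ((h : C) : G) := by rw [hh]; rfl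
    have hhG1 : ((h : C) : G) ∈ G1 := h.2
    have e4 := hrep (QuotientGroup.mk (⟨y, hy⟩ : C))
    rw [hh'] at e4
    have ht : (z : G)⁻¹ * z' ∈ G1 := G1.mul_mem (G1.inv_mem z.2) z'.2
    have e5 := hab _ ht _ hhG1
    obtain ⟨t, htd⟩ : ∃ t, t = (z : G)⁻¹ * z' := ⟨_, rfl⟩
    obtain ⟨h', hh'd⟩ : ∃ h', h' = ((h : C) : G) := ⟨_, rfl⟩
    rw [← htd, ← hh'd] at e4 e5
    rw [← htd]
    calc t * y = t * (y * h') * h'⁻¹ := by group
      _ = y * h' * t * h'⁻¹ := by rw [e4]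
      _ = y * (h' * t) * h'⁻¹ := by group
      _ = y * (t * h') * h'⁻¹ := by rw [e5]
      _ = y * t := by group
  have hcard : Z.relIndex G1 ≤ p ^ N := by
    have hinj : Function.Injective (fun q : G1 ⧸ Z.subgroupOf G1 => f q.out) := by
      intro q q' hqq
      have h3 := hkey q.out q'.out hqq
      rw [← QuotientGroup.out_eq' q, ← QuotientGroup.out_eq' q', QuotientGroup.eq]
      exact h3
    have h4 := Nat.card_le_card_of_injective _ hinj
    rw [Nat.card_fun, Nat.card_fin] at h4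
    rw [hN]
    exact h4
  have hle1 : Z.relIndex C ≤ (Z ⊓ G1).relIndex C :=
    Subgroup.relIndex_le_of_le_left inf_le_left (by
      intro h0
      have := Subgroup.relIndex_dvd_card (Z ⊓ G1) C
      rw [h0, zero_dvd_iff] at this
      exact Nat.card_pos.ne' this)
  have hle2 : (Z ⊓ G1).relIndex C = Z.relIndex G1 * N := by
    rw [hN, ← Subgroup.inf_relIndex_right Z G1]
    exact (Subgroup.relIndex_mul_relIndex (Z ⊓ G1) G1 C inf_le_right hG1C).symm
  have hfinal : Z.relIndex C ≤ p ^ (p ^ 3 + 3) := by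
    calc Z.relIndex C ≤ Z.relIndex G1 * N := by rw [← hle2]; exact hle1
      _ ≤ p ^ N * p ^ 3 := Nat.mul_le_mul hcard hNle
      _ ≤ p ^ (p ^ 3) * p ^ 3 := Nat.mul_le_mul_right _ (Nat.pow_le_pow_right hp0 hNle)
      _ = p ^ (p ^ 3 + 3) := by rw [pow_add]
  omega


end

end Pool.Agent.Helper407.PL
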