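import Pool.Agent.Helper407.PLMod2

set_option autoImplicit false

namespace Pool.Agent.Helper407.PL

section
variable {k : Type} [Field k] [IsAlgClosed k] {p : ℕ} [hp : Fact p.Prime] [CharP k p]

/-- a commuting set of operators has a common eigenvector -/
theorem exists_weight {G V : Type} [Group G] [Finite G] [AddCommGroup V] [Module k V]
    [FiniteDimensional k V] [Nontrivial V] (ρ : G →* Module.End k V) (Z : Subgroup G)
    (hZ : ∀ x ∈ Z, ∀ y ∈ Z, x * y = y * x) :
    ∃ (μ : G → k) (v : V), v ≠ 0 ∧ ∀ z ∈ Z, ρ z v = μ z • v := by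
  classical
  let s : Set (Submodule k V) := {W | W ≠ ⊥ ∧ ∀ z ∈ Z, ∀ w ∈ W, ρ z w ∈ W}
  have hs : s.Nonempty := ⟨⊤, top_ne_bot, fun _ _ _ _ => trivial⟩
  obtain ⟨W, ⟨hW0, hWi⟩, hmin⟩ := wellFounded_lt.has_min s hs
  have key : ∀ z ∈ Z, ∃ c : k, ∀ w ∈ W, ρ z w = c • w := by
    intro z hz
    haveI : Nontrivial W := (Submodule.nontrivial_iff_ne_bot).2 hW0
    obtain ⟨c, hc⟩ := Module.End.exists_eigenvalue ((ρ z).restrict (hWi z hz))
    obtain ⟨u, hu⟩ := hc.exists_hasEigenvector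
    have hu1 : ρ z (u : V) = c • (u : V) := congrArg Subtype.val hu.apply_eq_smul
    have hu0 : (u : V) ≠ 0 := fun h => hu.2 (Subtype.ext h)
    refine ⟨c, ?_⟩
    let W' : Submodule k V := W ⊓ LinearMap.ker (ρ z - c • LinearMap.id)
    have hW' : W' ∈ s := by
      refine ⟨?_, ?_⟩
      · intro h
        have : (u : V) ∈ W' := ⟨u.2, by
          rw [SetLike.mem_coe, LinearMap.mem_ker]; simp [hu1]⟩
        rw [h, Submodule.mem_bot] at this
        exact hu0 this
      · rintro y hy w ⟨hw1, hw2⟩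
        refine ⟨hWi y hy w hw1, ?_⟩
        rw [SetLike.mem_coe, LinearMap.mem_ker, LinearMap.sub_apply, LinearMap.smul_apply,
          LinearMap.id_apply, sub_eq_zero] at hw2 ⊢
        rw [← Module.End.mul_apply, ← map_mul, hZ z hz y hy, map_mul, Module.End.mul_apply, hw2,
          map_smul]
    have hle : ¬ W' < W := hmin W' hW'
    have heq : W' = W := by
      rcases (inf_le_left : W' ≤ W).lt_or_eq with h | h
      · exact absurd h hle
      · exact h
    intro w hw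
    rw [← heq] at hw
    have h2 := hw.2
    rw [SetLike.mem_coe, LinearMap.mem_ker, LinearMap.sub_apply, LinearMap.smul_apply,
      LinearMap.id_apply, sub_eq_zero] at h2
    exact h2
  obtain ⟨v, hvW, hv0⟩ := Submodule.exists_mem_ne_zero_of_ne_bot hW0
  choose! μ hμ using key
  exact ⟨μ, v, hv0, fun z hz => hμ z hz v hvW⟩

/-- a weight of an abelian p'-group moved by the p-group C gives a rank one vector -/
theorem weights_rankone {G V : Type} [Group G] [Finite G] [AddCommGroup V] [Module k V]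
    [FiniteDimensional k V] (ρ : G →* Module.End k V) (C Z : Subgroup G) (hC : IsPGroup p C)
    (hZp : (Nat.card Z).Coprime p) (hZ : ∀ x ∈ Z, ∀ y ∈ Z, x * y = y * x)
    (hCZ : ∀ g ∈ C, ∀ z ∈ Z, g * z * g⁻¹ ∈ Z) (μ : G → k) (v : V) (hv : v ≠ 0)
    (hμ : ∀ z ∈ Z, ρ z v = μ z • v) (hmove : ∃ x ∈ C, ∃ z ∈ Z, μ (x⁻¹ * z * x) ≠ μ z) :
    RO ρ C := by
  classical
  have hCZ' : ∀ g ∈ C, ∀ z ∈ Z, g⁻¹ * z * g ∈ Z := by
    intro g hg z hz
    have := hCZ g⁻¹ (C.inv_mem hg) z hz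
    rwa [inv_inv] at this
  have hμ0 : ∀ z ∈ Z, μ z ≠ 0 := by
    intro z hz h0
    apply hv
    have h1 := hμ z hz
    rw [h0, zero_smul] at h1
    have h2 : ρ z⁻¹ (ρ z v) = v := by
      rw [← Module.End.mul_apply, ← map_mul, inv_mul_cancel, map_one]; rfl
    rw [← h2, h1, map_zero]
  have hμm : ∀ y ∈ Z, ∀ z ∈ Z, μ (y * z) = μ y * μ z := by
    intro y hy z hz
    have h1 := hμ (y * z) (Z.mul_mem hy hz)
    rw [map_mul, Module.End.mul_apply, hμ z hz, map_smul, hμ y hy, smul_smul] at h1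
    have h2 : (μ z * μ y - μ (y * z)) • v = 0 := by rw [sub_smul, h1, sub_self]
    rcases smul_eq_zero.1 h2 with h3 | h3
    · rw [mul_comm]; exact (sub_eq_zero.1 h3).symm
    · exact absurd h3 hv
  let Cm : Subgroup G :=
    { carrier := {x | x ∈ C ∧ ∀ z ∈ Z, μ (x⁻¹ * z * x) = μ z}
      one_mem' := ⟨C.one_mem, fun z _ => by simp⟩
      mul_mem' := by
        rintro x y ⟨hx, hx'⟩ ⟨hy, hy'⟩
        refine ⟨C.mul_mem hx hy, fun z hz => ?_⟩
        have e : (x * y)⁻¹ * z * (x * y) = y⁻¹ * (x⁻¹ * z * x) * y := by group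
        rw [e, hy' _ (hCZ' x hx z hz), hx' z hz]
      inv_mem' := by
        rintro x ⟨hx, hx'⟩
        refine ⟨C.inv_mem hx, fun z hz => ?_⟩
        have h1 := hx' (x * z * x⁻¹) (hCZ x hx z hz)
        have e : x⁻¹ * (x * z * x⁻¹) * x = z := by group
        rw [e] at h1
        rw [inv_inv]
        exact h1.symm }
  have hCm : ∀ x, x ∈ Cm ↔ x ∈ C ∧ ∀ z ∈ Z, μ (x⁻¹ * z * x) = μ z := fun x => Iff.rfl
  have hCmC : Cm ≤ C := fun x hx => hx.1
  let Vm : Submodule k V :=
    { carrier := {u | ∀ z ∈ Z, ρ z u = μ z • u}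
      zero_mem' := fun z _ => by simp
      add_mem' := fun {a b} ha hb z hz => by rw [map_add, ha z hz, hb z hz, smul_add]
      smul_mem' := fun c a ha z hz => by rw [map_smul, ha z hz, smul_comm] }
  have hconj : ∀ x z : G, ∀ u : V, ρ z (ρ x u) = ρ x (ρ (x⁻¹ * z * x) u) := by
    intro x z u
    rw [← Module.End.mul_apply, ← map_mul, ← Module.End.mul_apply, ← map_mul]
    congr 2
    group
  have hVm : Vm ≠ ⊥ := by
    intro h
    have : v ∈ Vm := hμ
    rw [h, Submodule.mem_bot] at this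
    exact hv this
  have hCmp : IsPGroup p Cm := hC.to_le hCmC
  obtain ⟨w, hwV, hw0, hwf⟩ := exists_fixed_sub ρ hCmp Vm hVm (by
    rintro x ⟨hx, hx'⟩ u hu z hz
    rw [hconj x z u, hu _ (hCZ' x hx z hz), map_smul, hx' z hz])
  let K : Subgroup C := Cm.subgroupOf C
  have hKtop : K ≠ ⊤ := by
    intro h
    obtain ⟨x, hx, z, hz, hne⟩ := hmove
    have : (⟨x, hx⟩ : C) ∈ K := by rw [h]; trivial
    rw [Subgroup.mem_subgroupOf] at this
    exact hne (this.2 z hz)
  obtain ⟨χ, hχ, hχK, x0, hx0⟩ := exists_char (k := k) hC K hKtop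
  haveI : Fintype (C ⧸ K) := Fintype.ofFinite _
  haveI : Fintype Z := Fintype.ofFinite _
  let φ : C → V := fun x => ρ x w
  have hφK : ∀ (x : C) (h : K), φ (x * h) = φ x := by
    intro x h
    have h1 : ρ ((h : C) : G) w = w := hwf _ h.2
    simp only [φ]
    rw [Subgroup.coe_mul, map_mul, Module.End.mul_apply, h1]
  let Φ : C ⧸ K → V := fun j => φ j.out
  let X : C ⧸ K → k := fun j => χ j.out
  have hΦ : ∀ x : C, Φ (QuotientGroup.mk x) = φ x := by
    intro x
    obtain ⟨h, hh⟩ := QuotientGroup.mk_out_eq_mul K x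
    simp only [Φ]
    rw [hh, hφK]
  have hX : ∀ x : C, X (QuotientGroup.mk x) = χ x := by
    intro x
    obtain ⟨h, hh⟩ := QuotientGroup.mk_out_eq_mul K x
    simp only [X]
    rw [hh, hχ, hχK _ h.2, add_zero]
  have hΦg : ∀ (g : C) (j : C ⧸ K), Φ (g • j) = ρ g (Φ j) := by
    intro g j
    induction j using QuotientGroup.induction_on with
    | H x =>
      rw [hΦ]
      have : g • (QuotientGroup.mk x : C ⧸ K) = QuotientGroup.mk (g * x) := rfl
      rw [this, hΦ]
      simp only [φ]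
      rw [Subgroup.coe_mul, map_mul, Module.End.mul_apply]
  have hXg : ∀ (g : C) (j : C ⧸ K), X (g • j) = χ g + X j := by
    intro g j
    induction j using QuotientGroup.induction_on with
    | H x =>
      rw [hX]
      have : g • (QuotientGroup.mk x : C ⧸ K) = QuotientGroup.mk (g * x) := rfl
      rw [this, hX, hχ]
  let c : V := ∑ j, Φ j
  let F : V := -∑ j, X j • Φ j
  have hsumg : ∀ (g : C) (f : C ⧸ K → V), ∑ j, f (g • j) = ∑ j, f j := fun g f =>
    Fintype.sum_equiv (MulAction.toPerm g) _ _ (fun _ => rfl)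
  have hcg : ∀ g ∈ C, ρ g c = c := by
    intro g hg
    have h1 := hsumg ⟨g, hg⟩ Φ
    simp only [hΦg] at h1
    simp only [c]
    rw [map_sum]
    exact h1
  have hFg : ∀ g : C, ρ g F = F + χ g • c := by
    intro g
    have h1 := hsumg g (fun j => X j • Φ j)
    simp only [hΦg, hXg, add_smul, Finset.sum_add_distrib] at h1
    have h2 : ∑ j, χ g • ρ g (Φ j) = χ g • c := by
      rw [← Finset.smul_sum, ← map_sum]
      congr 1
      exact hcg g g.2
    rw [h2] at h1
    simp only [F]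
    rw [map_neg, map_sum]
    simp only [map_smul]
    rw [← h1]
    abel
  -- the idempotent
  let e : Module.End k V := ∑ z : Z, (μ z)⁻¹ • ρ z
  have he : ∀ u, e u = ∑ z : Z, (μ z)⁻¹ • ρ z u := by
    intro u
    simp only [e, LinearMap.sum_apply, LinearMap.smul_apply]
  have hew : e w = (Nat.card Z : k) • w := by
    rw [he]
    have h1 : ∀ z : Z, (μ z)⁻¹ • ρ z w = w := by
      intro z
      rw [hwV z z.2, smul_smul, inv_mul_cancel₀ (hμ0 z z.2), one_smul]
    simp only [h1, Finset.sum_const, Finset.card_univ]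
    rw [← Nat.card_eq_fintype_card, Nat.cast_smul_eq_nsmul]
  have hex : ∀ x : C, x ∉ K → e (φ x) = 0 := by
    intro x hx
    have h1 : ∀ z : Z, (μ z)⁻¹ • ρ z (φ x) = ((μ z)⁻¹ * μ ((x : G)⁻¹ * z * x)) • φ x := by
      intro z
      simp only [φ]
      rw [hconj, hwV _ (hCZ' x x.2 z z.2), map_smul, smul_smul]
    rw [he]
    simp only [h1]
    rw [← Finset.sum_smul]
    obtain ⟨z0, hz0, hne⟩ : ∃ z ∈ Z, μ ((x : G)⁻¹ * z * x) ≠ μ z := by
      by_contra hcon
      push Not at hcon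
      exact hx ⟨x.2, hcon⟩
    have hS : ∑ z : Z, ((μ z)⁻¹ * μ ((x : G)⁻¹ * z * x)) = 0 := by
      set S := ∑ z : Z, ((μ z)⁻¹ * μ ((x : G)⁻¹ * z * x)) with hSdef
      have h2 : ∑ z : Z, ((μ ((⟨z0, hz0⟩ * z : Z) : G))⁻¹ *
          μ ((x : G)⁻¹ * ((⟨z0, hz0⟩ * z : Z) : G) * x)) = S :=
        Fintype.sum_equiv (Equiv.mulLeft (⟨z0, hz0⟩ : Z)) _ _ (fun _ => rfl)
      have h3 : ∀ z : Z, ((μ ((⟨z0, hz0⟩ * z : Z) : G))⁻¹ *
          μ ((x : G)⁻¹ * ((⟨z0, hz0⟩ * z : Z) : G) * x)) =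
          ((μ z0)⁻¹ * μ ((x : G)⁻¹ * z0 * x)) * ((μ z)⁻¹ * μ ((x : G)⁻¹ * z * x)) := by
        intro z
        rw [Subgroup.coe_mul]
        have e1 : (x : G)⁻¹ * (z0 * (z : G)) * x = ((x : G)⁻¹ * z0 * x) * ((x : G)⁻¹ * z * x) := by
          group
        rw [e1, hμm _ (hCZ' x x.2 z0 hz0) _ (hCZ' x x.2 z z.2), hμm z0 hz0 z z.2, mul_inv]
        ring
      simp only [h3] at h2
      rw [← Finset.mul_sum] at h2
      have h4 : ((μ z0)⁻¹ * μ ((x : G)⁻¹ * z0 * x) - 1) * S = 0 := by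
        rw [sub_mul, one_mul]
        exact sub_eq_zero.2 h2
      rcases mul_eq_zero.1 h4 with h5 | h5
      · exfalso
        apply hne
        have h6 := sub_eq_zero.1 h5
        field_simp [hμ0 z0 hz0] at h6
        exact h6
      · exact h5
    rw [hS, zero_smul]
  have hec : e c = (Nat.card Z : k) • w := by
    simp only [c]
    rw [map_sum, Finset.sum_eq_single (QuotientGroup.mk (1 : C) : C ⧸ K)]
    · rw [hΦ]
      simp only [φ]
      rw [Subgroup.coe_one, map_one]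
      exact hew
    · intro j _ hj
      simp only [Φ]
      apply hex
      intro hK
      apply hj
      rw [← QuotientGroup.out_eq' j, QuotientGroup.eq]
      simpa using hK
    · intro h; exact absurd (Finset.mem_univ _) h
  have hcard : (Nat.card Z : k) ≠ 0 := by
    intro h
    rw [CharP.cast_eq_zero_iff k p] at h
    exact hp.out.one_lt.ne' (Nat.Coprime.eq_one_of_dvd (Nat.coprime_comm.1 hZp) h)
  have hc0 : c ≠ 0 := by
    intro h
    rw [h, map_zero] at hec
    exact (smul_ne_zero hcard hw0) hec.symm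
  refine ⟨F, c, hc0, hcg, fun g hg => ⟨χ ⟨g, hg⟩, hFg ⟨g, hg⟩⟩, x0, x0.2, ?_⟩
  rw [hFg x0]
  intro h
  have : χ x0 • c = 0 := by simpa using h
  exact (smul_ne_zero hx0 hc0) this

end

end Pool.Agent.Helper407.PL
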