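import Pool.Agent.Helper407.PLCaseA
import Pool.Agent.Helper407.PLW
import Pool.Agent.Helper407.PLAlg2
import Pool.Agent.Helper407.PLWeights
import Pool.Agent.Helper407.PLTransfer
import Pool.Agent.Helper407.PLLemmaR

set_option autoImplicit false

namespace Pool.Agent.Helper407.PL

noncomputable section

section
variable {k : Type} [Field k]

/-- stabiliser of a subspace -/
def stab {G V : Type} [Group G] [Finite G] [AddCommGroup V] [Module k V]
    (ρ : G →* Module.End k V) (S : Submodule k V) : Subgroup G where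
  carrier := {g | ∀ s ∈ S, ρ g s ∈ S}
  one_mem' := fun s hs => by simpa using hs
  mul_mem' := fun {a b} ha hb s hs => by
    rw [map_mul, Module.End.mul_apply]; exact ha _ (hb s hs)
  inv_mem' := fun {a} ha s hs => by
    have h1 : ∀ n : ℕ, ρ (a ^ n) s ∈ S := by
      intro n
      induction n with
      | zero => simpa using hs
      | succ n ih => rw [pow_succ', map_mul, Module.End.mul_apply]; exact ha _ ih
    obtain ⟨n, hn⟩ : ∃ n : ℕ, a⁻¹ = a ^ n := by
      refine ⟨orderOf a - 1, ?_⟩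
      have h2 : 0 < orderOf a := orderOf_pos a
      rw [inv_eq_iff_mul_eq_one, ← pow_succ', Nat.sub_add_cancel h2, pow_orderOf_eq_one]
    rw [hn]; exact h1 n

/-- representation of the stabiliser -/
def stabRep {G V : Type} [Group G] [Finite G] [AddCommGroup V] [Module k V]
    (ρ : G →* Module.End k V) (S : Submodule k V) : stab ρ S →* Module.End k S where
  toFun g := (ρ g).restrict (fun s hs => g.2 s hs)
  map_one' := by ext; simp [LinearMap.restrict_apply]
  map_mul' a b := by ext; simp [LinearMap.restrict_apply]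

lemma stabRep_apply {G V : Type} [Group G] [Finite G] [AddCommGroup V] [Module k V]
    (ρ : G →* Module.End k V) (S : Submodule k V) (g : stab ρ S) (s : S) :
    ((stabRep ρ S g s : S) : V) = ρ g s := rfl

/-- the linear span of the operators of X -/
def Alg {G V : Type} [Group G] [AddCommGroup V] [Module k V]
    (ρ : G →* Module.End k V) (X : Subgroup G) : Submodule k (Module.End k V) :=
  Submodule.span k ((fun g => ρ g) '' (X : Set G))

section
variable {G V : Type} [Group G] [AddCommGroup V] [Module k V]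
  {ρ : G →* Module.End k V} {X : Subgroup G}

lemma Alg.of {g : G} (hg : g ∈ X) : ρ g ∈ Alg ρ X := Submodule.subset_span ⟨g, hg, rfl⟩

lemma Alg.mul {a b : Module.End k V} (ha : a ∈ Alg ρ X) (hb : b ∈ Alg ρ X) :
    a * b ∈ Alg ρ X := by
  induction ha using Submodule.span_induction with
  | mem x hx =>
    obtain ⟨g, hg, rfl⟩ := hx
    induction hb using Submodule.span_induction with
    | mem y hy =>
      obtain ⟨h, hh, rfl⟩ := hy
      simp only
      rw [← map_mul]; exact Alg.of (X.mul_mem hg hh)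
    | zero => rw [mul_zero]; exact Submodule.zero_mem _
    | add y z _ _ hy hz => rw [mul_add]; exact Submodule.add_mem _ hy hz
    | smul c y _ hy => rw [mul_smul_comm]; exact Submodule.smul_mem _ _ hy
  | zero => rw [zero_mul]; exact Submodule.zero_mem _
  | add y z _ _ hy hz => rw [add_mul]; exact Submodule.add_mem _ hy hz
  | smul c y _ hy => rw [smul_mul_assoc]; exact Submodule.smul_mem _ _ hy

lemma Alg.comm {a c : Module.End k V} (ha : a ∈ Alg ρ X) (hc : ∀ g ∈ X, c * ρ g = ρ g * c) :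
    c * a = a * c := by
  induction ha using Submodule.span_induction with
  | mem x hx =>
    obtain ⟨g, hg, rfl⟩ := hx
    exact hc g hg
  | zero => rw [mul_zero, zero_mul]
  | add y z _ _ hy hz => rw [mul_add, add_mul, hy, hz]
  | smul c y _ hy => rw [mul_smul_comm, smul_mul_assoc, hy]

lemma Alg.conj {a : Module.End k V} (ha : a ∈ Alg ρ X) {g : G} (hg : ∀ y ∈ X, g * y * g⁻¹ ∈ X) :
    ρ g * a * ρ g⁻¹ ∈ Alg ρ X := by
  induction ha using Submodule.span_induction with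
  | mem x hx =>
    obtain ⟨h, hh, rfl⟩ := hx
    simp only
    rw [← map_mul, ← map_mul]; exact Alg.of (hg h hh)
  | zero => rw [mul_zero, zero_mul]; exact Submodule.zero_mem _
  | add y z _ _ hy hz => rw [mul_add, add_mul]; exact Submodule.add_mem _ hy hz
  | smul c y _ hy => rw [mul_smul_comm, smul_mul_assoc]; exact Submodule.smul_mem _ _ hy

/-- conjugates by x of elements of Alg commute with Alg if the groups commute -/
lemma Alg.comm_conj {a c : Module.End k V} (ha : a ∈ Alg ρ X) (hc : c ∈ Alg ρ X) {x : G}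
    (hx : ∀ y ∈ X, ∀ y' ∈ X, y * (x * y' * x⁻¹) = (x * y' * x⁻¹) * y) :
    (ρ x * c * ρ x⁻¹) * a = a * (ρ x * c * ρ x⁻¹) := by
  apply Alg.comm ha
  intro g hg
  induction hc using Submodule.span_induction with
  | mem z hz =>
    obtain ⟨h, hh, rfl⟩ := hz
    simp only
    rw [← map_mul, ← map_mul, ← map_mul, ← map_mul, hx g hg h hh]
  | zero => simp
  | add y z _ _ hy hz => rw [mul_add, add_mul, add_mul, mul_add, hy, hz]
  | smul c y _ hy => rw [mul_smul_comm, smul_mul_assoc, smul_mul_assoc, mul_smul_comm, hy]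

end

lemma exists_dual_pair {S : Type} [AddCommGroup S] [Module k S] (s0 n1 : S)
    (h : ∀ a : k, n1 ≠ a • s0) : ∃ τ : S →ₗ[k] k, τ s0 = 0 ∧ τ n1 = 1 := by
  have h1 : n1 ∉ Submodule.span k {s0} := by
    intro hmem
    obtain ⟨a, ha⟩ := Submodule.mem_span_singleton.1 hmem
    exact h a ha.symm
  obtain ⟨f, hf, hker⟩ := Submodule.exists_le_ker_of_notMem h1
  refine ⟨(f n1)⁻¹ • f, ?_, ?_⟩
  · have : f s0 = 0 := hker (Submodule.mem_span_singleton_self s0)
    simp [this]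
  · simp [inv_mul_cancel₀ hf]

lemma exists_dual_one {S : Type} [AddCommGroup S] [Module k S] (s0 : S) (h : s0 ≠ 0) :
    ∃ τ : S →ₗ[k] k, τ s0 = 1 := by
  obtain ⟨τ, -, hτ⟩ := exists_dual_pair (k := k) (0 : S) s0 (fun a => by simpa using h)
  exact ⟨τ, hτ⟩

end

section
variable {k : Type} [Field k] [IsAlgClosed k] {p : ℕ} [hp : Fact p.Prime] [CharP k p]

/-- final part of Claim D -/
theorem core_final {G V : Type} [Group G] [Finite G] [AddCommGroup V] [Module k V]
    [FiniteDimensional k V] [Nontrivial V] (ρ : G →* Module.End k V) (hρ : Function.Injective ρ)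
    (C B G0 X0 Z : Subgroup G) (hC : IsPGroup p C) (hX : (Nat.card X0).Coprime p)
    (b : G) (hbC : b ∈ C) (hb : b ^ p = 1) (hbc : ∀ x ∈ C, b * x = x * b)
    (hcomm : ∀ x ∈ C, ∀ y ∈ C, ∃ i : ℕ, x * y = b ^ i * (y * x))
    (hG0C : G0 ≤ C) (hbG0 : b ∈ G0) (hBG0 : B ≤ G0)
    (hG0 : ∀ x ∈ C, x ∈ G0 ↔ ∀ β ∈ B, x * β = β * x)
    (hBX : ∀ β ∈ B, ∀ y ∈ X0, β * y = y * β)
    (hG0X : ∀ g ∈ G0, ∀ y ∈ X0, g * y * g⁻¹ ∈ X0) (hbX : ∃ y ∈ X0, b * y ≠ y * b)
    (hX0 : ∀ x ∈ C, x ∉ G0 → ∀ y ∈ X0, ∀ y' ∈ X0, y * (x * y' * x⁻¹) = (x * y' * x⁻¹) * y)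
    (hU : ∀ g ∈ G0, g ^ p ∈ B → ∃ i : ℕ, ∃ β ∈ B, g = b ^ i * β)
    (h1 : ∀ g ∈ X0, (∃ a : k, ρ g = a • 1) ∨
      ∃ h ∈ X0, ∃ t : k, t ≠ 1 ∧ ρ h * ρ g = t • (ρ g * ρ h))
    (h2 : ∀ g ∈ X0, ∀ h ∈ X0, ∃ t : k, ρ h * ρ g = t • (ρ g * ρ h))
    (hZ : ∀ x, x ∈ Z ↔ x ∈ C ∧ ∀ y ∈ C, x * y = y * x)
    (hidx : p ^ (p ^ 3 + 3) < Z.relIndex C) : RO ρ C := by
  classical
  have hpG0 : IsPGroup p G0 := hC.to_le hG0C
  have hpB : IsPGroup p B := hpG0.to_le hBG0
  -- B-fixed vectors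
  have hfB : fxd ρ B ≠ ⊥ := by
    obtain ⟨w, -, hw0, hw⟩ := exists_fixed_sub ρ hpB ⊤ top_ne_bot (fun _ _ _ _ => trivial)
    intro h
    have : w ∈ fxd ρ B := (mem_fxd ρ B w).2 hw
    rw [h, Submodule.mem_bot] at this
    exact hw0 this
  have hfBX : ∀ g ∈ X0, ∀ v ∈ fxd ρ B, ρ g v ∈ fxd ρ B := by
    intro g hg v hv β hβ
    rw [← Module.End.mul_apply, ← map_mul, hBX β hβ g hg, map_mul, Module.End.mul_apply, hv β hβ]
  have hfBG : ∀ g ∈ G0, ∀ v ∈ fxd ρ B, ρ g v ∈ fxd ρ B := by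
    intro g hg v hv β hβ
    rw [← Module.End.mul_apply, ← map_mul, ← ((hG0 g (hG0C hg)).1 hg β hβ), map_mul,
      Module.End.mul_apply, hv β hβ]
  -- minimal S
  let SS : Set ℕ := {n | ∃ W : Submodule k V, W ≠ ⊥ ∧ W ≤ fxd ρ B ∧
    (∀ g ∈ X0, ∀ w ∈ W, ρ g w ∈ W) ∧ (∀ g ∈ G0, ∀ w ∈ W, ρ g w ∈ W) ∧ Module.finrank k W = n}
  have hSSne : SS.Nonempty := ⟨_, fxd ρ B, hfB, le_rfl, hfBX, hfBG, rfl⟩
  obtain ⟨S, hS0, hSB, hSX, hSG, hSd⟩ := Nat.sInf_mem hSSne
  have hmin : ∀ W : Submodule k V, W ≤ S → (∀ g ∈ X0, ∀ w ∈ W, ρ g w ∈ W) →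
      (∀ g ∈ G0, ∀ w ∈ W, ρ g w ∈ W) → W = ⊥ ∨ W = S := by
    intro W hle hWX hWG
    by_cases h0 : W = ⊥
    · exact Or.inl h0
    · right
      refine Submodule.eq_of_le_of_finrank_le hle ?_
      rw [hSd]; exact Nat.sInf_le ⟨W, h0, hle.trans hSB, hWX, hWG, rfl⟩
  have hSnt : Nontrivial S := (Submodule.nontrivial_iff_ne_bot).2 hS0
  -- groups acting on S
  set K := stab ρ S with hK
  set σ := stabRep ρ S with hσ
  have hXK : X0 ≤ K := fun g hg => hSX g hg
  have hGK : G0 ≤ K := fun g hg => hSG g hg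
  have hBK : B ≤ K := hBG0.trans hGK
  let X : Subgroup K := X0.subgroupOf K
  let P : Subgroup K := G0.subgroupOf K
  let B' : Subgroup K := B.subgroupOf K
  have hXc : (Nat.card X).Coprime p := by
    have : Nat.card X = Nat.card X0 := Nat.card_congr (Subgroup.subgroupOfEquivOfLe hXK).toEquiv
    rw [this]; exact hX
  have hPp : IsPGroup p P := hpG0.comap_subtype
  have hPX : ∀ g ∈ P, ∀ x ∈ X, g * x * g⁻¹ ∈ X := by
    intro g hg x hx
    rw [Subgroup.mem_subgroupOf] at hg hx ⊢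
    simpa using hG0X g hg x hx
  have h1' : ∀ g ∈ X, (∃ a : k, σ g = a • 1) ∨
      ∃ h ∈ X, ∃ t : k, t ≠ 1 ∧ σ h * σ g = t • (σ g * σ h) := by
    intro g hg
    rcases h1 g hg with ⟨a, ha⟩ | ⟨h, hh, t, ht, he⟩
    · left
      refine ⟨a, ?_⟩
      ext s
      rw [stabRep_apply, ha]; rfl
    · right
      refine ⟨⟨h, hXK hh⟩, hh, t, ht, ?_⟩
      ext s
      have := congrArg (fun T : Module.End k V => T s) he
      exact this
  have h2' : ∀ g ∈ X, ∀ h ∈ X, ∃ t : k, σ h * σ g = t • (σ g * σ h) := by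
    intro g hg h hh
    obtain ⟨t, he⟩ := h2 g hg h hh
    refine ⟨t, ?_⟩
    ext s
    have := congrArg (fun T : Module.End k V => T s) he
    exact this
  have hirr : ∀ W : Submodule k S, (∀ g ∈ X, ∀ w ∈ W, σ g w ∈ W) →
      (∀ g ∈ P, ∀ w ∈ W, σ g w ∈ W) → W = ⊥ ∨ W = ⊤ := by
    intro W hWX hWP
    rcases hmin (W.map S.subtype) (Submodule.map_subtype_le S W) (by
        rintro g hg _ ⟨u, hu, rfl⟩
        exact ⟨_, hWX ⟨g, hXK hg⟩ hg u hu, rfl⟩) (by
        rintro g hg _ ⟨u, hu, rfl⟩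
        exact ⟨_, hWP ⟨g, hGK hg⟩ hg u hu, rfl⟩) with h | h
    · left
      rw [eq_bot_iff]
      intro u hu
      have h3 : (u : V) ∈ W.map S.subtype := ⟨u, hu, rfl⟩
      rw [h, Submodule.mem_bot] at h3
      exact (Submodule.mem_bot k).2 (Subtype.ext h3)
    · right
      rw [eq_top_iff]
      rintro ⟨w, hw⟩ _
      rw [← h] at hw
      obtain ⟨u, hu, hu'⟩ := hw
      have : u = ⟨w, hu' ▸ u.2⟩ := Subtype.ext hu'
      rwa [← this]
  have hsurj := alg_surj σ X P hXc hPp hPX h1' h2' hirr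
  have hlift : ∀ T : Module.End k S, ∃ a ∈ Alg ρ X0, ∀ s : S, a s = (T s : V) := by
    intro T
    have hT := hsurj T
    induction hT using Submodule.span_induction with
    | mem x hx =>
      obtain ⟨g, hg, rfl⟩ := hx
      exact ⟨ρ g, Alg.of hg, fun s => rfl⟩
    | zero => exact ⟨0, Submodule.zero_mem _, fun s => rfl⟩
    | add y z _ _ hy hz =>
      obtain ⟨a, ha, ha'⟩ := hy
      obtain ⟨c, hc, hc'⟩ := hz
      exact ⟨a + c, Submodule.add_mem _ ha hc, fun s => by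
        rw [LinearMap.add_apply, ha', hc']; rfl⟩
    | smul c y _ hy =>
      obtain ⟨a, ha, ha'⟩ := hy
      exact ⟨c • a, Submodule.smul_mem _ _ ha, fun s => by
        rw [LinearMap.smul_apply, ha']; rfl⟩
  have hLI : ∀ a ∈ Alg ρ X0, ∀ c ∈ Alg ρ X0, (∀ s : S, a s = c s) → a = c := by
    intro a ha c hc hac
    rw [← sub_eq_zero]
    refine alg_LI ρ X0 hX h1 h2 (a - c) (Submodule.sub_mem _ ha hc) S hS0 hSX ?_
    intro u hu
    rw [LinearMap.sub_apply, hac ⟨u, hu⟩, sub_self]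
  -- b acts nontrivially on S
  have hbK : b ∈ K := hGK hbG0
  have hbS : σ ⟨b, hbK⟩ ≠ 1 := by
    intro hb1
    obtain ⟨y, hy, hne⟩ := hbX
    apply hne
    have hbs : ∀ s : S, ρ b s = s := by
      intro s
      have := congrArg (fun T : Module.End k S => ((T s : S) : V)) hb1
      exact this
    have hby : b * y * b⁻¹ ∈ X0 := hG0X b hbG0 y hy
    have h3 : ρ (b * y * b⁻¹) = ρ y := by
      apply hLI _ (Alg.of hby) _ (Alg.of hy)
      intro s
      have e1 : ρ b⁻¹ s = s := by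
        have e2 := hbs s
        calc ρ b⁻¹ s = ρ b⁻¹ (ρ b s) := by rw [e2]
          _ = s := by rw [← Module.End.mul_apply, ← map_mul, inv_mul_cancel, map_one]; rfl
      rw [map_mul, map_mul, Module.End.mul_apply, Module.End.mul_apply, e1]
      exact hbs ⟨ρ y s, hSX y hy s s.2⟩
    have h4 := hρ h3
    calc b * y = (b * y * b⁻¹) * b := by group
      _ = y * b := by rw [h4]
  have hlR := lemmaR σ P B' hPp (fun x hx => hBG0 hx) ⟨b, hbK⟩ hbG0
    (Subtype.ext (by simpa using hb)) (fun x hx => Subtype.ext (hbc x (hG0C hx)))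
    (fun x hx y hy => by
      obtain ⟨i, hi⟩ := hcomm x (hG0C hx) y (hG0C hy)
      exact ⟨i, Subtype.ext (by simpa using hi)⟩)
    (fun β hβ x hx => Subtype.ext ((((hG0 x (hG0C hx)).1 hx) β hβ).symm))
    (fun β hβ => by
      ext s
      exact hSB s.2 β hβ) hbS
    (fun g hg hgp => by
      obtain ⟨i, β, hβ, he⟩ := hU g hg (by simpa using (Subgroup.mem_subgroupOf.1 hgp))
      exact ⟨i, ⟨β, hBK hβ⟩, hβ, Subtype.ext (by simpa using he)⟩)
  obtain ⟨G1', hG1P, hBG1, hbG1, hG1ab, hG1idx, s0, s1, hs0, hs0f, hs1f, hs1, halt⟩ := hlR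
  -- fixed functional
  let δ : K →* Module.End k (Module.Dual k S) :=
    { toFun := fun g => (σ g⁻¹).dualMap
      map_one' := by ext l u; simp
      map_mul' := fun a b => by ext l u; simp }
  obtain ⟨τ, -, hτ0, hτ⟩ := exists_fixed_sub δ hPp ⊤ (by
    have : Nontrivial (Module.Dual k S) := inferInstance
    exact top_ne_bot) (fun _ _ _ _ => trivial)
  have hτf : ∀ g ∈ P, ∀ s : S, τ (σ g s) = τ s := by
    intro g hg s
    have h3 := congrArg (fun t : Module.Dual k S => t (σ g s)) (hτ g hg)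
    simp only [δ, MonoidHom.coe_mk, OneHom.coe_mk, LinearMap.dualMap_apply] at h3
    rw [← h3, ← Module.End.mul_apply, ← map_mul, inv_mul_cancel, map_one]; rfl
  obtain ⟨τ0, hτ00⟩ := exists_dual_one (k := k) s0 hs0
  -- operators E_u
  have hE : ∀ u : S, ∃ a ∈ Alg ρ X0, ∀ s : S, a s = (τ s) • (u : V) := by
    intro u
    obtain ⟨a, ha, ha'⟩ := hlift (τ.smulRight u)
    exact ⟨a, ha, fun s => by rw [ha']; rfl⟩
  choose E hEA hEs using hE
  obtain ⟨κ, hκA, hκ⟩ := hlift (τ0.smulRight s1)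
  have hκs : ∀ s : S, κ s = (τ0 s) • (s1 : V) := fun s => by rw [hκ]; rfl
  -- conjugation of E_u and κ by G0
  have hcE : ∀ g (hg : g ∈ G0), ρ g * E s0 * ρ g⁻¹ = E s0 := by
    intro g hg
    apply hLI _ (Alg.conj (hEA s0) (hG0X g hg)) _ (hEA s0)
    intro s
    have hgi : g⁻¹ ∈ G0 := G0.inv_mem hg
    have e1 : E s0 (ρ g⁻¹ s) = (τ s) • (s0 : V) := by
      have := hEs s0 (σ ⟨g⁻¹, hGK hgi⟩ s)
      rw [hτf _ hgi] at this
      exact this
    rw [Module.End.mul_apply, Module.End.mul_apply, e1, map_smul, hEs]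
    congr 1
    have := congrArg Subtype.val (hs0f ⟨g, hGK hg⟩ hg)
    exact this
  have heG : ∀ g ∈ G0, ρ g * E s0 = E s0 * ρ g := by
    intro g hg
    have h3 := hcE g hg
    calc ρ g * E s0 = ρ g * E s0 * ρ g⁻¹ * ρ g := by
          rw [mul_assoc (ρ g * E s0), ← map_mul, inv_mul_cancel, map_one, mul_one]
      _ = E s0 * ρ g := by rw [h3]
  have he0 : E s0 ≠ 0 := by
    intro h0
    obtain ⟨s, hs⟩ : ∃ s : S, τ s ≠ 0 := by
      by_contra hcon
      push Not at hcon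
      exact hτ0 (LinearMap.ext hcon)
    have := hEs s0 s
    rw [h0, LinearMap.zero_apply] at this
    exact (smul_ne_zero hs (fun h => hs0 (Subtype.ext h))) this.symm
  obtain ⟨w, hw0, hwf, w', hw'⟩ := exists_w ρ C G0 X0 hC hX h1 h2 hX0 (E s0) (hEA s0) he0 heG
  -- the vector h
  have hgh : ∀ g (hg : g ∈ G0), ρ g (κ w) = E (σ ⟨g, hGK hg⟩ s1) w' := by
    intro g hg
    have h3 : ρ g * κ * ρ g⁻¹ * E s0 = E (σ ⟨g, hGK hg⟩ s1) := by
      apply hLI _ (Alg.mul (Alg.conj hκA (hG0X g hg)) (hEA s0)) _ (hEA _)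
      intro s
      have hgi : g⁻¹ ∈ G0 := G0.inv_mem hg
      have e2 : κ (ρ g⁻¹ (s0 : V)) = (s1 : V) := by
        have e3 := hκs (σ ⟨g⁻¹, hGK hgi⟩ s0)
        rw [hs0f _ hgi, hτ00, one_smul] at e3
        have e4 : ρ g⁻¹ (s0 : V) = s0 := congrArg Subtype.val (hs0f ⟨g⁻¹, hGK hgi⟩ hgi)
        rw [e4]; exact e3
      rw [Module.End.mul_apply, hEs, map_smul, Module.End.mul_apply, Module.End.mul_apply, e2, hEs]
      rfl
    calc ρ g (κ w) = ρ g (κ (ρ g⁻¹ w)) := by rw [hwf _ (C.inv_mem (hG0C hg))]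
      _ = ρ g (κ (ρ g⁻¹ (E s0 w'))) := by rw [hw']
      _ = (ρ g * κ * ρ g⁻¹ * E s0) w' := rfl
      _ = E (σ ⟨g, hGK hg⟩ s1) w' := by rw [h3]
  have hEadd : ∀ (u v : S) (a : k), E (u + a • v) = E u + a • E v := by
    intro u v a
    apply hLI _ (hEA _) _ (Submodule.add_mem _ (hEA u) (Submodule.smul_mem _ _ (hEA v)))
    intro s
    rw [hEs, LinearMap.add_apply, LinearMap.smul_apply, hEs, hEs]
    push_cast
    rw [smul_add, smul_comm a (τ s)]
  have hh1 : κ w = E s1 w' := by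
    have := hgh 1 G0.one_mem
    rw [map_one] at this
    have e : σ ⟨1, hGK G0.one_mem⟩ s1 = s1 := by
      have : (⟨1, hGK G0.one_mem⟩ : K) = 1 := rfl
      rw [this, map_one]; rfl
    rw [e] at this
    exact this
  have hG1K : ∀ g : K, g ∈ P → ∀ a : k, σ g s1 = s1 + a • s0 →
      ρ (g : G) (κ w) = κ w + a • w := by
    intro g hg a ha
    rw [hgh g hg]
    have e : (⟨(g : G), hGK hg⟩ : K) = g := rfl
    rw [e, ha, hEadd, LinearMap.add_apply, LinearMap.smul_apply, hw', ← hh1]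
  -- the operator ι
  have hι : ∀ τ1 : S →ₗ[k] k, τ1 s0 = 0 → ∃ ι : Module.End k V, ι w = 0 ∧
      (∀ g (hg : g ∈ G0), ι (ρ g (κ w)) = (τ1 (σ ⟨g, hGK hg⟩ s1)) • w) ∧
      (∀ x ∈ C, x ∉ G0 → ι (ρ x (κ w)) = 0) := by
    intro τ1 hτ1
    obtain ⟨ι, hιA, hι⟩ := hlift (τ1.smulRight s0)
    have hιs : ∀ s : S, ι s = (τ1 s) • (s0 : V) := fun s => by rw [hι]; rfl
    have hιE : ∀ u : S, ι * E u = (τ1 u) • E s0 := by
      intro u
      apply hLI _ (Alg.mul hιA (hEA u)) _ (Submodule.smul_mem _ _ (hEA s0))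
      intro s
      rw [Module.End.mul_apply, hEs, map_smul, hιs, LinearMap.smul_apply, hEs, smul_comm]
    have hιE' : ∀ u : S, ι (E u w') = (τ1 u) • w := by
      intro u
      have := congrArg (fun T : Module.End k V => T w') (hιE u)
      simp only [Module.End.mul_apply, LinearMap.smul_apply, hw'] at this
      exact this
    have hιw : ι w = 0 := by
      have := hιE' s0
      rw [hw', hτ1, zero_smul] at this
      exact this
    refine ⟨ι, hιw, fun g hg => ?_, fun x hx hxG => ?_⟩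
    · rw [hgh g hg, hιE']
    · have hxi : x⁻¹ ∈ C := C.inv_mem hx
      have hxiG : x⁻¹ ∉ G0 := fun h => hxG (by simpa using G0.inv_mem h)
      have e1 := Alg.comm_conj hκA hιA (hX0 x⁻¹ hxi hxiG)
      rw [inv_inv] at e1
      have e2 : ρ x ((ρ x⁻¹ * ι * ρ x) (κ w)) = ι (ρ x (κ w)) := by
        change ρ x (ρ x⁻¹ (ι (ρ x (κ w)))) = _
        rw [← Module.End.mul_apply, ← map_mul, mul_inv_cancel, map_one]; rfl
      have e3 : (ρ x⁻¹ * ι * ρ x) (κ w) = κ ((ρ x⁻¹ * ι * ρ x) w) :=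
        congrArg (fun T : Module.End k V => T w) e1
      rw [← e2, e3]
      change ρ x (κ (ρ x⁻¹ (ι (ρ x w)))) = 0
      rw [hwf x hx, hιw, map_zero, map_zero, map_zero]
  -- index
  let G1 : Subgroup G := G1'.map K.subtype
  have hG1G0 : G1 ≤ G0 := by
    rintro _ ⟨g, hg, rfl⟩
    exact hG1P hg
  have hG1sub : G1.subgroupOf K = G1' := by
    ext x
    rw [Subgroup.mem_subgroupOf]
    constructor
    · rintro ⟨y, hy, he⟩
      have : y = x := Subtype.ext he
      rwa [← this]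
    · intro hx; exact ⟨x, hx, rfl⟩
  have hG1idx' : G1.relIndex G0 ≤ p := by
    have h3 : G1'.relIndex P = G1.relIndex G0 := by
      have := Subgroup.relIndex_comap (K := G0.subgroupOf K) G1 K.subtype
      rw [show Subgroup.comap K.subtype G1 = G1' from hG1sub] at this
      rw [this]
      congr 1
      exact Subgroup.map_subgroupOf_eq_of_le hGK
    rw [← h3]; exact hG1idx
  have hidx' := index_bound C G0 G1 Z hC hG0C hG1G0 (by
    rintro _ ⟨x, hx, rfl⟩ _ ⟨y, hy, rfl⟩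
    exact congrArg Subtype.val (hG1ab x hx y hy)) hG1idx' b hbC hb hbc hcomm hZ hidx
  have hs1ne : ∀ a : k, s1 ≠ a • s0 := by
    intro a ha
    obtain ⟨g, hg, hne⟩ := hs1f
    apply hne
    rw [ha, map_smul, hs0f g (hG1P hg)]
  -- transfer
  have hfinish : ∀ Gs : Subgroup G, b ∈ Gs → p ^ 3 ∣ Gs.relIndex C →
      (∀ g ∈ Gs, ∃ a : k, ρ g (κ w) = κ w + a • w) →
      (∀ (inst : Fintype (C ⧸ Gs.subgroupOf C)) (a : k),
        ∑ j : C ⧸ Gs.subgroupOf C, ρ ((Quotient.out j : C) : G) (κ w) ≠ a • w) → RO ρ C := by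
    intro Gs hbs hdiv hh hne
    have hT := transfer_rankone (p := p) hC (ρ.comp C.subtype) ⟨b, hbC⟩
      (Subtype.ext (by simpa using hb)) (fun x => Subtype.ext (hbc x x.2))
      (fun x y => by
        obtain ⟨i, hi⟩ := hcomm x x.2 y y.2
        exact ⟨i, Subtype.ext (by simpa using hi)⟩)
      (Gs.subgroupOf C) (Subgroup.mem_subgroupOf.2 hbs) hdiv w (κ w) hw0
      (fun x => hwf x x.2) (fun g hg => hh g hg) hne
    obtain ⟨F, c, hc, hc1, hc2, g, -, hg⟩ := hT
    exact ⟨F, c, hc, fun g hg => hc1 ⟨g, hg⟩ trivial, fun g hg => hc2 ⟨g, hg⟩ trivial, g, g.2, hg⟩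
  by_cases hcase : ∀ g ∈ P, ∃ a : k, σ g s1 = s1 + a • s0
  · -- use G0
    obtain ⟨τ1, ht0, ht1⟩ := exists_dual_pair s0 s1 hs1ne
    obtain ⟨ι, hιw, hι1, hι2⟩ := hι τ1 ht0
    refine hfinish G0 hbG0 hidx'.1 (fun g hg => ?_) (fun inst a hsum => ?_)
    · obtain ⟨a, ha⟩ := hcase ⟨g, hGK hg⟩ hg
      exact ⟨a, hG1K ⟨g, hGK hg⟩ hg a ha⟩
    · have h3 := congrArg ι hsum
      rw [map_sum, map_smul, hιw, smul_zero,
        Fintype.sum_eq_single (QuotientGroup.mk (1 : C) : C ⧸ G0.subgroupOf C)] at h3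
      · have hout : ((Quotient.out (QuotientGroup.mk (1 : C) : C ⧸ G0.subgroupOf C) : C) : G)
            ∈ G0 := by
          have := QuotientGroup.mk_out_eq_mul (G0.subgroupOf C) (1 : C)
          obtain ⟨h, hh⟩ := this
          rw [hh, one_mul]; exact h.2
        rw [hι1 _ hout] at h3
        obtain ⟨a', ha'⟩ := hcase ⟨_, hGK hout⟩ hout
        rw [ha', map_add, map_smul, ht0, ht1, smul_zero, add_zero, one_smul] at h3
        exact hw0 h3
      · intro j hj
        apply hι2 _ (Quotient.out j : C).2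
        intro hcon
        apply hj
        have h4 : (QuotientGroup.mk (Quotient.out j : C) : C ⧸ G0.subgroupOf C) =
            QuotientGroup.mk (1 : C) := by
          rw [QuotientGroup.eq]
          simpa [Subgroup.mem_subgroupOf] using hcon
        rw [← h4]; exact (Quotient.out_eq' j).symm
  · rcases halt with halt | ⟨t, htP, htG1, hcov, hne⟩
    · exact absurd halt hcase
    obtain ⟨τ1, ht0, ht1⟩ := exists_dual_pair s0 (s1 + σ t s1) hne
    obtain ⟨ι, hιw, hι1, hι2⟩ := hι τ1 ht0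
    have htC : (t : G) ∈ C := hG0C htP
    refine hfinish G1 ⟨⟨b, hbK⟩, hbG1, rfl⟩ hidx'.2 (fun g hg => ?_) (fun inst a hsum => ?_)
    · obtain ⟨g', hg', rfl⟩ := hg
      obtain ⟨a, ha⟩ := hs1 g' hg'
      exact ⟨a, hG1K g' (hG1P hg') a ha⟩
    · have h3 := congrArg ι hsum
      have hjne : (QuotientGroup.mk (1 : C) : C ⧸ G1.subgroupOf C) ≠
          QuotientGroup.mk (⟨t, htC⟩ : C) := by
        intro h
        rw [QuotientGroup.eq] at h
        have h4 : (t : G) ∈ G1 := by simpa [Subgroup.mem_subgroupOf] using h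
        apply htG1
        have h5 : t ∈ G1.subgroupOf K := h4
        rwa [hG1sub] at h5
      rw [map_sum, map_smul, hιw, smul_zero, Fintype.sum_eq_add _ _ hjne] at h3
      · obtain ⟨g1, hg1⟩ := QuotientGroup.mk_out_eq_mul (G1.subgroupOf C) (1 : C)
        obtain ⟨g2, hg2⟩ := QuotientGroup.mk_out_eq_mul (G1.subgroupOf C) (⟨t, htC⟩ : C)
        obtain ⟨g1', hg1', e1⟩ := g1.2
        obtain ⟨g2', hg2', e2⟩ := g2.2
        have e3 : ((Quotient.out (QuotientGroup.mk (1 : C) : C ⧸ G1.subgroupOf C) : C) : G) =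
            ((g1' : K) : G) := by
          rw [hg1, one_mul]; exact e1.symm
        have e4 : ((Quotient.out (QuotientGroup.mk (⟨t, htC⟩ : C) :
            C ⧸ G1.subgroupOf C) : C) : G) = ((t * g2' : K) : G) := by
          rw [hg2]; push_cast; congr 1; exact e2.symm
        rw [e3, e4, hι1 (g1' : G) (hG1P hg1'), hι1 ((t * g2' : K) : G) (P.mul_mem htP (hG1P hg2'))] at h3
        obtain ⟨a1, ha1⟩ := hs1 g1' hg1'
        obtain ⟨a2, ha2⟩ := hs1 g2' hg2'
        have e5 : σ ⟨((g1' : K) : G), hGK (hG1P hg1')⟩ s1 = s1 + a1 • s0 := ha1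
        have e6 : σ ⟨((t * g2' : K) : G), hGK (P.mul_mem htP (hG1P hg2'))⟩ s1 =
            σ t s1 + a2 • s0 := by
          have : (⟨((t * g2' : K) : G), hGK (P.mul_mem htP (hG1P hg2'))⟩ : K) = t * g2' := rfl
          rw [this, map_mul, Module.End.mul_apply, ha2, map_add, map_smul, hs0f t htP]
        rw [e5, e6, map_add, map_add, map_smul, map_smul, ht0, smul_zero, smul_zero, add_zero,
          add_zero, ← add_smul, ← map_add, ht1, one_smul] at h3
        exact hw0 h3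
      · rintro j ⟨hj1, hj2⟩
        apply hι2 _ (Quotient.out j : C).2
        intro hcon
        rcases hcov ⟨_, hGK hcon⟩ hcon with h5 | h5
        · apply hj1
          have h4 : (QuotientGroup.mk (Quotient.out j : C) : C ⧸ G1.subgroupOf C) =
              QuotientGroup.mk (1 : C) := by
            rw [QuotientGroup.eq]
            have h6 : ((Quotient.out j : C) : G) ∈ G1 := ⟨_, h5, rfl⟩
            simpa [Subgroup.mem_subgroupOf] using h6
          rw [← h4]; exact (Quotient.out_eq' j).symm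
        · apply hj2
          have h4 : (QuotientGroup.mk (⟨t, htC⟩ : C) : C ⧸ G1.subgroupOf C) =
              QuotientGroup.mk (Quotient.out j : C) := by
            rw [QuotientGroup.eq]
            have h6 : (t : G)⁻¹ * ((Quotient.out j : C) : G) ∈ G1 := ⟨_, h5, rfl⟩
            simpa [Subgroup.mem_subgroupOf] using h6
          rw [h4]; exact (Quotient.out_eq' j).symm

end

end

end Pool.Agent.Helper407.PL
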