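import Mathlib

set_option autoImplicit false

namespace Pool.Agent.Helper407.PL

section
variable {k : Type} [Field k] {p : ℕ} [hp : Fact p.Prime] [CharP k p]

/-- a p-group acting linearly in characteristic p has a nonzero fixed vector -/
theorem exists_fixed {P M : Type} [Group P] [Finite P] (hP : IsPGroup p P) [AddCommGroup M]
    [Module k M] [Nontrivial M] (ρ : P →* Module.End k M) : ∃ v : M, v ≠ 0 ∧ ∀ g, ρ g v = v := by
  let _ : Algebra (ZMod p) k := ZMod.algebra k p
  let _ : Module (ZMod p) M := Module.compHom M (algebraMap (ZMod p) k)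
  have hst : IsScalarTower (ZMod p) k M := ⟨fun a b m => by
    rw [Algebra.smul_def, mul_smul]; rfl⟩
  obtain ⟨v, hv⟩ := exists_ne (0 : M)
  let E : Submodule (ZMod p) M := Submodule.span (ZMod p) (Set.range fun g => ρ g v)
  have hEi : ∀ g : P, ∀ x ∈ E, ρ g x ∈ E := by
    intro g x hx
    have h1 : E ≤ E.comap ((ρ g).restrictScalars (ZMod p)) := by
      rw [Submodule.span_le]
      rintro _ ⟨h, rfl⟩
      exact Submodule.subset_span ⟨g * h, by simp⟩
    exact h1 hx
  have hfin : Module.Finite (ZMod p) E := Module.Finite.span_of_finite (ZMod p) (Set.finite_range _)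
  have hE : Finite E := Module.finite_of_finite (ZMod p)
  have hvE : v ∈ E := Submodule.subset_span ⟨1, by simp⟩
  let _ : MulAction P E :=
    { smul := fun g x => ⟨ρ g x, hEi g x x.2⟩
      one_smul := fun x => Subtype.ext (by change ρ 1 (x : M) = x; simp)
      mul_smul := fun g h x => Subtype.ext (by
        change ρ (g * h) (x : M) = ρ g (ρ h x); simp) }
  have hcard : p ∣ Nat.card E := by
    have : addOrderOf (⟨v, hvE⟩ : E) = p := by
      apply addOrderOf_eq_prime
      · apply Subtype.ext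
        change p • v = 0
        rw [← Nat.cast_smul_eq_nsmul k, CharP.cast_eq_zero, zero_smul]
      · intro h
        exact hv (congrArg Subtype.val h)
    have h := addOrderOf_dvd_natCard (⟨v, hvE⟩ : E)
    rwa [this] at h
  have h0 : (0 : E) ∈ MulAction.fixedPoints P E := by
    intro g
    apply Subtype.ext
    change ρ g 0 = 0
    simp
  obtain ⟨b, hb, hb0⟩ := hP.exists_fixed_point_of_prime_dvd_card_of_fixed_point E hcard h0
  refine ⟨b, fun h => hb0 (Subtype.ext h.symm), fun g => congrArg Subtype.val (hb g)⟩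

variable {H M : Type} [Group H] [Finite H] [AddCommGroup M] [Module k M]

/-- relative version: fixed vectors in an invariant submodule -/
theorem exists_fixed_sub (ρ : H →* Module.End k M) {P : Subgroup H} (hP : IsPGroup p P)
    (W : Submodule k M) (hW : W ≠ ⊥) (hi : ∀ g ∈ P, ∀ w ∈ W, ρ g w ∈ W) :
    ∃ w ∈ W, w ≠ 0 ∧ ∀ g ∈ P, ρ g w = w := by
  have : Nontrivial W := (Submodule.nontrivial_iff_ne_bot).2 hW
  let σ : P →* Module.End k W :=
    { toFun := fun g => (ρ g).restrict (fun w hw => hi g g.2 w hw)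
      map_one' := by ext; simp [LinearMap.restrict_apply]
      map_mul' := fun a b => by ext; simp [LinearMap.restrict_apply] }
  obtain ⟨w, hw, hfix⟩ := exists_fixed hP σ
  refine ⟨w, w.2, fun h => hw (Subtype.ext h), fun g hg => ?_⟩
  have := congrArg Subtype.val (hfix ⟨g, hg⟩)
  exact this

/-- A x B lemma -/
theorem ab_lemma (ρ : H →* Module.End k M) {P X : Subgroup H} (hP : IsPGroup p P)
    (hX : (Nat.card X).Coprime p) (hc : ∀ g ∈ P, ∀ x ∈ X, g * x = x * g)
    (hfix : ∀ v, (∀ g ∈ P, ρ g v = v) → ∀ x ∈ X, ρ x v = v) :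
    ∀ x ∈ X, ∀ v, ρ x v = v := by
  classical
  have : Fintype X := Fintype.ofFinite X
  let A : Module.End k M := ∑ x : X, ρ x
  have hA : ∀ v, A v = ∑ x : X, ρ x v := fun v => LinearMap.sum_apply _ _ _
  have hcard : (Nat.card X : k) ≠ 0 := by
    intro h
    rw [CharP.cast_eq_zero_iff k p] at h
    exact hp.out.one_lt.ne' (Nat.Coprime.eq_one_of_dvd (Nat.coprime_comm.1 hX) h)
  have hker : LinearMap.ker A = ⊥ := by
    by_contra hne
    obtain ⟨w, hw, hw0, hwf⟩ := exists_fixed_sub ρ hP (LinearMap.ker A) hne (by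
      intro g hg w hw
      rw [LinearMap.mem_ker] at hw ⊢
      rw [hA] at hw ⊢
      have : ∀ x : X, ρ x (ρ g w) = ρ g (ρ x w) := by
        intro x
        rw [← Module.End.mul_apply, ← map_mul, ← hc g hg x x.2, map_mul, Module.End.mul_apply]
      simp_rw [this]
      rw [← map_sum, hw, map_zero])
    have h1 := hfix w hwf
    have h2 : ∀ x ∈ (Finset.univ : Finset X), ρ (x : H) w = w := fun x _ => h1 x x.2
    rw [LinearMap.mem_ker, hA, Finset.sum_congr rfl h2, Finset.sum_const,
      Finset.card_univ, ← Nat.card_eq_fintype_card, ← Nat.cast_smul_eq_nsmul k] at hw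
    exact (smul_ne_zero hcard hw0) hw
  intro x hx v
  have h2 : ρ x v - v ∈ LinearMap.ker A := by
    rw [LinearMap.mem_ker, map_sub, sub_eq_zero, hA, hA]
    have : ∀ y : X, ρ y (ρ x v) = ρ ((y * ⟨x, hx⟩ : X) : H) v := by
      intro y; simp
    simp_rw [this]
    exact Fintype.sum_equiv (Equiv.mulRight (⟨x, hx⟩ : X)) _ _ (fun y => rfl)
  rw [hker, Submodule.mem_bot, sub_eq_zero] at h2
  exact h2

/-- a functional equal to one on the orbit of c under a p-group -/
theorem exists_functional (ρ : H →* Module.End k M) {T : Subgroup H} (hT : IsPGroup p T)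
    {c : M} (hc : c ≠ 0) : ∃ L : M →ₗ[k] k, ∀ g ∈ T, L (ρ g c) = 1 := by
  let U : Submodule k M := Submodule.span k (Set.range fun g : T => ρ g c)
  have hUi : ∀ g : T, ∀ x ∈ U, ρ g x ∈ U := by
    intro g x hx
    have h1 : U ≤ U.comap (ρ g) := by
      rw [Submodule.span_le]
      rintro _ ⟨h, rfl⟩
      exact Submodule.subset_span ⟨g * h, by simp⟩
    exact h1 hx
  have hcU : c ∈ U := Submodule.subset_span ⟨1, by simp⟩
  have hnt : Nontrivial U := ⟨⟨⟨c, hcU⟩, 0, fun h => hc (congrArg Subtype.val h)⟩⟩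
  let σ : T →* Module.End k (Module.Dual k U) :=
    { toFun := fun g => ((ρ (g⁻¹ : T)).restrict (fun w hw => hUi g⁻¹ w hw)).dualMap
      map_one' := by ext l u; simp [LinearMap.restrict_apply]
      map_mul' := fun a b => by ext l u; simp [LinearMap.restrict_apply] }
  obtain ⟨l, hl, hfix⟩ := exists_fixed hT σ
  have h1 : ∀ (g : T) (u : U), l ⟨ρ g u, hUi g u u.2⟩ = l u := by
    intro g u
    have := congrArg (fun t : Module.Dual k U => t u) (hfix g⁻¹)
    simp only [σ, MonoidHom.coe_mk, OneHom.coe_mk, LinearMap.dualMap_apply] at this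
    rw [← this]
    congr 1
    apply Subtype.ext
    simp [LinearMap.restrict_apply]
  have h2 : l ⟨c, hcU⟩ ≠ 0 := by
    intro h0
    apply hl
    ext u
    have h3 : U ≤ (LinearMap.ker l).map U.subtype := by
      rw [Submodule.span_le]
      rintro _ ⟨g, rfl⟩
      exact ⟨⟨ρ g c, hUi g c hcU⟩, by
        change l _ = 0
        rw [h1 g ⟨c, hcU⟩, h0], rfl⟩
    obtain ⟨w, hw, hw'⟩ := h3 u.2
    have : w = u := Subtype.ext hw'
    rw [this] at hw
    exact hw
  obtain ⟨L, hL⟩ := LinearMap.exists_extend l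
  refine ⟨(l ⟨c, hcU⟩)⁻¹ • L, fun g hg => ?_⟩
  have h4 : L (ρ g c) = l ⟨ρ g c, hUi ⟨g, hg⟩ c hcU⟩ := by
    rw [← hL]; rfl
  rw [LinearMap.smul_apply, h4, h1 ⟨g, hg⟩ ⟨c, hcU⟩, smul_eq_mul, inv_mul_cancel₀ h2]

end

end Pool.Agent.Helper407.PL
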