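import Pool.Agent.Helper407.PLRel
import Pool.Agent.Helper407.PLMod

set_option autoImplicit false

namespace Pool.Agent.Helper407.PL

noncomputable section

section
variable {k H M : Type} [Field k] [Group H] [AddCommGroup M] [Module k M] {p : ℕ}

/-- homomorphisms D1 → k vanishing on D2, extended by zero to H -/
def HomMod (k : Type) [Field k] (D1 D2 : Subgroup H) : Submodule k (H → k) where
  carrier := {φ | (∀ x, x ∉ D1 → φ x = 0) ∧ (∀ x ∈ D1, ∀ y ∈ D1, φ (x * y) = φ x + φ y) ∧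
    ∀ x ∈ D2, φ x = 0}
  zero_mem' := ⟨fun _ _ => rfl, fun _ _ _ _ => by simp, fun _ _ => rfl⟩
  add_mem' := by
    rintro φ ψ ⟨h1, h2, h3⟩ ⟨g1, g2, g3⟩
    refine ⟨fun x hx => ?_, fun x hx y hy => ?_, fun x hx => ?_⟩
    · simp [h1 x hx, g1 x hx]
    · simp only [Pi.add_apply, h2 x hx y hy, g2 x hx y hy]; ring
    · simp [h3 x hx, g3 x hx]
  smul_mem' := by
    rintro a φ ⟨h1, h2, h3⟩
    refine ⟨fun x hx => ?_, fun x hx y hy => ?_, fun x hx => ?_⟩
    · simp [h1 x hx]
    · simp only [Pi.smul_apply, h2 x hx y hy, smul_eq_mul]; ring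
    · simp [h3 x hx]

/-- action of N on HomMod -/
def homRep (k : Type) [Field k] {N D1 D2 : Subgroup H} (h1 : Inv N D1) (h2 : Inv N D2) :
    N →* Module.End k (HomMod k D1 D2) where
  toFun g :=
    { toFun := fun φ => ⟨fun v => φ.1 ((g : H)⁻¹ * v * g), by
        obtain ⟨φ, a1, a2, a3⟩ := φ
        have key : ∀ {S : Subgroup H}, Inv N S → ∀ x, (g : H)⁻¹ * x * g ∈ S ↔ x ∈ S := by
          intro S hS x
          have := hS.conj_iff (N.inv_mem g.2) x
          simpa using this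
        refine ⟨fun x hx => a1 _ (fun h => hx ((key h1 x).1 h)), fun x hx y hy => ?_,
          fun x hx => a3 _ ((key h2 x).2 hx)⟩
        have := a2 _ ((key h1 x).2 hx) _ ((key h1 y).2 hy)
        rw [← this]
        group⟩
      map_add' := fun φ ψ => by ext; rfl
      map_smul' := fun a φ => by ext; rfl }
  map_one' := by
    ext φ v
    change φ.1 ((1 : H)⁻¹ * v * 1) = φ.1 v
    simp
  map_mul' a b := by
    ext φ v
    change φ.1 (((a * b : N) : H)⁻¹ * v * ((a * b : N) : H)) =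
      φ.1 ((b : H)⁻¹ * ((a : H)⁻¹ * v * a) * b)
    push_cast; group

lemma homRep_apply {N D1 D2 : Subgroup H} (h1 : Inv N D1) (h2 : Inv N D2) (g : N)
    (φ : HomMod k D1 D2) (v : H) : (homRep k h1 h2 g φ).1 v = φ.1 ((g : H)⁻¹ * v * g) := rfl

lemma HomMod.one {D1 D2 : Subgroup H} (φ : HomMod k D1 D2) : φ.1 1 = 0 := by
  have h := φ.2.2.1 1 D1.one_mem 1 D1.one_mem
  simpa using h

lemma HomMod.inv {D1 D2 : Subgroup H} (φ : HomMod k D1 D2) {x : H} (hx : x ∈ D1) :
    φ.1 x⁻¹ = - φ.1 x := by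
  have h := φ.2.2.1 x hx x⁻¹ (D1.inv_mem hx)
  rw [mul_inv_cancel, HomMod.one] at h
  exact (neg_eq_of_add_eq_zero_right h.symm).symm

lemma HomMod.zpow {D1 D2 : Subgroup H} (φ : HomMod k D1 D2) {x : H} (hx : x ∈ D1) (n : ℤ) :
    φ.1 (x ^ n) = n • φ.1 x := by
  have h1 : ∀ m : ℕ, φ.1 (x ^ m) = (m : ℤ) • φ.1 x := by
    intro m
    induction m with
    | zero => simp [HomMod.one]
    | succ m ih =>
      rw [pow_succ, φ.2.2.1 _ (D1.pow_mem hx m) _ hx, ih]
      push_cast; rw [add_smul, one_smul]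
  obtain ⟨m, rfl | rfl⟩ := n.eq_nat_or_neg
  · rw [zpow_natCast]; exact h1 m
  · rw [zpow_neg, zpow_natCast, HomMod.inv φ (D1.pow_mem hx m), h1 m, neg_smul]

/-- the modified tuple: the letter a is multiplied by v -/
def modTuple (a : ℕ) (v : H) (f : FreeGroup ℕ →* H) : FreeGroup ℕ →* H :=
  FreeGroup.lift (fun b => if b = a then f (FreeGroup.of b) * v else f (FreeGroup.of b))

lemma modTuple_mem {N D1 : Subgroup H} (h1 : Inv N D1) (a : ℕ) {v : H} (hv : v ∈ D1)
    (f : FreeGroup ℕ →* H) (hf : ∀ s, f s ∈ N) (s : FreeGroup ℕ) :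
    (f s)⁻¹ * modTuple a v f s ∈ D1 := by
  induction s using FreeGroup.induction_on with
  | C1 => simp
  | of b =>
    simp only [modTuple, FreeGroup.lift_apply_of]
    split_ifs
    · simpa using hv
    · simp
  | inv_of b ih =>
    have h2 := h1 (f (FreeGroup.of b)) (hf _) _ (D1.inv_mem ih)
    simp only [map_inv]
    have e : f (FreeGroup.of b) * ((f (FreeGroup.of b))⁻¹ * modTuple a v f (FreeGroup.of b))⁻¹ *
        (f (FreeGroup.of b))⁻¹ =
        (f (FreeGroup.of b))⁻¹⁻¹ * (modTuple a v f (FreeGroup.of b))⁻¹ := by group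
    rwa [e] at h2
  | mul x y hx hy =>
    have h2 := h1 (f y)⁻¹ (N.inv_mem (hf y)) _ hx
    have h3 := D1.mul_mem h2 hy
    have e : (f y)⁻¹ * ((f x)⁻¹ * modTuple a v f x) * (f y)⁻¹⁻¹ * ((f y)⁻¹ * modTuple a v f y) =
      (f (x * y))⁻¹ * modTuple a v f (x * y) := by
      simp only [map_mul]; group
    rwa [e] at h3

lemma ev_mul_of {k N M : Type} [Field k] [Group N] [AddCommGroup M] [Module k M]
    (ρ : N →* Module.End k M) (f : FreeGroup ℕ →* N) (u : ZF) (t : FreeGroup ℕ) (m : M) :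
    ev ρ f (u * MonoidAlgebra.of ℤ _ t) m = ev ρ f u (ρ (f t) m) := by
  rw [map_mul, ev_of]; rfl

/-- value of the Fox derivative of a word -/
lemma fox_eval {N D1 D2 : Subgroup H} (h1 : Inv N D1) (h2 : Inv N D2) (a : ℕ) {v : H}
    (hv : v ∈ D1) (f : FreeGroup ℕ →* N) (s : FreeGroup ℕ) :
    ∀ φ : HomMod k D1 D2,
    (ev (homRep k h1 h2) f (fox a (MonoidAlgebra.of ℤ _ s)) φ).1 v =
      φ.1 ((f s : H)⁻¹ * modTuple a v (N.subtype.comp f) s) := by
  have hmem : ∀ s, (f s : H)⁻¹ * modTuple a v (N.subtype.comp f) s ∈ D1 :=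
    fun s => modTuple_mem h1 a hv (N.subtype.comp f) (fun s => (f s).2) s
  have hmul : ∀ x y : FreeGroup ℕ,
      (∀ φ : HomMod k D1 D2, (ev (homRep k h1 h2) f (fox a (MonoidAlgebra.of ℤ _ x)) φ).1 v =
      φ.1 ((f x : H)⁻¹ * modTuple a v (N.subtype.comp f) x)) →
      ∀ φ : HomMod k D1 D2,
      (ev (homRep k h1 h2) f (fox a (MonoidAlgebra.of ℤ _ (x * y))) φ).1 v -
        φ.1 ((f (x * y) : H)⁻¹ * modTuple a v (N.subtype.comp f) (x * y)) =
      (ev (homRep k h1 h2) f (fox a (MonoidAlgebra.of ℤ _ y)) φ).1 v -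
        φ.1 ((f y : H)⁻¹ * modTuple a v (N.subtype.comp f) y) := by
    intro x y hx φ
    rw [fox_of_mul, map_add, LinearMap.add_apply, ev_mul_of, Submodule.coe_add, Pi.add_apply, hx,
      homRep_apply]
    have e : (f (x * y) : H)⁻¹ * modTuple a v (N.subtype.comp f) (x * y) =
      ((f y : H)⁻¹ * ((f x : H)⁻¹ * modTuple a v (N.subtype.comp f) x) * f y) *
        ((f y : H)⁻¹ * modTuple a v (N.subtype.comp f) y) := by
      simp only [map_mul, Subgroup.coe_mul]; group
    have hm : (f y : H)⁻¹ * ((f x : H)⁻¹ * modTuple a v (N.subtype.comp f) x) * f y ∈ D1 := by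
      have := h1 (f y : H)⁻¹ (N.inv_mem (f y).2) _ (hmem x)
      simpa using this
    rw [e, φ.2.2.1 _ hm _ (hmem y)]
    ring
  induction s using FreeGroup.induction_on with
  | C1 =>
    intro φ
    have e : fox a (MonoidAlgebra.of ℤ (FreeGroup ℕ) 1) = 0 := by
      have := fox_of_mul a 1 1
      rw [mul_one, map_one, mul_one] at this
      exact (left_eq_add.1 this)
    rw [e, map_zero, map_one, map_one]
    simp [HomMod.one]
  | of b =>
    intro φ
    rw [fox_letter]
    simp only [modTuple, FreeGroup.lift_apply_of]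
    split_ifs
    · rw [map_one]; simp
    · rw [map_zero]; simp [HomMod.one]
  | inv_of b ih =>
    intro φ
    have h3 := hmul _ (FreeGroup.of b)⁻¹ ih φ
    rw [mul_inv_cancel] at h3
    have e : fox a (MonoidAlgebra.of ℤ (FreeGroup ℕ) 1) = 0 := by
      have := fox_of_mul a 1 1
      rw [mul_one, map_one, mul_one] at this
      exact (left_eq_add.1 this)
    rw [e, map_zero, map_one, map_one] at h3
    simp only [LinearMap.zero_apply, ZeroMemClass.coe_zero, Pi.zero_apply, OneMemClass.coe_one,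
      inv_one, mul_one, HomMod.one, sub_zero] at h3
    exact (sub_eq_zero.1 h3.symm)
  | mul x y hx hy =>
    intro φ
    have h3 := hmul x y hx φ
    rw [hy, sub_self] at h3
    exact sub_eq_zero.1 h3

/-- value of the Fox derivative of any element -/
lemma fox_eval_gen {N D1 D2 : Subgroup H} (h1 : Inv N D1) (h2 : Inv N D2) (a : ℕ) {v : H}
    (hv : v ∈ D1) (f : FreeGroup ℕ →* N) (r : ZF) (φ : HomMod k D1 D2) :
    (ev (homRep k h1 h2) f (fox a r) φ).1 v =
      r.coeff.sum fun s n => n • φ.1 ((f s : H)⁻¹ * modTuple a v (N.subtype.comp f) s) := by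
  induction r using MonoidAlgebra.induction_on with
  | of s =>
    rw [fox_eval h1 h2 a hv, MonoidAlgebra.of_apply, MonoidAlgebra.coeff_single,
      Finsupp.sum_single_index] <;> simp
  | add x y hx hy =>
    rw [map_add, map_add, LinearMap.add_apply, Submodule.coe_add, Pi.add_apply, hx, hy,
      MonoidAlgebra.coeff_add, Finsupp.sum_add_index']
    · intro s; simp
    · intro s m n; rw [add_smul]
  | smul n x hx =>
    rw [map_zsmul, map_zsmul, LinearMap.smul_apply, Submodule.coe_smul_of_tower, Pi.smul_apply, hx,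
      Finsupp.smul_sum, MonoidAlgebra.coeff_smul, Finsupp.sum_smul_index']
    · simp only [mul_smul, smul_eq_mul]
    · intro s; simp

end

section
variable {k H M : Type} [Field k] [Group H] [AddCommGroup M] [Module k M] {p : ℕ}

/-- separation of points and the relation give the next state -/
theorem reduce_aux [Finite H] [hp : Fact p.Prime] [CharP k p] {N D1 D2 : Subgroup H}
    (h1 : Inv N D1) (h2 : Inv N D2) {r : ZF} (hr : Rel p r (homRep k h1 h2))
    (hs : ∃ m, RLp p m (⊥ : Subgroup H) ⊤)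
    (hsep : ∀ x ∈ D1, x ∉ D2 → ∃ φ : HomMod k D1 D2, φ.1 x ≠ 0)
    {Λ : ℕ} (hSm : ¬ Sm p Λ N D1 D2) : State p k Λ r := by
  have hs' : ∃ m, RLp p m (⊥ : Subgroup N) ⊤ := by
    obtain ⟨m, hm⟩ := hs
    refine ⟨m, ?_⟩
    have := hm.comap N.subtype
    rw [Subgroup.comap_top] at this
    have e : Subgroup.comap N.subtype ⊥ = ⊥ := by
      rw [MonoidHom.comap_bot, Subgroup.ker_subtype]
    rwa [e] at this
  rcases comp_lemma (homRep k h1 h2) hr Λ hs' with h | ⟨K, hK, hK'⟩
  · exact h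
  · exfalso
    apply hSm
    refine ⟨K.map N.subtype, Subgroup.map_subtype_le K, ?_, ?_, ?_⟩
    · have := hK.inv
      rintro g hg _ ⟨x, hx, rfl⟩
      exact ⟨_, this ⟨g, hg⟩ trivial x hx, by simp⟩
    · have := hK.map N.subtype
      rwa [← MonoidHom.range_eq_map, Subgroup.range_subtype] at this
    · rintro _ ⟨g, hg, rfl⟩
      obtain ⟨e, he⟩ := hK' g hg
      refine ⟨e, fun y hy => ?_⟩
      by_contra hcon
      set u : H := (N.subtype g) ^ (p ^ e) with hu
      have huN : u ∈ N := N.pow_mem g.2 _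
      have hm := h1 u huN y hy
      obtain ⟨φ, hφ⟩ := hsep _ (D1.mul_mem hm (D1.inv_mem hy)) hcon
      apply hφ
      rw [φ.2.2.1 _ hm _ (D1.inv_mem hy), HomMod.inv φ hy]
      have h3 := congrArg (fun T : Module.End k (HomMod k D1 D2) => (T φ).1 (u * y * u⁻¹)) he
      simp only [Module.End.one_apply, homRep_apply] at h3
      have e1 : ((g ^ p ^ e : N) : H) = u := by simp [hu]
      rw [e1] at h3
      have e2 : u⁻¹ * (u * y * u⁻¹) * u = y := by group
      rw [e2] at h3
      rw [← h3]; ring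

/-- base: a law on p-subgroups -/
theorem base_rel {N D1 D2 : Subgroup H} (h1 : Inv N D1) (h2 : Inv N D2)
    (hD1 : IsPGroup p D1) (w : FreeGroup ℕ)
    (hw : ∀ f : FreeGroup ℕ →* H, IsPGroup p f.range → f w = 1) (a : ℕ) :
    Rel p (fox a (MonoidAlgebra.of ℤ _ w)) (homRep k h1 h2) := by
  intro f hf
  ext φ v
  by_cases hv : v ∈ D1
  · rw [fox_eval h1 h2 a hv]
    have hT : IsPGroup p (f.range.map N.subtype) := hf.map _
    have hT' : IsPGroup p (D1 ⊔ f.range.map N.subtype : Subgroup H) := by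
      rw [sup_comm]
      apply hT.to_sup_of_normal_right' hD1
      rintro _ ⟨x, -, rfl⟩
      rw [Subgroup.mem_normalizer_iff]
      intro y
      exact (h1.conj_iff x.2 y).symm
    have e1 : (f w : H) = 1 := by
      have := hw (N.subtype.comp f) (by rwa [MonoidHom.range_comp])
      exact this
    have e2 : modTuple a v (N.subtype.comp f) w = 1 := by
      apply hw
      refine hT'.to_le ?_
      rw [modTuple, FreeGroup.range_lift_eq_closure, Subgroup.closure_le]
      rintro _ ⟨b, rfl⟩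
      have hb : (N.subtype.comp f) (FreeGroup.of b) ∈ D1 ⊔ f.range.map N.subtype :=
        Subgroup.mem_sup_right ⟨f (FreeGroup.of b), ⟨_, rfl⟩, rfl⟩
      dsimp only
      split_ifs
      · exact Subgroup.mul_mem _ hb (Subgroup.mem_sup_left hv)
      · exact hb
    rw [e1, e2]
    simp [HomMod.one]
  · rw [(ev (homRep k h1 h2) f (fox a (MonoidAlgebra.of ℤ _ w)) φ).2.1 v hv]
    rfl

/-- descent of the relation -/
theorem descent_rel [Finite H] [hp : Fact p.Prime] [CharP k p] {N D1 D2 : Subgroup H}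
    (h1 : Inv N D1) (h2 : Inv N D2) (hD1 : IsPGroup p D1)
    {r : ZF} (ρ : H →* Module.End k M) (hr : Rel p r ρ)
    (hR : ∀ x ∈ D1, x ∉ D2 → ∃ (F c : M) (φ : H → k), c ≠ 0 ∧
      (∀ g ∈ D1, ρ g c = c ∧ ρ g F = F + φ g • c) ∧ φ x ≠ 0) (a : ℕ) :
    Rel p (fox a r) (homRep k h1 h2) := by
  intro f hf
  ext φ v
  by_cases hv : v ∈ D1
  swap
  · rw [(ev (homRep k h1 h2) f (fox a r) φ).2.1 v hv]
    rfl
  rw [fox_eval_gen h1 h2 a hv]
  set f' := modTuple a v (N.subtype.comp f) with hf'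
  have hmem : ∀ s, (f s : H)⁻¹ * f' s ∈ D1 :=
    fun s => modTuple_mem h1 a hv (N.subtype.comp f) (fun s => (f s).2) s
  have hT : IsPGroup p (f.range.map N.subtype) := hf.map _
  have hT' : IsPGroup p (D1 ⊔ f.range.map N.subtype : Subgroup H) := by
    rw [sup_comm]
    apply hT.to_sup_of_normal_right' hD1
    rintro _ ⟨x, -, rfl⟩
    rw [Subgroup.mem_normalizer_iff]
    intro y
    exact (h1.conj_iff x.2 y).symm
  have hpf' : IsPGroup p f'.range := by
    refine hT'.to_le ?_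
    rw [hf', modTuple, FreeGroup.range_lift_eq_closure, Subgroup.closure_le]
    rintro _ ⟨b, rfl⟩
    have hb : (N.subtype.comp f) (FreeGroup.of b) ∈ D1 ⊔ f.range.map N.subtype :=
      Subgroup.mem_sup_right ⟨f (FreeGroup.of b), ⟨_, rfl⟩, rfl⟩
    dsimp only
    split_ifs
    · exact Subgroup.mul_mem _ hb (Subgroup.mem_sup_left hv)
    · exact hb
  have hpf : IsPGroup p (N.subtype.comp f).range := by rwa [MonoidHom.range_comp]
  -- the big product
  set W : H := (r.coeff.support.toList.map fun s => ((f s : H)⁻¹ * f' s) ^ (r.coeff s)).prod with hW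
  have hWmem : W ∈ D1 := by
    rw [hW]
    apply Subgroup.list_prod_mem
    intro x hx
    rw [List.mem_map] at hx
    obtain ⟨s, -, rfl⟩ := hx
    exact D1.zpow_mem (hmem s) _
  have hsum : ∀ ψ : H → k, (∀ x ∈ D1, ∀ y ∈ D1, ψ (x * y) = ψ x + ψ y) → ψ 1 = 0 →
      ψ W = r.coeff.sum fun s n => n • ψ ((f s : H)⁻¹ * f' s) := by
    intro ψ hψ hψ1
    let ψ' : HomMod k D1 (⊥ : Subgroup H) := ⟨fun x => by
      classical exact if x ∈ D1 then ψ x else 0, by
      refine ⟨fun x hx => by simp [hx], fun x hx y hy => ?_, fun x hx => ?_⟩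
      · simp only [hx, hy, D1.mul_mem hx hy, if_true]; exact hψ x hx y hy
      · rw [Subgroup.mem_bot] at hx; subst hx
        simp [hψ1]⟩
    have hval : ∀ x ∈ D1, ψ'.1 x = ψ x := fun x hx => by simp [ψ', hx]
    have hlist : ∀ l : List (FreeGroup ℕ),
        ψ'.1 ((l.map fun s => ((f s : H)⁻¹ * f' s) ^ (r.coeff s)).prod) =
        (l.map fun s => (r.coeff s) • ψ'.1 ((f s : H)⁻¹ * f' s)).sum ∧
        (l.map fun s => ((f s : H)⁻¹ * f' s) ^ (r.coeff s)).prod ∈ D1 := by
      intro l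
      induction l with
      | nil => simp [HomMod.one]
      | cons s l ih =>
        have hz := D1.zpow_mem (hmem s) (r.coeff s)
        simp only [List.map_cons, List.prod_cons, List.sum_cons]
        refine ⟨?_, D1.mul_mem hz ih.2⟩
        rw [ψ'.2.2.1 _ hz _ ih.2, ih.1, HomMod.zpow ψ' (hmem s)]
    rw [← hval W hWmem, hW, (hlist _).1, Finset.sum_map_toList, Finsupp.sum]
    exact Finset.sum_congr rfl (fun s _ => by rw [hval _ (hmem s)])
  have hWD2 : W ∈ D2 := by
    by_contra hcon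
    obtain ⟨F, c, ψ, hc, hψ, hne⟩ := hR W hWmem hcon
    apply hne
    have hadd : ∀ x ∈ D1, ∀ y ∈ D1, ψ (x * y) = ψ x + ψ y := by
      intro x hx y hy
      have e1 := (hψ (x * y) (D1.mul_mem hx hy)).2
      rw [map_mul, Module.End.mul_apply, (hψ y hy).2, map_add, map_smul, (hψ x hx).1,
        (hψ x hx).2, add_assoc, add_right_inj, ← add_smul] at e1
      exact (smul_left_injective k hc e1).symm
    have hone : ψ 1 = 0 := by
      have := hadd 1 D1.one_mem 1 D1.one_mem
      simpa using this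
    rw [hsum ψ hadd hone]
    obtain ⟨L, hL⟩ := exists_functional (p := p) ρ hpf hc
    have e1 := congrArg (fun T : Module.End k M => L (T F)) (hr f' hpf')
    have e2 := congrArg (fun T : Module.End k M => L (T F)) (hr (N.subtype.comp f) hpf)
    simp only [ev_apply, LinearMap.zero_apply, map_zero] at e1 e2
    have e3 : ∀ s, ρ (f' s) F = ρ (f s) F + ψ ((f s : H)⁻¹ * f' s) • ρ (f s) c := by
      intro s
      have : f' s = (f s : H) * ((f s : H)⁻¹ * f' s) := by group
      conv_lhs => rw [this]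
      rw [map_mul, Module.End.mul_apply, (hψ _ (hmem s)).2, map_add, map_smul]
    rw [Finsupp.sum, map_sum] at e1 e2
    rw [Finsupp.sum, ← sub_zero (Finset.sum _ _)]
    have e4 : ∀ s ∈ r.coeff.support, r.coeff s • ψ ((f s : H)⁻¹ * f' s) =
        L (r.coeff s • ρ (f' s) F) - L (r.coeff s • ρ ((N.subtype.comp f) s) F) := by
      intro s _
      have e5 : (N.subtype.comp f) s = (f s : H) := rfl
      have e6 : L (ρ (f s : H) c) = 1 := hL _ ⟨s, rfl⟩
      rw [e5, e3 s, map_zsmul, map_zsmul, map_add, map_smul, e6, smul_add, smul_eq_mul, mul_one]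
      ring
    rw [Finset.sum_congr rfl e4, Finset.sum_sub_distrib, e1, e2]
    simp
  rw [← hsum φ.1 φ.2.2.1 (HomMod.one φ)]
  rw [φ.2.2.2 W hWD2]; rfl

/-- full descent step -/
theorem level_reduce [Finite H] [hp : Fact p.Prime] [CharP k p] {N D1 D2 : Subgroup H}
    (h1 : Inv N D1) (h2 : Inv N D2) (hD1 : IsPGroup p D1)
    (hs : ∃ m, RLp p m (⊥ : Subgroup H) ⊤)
    {r : ZF} (ρ : H →* Module.End k M) (hr : Rel p r ρ)
    (hR : ∀ x ∈ D1, x ∉ D2 → ∃ (F c : M) (φ : H → k), c ≠ 0 ∧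
      (∀ g ∈ D1, ρ g c = c ∧ ρ g F = F + φ g • c) ∧ φ x ≠ 0 ∧ ∀ y ∈ D2, φ y = 0) (a : ℕ)
    {Λ : ℕ} (hSm : ¬ Sm p Λ N D1 D2) : State p k Λ (fox a r) := by
  refine reduce_aux h1 h2 (descent_rel h1 h2 hD1 ρ hr (fun x hx hx' => ?_) a) hs ?_ hSm
  · obtain ⟨F, c, φ, a1, a2, a3, -⟩ := hR x hx hx'
    exact ⟨F, c, φ, a1, a2, a3⟩
  · intro x hx hx'
    obtain ⟨F, c, ψ, hc, hψ, hne, hz⟩ := hR x hx hx'
    classical
    have hadd : ∀ x ∈ D1, ∀ y ∈ D1, ψ (x * y) = ψ x + ψ y := by
      intro x hx y hy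
      have e1 := (hψ (x * y) (D1.mul_mem hx hy)).2
      rw [map_mul, Module.End.mul_apply, (hψ y hy).2, map_add, map_smul, (hψ x hx).1,
        (hψ x hx).2, add_assoc, add_right_inj, ← add_smul] at e1
      exact (smul_left_injective k hc e1).symm
    refine ⟨⟨fun x => if x ∈ D1 then ψ x else 0, fun x hx => by simp [hx],
      fun x hx y hy => ?_, fun x hx => ?_⟩, ?_⟩
    · simp only [hx, hy, D1.mul_mem hx hy, if_true]; exact hadd x hx y hy
    · dsimp only
      split_ifs
      · exact hz x hx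
      · rfl
    · simpa [hx] using hne

end

end

end Pool.Agent.Helper407.PL
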