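import Pool.Agent.Helper407.PLLevel3

set_option autoImplicit false

namespace Pool.Agent.Helper407.PL

section
variable {H : Type} [Group H] [Finite H] {p : ℕ}

lemma exists_largest (F : Subgroup H → Prop) (h0 : ∃ X, F X)
    (hsup : ∀ X Y, F X → F Y → F (X ⊔ Y)) : ∃ A, F A ∧ ∀ X, F X → X ≤ A := by
  obtain ⟨A, hA, hmax⟩ := (Set.toFinite {X : Subgroup H | F X}).exists_maximal h0
  refine ⟨A, hA, fun X hX => ?_⟩
  have := hmax (hsup A X hA hX) le_sup_left
  exact le_sup_right.trans this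

lemma PF'.sup_bot {Q X Y : Subgroup H} (hX : Inv ⊤ X) (hQX : Q ≤ X) (hQY : Q ≤ Y)
    (h1 : PF' p Q X) (h2 : PF' p Q Y) : PF' p Q (X ⊔ Y) := by
  have h3 : PF' p (Q ⊔ X) (Y ⊔ X) := h2.sup le_top hX
  rw [sup_eq_right.2 hQX, sup_comm] at h3
  exact h1.trans h3

lemma PF.sup_bot {Q X Y : Subgroup H} (hX : Inv ⊤ X) (hQX : Q ≤ X) (hQY : Q ≤ Y)
    (h1 : PF p Q X) (h2 : PF p Q Y) : PF p Q (X ⊔ Y) := by
  have h3 : PF p (Q ⊔ X) (Y ⊔ X) := h2.sup le_top hX
  rw [sup_eq_right.2 hQX, sup_comm] at h3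
  exact h1.trans h3

lemma Inv.normal {Q : Subgroup H} (h : Inv ⊤ Q) : Q.Normal := ⟨fun x hx g => h g trivial x hx⟩

/-- basic configuration -/
theorem exists_QRN [hp : Fact p.Prime] (hs : ∃ m, RLp p m (⊥ : Subgroup H) ⊤) {n : ℕ}
    (hn : ¬ RLp p (n + 1) (⊥ : Subgroup H) ⊤) :
    ∃ Q R N : Subgroup H, (Nat.card Q).Coprime p ∧ Inv ⊤ Q ∧
      (∀ X, Inv ⊤ X → PF' p ⊥ X → X ≤ Q) ∧ IsPGroup p R ∧ R ≤ N ∧ Inv N R ∧
      ¬ Sm p n N R ⊥ := by
  obtain ⟨Q, ⟨hQi, hQ1⟩, hQmax⟩ := exists_largest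
    (fun X : Subgroup H => Inv ⊤ X ∧ PF' p ⊥ X) ⟨⊥, Inv.bot _, PF'.refl _⟩
    (fun X Y hX hY => ⟨hX.1.sup hY.1, PF'.sup_bot hX.1 bot_le bot_le hX.2 hY.2⟩)
  obtain ⟨L, ⟨hLi, hQL, hL1⟩, hLmax⟩ := exists_largest
    (fun X : Subgroup H => Inv ⊤ X ∧ Q ≤ X ∧ PF p Q X) ⟨Q, hQi, le_rfl, PF.refl _⟩
    (fun X Y hX hY => ⟨hX.1.sup hY.1, hX.2.1.trans le_sup_left,
      PF.sup_bot hX.1 hX.2.1 hY.2.1 hX.2.2 hY.2.2⟩)
  have hQn : Q.Normal := hQi.normal
  have hLn : L.Normal := hLi.normal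
  -- Hall-Higman in H/Q
  have hHH : ∀ x, (∀ y ∈ L, x * y * x⁻¹ * y⁻¹ ∈ Q) → x ∈ L := by
    intro x hx
    let π : H →* H ⧸ Q := QuotientGroup.mk' Q
    have hπs : Function.Surjective π := QuotientGroup.mk'_surjective Q
    have hπ1 : ∀ g, π g = 1 ↔ g ∈ Q := fun g => QuotientGroup.eq_one_iff g
    have hInvc : ∀ X : Subgroup (H ⧸ Q), Inv ⊤ X → Inv ⊤ (X.comap π) := by
      intro X hX g _ x hx
      rw [Subgroup.mem_comap, map_mul, map_mul, map_inv]
      exact hX _ trivial _ hx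
    have h1 := HH2 (p := p) (H := H ⧸ Q) (by
        obtain ⟨m, hm⟩ := hs
        refine ⟨m, ?_⟩
        have := hm.map π
        rwa [Subgroup.map_bot, Subgroup.map_top_of_surjective π hπs] at this) (L.map π)
      (by
        rintro g - _ ⟨y, hy, rfl⟩
        obtain ⟨g, rfl⟩ := hπs g
        exact ⟨g * y * g⁻¹, hLi g trivial y hy, by simp⟩)
      (by
        rintro _ ⟨y, hy, rfl⟩
        obtain ⟨k, hk⟩ := hL1 y hy
        refine ⟨k, ?_⟩
        rw [Subgroup.mem_bot, ← map_pow, hπ1]; exact hk)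
      (by
        intro X hX hXp
        have h2 : X.comap π ≤ L := hLmax _ ⟨hInvc X hX, fun q hq => by
            rw [Subgroup.mem_comap, (hπ1 q).2 hq]; exact X.one_mem, fun y hy => by
            obtain ⟨k, hk⟩ := hXp _ hy
            refine ⟨k, ?_⟩
            rwa [Subgroup.mem_bot, ← map_pow, hπ1] at hk⟩
        intro y hy
        obtain ⟨y, rfl⟩ := hπs y
        exact ⟨y, h2 hy, rfl⟩)
      (by
        intro X hX hXp
        have h2 : PF' p Q (X.comap π) := fun y hy => by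
          obtain ⟨k, hk, hk'⟩ := hXp _ hy
          refine ⟨k, hk, ?_⟩
          rwa [Subgroup.mem_bot, ← map_pow, hπ1] at hk'
        have h3 : X.comap π ≤ Q := hQmax _ ⟨hInvc X hX, hQ1.trans h2⟩
        rw [eq_bot_iff]
        intro y hy
        obtain ⟨y, rfl⟩ := hπs y
        rw [Subgroup.mem_bot, hπ1]; exact h3 hy)
      (π x) (by
        rintro _ ⟨y, hy, rfl⟩
        have h4 := (hπ1 _).2 (hx y hy)
        rw [map_mul, map_mul, map_mul, map_inv, map_inv] at h4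
        calc π x * π y = (π x * π y * (π x)⁻¹ * (π y)⁻¹) * π y * π x := by group
          _ = π y * π x := by rw [h4, one_mul])
    obtain ⟨y, hy, hyx⟩ := h1
    have h5 : y⁻¹ * x ∈ Q := by
      rw [← hπ1, map_mul, map_inv, hyx, inv_mul_cancel]
    have h6 : x = y * (y⁻¹ * x) := by group
    rw [h6]; exact L.mul_mem hy (hQL h5)
  -- Sylow subgroup of L
  obtain ⟨S⟩ := (inferInstance : Nonempty (Sylow p L))
  let R : Subgroup H := (S : Subgroup L).map L.subtype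
  have hRL : R ≤ L := Subgroup.map_subtype_le _
  have hRp : IsPGroup p R := S.2.map _
  let N : Subgroup H :=
    { carrier := {g | ∀ x, x ∈ R ↔ g * x * g⁻¹ ∈ R}
      one_mem' := fun x => by simp
      mul_mem' := fun {a b} ha hb x => by
        rw [hb x, ha (b * x * b⁻¹)]
        have : a * (b * x * b⁻¹) * a⁻¹ = a * b * x * (a * b)⁻¹ := by group
        rw [this]
      inv_mem' := fun {a} ha x => by
        rw [ha (a⁻¹ * x * a⁻¹⁻¹)]
        have : a * (a⁻¹ * x * a⁻¹⁻¹) * a⁻¹ = x := by group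
        rw [this] }
  have hNR : Inv N R := fun g hg x hx => (hg x).1 hx
  have hRN : R ≤ N := by
    intro g hg x
    constructor
    · intro hx; exact R.mul_mem (R.mul_mem hg hx) (R.inv_mem hg)
    · intro hx
      have : x = g⁻¹ * (g * x * g⁻¹) * g := by group
      rw [this]; exact R.mul_mem (R.mul_mem (R.inv_mem hg) hx) hg
  have hNL : N ⊔ L = ⊤ := by
    have h1 := Sylow.normalizer_sup_eq_top (p := p) (N := L) S
    rw [← h1]
    congr 1
  have hLQR : L ≤ Q ⊔ R := by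
    have h1 : (Q ⊔ R).relIndex L ∣ R.relIndex L :=
      Subgroup.relIndex_dvd_of_le_left L le_sup_right
    have h2 : (Q ⊔ R).relIndex L ∣ Q.relIndex L :=
      Subgroup.relIndex_dvd_of_le_left L le_sup_left
    have h3 : R.relIndex L = (S : Subgroup L).index := by
      rw [Subgroup.relIndex]
      congr 1
      ext x
      rw [Subgroup.mem_subgroupOf]
      constructor
      · rintro ⟨y, hy, he⟩
        have : y = x := Subtype.ext he
        rwa [← this]
      · intro hx; exact ⟨x, hx, rfl⟩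
    obtain ⟨m, hm⟩ := PF_index (p := p) (Z := Q) (X := L) inferInstance hL1
    have h4 : ¬ p ∣ (S : Subgroup L).index := S.not_dvd_index
    rw [hm] at h2
    obtain ⟨j, -, hj⟩ := (Nat.dvd_prime_pow hp.out).1 h2
    have hj0 : j = 0 := by
      by_contra hj0
      apply h4
      rw [← h3]
      exact (dvd_pow_self p hj0).trans (hj ▸ h1)
    rw [hj0, pow_zero] at hj
    exact Subgroup.relIndex_eq_one.1 hj
  have hNQ : N ⊔ Q = ⊤ := by
    rw [eq_top_iff, ← hNL]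
    refine sup_le le_sup_left (hLQR.trans (sup_le le_sup_right (hRN.trans le_sup_left)))
  refine ⟨Q, R, N, PF'_bot_iff.1 hQ1, hQi, fun X hX hX' => hQmax X ⟨hX, hX'⟩, hRp, hRN, hNR, ?_⟩
  intro hSm
  apply hn
  obtain ⟨K, hKN, hKi, hK, hKact⟩ := hSm
  have hNQi : Inv N Q := hQi.mono le_top
  have hPFK : PF p Q K := by
    intro g hg
    obtain ⟨e, he⟩ := hKact g hg
    set g' := g ^ (p ^ e) with hg'
    have h1 : g' ∈ L := by
      apply hHH
      intro y hy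
      have hy' : y ∈ R ⊔ Q := by rw [sup_comm]; exact hLQR hy
      obtain ⟨r, hr, q, hq, rfl⟩ := (mem_sup_inv (hNQi.mono hRN)).1 hy'
      have h2 := he r hr
      rw [Subgroup.mem_bot] at h2
      have h3 : g' * r = r * g' := by
        calc g' * r = (g' * r * g'⁻¹ * r⁻¹) * r * g' := by group
          _ = r * g' := by rw [h2, one_mul]
      have h4 : g' * (r * q) * g'⁻¹ * (r * q)⁻¹ = r * (g' * q * g'⁻¹ * q⁻¹) * r⁻¹ := by
        calc g' * (r * q) * g'⁻¹ * (r * q)⁻¹ = (g' * r) * q * g'⁻¹ * q⁻¹ * r⁻¹ := by group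
          _ = r * (g' * q * g'⁻¹ * q⁻¹) * r⁻¹ := by rw [h3]; group
      rw [h4]
      exact hQi r trivial _ (Q.mul_mem (hQi g' trivial q hq) (Q.inv_mem hq))
    obtain ⟨f, hf⟩ := hL1 g' h1
    exact ⟨e + f, by rw [pow_add, pow_mul]; exact hf⟩
  have hKQ : PF p Q (K ⊔ Q) := by
    have := hPFK.sup hKN hNQi
    rwa [sup_idem] at this
  have hKQi : Inv ⊤ (K ⊔ Q) := by
    have h1 : Inv N (K ⊔ Q) := hKi.sup hNQi
    intro g _ x hx
    have hg : g ∈ N ⊔ Q := by rw [hNQ]; trivial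
    obtain ⟨s, hs', q, hq, rfl⟩ := (mem_sup_inv hNQi).1 hg
    have h2 : q * x * q⁻¹ ∈ K ⊔ Q := (K ⊔ Q).mul_mem ((K ⊔ Q).mul_mem
      (Subgroup.mem_sup_right hq) hx) ((K ⊔ Q).inv_mem (Subgroup.mem_sup_right hq))
    have h3 := h1 s hs' _ h2
    have h4 : s * (q * x * q⁻¹) * s⁻¹ = s * q * x * (s * q)⁻¹ := by group
    rwa [h4] at h3
  have h1 : RLp p 0 (⊥ : Subgroup H) Q := RLp.of_PF' 0 hQ1 bot_le (Inv.bot _)
  have h2 : RLp p 1 Q (K ⊔ Q) := RLp.of_PF hKQ le_sup_right (hQi.mono le_top)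
  have h3 : RLp p n (K ⊔ Q) ⊤ := by
    obtain ⟨T, t0, t1, t2, t3, t4, t5⟩ := hK
    have hTN : ∀ i ≤ 2 * n + 1, T i ≤ N := fun i hi => t1 ▸ chain_le t3 hi
    refine ⟨fun i => T i ⊔ Q, by simp only [t0], by simp only [t1]; exact hNQ, ?_,
      fun i => sup_le_sup_right (t3 i) _, fun i hi => (t4 i hi).sup (hTN _ (by omega)) hNQi,
      fun i hi => (t5 i hi).sup (hTN _ (by omega)) hNQi⟩
    intro i g _ x hx
    have h1 : Inv N (T i ⊔ Q) := (t2 i).sup hNQi
    have hg : g ∈ N ⊔ Q := by rw [hNQ]; trivial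
    obtain ⟨s, hs', q, hq, rfl⟩ := (mem_sup_inv hNQi).1 hg
    have h2 : q * x * q⁻¹ ∈ T i ⊔ Q := (T i ⊔ Q).mul_mem ((T i ⊔ Q).mul_mem
      (Subgroup.mem_sup_right hq) hx) ((T i ⊔ Q).inv_mem (Subgroup.mem_sup_right hq))
    have h3 := h1 s hs' _ h2
    have h4 : s * (q * x * q⁻¹) * s⁻¹ = s * q * x * (s * q)⁻¹ := by group
    rwa [h4] at h3
  have h4 := (h1.trans h2 (Inv.bot _)).trans h3 (Inv.bot _)
  exact h4.mono_n (by omega)

end

section
variable {k : Type} [Field k] {p : ℕ}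

/-- the level step -/
theorem level_step [hp : Fact p.Prime] [IsAlgClosed k] [CharP k p] {Λ : ℕ} {r : ZF}
    (h : State p k (Λ + max Λ (tbound p) + 2) r) (a : ℕ) : State p k Λ (fox a r) := by
  obtain ⟨H, i1, i2, M, i3, i4, i5, ρ, hρ, hM, hirr, hs, hn, hr⟩ := h
  obtain ⟨Q, R, N, hQ, hQi, hQmax, hR, hRN, hNR, hSm⟩ := exists_QRN hs
    (n := Λ + max Λ (tbound p) + 1) hn
  refine level_core hs ρ hρ hr hQ hR hRN hNR (hQi.mono le_top) ?_ a hSm
  -- O_p = 1
  have hO : ∀ X : Subgroup H, Inv ⊤ X → PF p ⊥ X → X = ⊥ := by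
    intro X hX hXp
    have hXp' : IsPGroup p X := PF_bot_iff.1 hXp
    have h1 : fxd ρ X ≠ ⊥ := by
      obtain ⟨w, -, hw0, hw⟩ := exists_fixed_sub ρ hXp' ⊤ top_ne_bot (fun _ _ _ _ => trivial)
      intro h
      have : w ∈ fxd ρ X := hw
      rw [h, Submodule.mem_bot] at this
      exact hw0 this
    have h2 : fxd ρ X = ⊤ := by
      rcases hirr (fxd ρ X) (by
        intro g w hw x hx
        have h3 : g⁻¹ * x * g ∈ X := by simpa using hX g⁻¹ trivial x hx
        have h4 : x * g = g * (g⁻¹ * x * g) := by group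
        rw [← Module.End.mul_apply, ← map_mul, h4, map_mul, Module.End.mul_apply, hw _ h3]) with h | h
      · exact absurd h h1
      · exact h
    rw [eq_bot_iff]
    intro x hx
    rw [Subgroup.mem_bot]
    apply hρ
    rw [map_one]
    ext v
    have : v ∈ fxd ρ X := by rw [h2]; trivial
    exact this x hx
  have hHH := HH1 hs Q hQi (PF'_bot_iff.2 hQ) hQmax hO
  intro x hx hxQ
  have h1 : x ∈ Q := hHH x hxQ
  have h2 : orderOf x ∣ Nat.card Q := Subgroup.orderOf_dvd_natCard Q h1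
  obtain ⟨m, hm⟩ := IsPGroup.iff_card.1 hR
  have h3 : orderOf x ∣ p ^ m := hm ▸ Subgroup.orderOf_dvd_natCard R hx
  have h4 : orderOf x = 1 := Nat.eq_one_of_dvd_coprimes (Nat.Coprime.pow_right m hQ) h2 h3
  exact orderOf_eq_one_iff.1 h4

/-- the base step -/
theorem base_step [hp : Fact p.Prime] [CharP k p] {G : Type} [Group G] [Finite G]
    (hs : ∃ m, RLp p m (⊥ : Subgroup G) ⊤) {n : ℕ} (hn : ¬ RLp p (n + 1) (⊥ : Subgroup G) ⊤)
    (w : FreeGroup ℕ) (hw : ∀ f : FreeGroup ℕ →* G, IsPGroup p f.range → f w = 1) (a : ℕ) :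
    State p k n (fox a (MonoidAlgebra.of ℤ _ w)) := by
  classical
  obtain ⟨Q, R, N, hQ, hQi, hQmax, hR, hRN, hNR, hSm⟩ := exists_QRN hs hn
  -- minimal D1
  let T : Set ℕ := {m | ∃ D : Subgroup G, D ≤ R ∧ Inv N D ∧ ¬ Sm p n N D ⊥ ∧ Nat.card D = m}
  have hTne : T.Nonempty := ⟨_, R, le_rfl, hNR, hSm, rfl⟩
  obtain ⟨D1, hD1R, hND1, hD1S, hD1c⟩ := Nat.sInf_mem hTne
  have hD1p : IsPGroup p D1 := hR.to_le hD1R
  let D2 : Subgroup G :=
    { carrier := {x | x ∈ D1 ∧ ∀ φ : HomMod k D1 (⊥ : Subgroup G), φ.1 x = 0}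
      one_mem' := ⟨D1.one_mem, fun φ => HomMod.one φ⟩
      mul_mem' := fun {x y} hx hy => ⟨D1.mul_mem hx.1 hy.1, fun φ => by
        rw [φ.2.2.1 x hx.1 y hy.1, hx.2, hy.2, add_zero]⟩
      inv_mem' := fun {x} hx => ⟨D1.inv_mem hx.1, fun φ => by
        rw [HomMod.inv φ hx.1, hx.2, neg_zero]⟩ }
  have hD2D1 : D2 ≤ D1 := fun x hx => hx.1
  have hND2 : Inv N D2 := by
    intro g hg x hx
    refine ⟨hND1 g hg x hx.1, fun φ => ?_⟩
    have h1 := hx.2 (homRep k hND1 (Inv.bot N) ⟨g, hg⟩⁻¹ φ)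
    rw [homRep_apply] at h1
    simpa using h1
  have hne : D2 ≠ D1 := by
    intro heq
    apply hD1S
    have h1 : D1 = ⊥ := by
      by_contra hbot
      have h2 : (⊥ : Subgroup D1) ≠ ⊤ := by
        intro h
        apply hbot
        rw [eq_bot_iff]
        intro x hx
        have : (⟨x, hx⟩ : D1) ∈ (⊥ : Subgroup D1) := by rw [h]; trivial
        rw [Subgroup.mem_bot] at this ⊢
        exact congrArg Subtype.val this
      obtain ⟨χ, hχ, -, x, hx⟩ := exists_char (k := k) hD1p (⊥ : Subgroup D1) h2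
      have hχ1 : χ 1 = 0 := by
        have := hχ 1 1
        simpa using this
      let φ : HomMod k D1 (⊥ : Subgroup G) := ⟨fun g => if hg : g ∈ D1 then χ ⟨g, hg⟩ else 0, by
        refine ⟨fun g hg => by simp [hg], fun g hg h hh => ?_, fun g hg => ?_⟩
        · simp only [hg, hh, D1.mul_mem hg hh, dif_pos]
          exact hχ ⟨g, hg⟩ ⟨h, hh⟩
        · rw [Subgroup.mem_bot] at hg
          subst hg
          simp only [D1.one_mem, dif_pos]
          exact hχ1⟩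
      have h3 : (x : G) ∈ D2 := by rw [heq]; exact x.2
      apply hx
      have h4 := h3.2 φ
      have h5 : φ.1 (x : G) = χ x := by
        simp [φ]
      rw [← h5]; exact h4
    rw [h1]
    exact Sm.refl n N ⊥ (Inv.bot N)
  have hSmD : ¬ Sm p n N D1 D2 := by
    intro h
    have h2 : Sm p n N D2 ⊥ := by
      by_contra hcon
      have h3 : sInf T ≤ Nat.card D2 := Nat.sInf_le ⟨D2, hD2D1.trans hD1R, hND2, hcon, rfl⟩
      rw [← hD1c] at h3
      exact hne (Subgroup.eq_of_le_of_card_ge hD2D1 h3)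
    exact hD1S (h.exact h2 hND2 (Inv.bot N) (PF_bot_iff.2 (hD1p.to_le hD2D1)))
  refine reduce_aux hND1 hND2 (base_rel hND1 hND2 hD1p w hw a) hs (fun x hx hxD => ?_) hSmD
  have h1 : ∃ φ : HomMod k D1 (⊥ : Subgroup G), φ.1 x ≠ 0 := by
    by_contra hcon
    push Not at hcon
    exact hxD ⟨hx, hcon⟩
  obtain ⟨φ, hφ⟩ := h1
  exact ⟨⟨φ.1, φ.2.1, φ.2.2.1, fun y hy => hy.2 φ⟩, hφ⟩

/-- the bound -/
def bnd (p : ℕ) : ℕ → ℕ
  | 0 => 0
  | m + 1 => bnd p m + max (bnd p m) (tbound p) + 2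

theorem iterate [hp : Fact p.Prime] [IsAlgClosed k] [CharP k p] (L : List ℕ) :
    ∀ r : ZF, State p k (bnd p L.length) r → State p k 0 (foxL L r) := by
  induction L with
  | nil => intro r h; exact h
  | cons a L ih =>
    intro r h
    exact ih _ (level_step h a)

/-- main theorem in terms of RLp -/
theorem main_bound [hp : Fact p.Prime] (w : FreeGroup ℕ) (hw : w ≠ 1) :
    ∃ n : ℕ, ∀ (G : Type) [Group G] [Finite G],
      (∀ f : FreeGroup ℕ →* G, IsPGroup p f.range → f w = 1) →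
      (∃ m, RLp p m (⊥ : Subgroup G) ⊤) → RLp p n (⊥ : Subgroup G) ⊤ := by
  obtain ⟨L, hL, haug⟩ := magnus p hp.out w hw
  cases L with
  | nil => exact absurd rfl hL
  | cons a L =>
    refine ⟨bnd p L.length + 1, fun G _ _ hf hs => ?_⟩
    by_contra hcon
    have hchar : CharP (AlgebraicClosure (ZMod p)) p :=
      charP_of_injective_algebraMap (algebraMap (ZMod p) (AlgebraicClosure (ZMod p))).injective p
    have h1 := base_step (k := AlgebraicClosure (ZMod p)) hs hcon w hf a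
    have h2 := iterate L _ h1
    obtain ⟨H, i1, i2, M, i3, i4, i5, ρ, hρ, hM, hirr, hs', hn, hr⟩ := h2
    exact haug hr.aug

end

end Pool.Agent.Helper407.PL
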