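import Mathlib

set_option autoImplicit false

namespace Pool.Agent.Helper407.PL

/-- integral group ring of the free group -/
abbrev ZF := MonoidAlgebra ℤ (FreeGroup ℕ)

/-- pairs (s,u) with product (s,u)(t,v) = (st, u t + v) -/
@[ext] structure FX where
  g : FreeGroup ℕ
  u : ZF

noncomputable section

namespace FX

instance : Mul FX := ⟨fun a b => ⟨a.g * b.g, a.u * MonoidAlgebra.of ℤ _ b.g + b.u⟩⟩
instance : One FX := ⟨⟨1, 0⟩⟩
instance : Inv FX := ⟨fun a => ⟨a.g⁻¹, - (a.u * MonoidAlgebra.of ℤ _ a.g⁻¹)⟩⟩

@[simp] lemma mul_g (a b : FX) : (a * b).g = a.g * b.g := rfl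
@[simp] lemma mul_u (a b : FX) : (a * b).u = a.u * MonoidAlgebra.of ℤ _ b.g + b.u := rfl
@[simp] lemma one_g : (1 : FX).g = 1 := rfl
@[simp] lemma one_u : (1 : FX).u = 0 := rfl
@[simp] lemma inv_g (a : FX) : (a⁻¹).g = a.g⁻¹ := rfl
@[simp] lemma inv_u (a : FX) : (a⁻¹).u = - (a.u * MonoidAlgebra.of ℤ _ a.g⁻¹) := rfl

instance : Group FX := Group.ofLeftAxioms
  (by
    intro a b c
    ext1
    · simp [mul_assoc]
    · simp only [mul_u, mul_g, map_mul, add_mul, mul_assoc, add_assoc])
  (by
    intro a
    ext1
    · simp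
    · simp)
  (by
    intro a
    ext1
    · simp
    · simp only [mul_u, inv_u, neg_mul, mul_assoc, ← map_mul, inv_mul_cancel, map_one, mul_one,
        neg_add_cancel, one_u])

end FX

/-- first projection -/
def fxFst : FX →* FreeGroup ℕ where
  toFun a := a.g
  map_one' := rfl
  map_mul' _ _ := rfl

/-- the homomorphism s ↦ (s, ∂_a s) -/
def fxHom (a : ℕ) : FreeGroup ℕ →* FX :=
  FreeGroup.lift (fun b => ⟨FreeGroup.of b, if b = a then 1 else 0⟩)

lemma fxHom_g (a : ℕ) (s : FreeGroup ℕ) : (fxHom a s).g = s := by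
  have h : fxFst.comp (fxHom a) = MonoidHom.id _ := by
    ext b
    simp [fxHom, fxFst]
  exact DFunLike.congr_fun h s

/-- Fox derivative with respect to the letter a (additive, suffix version) -/
def fox (a : ℕ) : ZF →+ ZF :=
  (Finsupp.liftAddHom (fun s => (AddMonoidHom.mulRight (fxHom a s).u).comp
    (Int.castAddHom ZF))).comp (MonoidAlgebra.coeffAddEquiv.toAddMonoidHom)

lemma fox_single (a : ℕ) (s : FreeGroup ℕ) (n : ℤ) :
    fox a (MonoidAlgebra.single s n) = n • (fxHom a s).u := by
  simp [fox]

lemma fox_of (a : ℕ) (s : FreeGroup ℕ) :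
    fox a (MonoidAlgebra.of ℤ _ s) = (fxHom a s).u := by
  rw [MonoidAlgebra.of_apply, fox_single, one_smul]

lemma fox_of_mul (a : ℕ) (s t : FreeGroup ℕ) :
    fox a (MonoidAlgebra.of ℤ _ (s * t)) =
      fox a (MonoidAlgebra.of ℤ _ s) * MonoidAlgebra.of ℤ _ t + fox a (MonoidAlgebra.of ℤ _ t) := by
  simp only [fox_of, map_mul (fxHom a), FX.mul_u, fxHom_g]

lemma fox_letter (a b : ℕ) :
    fox a (MonoidAlgebra.of ℤ _ (FreeGroup.of b)) = if b = a then 1 else 0 := by
  simp only [fox_of, fxHom, FreeGroup.lift_apply_of]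

/-- augmentation -/
def aug : ZF →ₐ[ℤ] ℤ := MonoidAlgebra.lift ℤ ℤ (FreeGroup ℕ) (1 : FreeGroup ℕ →* ℤ)

lemma aug_of (s : FreeGroup ℕ) : aug (MonoidAlgebra.of ℤ _ s) = 1 := by
  simp [aug]

/-- iterated Fox derivative; the head of the list is applied first -/
def foxL (L : List ℕ) (r : ZF) : ZF := L.foldl (fun r a => fox a r) r

/-- coefficient -/
def h170c (p : ℕ) (L : List ℕ) (u : ZF) : ZMod p := ((aug (foxL L u) : ℤ) : ZMod p)

lemma h170_foxL_add (L : List ℕ) (u v : ZF) : foxL L (u + v) = foxL L u + foxL L v := by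
  induction L generalizing u v with
  | nil => rfl
  | cons b L ih =>
    show foxL L (fox b (u + v)) = foxL L (fox b u) + foxL L (fox b v)
    rw [map_add, ih]

lemma h170_foxL_zsmul (L : List ℕ) (n : ℤ) (u : ZF) : foxL L (n • u) = n • foxL L u := by
  induction L generalizing u with
  | nil => rfl
  | cons b L ih =>
    show foxL L (fox b (n • u)) = n • foxL L (fox b u)
    rw [map_zsmul, ih]

lemma h170c_add (p : ℕ) (L : List ℕ) (u v : ZF) : h170c p L (u + v) = h170c p L u + h170c p L v := by
  unfold h170c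
  rw [h170_foxL_add, map_add, Int.cast_add]

lemma h170c_zsmul (p : ℕ) (L : List ℕ) (n : ℤ) (u : ZF) :
    h170c p L (n • u) = (n : ZMod p) * h170c p L u := by
  unfold h170c
  rw [h170_foxL_zsmul, map_zsmul, smul_eq_mul, Int.cast_mul]

lemma h170_fox_mul (b : ℕ) (u : ZF) (t : FreeGroup ℕ) :
    fox b (u * MonoidAlgebra.of ℤ _ t) =
      fox b u * MonoidAlgebra.of ℤ _ t + (aug u) • fox b (MonoidAlgebra.of ℤ _ t) := by
  induction u using MonoidAlgebra.induction_on with
  | of s => rw [← map_mul, fox_of_mul, aug_of, one_smul]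
  | add u v hu hv => rw [add_mul, map_add, hu, hv, map_add, map_add, add_mul, add_smul]; abel
  | smul n u hu =>
    rw [smul_mul_assoc, map_zsmul, hu, map_zsmul, map_zsmul, smul_add, smul_mul_assoc, smul_assoc]

lemma h170c_nil (p : ℕ) (u : ZF) : h170c p [] u = ((aug u : ℤ) : ZMod p) := rfl

lemma h170c_cons (p : ℕ) (b : ℕ) (L : List ℕ) (u : ZF) : h170c p (b :: L) u = h170c p L (fox b u) := rfl

lemma h170c_prod (p : ℕ) (L : List ℕ) (u : ZF) (t : FreeGroup ℕ) :
    h170c p L (u * MonoidAlgebra.of ℤ _ t) =
      ∑ i ∈ Finset.range (L.length + 1), h170c p (L.take i) u * h170c p (L.drop i) (MonoidAlgebra.of ℤ _ t) := by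
  induction L generalizing u with
  | nil =>
    simp only [List.length_nil, zero_add, Finset.sum_range_one, List.take_nil, List.drop_nil]
    rw [h170c_nil, h170c_nil, h170c_nil, map_mul, aug_of]
    simp
  | cons b L ih =>
    rw [h170c_cons, h170_fox_mul, h170c_add, ih, h170c_zsmul, List.length_cons,
      Finset.sum_range_succ' _ (L.length + 1)]
    rfl

/-- coefficient of a group element -/
def h170d (p : ℕ) (L : List ℕ) (s : FreeGroup ℕ) : ZMod p := h170c p L (MonoidAlgebra.of ℤ _ s)

lemma h170d_nil (p : ℕ) (s : FreeGroup ℕ) : h170d p [] s = 1 := by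
  unfold h170d
  rw [h170c_nil, aug_of, Int.cast_one]

lemma h170d_mul (p : ℕ) (L : List ℕ) (s t : FreeGroup ℕ) :
    h170d p L (s * t) = ∑ i ∈ Finset.range (L.length + 1), h170d p (L.take i) s * h170d p (L.drop i) t := by
  unfold h170d
  rw [map_mul, h170c_prod]

lemma h170_foxL_zero (L : List ℕ) : foxL L 0 = 0 := by
  induction L with
  | nil => rfl
  | cons b L ih =>
    show foxL L (fox b 0) = 0
    rw [map_zero, ih]

lemma h170_fox_one (b : ℕ) : fox b 1 = 0 := by
  have : (1 : ZF) = MonoidAlgebra.of ℤ _ (1 : FreeGroup ℕ) := (map_one _).symm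
  rw [this, fox_of, map_one]
  rfl

lemma h170d_one (p : ℕ) (L : List ℕ) (hL : L ≠ []) : h170d p L 1 = 0 := by
  cases L with
  | nil => exact absurd rfl hL
  | cons b L =>
    unfold h170d
    rw [h170c_cons, map_one, h170_fox_one]
    unfold h170c
    rw [h170_foxL_zero, map_zero, Int.cast_zero]

lemma h170d_letter1 (p : ℕ) (a b : ℕ) : h170d p [b] (FreeGroup.of a) = if a = b then 1 else 0 := by
  unfold h170d
  rw [h170c_cons, fox_letter, h170c_nil]
  split_ifs with h
  · rw [map_one, Int.cast_one]
  · rw [map_zero, Int.cast_zero]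

lemma h170d_letter2 (p : ℕ) (a b c : ℕ) (L : List ℕ) : h170d p (b :: c :: L) (FreeGroup.of a) = 0 := by
  unfold h170d
  rw [h170c_cons, fox_letter, h170c_cons]
  have : fox c (if a = b then (1:ZF) else 0) = 0 := by
    split_ifs
    · exact h170_fox_one c
    · exact map_zero _
  rw [this]
  unfold h170c
  rw [h170_foxL_zero, map_zero, Int.cast_zero]

/-- the elements whose coefficients only involve the letter `a` -/
def h170H (p a : ℕ) : Subgroup (FreeGroup ℕ) where
  carrier := {s | ∀ L : List ℕ, (∃ b ∈ L, b ≠ a) → h170d p L s = 0}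
  one_mem' := by
    rintro L ⟨b, hb, -⟩
    exact h170d_one p L (List.ne_nil_of_mem hb)
  mul_mem' := by
    rintro s t hs ht L ⟨b, hb, hba⟩
    rw [h170d_mul]
    refine Finset.sum_eq_zero fun i _ => ?_
    rw [← List.take_append_drop i L, List.mem_append] at hb
    rcases hb with hb | hb
    · rw [hs _ ⟨b, hb, hba⟩, zero_mul]
    · rw [ht _ ⟨b, hb, hba⟩, mul_zero]
  inv_mem' := by
    intro s hs
    have key : ∀ k : ℕ, ∀ L : List ℕ, L.length ≤ k → (∃ b ∈ L, b ≠ a) → h170d p L s⁻¹ = 0 := by
      intro k
      induction k with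
      | zero =>
        rintro L hL ⟨b, hb, -⟩
        have : L = [] := List.length_eq_zero_iff.1 (by omega)
        rw [this] at hb
        exact absurd hb (by simp)
      | succ k ih =>
        rintro L hL ⟨b, hb, hba⟩
        have h1 := h170d_mul p L s s⁻¹
        rw [mul_inv_cancel, h170d_one p L (List.ne_nil_of_mem hb), Finset.sum_range_succ'] at h1
        have h2 : ∑ i ∈ Finset.range L.length, h170d p (L.take (i + 1)) s * h170d p (L.drop (i + 1)) s⁻¹ = 0 := by
          refine Finset.sum_eq_zero fun i _ => ?_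
          have hb' := hb
          rw [← List.take_append_drop (i + 1) L, List.mem_append] at hb'
          rcases hb' with hb' | hb'
          · rw [hs _ ⟨b, hb', hba⟩, zero_mul]
          · rw [ih (L.drop (i + 1)) (by rw [List.length_drop]; omega) ⟨b, hb', hba⟩, mul_zero]
        rw [h2, zero_add, List.take_zero, List.drop_zero, h170d_nil, one_mul] at h1
        exact h1.symm
    exact fun L hL => key L.length L le_rfl hL

lemma h170H_mem (p a : ℕ) (s : FreeGroup ℕ) :
    s ∈ h170H p a ↔ ∀ L : List ℕ, (∃ b ∈ L, b ≠ a) → h170d p L s = 0 := Iff.rfl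

lemma h170_of_mem (p a : ℕ) : FreeGroup.of a ∈ h170H p a := by
  rw [h170H_mem]
  rintro L ⟨b, hb, hba⟩
  match L, hb with
  | [c], hb =>
    rw [List.mem_singleton] at hb
    rw [h170d_letter1, if_neg (by rw [← hb]; exact hba.symm)]
  | c :: d :: L, hb => exact h170d_letter2 p a c d L

lemma h170_zpow (p a : ℕ) (n : ℤ) (L : List ℕ) (hL : ∃ b ∈ L, b ≠ a) :
    h170d p L (FreeGroup.of a ^ n) = 0 :=
  (h170H_mem p a _).1 ((h170H p a).zpow_mem (h170_of_mem p a) n) L hL

lemma h170_pow_aux (p a n : ℕ) : (∀ m, n < m → h170d p (List.replicate m a) (FreeGroup.of a ^ n) = 0) ∧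
    h170d p (List.replicate n a) (FreeGroup.of a ^ n) = 1 := by
  induction n with
  | zero =>
    refine ⟨fun m hm => ?_, ?_⟩
    · rw [pow_zero, h170d_one]
      intro h
      rw [List.replicate_eq_nil_iff] at h
      omega
    · rw [List.replicate_zero, h170d_nil]
  | succ n ih =>
    have hrec : ∀ m, h170d p (List.replicate (m + 1) a) (FreeGroup.of a ^ (n + 1)) =
        h170d p (List.replicate (m + 1) a) (FreeGroup.of a ^ n) +
        h170d p (List.replicate m a) (FreeGroup.of a ^ n) := by
      intro m
      rw [pow_succ', h170d_mul, Finset.sum_range_succ', List.length_replicate]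
      rw [List.take_zero, List.drop_zero, h170d_nil, one_mul, add_comm]
      congr 1
      rw [Finset.sum_eq_single_of_mem 0 (by simp)]
      · simp only [zero_add, List.take_replicate, List.drop_replicate]
        have : min 1 (m + 1) = 1 := by omega
        rw [this, Nat.add_sub_cancel]
        have e : List.replicate 1 a = [a] := rfl
        rw [e, h170d_letter1, if_pos rfl, one_mul]
      · intro i _ hi
        rw [List.take_replicate]
        obtain ⟨j, hj⟩ : ∃ j, min (i + 1) (m + 1) = j + 1 + 1 ∨ min (i + 1) (m + 1) = 1 := by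
          rcases Nat.lt_or_ge (min (i + 1) (m + 1)) 2 with h | h
          · exact ⟨0, Or.inr (by omega)⟩
          · exact ⟨min (i + 1) (m + 1) - 2, Or.inl (by omega)⟩
        rcases hj with hj | hj
        · rw [hj, List.replicate_succ, List.replicate_succ, h170d_letter2, zero_mul]
        · exfalso
          rename_i hmem
          rw [Finset.mem_range] at hmem
          omega
    refine ⟨fun m hm => ?_, ?_⟩
    · obtain ⟨m', rfl⟩ : ∃ m', m = m' + 1 := ⟨m - 1, by omega⟩
      rw [hrec, ih.1 _ (by omega), ih.1 _ (by omega), add_zero]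
    · rw [hrec, ih.1 _ (by omega), ih.2, zero_add]

lemma h170_ne (p : ℕ) (hp : p.Prime) (a : ℕ) (n : ℤ) (hn : n ≠ 0) :
    ∃ q, 1 ≤ q ∧ h170d p (List.replicate q a) (FreeGroup.of a ^ n) ≠ 0 := by
  haveI : Fact p.Prime := ⟨hp⟩
  rcases lt_or_gt_of_ne hn with h | h
  · by_contra hneg
    push Not at hneg
    obtain ⟨k, hk⟩ : ∃ k : ℕ, n = -(k + 1 : ℕ) := ⟨(-n - 1).toNat, by omega⟩
    have h1 := h170d_mul p (List.replicate (k + 1) a) (FreeGroup.of a ^ n) (FreeGroup.of a ^ (k + 1))
    have h2 : FreeGroup.of a ^ n * FreeGroup.of a ^ (k + 1) = 1 := by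
      rw [← zpow_natCast, ← zpow_add, hk]
      simp
    rw [h2, h170d_one _ _ (by rw [Ne, List.replicate_eq_nil_iff]; omega),
      Finset.sum_range_succ', Finset.sum_eq_zero, zero_add, List.take_zero, List.drop_zero,
      h170d_nil, one_mul, (h170_pow_aux p a (k + 1)).2] at h1
    · exact zero_ne_one h1
    · intro i hi
      rw [Finset.mem_range, List.length_replicate] at hi
      rw [List.take_replicate, hneg _ (by omega), zero_mul]
  · obtain ⟨k, hk⟩ : ∃ k : ℕ, n = (k + 1 : ℕ) := ⟨(n - 1).toNat, by omega⟩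
    refine ⟨k + 1, by omega, ?_⟩
    rw [hk, zpow_natCast, (h170_pow_aux p a (k + 1)).2]
    exact one_ne_zero

/-- number of maximal blocks -/
def h170bl : Option ℕ → List ℕ → ℕ
  | _, [] => 0
  | pr, a :: L => (if pr = some a then 0 else 1) + h170bl (some a) L

lemma h170bl_some_le (a : ℕ) (L : List ℕ) : h170bl (some a) L ≤ h170bl none L := by
  cases L with
  | nil => exact le_rfl
  | cons b L =>
    simp only [h170bl, reduceCtorEq, if_false]
    split_ifs <;> omega

lemma h170bl_rep1 (a k : ℕ) (L : List ℕ) :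
    h170bl (some a) (List.replicate k a ++ L) = h170bl (some a) L := by
  induction k with
  | zero => rfl
  | succ k ih =>
    rw [List.replicate_succ, List.cons_append]
    simp only [h170bl, if_true, zero_add]
    exact ih

lemma h170bl_rep2 (a k : ℕ) (L : List ℕ) :
    h170bl none (List.replicate k a ++ L) ≤ 1 + h170bl none L := by
  cases k with
  | zero => simp
  | succ k =>
    rw [List.replicate_succ, List.cons_append]
    simp only [h170bl]
    rw [h170bl_rep1]
    have := h170bl_some_le a L
    simp only [reduceCtorEq, if_false]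
    omega

lemma h170bl_rep3 (a k : ℕ) (L : List ℕ) (hL : ∀ b ∈ L.head?, b ≠ a) :
    h170bl none (List.replicate (k + 1) a ++ L) = 1 + h170bl none L := by
  rw [List.replicate_succ, List.cons_append]
  simp only [h170bl]
  rw [h170bl_rep1]
  simp only [reduceCtorEq, if_false]
  congr 1
  cases L with
  | nil => rfl
  | cons b L =>
    simp only [h170bl]
    have hba : b ≠ a := hL b (by simp)
    rw [if_neg (by intro h; exact hba (Option.some.inj h).symm), if_neg (by simp)]

/-- product of syllables -/
def h170pr (l : List (ℕ × ℤ)) : FreeGroup ℕ := (l.map (fun x => FreeGroup.of x.1 ^ x.2)).prod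

lemma h170_bound (p : ℕ) (l : List (ℕ × ℤ)) (L : List ℕ) (h : l.length < h170bl none L) :
    h170d p L (h170pr l) = 0 := by
  induction l generalizing L with
  | nil =>
    have : h170pr [] = 1 := rfl
    rw [this, h170d_one]
    rintro rfl
    simp [h170bl] at h
  | cons x l ih =>
    have : h170pr (x :: l) = FreeGroup.of x.1 ^ x.2 * h170pr l := by
      simp [h170pr]
    rw [this, h170d_mul]
    refine Finset.sum_eq_zero fun i _ => ?_
    by_cases hc : ∃ b ∈ L.take i, b ≠ x.1
    · rw [h170_zpow p x.1 x.2 _ hc, zero_mul]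
    · push Not at hc
      have h1 : L.take i = List.replicate (L.take i).length x.1 := List.eq_replicate_of_mem hc
      have h2 : h170bl none L ≤ 1 + h170bl none (L.drop i) := by
        conv_lhs => rw [← List.take_append_drop i L, h1]
        exact h170bl_rep2 _ _ _
      rw [List.length_cons] at h
      rw [ih (L.drop i) (by omega), mul_zero]

/-- reduced syllable words -/
def h170good : List (ℕ × ℤ) → Prop
  | [] => True
  | x :: l => x.2 ≠ 0 ∧ (∀ y ∈ l.head?, y.1 ≠ x.1) ∧ h170good l

lemma h170_main (p : ℕ) (hp : p.Prime) (l : List (ℕ × ℤ)) (hl : h170good l) :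
    ∃ L : List ℕ, h170bl none L = l.length ∧ L.head? = l.head?.map Prod.fst ∧ h170d p L (h170pr l) ≠ 0 := by
  haveI : Fact p.Prime := ⟨hp⟩
  classical
  induction l with
  | nil =>
    refine ⟨[], rfl, rfl, ?_⟩
    rw [h170d_nil]
    exact one_ne_zero
  | cons x l ih =>
    obtain ⟨hx, hhead, hgood⟩ := hl
    obtain ⟨L', hb, hh, hne⟩ := ih hgood
    have hex := h170_ne p hp x.1 x.2 hx
    set q := Nat.find hex with hq
    obtain ⟨hq1, hq2⟩ := Nat.find_spec hex
    rw [← hq] at hq1 hq2
    have hqmin : ∀ k, 1 ≤ k → k < q → h170d p (List.replicate k x.1) (FreeGroup.of x.1 ^ x.2) = 0 := by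
      intro k hk1 hk2
      by_contra hcon
      exact Nat.find_min hex hk2 ⟨hk1, hcon⟩
    have hL'head : ∀ b ∈ L'.head?, b ≠ x.1 := by
      intro b hb'
      rw [hh] at hb'
      rw [Option.mem_def, Option.map_eq_some_iff] at hb'
      obtain ⟨y, hy, rfl⟩ := hb'
      exact hhead y hy
    obtain ⟨k, hk⟩ : ∃ k, q = k + 1 := ⟨q - 1, by omega⟩
    have hbl : h170bl none (List.replicate q x.1 ++ L') = 1 + h170bl none L' := by
      rw [hk]
      exact h170bl_rep3 _ _ _ hL'head
    refine ⟨List.replicate q x.1 ++ L', ?_, ?_, ?_⟩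
    · rw [hbl, hb, List.length_cons]; ring
    · rw [hk, List.replicate_succ, List.cons_append]
      simp
    · have hpr : h170pr (x :: l) = FreeGroup.of x.1 ^ x.2 * h170pr l := by
        simp [h170pr]
      rw [hpr, h170d_mul, Finset.sum_eq_single_of_mem q]
      · have e1 : (List.replicate q x.1 ++ L').take q = List.replicate q x.1 := by
          rw [List.take_append_of_le_length (by simp), List.take_of_length_le (by simp)]
        have e2 : (List.replicate q x.1 ++ L').drop q = L' := by
          rw [List.drop_append_of_le_length (by simp), List.drop_of_length_le (by simp), List.nil_append]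
        rw [e1, e2]
        exact mul_ne_zero hq2 hne
      · rw [Finset.mem_range, List.length_append, List.length_replicate]
        omega
      · intro i hi hiq
        rw [Finset.mem_range, List.length_append, List.length_replicate] at hi
        rcases Nat.lt_trichotomy i q with h | h | h
        · rcases Nat.eq_zero_or_pos i with h0 | h0
          · rw [h0, List.take_zero, List.drop_zero, h170_bound p l _ (by rw [hbl, hb]; omega), mul_zero]
          · have e1 : (List.replicate q x.1 ++ L').take i = List.replicate i x.1 := by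
              rw [List.take_append_of_le_length (by simp; omega), List.take_replicate]
              congr 1
              omega
            rw [e1, hqmin i h0 h, zero_mul]
        · exact absurd h hiq
        · -- the head of L' occurs
          cases L' with
          | nil => simp at hi; omega
          | cons b L'' =>
            have hbx : b ≠ x.1 := hL'head b (by simp)
            rw [h170_zpow p x.1 x.2 _ ⟨b, ?_, hbx⟩, zero_mul]
            rw [List.take_append, List.length_replicate, List.mem_append]
            right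
            obtain ⟨j, hj⟩ : ∃ j, i - q = j + 1 := ⟨i - q - 1, by omega⟩
            rw [hj, List.take_succ_cons]
            exact List.mem_cons_self

/-- representable elements -/
def h170rep (w : FreeGroup ℕ) : Prop := ∃ l, h170good l ∧ h170pr l = w

lemma h170_rep_mul (a : ℕ) (n : ℤ) (v : FreeGroup ℕ) (hv : h170rep v) :
    h170rep (FreeGroup.of a ^ n * v) := by
  by_cases hn : n = 0
  · rw [hn, zpow_zero, one_mul]; exact hv
  obtain ⟨l, hl, rfl⟩ := hv
  cases l with
  | nil =>
    refine ⟨[(a, n)], ⟨hn, by simp, trivial⟩, ?_⟩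
    simp [h170pr]
  | cons x l =>
    obtain ⟨hx, hhead, hgood⟩ := hl
    by_cases hxa : x.1 = a
    · by_cases h0 : n + x.2 = 0
      · refine ⟨l, hgood, ?_⟩
        simp only [h170pr, List.map_cons, List.prod_cons, hxa]
        rw [← mul_assoc, ← zpow_add, h0, zpow_zero, one_mul]
      · refine ⟨(a, n + x.2) :: l, ⟨h0, ?_, hgood⟩, ?_⟩
        · intro y hy
          rw [← hxa]
          exact hhead y hy
        · simp only [h170pr, List.map_cons, List.prod_cons, hxa]
          rw [← mul_assoc, ← zpow_add]
    · refine ⟨(a, n) :: x :: l, ⟨hn, ?_, hx, hhead, hgood⟩, ?_⟩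
      · intro y hy
        simp only [List.head?_cons, Option.mem_def, Option.some.injEq] at hy
        rw [← hy]
        exact hxa
      · simp only [h170pr, List.map_cons, List.prod_cons]

lemma h170_rep_all (w : FreeGroup ℕ) : h170rep w := by
  have key : ∀ w : FreeGroup ℕ, ∀ v, h170rep v → h170rep (w * v) := by
    intro w
    induction w using FreeGroup.induction_on with
    | C1 => intro v hv; rwa [one_mul]
    | of a =>
      intro v hv
      have := h170_rep_mul a 1 v hv
      rwa [zpow_one] at this
    | inv_of a _ =>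
      intro v hv
      have := h170_rep_mul a (-1) v hv
      rwa [zpow_neg_one] at this
    | mul x y hx hy =>
      intro v hv
      rw [mul_assoc]
      exact hx _ (hy v hv)
  have := key w 1 ⟨[], trivial, rfl⟩
  rwa [mul_one] at this

/-- Magnus: a nontrivial word has an iterated Fox derivative with augmentation prime to p. -/
theorem magnus (p : ℕ) (hp : p.Prime) (w : FreeGroup ℕ) (hw : w ≠ 1) :
    ∃ L : List ℕ, L ≠ [] ∧ ¬ ((p : ℤ) ∣ aug (foxL L (MonoidAlgebra.of ℤ _ w))) := by
  obtain ⟨l, hl, rfl⟩ := h170_rep_all w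
  obtain ⟨L, h1, -, h3⟩ := h170_main p hp l hl
  refine ⟨L, ?_, ?_⟩
  · rintro rfl
    have : l = [] := List.length_eq_zero_iff.1 h1.symm
    rw [this] at hw
    exact hw rfl
  · intro hdvd
    apply h3
    unfold h170d h170c
    exact (ZMod.intCast_zmod_eq_zero_iff_dvd _ _).2 hdvd

end

end Pool.Agent.Helper407.PL
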