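import Pool.Agent.Helper407.PLBase2

set_option autoImplicit false

namespace Pool.Agent.Helper407.PL

lemma central_complement {X : Type*} [Group X] [Finite X] (Z : Subgroup X)
    (hZ : ∀ z ∈ Z, ∀ x : X, z * x = x * z) (hcop : (Nat.card Z).Coprime Z.index) :
    ∃ K : Subgroup X, (∀ x, x ∈ K ↔ (orderOf x).Coprime (Nat.card Z)) ∧
      ∀ x, ∃ z ∈ Z, ∃ y ∈ K, x = z * y := by
  have hn : Z.Normal := ⟨fun z hz x => by rw [← hZ z hz x]; simpa using hz⟩
  obtain ⟨K, hK⟩ := Subgroup.exists_right_complement'_of_coprime hcop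
  have hdec : ∀ x, ∃ z ∈ Z, ∃ y ∈ K, x = z * y := by
    intro x
    obtain ⟨⟨⟨z, hz⟩, ⟨y, hy⟩⟩, h⟩ := hK.2 x
    exact ⟨z, hz, y, hy, h.symm⟩
  refine ⟨K, fun x => ⟨fun hx => ?_, fun hx => ?_⟩, hdec⟩
  · have h1 : orderOf x ∣ Nat.card K := Subgroup.orderOf_dvd_natCard K hx
    have h2 : Nat.card K = Z.index := hK.symm.index_eq_card.symm
    rw [h2] at h1
    exact (Nat.Coprime.coprime_dvd_right h1 hcop).symm
  · obtain ⟨z, hz, y, hy, rfl⟩ := hdec x
    have h1 : z * y = y * z := hZ z hz y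
    have h2 : (z * y) ^ orderOf (z * y) = 1 := pow_orderOf_eq_one _
    have hcomm : Commute z y := h1
    rw [hcomm.mul_pow] at h2
    have h3 : z ^ orderOf (z * y) ∈ Z ⊓ K := by
      refine ⟨Z.pow_mem hz _, ?_⟩
      rw [eq_inv_of_mul_eq_one_left h2]
      exact K.inv_mem (K.pow_mem hy _)
    rw [hK.disjoint.eq_bot, Subgroup.mem_bot] at h3
    have h4 : orderOf z ∣ orderOf (z * y) := orderOf_dvd_of_pow_eq_one h3
    have h5 : orderOf z ∣ Nat.card Z := Subgroup.orderOf_dvd_natCard Z hz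
    have h6 : orderOf z = 1 := Nat.eq_one_of_dvd_coprimes hx h4 h5
    rw [orderOf_eq_one_iff] at h6
    rw [h6, one_mul]; exact hy

theorem HH_gen {H : Type*} [Group H] [Finite H] (F1 F2 : Subgroup H → Subgroup H → Prop)
    (inf1 : ∀ A B C, F1 A B → F1 (C ⊓ A) (C ⊓ B)) (inf2 : ∀ A B C, F2 A B → F2 (C ⊓ A) (C ⊓ B))
    (mono2 : ∀ A A' B, F2 A B → A ≤ A' → F2 A' B)
    (trans1 : ∀ A B, F1 ⊥ A → F1 A B → F1 ⊥ B)
    (sub1 : ∀ A B, F1 ⊥ A → B ≤ A → F1 ⊥ B)
    (cop : ∀ Z X : Subgroup H, Z ≤ X → (∀ g ∈ X, ∀ z ∈ Z, z * g = g * z) → F1 ⊥ Z → F2 Z X →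
      (Nat.card Z).Coprime (Z.relIndex X))
    (fin2 : ∀ K X Z : Subgroup H, K ≤ X → K ⊓ Z = ⊥ → F2 Z X → F2 ⊥ K)
    (A : Subgroup H) (hA : Inv ⊤ A) (hA1 : F1 ⊥ A)
    (hAmax : ∀ X, Inv ⊤ X → F1 ⊥ X → X ≤ A) (hO : ∀ X, Inv ⊤ X → F2 ⊥ X → X = ⊥)
    (n : ℕ) (S : ℕ → Subgroup H) (hS0 : S 0 = ⊥) (hSn : S n = ⊤) (hSi : ∀ i, Inv ⊤ (S i))
    (hle : ∀ i, S i ≤ S (i + 1))
    (hF : ∀ i < n, F1 (S i) (S (i + 1)) ∨ F2 (S i) (S (i + 1))) :
    ∀ x, (∀ y ∈ A, x * y = y * x) → x ∈ A := by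
  let C : Subgroup H :=
    { carrier := {x | ∀ y ∈ A, x * y = y * x}
      one_mem' := fun y _ => by simp
      mul_mem' := fun {a b} ha hb y hy => by rw [mul_assoc, hb y hy, ← mul_assoc, ha y hy, mul_assoc]
      inv_mem' := fun {a} ha y hy => by
        have := ha y hy
        calc a⁻¹ * y = a⁻¹ * (y * a) * a⁻¹ := by group
          _ = a⁻¹ * (a * y) * a⁻¹ := by rw [this]
          _ = y * a⁻¹ := by group }
  have hC : Inv ⊤ C := by
    intro g hg x hx y hy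
    have h1 := hA g⁻¹ trivial y hy
    have h2 := hx _ h1
    calc g * x * g⁻¹ * y = g * (x * (g⁻¹ * y * g⁻¹⁻¹)) * g⁻¹ := by group
      _ = g * ((g⁻¹ * y * g⁻¹⁻¹) * x) * g⁻¹ := by rw [h2]
      _ = y * (g * x * g⁻¹) := by group
  have key : ∀ i ≤ n, C ⊓ S i ≤ A := by
    intro i
    induction i with
    | zero => intro _; rw [hS0]; simp
    | succ i ih =>
      intro hi
      have ih' := ih (by omega)
      have hX : Inv ⊤ (C ⊓ S (i + 1)) := hC.inf (hSi _)
      rcases hF i (by omega) with h | h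
      · have h1 := inf1 _ _ C h
        exact hAmax _ hX (trans1 _ _ (sub1 _ _ hA1 ih') h1)
      · have h1 := inf2 _ _ C h
        set X := C ⊓ S (i + 1) with hXd
        set Z := X ⊓ A with hZd
        have hX' : C ⊓ S i ≤ X := inf_le_inf_left _ (hle i)
        have h2 : F2 Z X := mono2 _ _ _ h1 (le_inf hX' ih')
        have hZX : Z ≤ X := inf_le_left
        have hcen : ∀ g ∈ X, ∀ z ∈ Z, z * g = g * z := fun g hg z hz => (hg.1 z hz.2).symm
        have hcop := cop Z X hZX hcen (sub1 _ _ hA1 inf_le_right) h2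
        have hcard : Nat.card (Z.subgroupOf X) = Nat.card Z :=
          Nat.card_congr (Subgroup.subgroupOfEquivOfLe hZX).toEquiv
        obtain ⟨K, hK1, hK2⟩ := central_complement (Z.subgroupOf X) (by
          intro z hz x
          apply Subtype.ext
          exact hcen x x.2 z (Subgroup.mem_subgroupOf.1 hz)) (by rw [hcard]; exact hcop)
        rw [hcard] at hK1
        let K' : Subgroup H := K.map X.subtype
        have hK' : ∀ x, x ∈ K' ↔ x ∈ X ∧ (orderOf x).Coprime (Nat.card Z) := by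
          intro x
          constructor
          · rintro ⟨y, hy, rfl⟩
            exact ⟨y.2, by simpa using (hK1 y).1 hy⟩
          · rintro ⟨hx, hx'⟩
            exact ⟨⟨x, hx⟩, (hK1 _).2 (by simpa using hx'), rfl⟩
        have hK'i : Inv ⊤ K' := by
          intro g hg x hx
          rw [hK'] at hx ⊢
          refine ⟨hX g hg x hx.1, ?_⟩
          have : orderOf (g * x * g⁻¹) = orderOf x :=
            orderOf_injective (MulAut.conj g).toMonoidHom (MulAut.conj g).injective x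
          rw [this]; exact hx.2
        have hK'Z : K' ⊓ Z = ⊥ := by
          rw [eq_bot_iff]
          rintro x ⟨hx1, hx2⟩
          have h3 := ((hK' x).1 hx1).2
          have h4 : orderOf x ∣ Nat.card Z := Subgroup.orderOf_dvd_natCard Z hx2
          have h5 : orderOf x = 1 := Nat.eq_one_of_dvd_coprimes h3 dvd_rfl h4
          rw [Subgroup.mem_bot]
          exact orderOf_eq_one_iff.1 h5
        have hK'X : K' ≤ X := fun x hx => ((hK' x).1 hx).1
        have hbot := hO K' hK'i (fin2 K' X Z hK'X hK'Z h2)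
        intro x hx
        obtain ⟨z, hz, y, hy, hxy⟩ := hK2 ⟨x, hx⟩
        have hy1 : (y : H) ∈ K' := ⟨y, hy, rfl⟩
        rw [hbot, Subgroup.mem_bot] at hy1
        have hx1 : x = z * y := congrArg Subtype.val hxy
        rw [hy1, mul_one] at hx1
        rw [hx1]
        exact (Subgroup.mem_subgroupOf.1 hz).2
  intro x hx
  have := key n le_rfl
  rw [hSn, inf_top_eq] at this
  exact this hx


section
variable {H : Type*} [Group H] [Finite H] {p : ℕ} [hp : Fact p.Prime]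

lemma PF'_bot_iff {Q : Subgroup H} : PF' p ⊥ Q ↔ (Nat.card Q).Coprime p := by
  constructor
  · intro h
    by_contra hcon
    have h1 : p ∣ Nat.card Q := by
      rw [Nat.coprime_comm] at hcon
      by_contra h2
      exact hcon ((Nat.Prime.coprime_iff_not_dvd hp.out).2 h2)
    obtain ⟨x, hx⟩ := exists_prime_orderOf_dvd_card' p h1
    obtain ⟨m, hm, hm'⟩ := h x x.2
    rw [Subgroup.mem_bot] at hm'
    have h3 : orderOf x ∣ m := orderOf_dvd_of_pow_eq_one (Subtype.ext (by simpa using hm'))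
    rw [hx] at h3
    exact hp.out.one_lt.ne' (Nat.Coprime.eq_one_of_dvd (Nat.coprime_comm.1 hm) h3)
  · intro h x hx
    refine ⟨Nat.card Q, h, ?_⟩
    have : (⟨x, hx⟩ : Q) ^ Nat.card Q = 1 := pow_card_eq_one'
    have h9 : ((⟨x, hx⟩ : Q) ^ Nat.card Q : Q).1 = (1 : Q).1 := by rw [this]
    rw [Subgroup.mem_bot]
    simpa only [Subgroup.coe_pow, Subgroup.coe_one] using h9

omit [Finite H] hp in
lemma PF_bot_iff {Q : Subgroup H} : PF p ⊥ Q ↔ IsPGroup p Q := by
  constructor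
  · rintro h ⟨x, hx⟩
    obtain ⟨k, hk⟩ := h x hx
    exact ⟨k, Subtype.ext (by simpa using hk)⟩
  · intro h x hx
    obtain ⟨k, hk⟩ := h ⟨x, hx⟩
    exact ⟨k, by simpa using congrArg Subtype.val hk⟩

lemma PF_index {Z X : Subgroup H} (hn : (Z.subgroupOf X).Normal) (h : PF p Z X) :
    ∃ n, Z.relIndex X = p ^ n := by
  have h1 : IsPGroup p (X ⧸ Z.subgroupOf X) := by
    intro x
    induction x using QuotientGroup.induction_on with
    | H x =>
      obtain ⟨k, hk⟩ := h x x.2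
      refine ⟨k, ?_⟩
      rw [← QuotientGroup.mk_pow, QuotientGroup.eq_one_iff, Subgroup.mem_subgroupOf]
      simpa using hk
  exact IsPGroup.iff_card.1 h1

lemma PF'_index {Z X : Subgroup H} (hn : (Z.subgroupOf X).Normal) (h : PF' p Z X) :
    (Z.relIndex X).Coprime p := by
  have h1 : Z.relIndex X = Nat.card (X ⧸ Z.subgroupOf X) := rfl
  rw [h1]
  by_contra hcon
  have h1 : p ∣ Nat.card (X ⧸ Z.subgroupOf X) := by
    rw [Nat.coprime_comm] at hcon
    by_contra h2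
    exact hcon ((Nat.Prime.coprime_iff_not_dvd hp.out).2 h2)
  obtain ⟨x, hx⟩ := exists_prime_orderOf_dvd_card' p h1
  induction x using QuotientGroup.induction_on with
  | H x =>
    obtain ⟨m, hm, hm'⟩ := h x x.2
    have h3 : orderOf (QuotientGroup.mk x : X ⧸ Z.subgroupOf X) ∣ m := by
      apply orderOf_dvd_of_pow_eq_one
      rw [← QuotientGroup.mk_pow, QuotientGroup.eq_one_iff, Subgroup.mem_subgroupOf]
      simpa using hm'
    rw [hx] at h3
    exact hp.out.one_lt.ne' (Nat.Coprime.eq_one_of_dvd (Nat.coprime_comm.1 hm) h3)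

omit [Finite H] hp in
lemma central_normal {Z X : Subgroup H} (hZ : ∀ g ∈ X, ∀ z ∈ Z, z * g = g * z) :
    (Z.subgroupOf X).Normal := by
  constructor
  intro z hz g
  rw [Subgroup.mem_subgroupOf] at hz ⊢
  have h1 := hZ g g.2 z hz
  have : (g * z * g⁻¹ : X) = z := by
    apply Subtype.ext
    push_cast
    rw [← h1]; group
  rw [this]; exact hz

/-- Hall-Higman: C(O_p') is contained in O_p' if O_p = 1 -/
theorem HH1 (hs : ∃ m, RLp p m (⊥ : Subgroup H) ⊤) (Q : Subgroup H) (hQ : Inv ⊤ Q)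
    (hQ1 : PF' p ⊥ Q) (hmax : ∀ X, Inv ⊤ X → PF' p ⊥ X → X ≤ Q)
    (hO : ∀ X : Subgroup H, Inv ⊤ X → PF p ⊥ X → X = ⊥) :
    ∀ x, (∀ y ∈ Q, x * y = y * x) → x ∈ Q := by
  obtain ⟨m, S, h0, h1, h2, h3, h4, h5⟩ := hs
  refine HH_gen (PF' p) (PF p) (fun A B C h => (PF'.refl C).inf h) (fun A B C h => (PF.refl C).inf h)
    (fun A A' B h hA => h.mono hA le_rfl) (fun A B h h' => h.trans h')
    (fun A B h hB => h.mono le_rfl hB) ?_ ?_ Q hQ hQ1 hmax hO (2 * m + 1) S h0 h1 h2 h3 ?_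
  · intro Z X _ hZ hZ1 hX
    obtain ⟨n, hn⟩ := PF_index (central_normal hZ) hX
    rw [hn]
    exact Nat.Coprime.pow_right n (PF'_bot_iff.1 hZ1)
  · intro K X Z hK hKZ hX x hx
    obtain ⟨k, hk⟩ := hX x (hK hx)
    exact ⟨k, hKZ ▸ ⟨K.pow_mem hx _, hk⟩⟩
  · intro i hi
    rcases Nat.even_or_odd' i with ⟨t, ht | ht⟩
    · left; rw [ht]; exact h4 t (by omega)
    · right; rw [ht]; exact h5 t (by omega)

/-- dual version: C(O_p) is contained in O_p if O_p' = 1 -/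
theorem HH2 (hs : ∃ m, RLp p m (⊥ : Subgroup H) ⊤) (Q : Subgroup H) (hQ : Inv ⊤ Q)
    (hQ1 : PF p ⊥ Q) (hmax : ∀ X, Inv ⊤ X → PF p ⊥ X → X ≤ Q)
    (hO : ∀ X : Subgroup H, Inv ⊤ X → PF' p ⊥ X → X = ⊥) :
    ∀ x, (∀ y ∈ Q, x * y = y * x) → x ∈ Q := by
  obtain ⟨m, S, h0, h1, h2, h3, h4, h5⟩ := hs
  refine HH_gen (PF p) (PF' p) (fun A B C h => (PF.refl C).inf h) (fun A B C h => (PF'.refl C).inf h)
    (fun A A' B h hA => h.mono hA le_rfl) (fun A B h h' => h.trans h')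
    (fun A B h hB => h.mono le_rfl hB) ?_ ?_ Q hQ hQ1 hmax hO (2 * m + 1) S h0 h1 h2 h3 ?_
  · intro Z X _ hZ hZ1 hX
    obtain ⟨n, hn⟩ := (IsPGroup.iff_card.1 (PF_bot_iff.1 hZ1))
    rw [hn]
    exact Nat.Coprime.pow_left n (Nat.coprime_comm.1 (PF'_index (central_normal hZ) hX))
  · intro K X Z hK hKZ hX x hx
    obtain ⟨k, hk, hk'⟩ := hX x (hK hx)
    exact ⟨k, hk, hKZ ▸ ⟨K.pow_mem hx _, hk'⟩⟩
  · intro i hi
    rcases Nat.even_or_odd' i with ⟨t, ht | ht⟩
    · right; rw [ht]; exact h4 t (by omega)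
    · left; rw [ht]; exact h5 t (by omega)

end

end Pool.Agent.Helper407.PL
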