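import Pool.Agent.Helper407.PLClaimD2
import Pool.Agent.Helper407.PLDescent
import Pool.Agent.Helper407.PLHH

set_option autoImplicit false

namespace Pool.Agent.Helper407.PL

section
variable {k H M : Type} [Field k] [Group H] [AddCommGroup M] [Module k M] {p : ℕ}

lemma State.mono {Λ Λ' : ℕ} {r : ZF} (h : State p k Λ r) (hl : Λ' ≤ Λ) : State p k Λ' r := by
  obtain ⟨H, i1, i2, M, i3, i4, i5, ρ, h1, h2, h3, h4, h5, h6⟩ := h
  exact ⟨H, i1, i2, M, i3, i4, i5, ρ, h1, h2, h3, h4, fun hc => h5 (hc.mono_n hl), h6⟩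

/-- centralizer -/
def cen (Y : Subgroup H) : Subgroup H where
  carrier := {x | ∀ y ∈ Y, x * y = y * x}
  one_mem' := fun y _ => by simp
  mul_mem' := fun {a b} ha hb y hy => by rw [mul_assoc, hb y hy, ← mul_assoc, ha y hy, mul_assoc]
  inv_mem' := fun {a} ha y hy => by
    have := ha y hy
    calc a⁻¹ * y = a⁻¹ * (y * a) * a⁻¹ := by group
      _ = a⁻¹ * (a * y) * a⁻¹ := by rw [this]
      _ = y * a⁻¹ := by group

lemma mem_cen {Y : Subgroup H} {x : H} : x ∈ cen Y ↔ ∀ y ∈ Y, x * y = y * x := Iff.rfl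

lemma cen_inv {N Y : Subgroup H} (h : Inv N Y) : Inv N (cen Y) := by
  intro g hg x hx y hy
  have h1 : g⁻¹ * y * g ∈ Y := by simpa using h g⁻¹ (N.inv_mem hg) y hy
  have h2 := hx _ h1
  calc g * x * g⁻¹ * y = g * (x * (g⁻¹ * y * g)) * g⁻¹ := by group
    _ = g * ((g⁻¹ * y * g) * x) * g⁻¹ := by rw [h2]
    _ = y * (g * x * g⁻¹) := by group

/-- relative centre: elements x of D with [x,D] in E -/
def rcen (D E : Subgroup H) (hE : Inv D E) : Subgroup H where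
  carrier := {x | x ∈ D ∧ ∀ y ∈ D, x * y * x⁻¹ * y⁻¹ ∈ E}
  one_mem' := ⟨D.one_mem, fun y _ => by simp⟩
  mul_mem' := fun {a b} ha hb => ⟨D.mul_mem ha.1 hb.1, fun y hy => by
    have h1 := hE a ha.1 _ (hb.2 y hy)
    have h2 := E.mul_mem h1 (ha.2 y hy)
    have e : a * (b * y * b⁻¹ * y⁻¹) * a⁻¹ * (a * y * a⁻¹ * y⁻¹) =
      a * b * y * (a * b)⁻¹ * y⁻¹ := by group
    rwa [e] at h2⟩
  inv_mem' := fun {a} ha => ⟨D.inv_mem ha.1, fun y hy => by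
    have h1 := E.inv_mem (hE a⁻¹ (D.inv_mem ha.1) _ (ha.2 y hy))
    have e : (a⁻¹ * (a * y * a⁻¹ * y⁻¹) * a⁻¹⁻¹)⁻¹ = a⁻¹ * y * a⁻¹⁻¹ * y⁻¹ := by group
    rwa [e] at h1⟩

lemma mem_rcen {D E : Subgroup H} {hE : Inv D E} {x : H} :
    x ∈ rcen D E hE ↔ x ∈ D ∧ ∀ y ∈ D, x * y * x⁻¹ * y⁻¹ ∈ E := Iff.rfl

lemma rcen_inv {N D E : Subgroup H} (hE : Inv D E) (hD : Inv N D) (hNE : Inv N E) :
    Inv N (rcen D E hE) := by
  intro g hg x hx
  refine ⟨hD g hg x hx.1, fun y hy => ?_⟩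
  have h1 : g⁻¹ * y * g ∈ D := by simpa using hD g⁻¹ (N.inv_mem hg) y hy
  have h2 := hNE g hg _ (hx.2 _ h1)
  have e : g * (x * (g⁻¹ * y * g) * x⁻¹ * (g⁻¹ * y * g)⁻¹) * g⁻¹ =
    g * x * g⁻¹ * y * (g * x * g⁻¹)⁻¹ * y⁻¹ := by group
  rwa [e] at h2

/-- abelian sections give the next state -/
theorem caseA_state [Finite H] [hp : Fact p.Prime] [CharP k p] [FiniteDimensional k M]
    (hs : ∃ m, RLp p m (⊥ : Subgroup H) ⊤) {r : ZF} (ρ : H →* Module.End k M)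
    (hρ : Function.Injective ρ) (hr : Rel p r ρ) {N Q0 D E0 : Subgroup H}
    (hQ : (Nat.card Q0).Coprime p) (hDp : IsPGroup p D) (hED : E0 ≤ D) (hND : Inv N D)
    (hNE : Inv N E0) (hab : ∀ x ∈ D, ∀ y ∈ D, x * y * x⁻¹ * y⁻¹ ∈ E0) (hDQ : Inv D Q0)
    (hE : ∀ x ∈ D, x ∈ E0 ↔ ∀ y ∈ Q0, x * y = y * x) (a : ℕ) {Λ : ℕ}
    (hSm : ¬ Sm p Λ N D E0) : State p k Λ (fox a r) := by
  obtain ⟨D1, hD1⟩ := exists_omega p hED hab
  have hD1D : D1 ≤ D := fun x hx => ((hD1 x).1 hx).1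
  have hED1 : E0 ≤ D1 := fun x hx => (hD1 x).2 ⟨hED hx, E0.pow_mem hx p⟩
  have hND1 : Inv N D1 := by
    intro g hg x hx
    rw [hD1] at hx ⊢
    refine ⟨hND g hg x hx.1, ?_⟩
    rw [conj_pow]; exact hNE g hg _ hx.2
  have hPF : PF p E0 D := (PF_bot_iff.2 hDp).mono bot_le le_rfl
  have hSm1 : ¬ Sm p Λ N D1 E0 := fun h => hSm (Sm.omega hED hab hND hNE hPF hD1 h)
  refine level_reduce hND1 hNE (hDp.to_le hD1D) hs ρ hr (fun x hx hxE => ?_) a hSm1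
  exact caseA_rankone ρ hρ Q0 E0 D1 hQ (hDp.to_le hD1D) (hDQ.mono hD1D) hED1
    (fun x hx => hE x (hD1D hx)) (fun x hx y hy => hab x (hD1D hx) y (hD1D hy))
    (fun x hx => ((hD1 x).1 hx).2) x hx hxE

/-- bound on the index -/
def tbound (p : ℕ) : ℕ := (p ^ (p ^ 3 + 3)).factorial

/-- nonabelian step: either a rank one vector or small index -/
theorem caseB_rankone [Finite H] [hp : Fact p.Prime] [IsAlgClosed k] [CharP k p]
    [FiniteDimensional k M] (ρ : H →* Module.End k M)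
    (hρ : Function.Injective ρ) {Q0 Z0 E0 C' Z' : Subgroup H}
    (hQ : (Nat.card Q0).Coprime p) (hCp : IsPGroup p C') (hEC : E0 ≤ C')
    (hCQ : Inv C' Q0) (hCE : Inv C' E0)
    (hE : ∀ x ∈ C', x ∈ E0 ↔ ∀ y ∈ Q0, x * y = y * x)
    (hZE : Z0 ≤ E0) (b0 : H) (hb0 : b0 ^ p = 1) (hb0c : ∀ x ∈ C', b0 * x = x * b0)
    (hcomm : ∀ x ∈ C', ∀ y ∈ C', ∃ i : ℕ, ∃ z ∈ Z0, x * y * x⁻¹ * y⁻¹ = b0 ^ i * z)
    (hbQ : ∃ y ∈ Q0, b0 * y ≠ y * b0)
    (hZ' : ∀ x, x ∈ Z' ↔ x ∈ C' ∧ ∀ y ∈ C', x * y * x⁻¹ * y⁻¹ ∈ E0)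
    (hidx : p ^ (p ^ 3 + 3) < Z'.relIndex C') :
    ∃ F c : M, c ≠ 0 ∧ (∀ g ∈ C', ρ g c = c) ∧ (∀ g ∈ C', ∃ a : k, ρ g F = F + a • c) ∧
      (∀ g ∈ E0, ρ g F = F) ∧ ∃ g ∈ C', ρ g F ≠ F := by
  classical
  -- some power of b0 lies in C'
  have hb0i : ∀ i : ℕ, b0 ^ i ≠ 1 → ∀ S : Subgroup H, b0 ^ i ∈ S → b0 ∈ S := by
    intro i hi S hS
    have h1 : ¬ p ∣ i := by
      rintro ⟨j, rfl⟩
      apply hi; rw [pow_mul, hb0, one_pow]
    have hi0 : 0 < i % p := Nat.pos_of_ne_zero (fun h => h1 (Nat.dvd_of_mod_eq_zero h))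
    have h2 : b0 ^ (i % p) ∈ S := by
      have : b0 ^ i = b0 ^ (i % p) := by
        conv_lhs => rw [← Nat.mod_add_div i p, pow_add, pow_mul, hb0, one_pow, mul_one]
      rwa [← this]
    exact mem_of_pow_coprime S b0 hp.out hi0 (Nat.mod_lt _ hp.out.pos) h2
      (by rw [hb0]; exact S.one_mem)
  have hb0C : b0 ∈ C' := by
    have hne : Z' ≠ C' := by
      intro h
      rw [h, Subgroup.relIndex_self] at hidx
      have : 0 < p ^ (p ^ 3 + 3) := Nat.pow_pos hp.out.pos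
      omega
    have hle : Z' ≤ C' := fun x hx => ((hZ' x).1 hx).1
    obtain ⟨x, hx, hxZ⟩ : ∃ x ∈ C', x ∉ Z' := by
      by_contra hcon
      push Not at hcon
      exact hne (le_antisymm hle hcon)
    have h1 : ∃ y ∈ C', x * y * x⁻¹ * y⁻¹ ∉ E0 := by
      by_contra hcon
      push Not at hcon
      exact hxZ ((hZ' x).2 ⟨hx, hcon⟩)
    obtain ⟨y, hy, hxy⟩ := h1
    obtain ⟨i, z, hz, he⟩ := hcomm x hx y hy
    have hc : x * y * x⁻¹ * y⁻¹ ∈ C' :=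
      C'.mul_mem (C'.mul_mem (C'.mul_mem hx hy) (C'.inv_mem hx)) (C'.inv_mem hy)
    have h2 : b0 ^ i ∈ C' := by
      have : b0 ^ i = (x * y * x⁻¹ * y⁻¹) * z⁻¹ := by rw [he]; group
      rw [this]; exact C'.mul_mem hc (C'.inv_mem (hEC (hZE hz)))
    apply hb0i i _ C' h2
    intro h3
    rw [h3, one_mul] at he
    exact hxy (he ▸ hZE hz)
  -- the module of E0-fixed vectors
  let S : Submodule k M := fxd ρ E0
  have hEQ : ∀ g ∈ Q0, ∀ x ∈ E0, x * g = g * x := fun g hg x hx => (hE x (hEC hx)).1 hx g hg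
  have hSQ : ∀ g ∈ Q0, ∀ v ∈ S, ρ g v ∈ S := by
    intro g hg v hv x hx
    rw [← Module.End.mul_apply, ← map_mul, hEQ g hg x hx, map_mul, Module.End.mul_apply, hv x hx]
  have hSC : ∀ g ∈ C', ∀ v ∈ S, ρ g v ∈ S := by
    intro g hg v hv x hx
    have h1 : g⁻¹ * x * g ∈ E0 := by simpa using hCE g⁻¹ (C'.inv_mem hg) x hx
    have h2 : x * g = g * (g⁻¹ * x * g) := by group
    rw [← Module.End.mul_apply, ← map_mul, h2, map_mul, Module.End.mul_apply, hv _ h1]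
  -- faithfulness of Q0 on S
  have hfaith : ∀ q ∈ Q0, (∀ v ∈ S, ρ q v = v) → q = 1 := by
    intro q hq hqv
    let X : Subgroup H :=
      { carrier := {x | x ∈ Q0 ∧ ∀ v ∈ S, ρ x v = v}
        one_mem' := ⟨Q0.one_mem, fun v _ => by simp⟩
        mul_mem' := fun {a b} ha hb => ⟨Q0.mul_mem ha.1 hb.1, fun v hv => by
          rw [map_mul, Module.End.mul_apply, hb.2 v hv, ha.2 v hv]⟩
        inv_mem' := fun {a} ha => ⟨Q0.inv_mem ha.1, fun v hv => by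
          have h1 := ha.2 v hv
          calc ρ a⁻¹ v = ρ a⁻¹ (ρ a v) := by rw [h1]
            _ = v := by rw [← Module.End.mul_apply, ← map_mul, inv_mul_cancel, map_one]; rfl⟩ }
    have hXQ : X ≤ Q0 := fun x hx => hx.1
    have hXc : (Nat.card X).Coprime p :=
      Nat.Coprime.coprime_dvd_left (Subgroup.card_dvd_of_le hXQ) hQ
    have h1 := ab_lemma ρ (hCp.to_le hEC) hXc (fun g hg x hx => hEQ x (hXQ hx) g hg)
      (fun v hv x hx => hx.2 v hv) q ⟨hq, hqv⟩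
    apply hρ
    rw [map_one]; ext v; exact h1 v
  -- quotient acting faithfully on S
  let K : Subgroup H := stab ρ S
  let σ : K →* Module.End k S := stabRep ρ S
  have hQK : Q0 ≤ K := fun g hg => hSQ g hg
  have hCK : C' ≤ K := fun g hg => hSC g hg
  let N : Subgroup K := σ.ker
  let π : K →* K ⧸ N := QuotientGroup.mk' N
  let ρ' : (K ⧸ N) →* Module.End k S := QuotientGroup.lift N σ (fun g hg => hg)
  have hπs : Function.Surjective π := QuotientGroup.mk'_surjective N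
  have hπ1 : ∀ g : K, π g = 1 ↔ ∀ v ∈ S, ρ g v = v := by
    intro g
    constructor
    · intro h v hv
      have h1 : σ g = 1 := (QuotientGroup.eq_one_iff g).1 h
      exact congrArg (fun T : Module.End k S => ((T ⟨v, hv⟩ : S) : M)) h1
    · intro h
      refine (QuotientGroup.eq_one_iff g).2 ?_
      change σ g = 1
      ext s
      exact h s s.2
  have hρ'inj : Function.Injective ρ' := by
    rw [injective_iff_map_eq_one]
    intro x hx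
    obtain ⟨g, rfl⟩ := hπs x
    have : σ g = 1 := hx
    exact (QuotientGroup.eq_one_iff g).2 this
  let C1 : Subgroup (K ⧸ N) := (C'.subgroupOf K).map π
  let Q' : Subgroup (K ⧸ N) := (Q0.subgroupOf K).map π
  have hC1mem : ∀ g (hg : g ∈ C'), π ⟨g, hCK hg⟩ ∈ C1 := fun g hg => ⟨⟨g, hCK hg⟩, hg, rfl⟩
  have hQ1mem : ∀ g (hg : g ∈ Q0), π ⟨g, hQK hg⟩ ∈ Q' := fun g hg => ⟨⟨g, hQK hg⟩, hg, rfl⟩
  have hC1ex : ∀ x ∈ C1, ∃ (g : H) (hg : g ∈ C'), π ⟨g, hCK hg⟩ = x := by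
    rintro _ ⟨⟨g, hgK⟩, hg, rfl⟩
    exact ⟨g, hg, rfl⟩
  have hQ1ex : ∀ x ∈ Q', ∃ (g : H) (hg : g ∈ Q0), π ⟨g, hQK hg⟩ = x := by
    rintro _ ⟨⟨g, hgK⟩, hg, rfl⟩
    exact ⟨g, hg, rfl⟩
  have hC1p : IsPGroup p C1 := (hCp.comap_subtype).map π
  have hQ'c : (Nat.card Q').Coprime p := by
    have h1 : Nat.card (Q0.subgroupOf K) = Nat.card Q0 :=
      Nat.card_congr (Subgroup.subgroupOfEquivOfLe hQK).toEquiv
    have h2 : Nat.card Q' ∣ Nat.card (Q0.subgroupOf K) := Subgroup.card_map_dvd _ _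
    rw [h1] at h2
    exact Nat.Coprime.coprime_dvd_left h2 hQ
  -- elements of C' trivial on S lie in E0
  have hC'E : ∀ x ∈ C', (∀ v ∈ S, ρ x v = v) → x ∈ E0 := by
    intro x hx hxv
    rw [hE x hx]
    intro y hy
    have h1 : x * y * x⁻¹ * y⁻¹ ∈ Q0 := Q0.mul_mem (hCQ x hx y hy) (Q0.inv_mem hy)
    have h2 : x * y * x⁻¹ * y⁻¹ = 1 := by
      apply hfaith _ h1
      intro v hv
      have hxi : ∀ v ∈ S, ρ x⁻¹ v = v := by
        intro v hv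
        calc ρ x⁻¹ v = ρ x⁻¹ (ρ x v) := by rw [hxv v hv]
          _ = v := by rw [← Module.End.mul_apply, ← map_mul, inv_mul_cancel, map_one]; rfl
      have h3 : ρ y⁻¹ v ∈ S := hSQ _ (Q0.inv_mem hy) v hv
      rw [map_mul, map_mul, map_mul, Module.End.mul_apply, Module.End.mul_apply,
        Module.End.mul_apply, hxi _ h3, ← Module.End.mul_apply (ρ y), ← map_mul, mul_inv_cancel,
        map_one, Module.End.one_apply, hxv v hv]
    calc x * y = (x * y * x⁻¹ * y⁻¹) * y * x := by group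
      _ = y * x := by rw [h2, one_mul]
  set b1 : K ⧸ N := π ⟨b0, hCK hb0C⟩ with hb1
  have hkerb : ∃ y ∈ Q', b1 * y ≠ y * b1 := by
    obtain ⟨y, hy, hne⟩ := hbQ
    refine ⟨_, hQ1mem y hy, fun h => hne ?_⟩
    have h9 : b1 * π ⟨y, hQK hy⟩ * b1⁻¹ * (π ⟨y, hQK hy⟩)⁻¹ = 1 := by rw [h]; group
    rw [hb1, ← map_mul, ← map_inv, ← map_mul, ← map_inv, ← map_mul, hπ1] at h9
    have h1 : b0 * y * b0⁻¹ * y⁻¹ ∈ Q0 := Q0.mul_mem (hCQ b0 hb0C y hy) (Q0.inv_mem hy)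
    have h2 : b0 * y * b0⁻¹ * y⁻¹ = 1 := hfaith _ h1 (fun v hv => h9 v hv)
    calc b0 * y = (b0 * y * b0⁻¹ * y⁻¹) * y * b0 := by group
      _ = y * b0 := by rw [h2, one_mul]
  have hb1c : ∀ x ∈ C1, b1 * x = x * b1 := by
    intro x hx
    obtain ⟨g, hg, rfl⟩ := hC1ex x hx
    rw [hb1, ← map_mul, ← map_mul]
    congr 1; exact Subtype.ext (hb0c g hg)
  let Z1 : Subgroup (K ⧸ N) := C1 ⊓ cen C1
  have hidx1 : p ^ (p ^ 3 + 3) < Z1.relIndex C1 := by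
    refine lt_of_lt_of_le hidx ?_
    let f : C' →* C1 :=
      { toFun := fun g => ⟨π ⟨g, hCK g.2⟩, hC1mem g g.2⟩
        map_one' := Subtype.ext (by
          change π ⟨1, _⟩ = 1
          exact map_one π)
        map_mul' := fun x y => Subtype.ext (by
          change π (⟨x, hCK x.2⟩ * ⟨y, hCK y.2⟩) = _
          rw [map_mul]; rfl) }
    have hf : Function.Surjective f := by
      rintro ⟨x, hx⟩
      obtain ⟨g, hg, rfl⟩ := hC1ex x hx
      exact ⟨⟨g, hg⟩, rfl⟩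
    have h1 : ((Z1.subgroupOf C1).comap f).index = (Z1.subgroupOf C1).index :=
      Subgroup.index_comap_of_surjective _ hf
    have h2 : (Z1.subgroupOf C1).comap f ≤ Z'.subgroupOf C' := by
      intro x hx
      rw [Subgroup.mem_comap, Subgroup.mem_subgroupOf] at hx
      rw [Subgroup.mem_subgroupOf, hZ']
      refine ⟨x.2, fun y hy => ?_⟩
      have h3 : π ⟨x, hCK x.2⟩ * π ⟨y, hCK hy⟩ = π ⟨y, hCK hy⟩ * π ⟨x, hCK x.2⟩ :=
        hx.2 _ (hC1mem y hy)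
      have h9 : π ⟨x, hCK x.2⟩ * π ⟨y, hCK hy⟩ * (π ⟨x, hCK x.2⟩)⁻¹ * (π ⟨y, hCK hy⟩)⁻¹ = 1 := by
        rw [h3]; group
      rw [← map_mul, ← map_inv, ← map_mul, ← map_inv, ← map_mul, hπ1] at h9
      exact hC'E _ (C'.mul_mem (C'.mul_mem (C'.mul_mem x.2 hy) (C'.inv_mem x.2)) (C'.inv_mem hy))
        (fun v hv => h9 v hv)
    calc Z'.relIndex C' ≤ ((Z1.subgroupOf C1).comap f).index :=
          Nat.le_of_dvd (Nat.pos_of_ne_zero (Subgroup.index_ne_zero_of_finite))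
            (Subgroup.index_dvd_of_le h2)
      _ = Z1.relIndex C1 := h1
  have hRO : RO ρ' C1 := by
    refine claimD ρ' hρ'inj C1 Q' Z1 hC1p hQ'c ?_ b1 (hC1mem b0 hb0C) ?_ hb1c ?_ hkerb
      (fun x => Iff.rfl) hidx1
    · intro g0 hg0 y0 hy0
      obtain ⟨g, hg, rfl⟩ := hC1ex g0 hg0
      obtain ⟨y, hy, rfl⟩ := hQ1ex y0 hy0
      rw [← map_mul, ← map_inv, ← map_mul]
      exact hQ1mem _ (hCQ g hg y hy)
    · rw [hb1, ← map_pow]
      have : (⟨b0, hCK hb0C⟩ : K) ^ p = 1 := Subtype.ext (by simpa using hb0)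
      rw [this, map_one]
    · intro x0 hx0 y0 hy0
      obtain ⟨x, hx, rfl⟩ := hC1ex x0 hx0
      obtain ⟨y, hy, rfl⟩ := hC1ex y0 hy0
      obtain ⟨i, z, hz, hi⟩ := hcomm x hx y hy
      refine ⟨i, ?_⟩
      have hzK : z ∈ K := hCK (hEC (hZE hz))
      have hz1 : π ⟨z, hzK⟩ = 1 := by
        rw [hπ1]
        intro v hv; exact hv z (hZE hz)
      have h5 : (⟨x, hCK hx⟩ * ⟨y, hCK hy⟩ : K) =
          ⟨b0, hCK hb0C⟩ ^ i * ⟨z, hzK⟩ * (⟨y, hCK hy⟩ * ⟨x, hCK hx⟩) := by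
        apply Subtype.ext
        have : x * y = b0 ^ i * z * (y * x) := by rw [← hi]; group
        simpa using this
      rw [← map_mul, h5, map_mul, map_mul, map_pow, hz1, mul_one, map_mul]
  obtain ⟨F, c, hc, hc1, hc2, g, hg, hgF⟩ := hRO
  refine ⟨F, c, fun h => hc (Subtype.ext h), fun g hg => ?_, fun g hg => ?_, fun g hg => F.2 g hg, ?_⟩
  · exact congrArg Subtype.val (hc1 _ (hC1mem g hg))
  · obtain ⟨a, ha⟩ := hc2 _ (hC1mem g hg)
    exact ⟨a, congrArg Subtype.val ha⟩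
  · obtain ⟨g1, hg1, rfl⟩ := hC1ex g hg
    exact ⟨g1, hg1, fun h => hgF (Subtype.ext h)⟩

end

end Pool.Agent.Helper407.PL
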