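import Pool.Agent.Helper407.PLLevel

set_option autoImplicit false

namespace Pool.Agent.Helper407.PL

section
variable {k H M : Type} [Field k] [Group H] [AddCommGroup M] [Module k M] {p : ℕ}

/-- inner induction -/
theorem caseB_state [Finite H] [hp : Fact p.Prime] [IsAlgClosed k] [CharP k p]
    [FiniteDimensional k M]
    (hs : ∃ m, RLp p m (⊥ : Subgroup H) ⊤) {r : ZF} (ρ : H →* Module.End k M)
    (hρ : Function.Injective ρ) (hr : Rel p r ρ) {N Q0 Z0 E0 : Subgroup H}
    (hQ : (Nat.card Q0).Coprime p) (hNE : Inv N E0) (hZE : Z0 ≤ E0) (b0 : H) (hb0 : b0 ^ p = 1)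
    (hbQ : ∃ y ∈ Q0, b0 * y ≠ y * b0) (a : ℕ) {Λ : ℕ} (hΛ : tbound p ≤ Λ) :
    ∀ (n : ℕ) (C' : Subgroup H), Nat.card C' = n → IsPGroup p C' → E0 ≤ C' → Inv N C' →
      Inv C' Q0 → (∀ x ∈ C', x ∈ E0 ↔ ∀ y ∈ Q0, x * y = y * x) → (∀ x ∈ C', b0 * x = x * b0) →
      (∀ x ∈ C', ∀ y ∈ C', ∃ i : ℕ, ∃ z ∈ Z0, x * y * x⁻¹ * y⁻¹ = b0 ^ i * z) →
      ¬ Sm p Λ N C' E0 → State p k Λ (fox a r) := by
  intro n
  induction n using Nat.strong_induction_on with
  | _ n ih =>
    intro C' hn hCp hEC hNC hCQ hE hb0c hcomm hSm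
    have hCE : Inv C' E0 := by
      intro g hg x hx
      rw [hE _ (C'.mul_mem (C'.mul_mem hg (hEC hx)) (C'.inv_mem hg))]
      exact fun y hy => cen_inv hCQ g hg x ((hE x (hEC hx)).1 hx) y hy
    let Z' : Subgroup H := rcen C' E0 hCE
    have hZ'C : Z' ≤ C' := fun x hx => hx.1
    have hEZ' : E0 ≤ Z' := fun x hx => ⟨hEC hx, fun y hy => by
      have h1 := hCE y hy _ (E0.inv_mem hx)
      have h2 := E0.mul_mem hx h1
      simpa [mul_assoc] using h2⟩
    have hNZ' : Inv N Z' := rcen_inv hCE hNC hNE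
    by_cases hidx : Z'.relIndex C' ≤ p ^ (p ^ 3 + 3)
    · -- small index
      obtain ⟨m, hm⟩ := hs
      have hNp : RLp p m (⊥ : Subgroup H) N := by
        have := hm.restrict (le_top : N ≤ ⊤)
        rwa [bot_inf_eq] at this
      have h1 : Sm p Λ N C' Z' := by
        refine (Sm.of_card hNp hNC hNZ').mono_n (le_trans ?_ hΛ)
        exact Nat.factorial_le hidx
      have h2 : ¬ Sm p Λ N Z' E0 := fun h =>
        hSm (h1.exact h hNZ' hNE ((PF_bot_iff.2 (hCp.to_le hZ'C)).mono bot_le le_rfl))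
      exact caseA_state ⟨m, hm⟩ ρ hρ hr hQ (hCp.to_le hZ'C) hEZ' hNZ' hNE
        (fun x hx y hy => hx.2 y (hZ'C hy)) (hCQ.mono hZ'C) (fun x hx => hE x (hZ'C hx)) a h2
    · -- large index: rank one vectors
      rw [not_le] at hidx
      obtain ⟨F0, c0, hc0, hc1, hc2, hc3, g0, hg0, hg0F⟩ :=
        caseB_rankone ρ hρ hQ hCp hEC hCQ hCE hE hZE b0 hb0 hb0c hcomm hbQ
          (fun x => Iff.rfl : ∀ x, x ∈ Z' ↔ _) hidx
      -- good pairs
      let good : M → M → Prop := fun F c => c ≠ 0 ∧ (∀ g ∈ C', ρ g c = c) ∧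
        (∀ g ∈ C', ∃ a : k, ρ g F = F + a • c) ∧ (∀ g ∈ E0, ρ g F = F)
      let D2 : Subgroup H :=
        { carrier := {x | x ∈ C' ∧ ∀ F c, good F c → ρ x F = F}
          one_mem' := ⟨C'.one_mem, fun F c _ => by simp⟩
          mul_mem' := fun {x y} hx hy => ⟨C'.mul_mem hx.1 hy.1, fun F c h => by
            rw [map_mul, Module.End.mul_apply, hy.2 F c h, hx.2 F c h]⟩
          inv_mem' := fun {x} hx => ⟨C'.inv_mem hx.1, fun F c h => by
            have h1 := hx.2 F c h
            calc ρ x⁻¹ F = ρ x⁻¹ (ρ x F) := by rw [h1]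
              _ = F := by rw [← Module.End.mul_apply, ← map_mul, inv_mul_cancel, map_one]; rfl⟩ }
      have hD2C : D2 ≤ C' := fun x hx => hx.1
      have hED2 : E0 ≤ D2 := fun x hx => ⟨hEC hx, fun F c h => h.2.2.2 x hx⟩
      have hgood : ∀ g ∈ N, ∀ F c, good F c → good (ρ g F) (ρ g c) := by
        intro g hg F c hF
        have key : ∀ x : H, ∀ v : M, ρ x (ρ g v) = ρ g (ρ (g⁻¹ * x * g) v) := by
          intro x v
          rw [← Module.End.mul_apply, ← map_mul, ← Module.End.mul_apply, ← map_mul]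
          congr 2; group
        have hC : ∀ x ∈ C', g⁻¹ * x * g ∈ C' := fun x hx => by
          simpa using hNC g⁻¹ (N.inv_mem hg) x hx
        refine ⟨?_, ?_, ?_, ?_⟩
        · intro h
          apply hF.1
          calc c = ρ g⁻¹ (ρ g c) := by
                rw [← Module.End.mul_apply, ← map_mul, inv_mul_cancel, map_one]; rfl
            _ = 0 := by rw [h, map_zero]
        · intro x hx
          rw [key, hF.2.1 _ (hC x hx)]
        · intro x hx
          obtain ⟨a, ha⟩ := hF.2.2.1 _ (hC x hx)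
          exact ⟨a, by rw [key, ha, map_add, map_smul]⟩
        · intro x hx
          rw [key, hF.2.2.2 _ (by simpa using hNE g⁻¹ (N.inv_mem hg) x hx)]
      have hND2 : Inv N D2 := by
        intro g hg x hx
        refine ⟨hNC g hg x hx.1, fun F c hF => ?_⟩
        have h1 := hx.2 _ _ (hgood g⁻¹ (N.inv_mem hg) F c hF)
        rw [map_mul, map_mul, Module.End.mul_apply, Module.End.mul_apply, h1,
          ← Module.End.mul_apply, ← map_mul, mul_inv_cancel, map_one]; rfl
      by_cases hSm2 : Sm p Λ N C' D2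
      · -- descend to D2
        have h2 : ¬ Sm p Λ N D2 E0 := fun h =>
          hSm (hSm2.exact h hND2 hNE ((PF_bot_iff.2 (hCp.to_le hD2C)).mono bot_le le_rfl))
        have hlt : Nat.card D2 < n := by
          rw [← hn]
          refine lt_of_le_of_ne (Nat.le_of_dvd Nat.card_pos (Subgroup.card_dvd_of_le hD2C)) ?_
          intro heq
          have h3 : D2 = C' := Subgroup.eq_of_le_of_card_ge hD2C heq.ge
          apply hg0F
          have h4 : g0 ∈ D2 := by rw [h3]; exact hg0
          exact h4.2 F0 c0 ⟨hc0, hc1, hc2, hc3⟩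
        exact ih _ hlt D2 rfl (hCp.to_le hD2C) hED2 hND2 (hCQ.mono hD2C)
          (fun x hx => hE x (hD2C hx)) (fun x hx => hb0c x (hD2C hx))
          (fun x hx y hy => hcomm x (hD2C hx) y (hD2C hy)) h2
      · refine level_reduce hNC hND2 hCp hs ρ hr (fun x hx hxD => ?_) a hSm2
        have h1 : ∃ F c, good F c ∧ ρ x F ≠ F := by
          by_contra hcon
          push Not at hcon
          exact hxD ⟨hx, hcon⟩
        obtain ⟨F, c, hF, hne⟩ := h1
        classical
        let φ : H → k := fun g => if hg : g ∈ C' then (hF.2.2.1 g hg).choose else 0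
        have hφ : ∀ g ∈ C', ρ g F = F + φ g • c := by
          intro g hg
          have := (hF.2.2.1 g hg).choose_spec
          simp only [φ, hg, dif_pos]
          exact this
        refine ⟨F, c, φ, hF.1, fun g hg => ⟨hF.2.1 g hg, hφ g hg⟩, ?_, ?_⟩
        · intro h0
          apply hne
          rw [hφ x hx, h0, zero_smul, add_zero]
        · intro y hy
          have h2 := hφ y (hD2C hy)
          rw [hy.2 F c hF] at h2
          exact (smul_eq_zero.1 (left_eq_add.1 h2)).resolve_right hF.1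

end

end Pool.Agent.Helper407.PL
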