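import Pool.Agent.Helper407.PLLevel2

set_option autoImplicit false

namespace Pool.Agent.Helper407.PL

section
variable {k H M : Type} [Field k] [Group H] [AddCommGroup M] [Module k M] {p : ℕ}

/-- a normal section of a p-group has a nontrivial element centralised modulo B, of order p -/
lemma exists_central_elem [Finite H] [hp : Fact p.Prime] {R B D : Subgroup H} (hR : IsPGroup p R)
    (hBD : B ≤ D) (hDR : D ≤ R) (hRB : Inv R B) (hRD : Inv R D) (hne : ¬ D ≤ B) :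
    ∃ x ∈ D, x ∉ B ∧ x ^ p ∈ B ∧ ∀ r ∈ R, x * r * x⁻¹ * r⁻¹ ∈ B := by
  classical
  let _ := cosetAct hRD hRB
  have hne1 : B.subgroupOf D ≠ ⊤ := by
    intro h
    apply hne
    intro x hx
    have : (⟨x, hx⟩ : D) ∈ B.subgroupOf D := by rw [h]; trivial
    exact this
  have hcard : p ∣ Nat.card (D ⧸ B.subgroupOf D) := by
    have hDp : IsPGroup p D := hR.to_le hDR
    obtain ⟨n, hn⟩ := IsPGroup.iff_card.1 hDp
    have h1 : Nat.card (D ⧸ B.subgroupOf D) ∣ Nat.card D := Subgroup.card_quotient_dvd_card _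
    rw [hn, Nat.dvd_prime_pow hp.out] at h1
    obtain ⟨m, -, hm⟩ := h1
    rw [hm]
    have hm0 : m ≠ 0 := by
      rintro rfl
      rw [pow_zero] at hm
      exact hne1 (Subgroup.index_eq_one.1 hm)
    exact dvd_pow_self p hm0
  have h0 : (QuotientGroup.mk (1 : D) : D ⧸ B.subgroupOf D) ∈
      MulAction.fixedPoints R (D ⧸ B.subgroupOf D) := by
    intro g
    change (QuotientGroup.mk (⟨(g : H) * (1 : D) * (g : H)⁻¹, hRD g g.2 _ (1 : D).2⟩ : D) :
      D ⧸ B.subgroupOf D) = QuotientGroup.mk (1 : D)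
    congr 1; ext; simp
  obtain ⟨q, hq, hq1⟩ := hR.exists_fixed_point_of_prime_dvd_card_of_fixed_point _ hcard h0
  obtain ⟨x, rfl⟩ := QuotientGroup.mk_surjective q
  have hxB : (x : H) ∉ B := by
    intro h
    apply hq1
    rw [QuotientGroup.eq, Subgroup.mem_subgroupOf]
    simpa using h
  have hfix : ∀ r ∈ R, (x : H)⁻¹ * (r * x * r⁻¹) ∈ B := by
    intro r hr
    have h1 := hq ⟨r, hr⟩
    have h2 : (QuotientGroup.mk (⟨r * x * r⁻¹, hRD r hr _ x.2⟩ : D) :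
      D ⧸ B.subgroupOf D) = QuotientGroup.mk x := h1
    have h3 := QuotientGroup.eq.1 h2.symm
    rw [Subgroup.mem_subgroupOf] at h3
    simpa using h3
  have hxR : (x : H) ∈ R := hDR x.2
  have hpow : ∀ m : ℕ, ∀ r ∈ R, ((x : H) ^ m)⁻¹ * (r * (x : H) ^ m * r⁻¹) ∈ B := by
    intro m r hr
    obtain ⟨t', ht', he⟩ := pow_mul_mem (T := B) (s := (x : H)) (fun y hy => hRB x hxR y hy)
      (fun y hy => by simpa using hRB _ (R.inv_mem hxR) y hy) (hfix r hr) m
    have h1 : r * (x : H) ^ m * r⁻¹ = ((x : H) * ((x : H)⁻¹ * (r * x * r⁻¹))) ^ m := by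
      rw [← conj_pow]; congr 1; group
    rw [h1, he]
    simpa [mul_assoc] using ht'
  -- choose the right power
  have hex : ∃ j : ℕ, (x : H) ^ (p ^ j) ∈ B := by
    obtain ⟨j, hj⟩ := hR ⟨x, hxR⟩
    refine ⟨j, ?_⟩
    have : (x : H) ^ (p ^ j) = 1 := by simpa using congrArg Subtype.val hj
    rw [this]; exact B.one_mem
  have hj := Nat.find_spec hex
  set j := Nat.find hex with hjd
  have hj0 : j ≠ 0 := by
    intro h
    rw [h] at hj
    exact hxB (by simpa using hj)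
  obtain ⟨i, hi⟩ := Nat.exists_eq_succ_of_ne_zero hj0
  have hiB : (x : H) ^ (p ^ i) ∉ B := Nat.find_min hex (by omega)
  refine ⟨(x : H) ^ (p ^ i), D.pow_mem x.2 _, hiB, ?_, ?_⟩
  · rw [← pow_mul, ← pow_succ, ← Nat.succ_eq_add_one, ← hi]; exact hj
  · intro r hr
    have h1 := hpow (p ^ i) r hr
    have h2 := hRB _ (R.pow_mem hxR (p ^ i)) _ h1
    have h3 : (x : H) ^ (p ^ i) * (((x : H) ^ (p ^ i))⁻¹ * (r * (x : H) ^ (p ^ i) * r⁻¹)) *
        ((x : H) ^ (p ^ i))⁻¹ = ((x : H) ^ (p ^ i) * r * ((x : H) ^ (p ^ i))⁻¹ * r⁻¹)⁻¹ := by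
      group
    rw [h3] at h2
    exact (B.inv_mem_iff).1 h2

/-- the level step, group version -/
theorem level_core [Finite H] [hp : Fact p.Prime] [IsAlgClosed k] [CharP k p]
    [FiniteDimensional k M]
    (hs : ∃ m, RLp p m (⊥ : Subgroup H) ⊤) {r : ZF} (ρ : H →* Module.End k M)
    (hρ : Function.Injective ρ) (hr : Rel p r ρ) {N Q R : Subgroup H}
    (hQ : (Nat.card Q).Coprime p) (hR : IsPGroup p R) (hRN : R ≤ N) (hNR : Inv N R)
    (hNQ : Inv N Q) (hfaith : ∀ x ∈ R, (∀ y ∈ Q, x * y = y * x) → x = 1) (a : ℕ) {Λ : ℕ}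
    (hSm : ¬ Sm p (Λ + max Λ (tbound p) + 1) N R ⊥) : State p k Λ (fox a r) := by
  classical
  -- maximal abelian invariant subgroup
  let P : Subgroup H → Prop := fun B => B ≤ R ∧ Inv N B ∧ ∀ x ∈ B, ∀ y ∈ B, x * y = y * x
  obtain ⟨B, ⟨hBR, hNB, hBab⟩, hBmax⟩ : ∃ B, P B ∧ ∀ B', P B' → B ≤ B' → B' ≤ B := by
    have hfin : {B : Subgroup H | P B}.Finite := Set.toFinite _
    have hne : {B : Subgroup H | P B}.Nonempty := ⟨⊥, bot_le, Inv.bot N, by
      intro x hx y hy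
      rw [Subgroup.mem_bot] at hx hy
      rw [hx, hy]⟩
    obtain ⟨B, hB, hmax⟩ := hfin.exists_maximal hne
    exact ⟨B, hB, fun B' hB' hle => hmax hB' hle⟩
  have hRB : Inv R B := hNB.mono hRN
  have hPFR : PF p ⊥ R := PF_bot_iff.2 hR
  by_cases hA : Sm p Λ N B ⊥
  swap
  · -- case A
    refine caseA_state (E0 := ⊥) (D := B) hs ρ hρ hr hQ (hR.to_le hBR) bot_le hNB (Inv.bot N) ?_
      (hNQ.mono (hBR.trans hRN)) ?_ a hA
    · intro x hx y hy
      rw [Subgroup.mem_bot, hBab x hx y hy]; group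
    · intro x hx
      rw [Subgroup.mem_bot]
      constructor
      · rintro rfl y _; simp
      · exact hfaith x (hBR hx)
  -- case B
  set b := max Λ (tbound p) with hb
  let N1 : Subgroup H := N ⊓ cen B
  have hN1N : N1 ≤ N := inf_le_left
  have hN1i : Inv N N1 := (Inv.self N).inf (cen_inv hNB)
  have hSm1 : ¬ Sm p b N1 R ⊥ := by
    intro h
    apply hSm
    refine Sm.centralizer hN1N (fun g hg hgy => ⟨hg, fun y hy => ?_⟩) hN1i hA h
    have h1 := hgy y hy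
    rw [Subgroup.mem_bot] at h1
    calc g * y = (g * y * g⁻¹ * y⁻¹) * y * g := by group
      _ = y * g := by rw [h1, one_mul]
  -- the group C
  let A1 : Subgroup H := rcen R B hRB
  have hBA1 : B ≤ A1 := fun x hx => ⟨hBR hx, fun y hy => by
    have h1 := hRB y hy _ (B.inv_mem hx)
    have h2 := B.mul_mem hx h1
    simpa [mul_assoc] using h2⟩
  obtain ⟨A2, hA2⟩ := exists_omega p hBA1 (fun x hx y hy => hx.2 y hy.1)
  let C : Subgroup H := A2 ⊓ cen B
  have hCmem : ∀ x, x ∈ C ↔ (x ∈ R ∧ (∀ r ∈ R, x * r * x⁻¹ * r⁻¹ ∈ B) ∧ x ^ p ∈ B ∧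
      ∀ y ∈ B, x * y = y * x) := by
    intro x
    constructor
    · rintro ⟨h1, h2⟩
      have h1' := (hA2 x).1 h1
      exact ⟨h1'.1.1, h1'.1.2, h1'.2, h2⟩
    · rintro ⟨h1, h2, h3, h4⟩
      exact ⟨(hA2 x).2 ⟨⟨h1, h2⟩, h3⟩, h4⟩
  have hCR : C ≤ R := fun x hx => ((hCmem x).1 hx).1
  have hBC : B ≤ C := fun x hx => (hCmem x).2 ⟨hBR hx, (hBA1 hx).2, B.pow_mem hx p,
    fun y hy => hBab x hx y hy⟩
  have hNA1 : Inv N A1 := rcen_inv hRB hNR hNB
  have hNC : Inv N C := by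
    refine Inv.inf ?_ (cen_inv hNB)
    intro g hg x hx
    rw [hA2] at hx ⊢
    refine ⟨hNA1 g hg x hx.1, ?_⟩
    rw [conj_pow]; exact hNB g hg _ hx.2
  have hCB : ∀ x ∈ C, ∀ y ∈ B, x * y = y * x := fun x hx => ((hCmem x).1 hx).2.2.2
  -- centre of C is B
  have hZC : ∀ z ∈ C, (∀ y ∈ C, z * y = y * z) → z ∈ B := by
    intro z hz hzy
    refine hBmax (C ⊓ cen C) ⟨inf_le_left.trans hCR, hNC.inf (cen_inv hNC), ?_⟩ ?_ ⟨hz, hzy⟩
    · intro x hx y hy; exact hx.2 y hy.1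
    · intro x hx
      exact ⟨hBC hx, fun y hy => (hCB y hy x hx).symm⟩
  -- centraliser of C in R is B
  have hCRC : ∀ x ∈ R, (∀ c ∈ C, x * c = c * x) → x ∈ B := by
    by_contra hcon
    push Not at hcon
    obtain ⟨x0, hx0R, hx0C, hx0B⟩ := hcon
    let D : Subgroup H := R ⊓ cen C
    have hBD : B ≤ D := fun x hx => ⟨hBR hx, fun y hy => (hCB y hy x hx).symm⟩
    have hRD : Inv R D := (Inv.self R).inf (cen_inv (hNC.mono hRN))
    obtain ⟨x, hxD, hxB, hxp, hxr⟩ := exists_central_elem hR hBD inf_le_left hRB hRD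
      (fun h => hx0B (h ⟨hx0R, hx0C⟩))
    have hxC : x ∈ C := (hCmem x).2 ⟨hxD.1, hxr, hxp, fun y hy => hxD.2 y (hBC hy)⟩
    exact hxB (hZC x hxC hxD.2)
  have hSmB : Sm p b N1 B ⊥ := by
    refine ⟨N1, le_rfl, Inv.self N1, RLp.refl b N1, fun g hg => ⟨0, fun y hy => ?_⟩⟩
    rw [pow_zero, pow_one, Subgroup.mem_bot, hg.2 y hy]; group
  have hSmC : ¬ Sm p b N1 C B := by
    intro h
    apply hSm1
    have h1 : Sm p b N1 C ⊥ := h.exact hSmB (hNB.mono hN1N) (Inv.bot _)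
      (hPFR.mono le_rfl hBR)
    have h2 : Sm p b N1 R B := by
      obtain ⟨K, k1, k2, k3, k4⟩ := h1
      refine ⟨K, k1, k2, k3, fun g hg => ?_⟩
      obtain ⟨e, he⟩ := k4 g hg
      refine ⟨e, fun y hy => ?_⟩
      set g' := g ^ (p ^ e) with hg'
      have hg'N : g' ∈ N := N.pow_mem (hN1N (k1 hg)) _
      have hcc : ∀ c ∈ C, g' * c = c * g' := by
        intro c hc
        have := he c hc
        rw [Subgroup.mem_bot] at this
        calc g' * c = (g' * c * g'⁻¹ * c⁻¹) * c * g' := by group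
          _ = c * g' := by rw [this, one_mul]
      have h3 : y⁻¹ * (g' * y * g'⁻¹) ∈ B := by
        apply hCRC
        · exact R.mul_mem (R.inv_mem hy) (hNR g' hg'N y hy)
        · intro c hc
          have hyc : y * c * y⁻¹ ∈ C := hNC y (hRN hy) c hc
          have e1 := hcc _ hyc
          have e2 := hcc c hc
          calc y⁻¹ * (g' * y * g'⁻¹) * c = y⁻¹ * g' * y * (g'⁻¹ * (c * g')) * g'⁻¹ := by group
            _ = y⁻¹ * g' * y * (g'⁻¹ * (g' * c)) * g'⁻¹ := by rw [e2]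
            _ = y⁻¹ * (g' * (y * c * y⁻¹)) * y * g'⁻¹ := by group
            _ = y⁻¹ * ((y * c * y⁻¹) * g') * y * g'⁻¹ := by rw [e1]
            _ = c * (y⁻¹ * (g' * y * g'⁻¹)) := by group
      have h4 := hRB y hy _ h3
      have e3 : y * (y⁻¹ * (g' * y * g'⁻¹)) * y⁻¹ = g' * y * g'⁻¹ * y⁻¹ := by group
      rwa [e3] at h4
    exact h2.exact hSmB (hNB.mono hN1N) (Inv.bot _) (hPFR.mono le_rfl hBR)
  -- commutators in C
  have hcB : ∀ x ∈ C, ∀ y ∈ C, x * y * x⁻¹ * y⁻¹ ∈ B := fun x hx y hy =>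
    ((hCmem x).1 hx).2.1 y (hCR hy)
  have hcp : ∀ x ∈ C, ∀ y ∈ C, (x * y * x⁻¹ * y⁻¹) ^ p = 1 := by
    intro x hx y hy
    have h1 : x ^ p ∈ B := ((hCmem x).1 hx).2.2.1
    have hcen := hcB x hx y hy
    set u := x * y * x⁻¹ * y⁻¹ with hu
    have hux : ∀ c ∈ C, u * c = c * u := fun c hc => (hCB c hc u hcen).symm
    have h2 : ∀ m : ℕ, x ^ m * y = u ^ m * y * x ^ m := by
      intro m
      induction m with
      | zero => simp
      | succ m ih =>
        have e1 : x * y = u * y * x := by rw [hu]; group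
        have e2 : x ^ m * u = u * x ^ m := by
          have := hux (x ^ m) (C.pow_mem hx m)
          exact this.symm
        calc x ^ (m + 1) * y = x ^ m * (x * y) := by rw [pow_succ]; group
          _ = x ^ m * (u * y * x) := by rw [e1]
          _ = (x ^ m * u) * y * x := by group
          _ = u * (x ^ m * y) * x := by rw [e2]; group
          _ = u * (u ^ m * y * x ^ m) * x := by rw [ih]
          _ = u ^ (m + 1) * y * x ^ (m + 1) := by rw [pow_succ', pow_succ]; group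
    have h3 := h2 p
    have h4 : x ^ p * y = y * x ^ p := (hCB y hy _ h1).symm
    rw [h4] at h3
    have h5 : u ^ p * (y * x ^ p) = 1 * (y * x ^ p) := by
      rw [one_mul, ← mul_assoc]; exact h3.symm
    exact mul_right_cancel h5
  have hBne : ∀ b0 ∈ B, b0 ≠ 1 → ∃ y ∈ Q, b0 * y ≠ y * b0 := by
    intro b0 hb0 hne
    by_contra hcon
    push Not at hcon
    exact hne (hfaith b0 (hBR hb0) hcon)
  -- the pairs (b0, Z0)
  let PZ : H → Subgroup H → Prop := fun b0 Z0 => Z0 ≤ B ∧ ∃ y ∈ Q, (∀ z ∈ Z0, z * y = y * z) ∧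
    b0 * y ≠ y * b0
  let good : H → Subgroup H → Prop := fun b0 Z0 => b0 ∈ B ∧ b0 ^ p = 1 ∧ PZ b0 Z0 ∧
    ∀ Z', PZ b0 Z' → Z0 ≤ Z' → Z' ≤ Z0
  have hgoodex : ∀ b0 ∈ B, b0 ≠ 1 → b0 ^ p = 1 → ∃ Z0, good b0 Z0 := by
    intro b0 hb0 hne hb0p
    have hfin : {Z : Subgroup H | PZ b0 Z}.Finite := Set.toFinite _
    have hne' : {Z : Subgroup H | PZ b0 Z}.Nonempty := by
      obtain ⟨y, hy, hyb⟩ := hBne b0 hb0 hne
      refine ⟨⊥, bot_le, y, hy, ?_, hyb⟩
      intro z hz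
      rw [Subgroup.mem_bot] at hz
      rw [hz]; simp
    obtain ⟨Z, hZ, hmax⟩ := hfin.exists_maximal hne'
    exact ⟨Z, hb0, hb0p, hZ, fun Z' hZ' hle => hmax hZ' hle⟩
  have hCQ : Inv C Q := hNQ.mono (hCR.trans hRN)
  have hgcomm : ∀ b0 Z0, good b0 Z0 → ∀ x ∈ C, ∀ y ∈ C, ∃ i : ℕ, ∃ z ∈ Z0,
      x * y * x⁻¹ * y⁻¹ = b0 ^ i * z := by
    rintro b0 Z0 ⟨hb0B, hb0p, ⟨hZ0B, y0, hy0, hy0Z, hy0b⟩, hmax⟩ u hu v hv
    set g := u * v * u⁻¹ * v⁻¹ with hg
    have hgB : g ∈ B := hcB u hu v hv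
    have hgp : g ^ p = 1 := hcp u hu v hv
    by_contra hcon
    push Not at hcon
    let Y : Subgroup H := Q ⊓ cen Z0
    have hYc : (Nat.card Y).Coprime p :=
      Nat.Coprime.coprime_dvd_left (Subgroup.card_dvd_of_le inf_le_left) hQ
    have hBY : ∀ g ∈ B, ∀ y ∈ Y, g * y * g⁻¹ ∈ Y := by
      intro g hg y hy
      refine ⟨hNQ g (hRN (hBR hg)) y hy.1, fun z hz => ?_⟩
      have e1 := hBab g hg z (hZ0B hz)
      have e2 := hy.2 z hz
      have e3 : g⁻¹ * z = z * g⁻¹ := hBab g⁻¹ (B.inv_mem hg) z (hZ0B hz)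
      calc g * y * g⁻¹ * z = g * y * (g⁻¹ * z) := by group
        _ = g * (y * z) * g⁻¹ := by rw [e3]; group
        _ = (g * z) * y * g⁻¹ := by rw [e2]; group
        _ = z * (g * y * g⁻¹) := by rw [e1]; group
    have hlast := lemmaG_amb Y hYc g b0 (hBY g hgB) (hBY b0 hb0B)
      (fun y _ => by rw [hBab g hgB b0 hb0B]) (fun y _ => by rw [hgp]; simp)
      (fun y _ => by rw [hb0p]; simp) (by
        intro i j hi hj hij y hy hyh
        by_contra hne
        set h := g ^ i * b0 ^ j with hh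
        have hhB : h ∈ B := B.mul_mem (B.pow_mem hgB i) (B.pow_mem hb0B j)
        have hPZ : PZ b0 (Z0 ⊔ Subgroup.zpowers h) := by
          refine ⟨sup_le hZ0B ((Subgroup.zpowers_le).2 hhB), y, hy.1, ?_, hne⟩
          intro z hz
          have h1 : Z0 ⊔ Subgroup.zpowers h ≤ cen (Subgroup.zpowers y) := by
            refine sup_le ?_ ((Subgroup.zpowers_le).2 ?_)
            · intro z hz w hw
              obtain ⟨n, rfl⟩ := Subgroup.mem_zpowers_iff.1 hw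
              have : Commute z y := (hy.2 z hz).symm
              exact (this.zpow_right n)
            · intro w hw
              obtain ⟨n, rfl⟩ := Subgroup.mem_zpowers_iff.1 hw
              have : Commute h y := hyh
              exact (this.zpow_right n)
          exact h1 hz y (Subgroup.mem_zpowers y)
        have hhZ : h ∈ Z0 := hmax _ hPZ le_sup_left
          (Subgroup.mem_sup_right (Subgroup.mem_zpowers h))
        by_cases hi0 : i = 0
        · have hj0 : 0 < j := Nat.pos_of_ne_zero (fun h => hij ⟨hi0, h⟩)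
          rw [hh, hi0, pow_zero, one_mul] at hhZ
          have hbZ : b0 ∈ Z0 := mem_of_pow_coprime Z0 b0 hp.out hj0 hj hhZ
            (by rw [hb0p]; exact Z0.one_mem)
          exact hy0b (hy0Z b0 hbZ)
        · -- g ∈ ⟨b0⟩ Z0
          let T : Subgroup H :=
            { carrier := {x | ∃ i : ℕ, ∃ z ∈ Z0, x = b0 ^ i * z}
              one_mem' := ⟨0, 1, Z0.one_mem, by simp⟩
              mul_mem' := by
                rintro _ _ ⟨i, z, hz, rfl⟩ ⟨i', z', hz', rfl⟩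
                refine ⟨i + i', z * z', Z0.mul_mem hz hz', ?_⟩
                have e1 : z * b0 ^ i' = b0 ^ i' * z :=
                  hBab z (hZ0B hz) _ (B.pow_mem hb0B _)
                calc b0 ^ i * z * (b0 ^ i' * z') = b0 ^ i * (z * b0 ^ i') * z' := by group
                  _ = b0 ^ (i + i') * (z * z') := by rw [e1, pow_add]; group
              inv_mem' := by
                rintro _ ⟨i, z, hz, rfl⟩
                refine ⟨(p - 1) * i, z⁻¹, Z0.inv_mem hz, ?_⟩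
                have e0 : (b0 ^ i)⁻¹ = b0 ^ ((p - 1) * i) := by
                  rw [inv_eq_iff_mul_eq_one, ← pow_add]
                  have : i + (p - 1) * i = p * i := by
                    have := hp.out.pos
                    obtain ⟨q, rfl⟩ : ∃ q, p = q + 1 := ⟨p - 1, by omega⟩
                    simp; ring
                  rw [this, pow_mul, hb0p, one_pow]
                have e1 : z⁻¹ * b0 ^ ((p - 1) * i) = b0 ^ ((p - 1) * i) * z⁻¹ :=
                  hBab _ (B.inv_mem (hZ0B hz)) _ (B.pow_mem hb0B _)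
                rw [mul_inv_rev, e0, e1] }
          have hgi : g ^ i ∈ T := by
            have h1 : b0 ∈ T := ⟨1, 1, Z0.one_mem, by simp⟩
            have h2 : h ∈ T := ⟨0, h, hhZ, by simp⟩
            have h3 : g ^ i = h * (b0 ^ j)⁻¹ := by rw [hh]; group
            rw [h3]; exact T.mul_mem h2 (T.inv_mem (T.pow_mem h1 j))
          have hgT : g ∈ T := mem_of_pow_coprime T g hp.out (Nat.pos_of_ne_zero hi0) hi hgi
            (by rw [hgp]; exact T.one_mem)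
          obtain ⟨i', z, hz, he⟩ := hgT
          exact hcon i' z hz he)
    exact hy0b (hlast y0 ⟨hy0, fun z hz => (hy0Z z hz).symm⟩)
  -- the subgroups C^(Z0)
  have hCZ0 : ∀ Z0 : Subgroup H, Z0 ≤ B → Inv C Z0 := by
    intro Z0 hZ0 g hg x hx
    rw [hCB g hg x (hZ0 hx)]; simpa using hx
  have hN1Z0 : ∀ Z0 : Subgroup H, Z0 ≤ B → Inv N1 Z0 := by
    intro Z0 hZ0 g hg x hx
    rw [hg.2 x (hZ0 hx)]; simpa using hx
  have hex : ∃ b0 Z0, ∃ h : good b0 Z0, ¬ Sm p b N1 C (rcen C Z0 (hCZ0 Z0 h.2.2.1.1)) := by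
    by_contra hcon
    push Not at hcon
    apply hSmC
    have h1 := Sm.iInf (p := p) (n := b) (N := N1) (D := C) (hNC.mono hN1N)
      (fun X => ∃ b0 Z0, ∃ h : good b0 Z0, X = rcen C Z0 (hCZ0 Z0 h.2.2.1.1)) (by
        rintro X ⟨b0, Z0, h, rfl⟩
        exact ⟨hcon b0 Z0 h, rcen_inv _ (hNC.mono hN1N) (hN1Z0 Z0 h.2.2.1.1)⟩)
    refine h1.mono le_rfl ?_
    rintro x ⟨hxC, hx⟩
    by_contra hxB
    have h2 : ∃ y ∈ C, x * y ≠ y * x := by
      by_contra hcon2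
      push Not at hcon2
      exact hxB (hZC x hxC hcon2)
    obtain ⟨y, hy, hxy⟩ := h2
    have hne : x * y * x⁻¹ * y⁻¹ ≠ 1 := by
      intro h
      apply hxy
      calc x * y = (x * y * x⁻¹ * y⁻¹) * y * x := by group
        _ = y * x := by rw [h, one_mul]
    obtain ⟨Z0, hZ0⟩ := hgoodex _ (hcB x hxC y hy) hne (hcp x hxC y hy)
    have h3 : x ∈ rcen C Z0 (hCZ0 Z0 hZ0.2.2.1.1) :=
      (Subgroup.mem_sInf.1 hx) _ ⟨_, Z0, hZ0, rfl⟩
    have h4 := h3.2 y hy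
    obtain ⟨q, hq, hqZ, hqb⟩ := hZ0.2.2.1.2
    exact hqb (hqZ _ h4)
  obtain ⟨b0, Z0, hg, hSmZ⟩ := hex
  obtain ⟨hb0B, hb0p, ⟨hZ0B, y0, hy0, hy0Z, hy0b⟩, hmax⟩ := hg
  let Q0 : Subgroup H := Q ⊓ cen Z0
  let E0 : Subgroup H := C ⊓ cen Q0
  have hQ0c : (Nat.card Q0).Coprime p :=
    Nat.Coprime.coprime_dvd_left (Subgroup.card_dvd_of_le inf_le_left) hQ
  have hN1Q0 : Inv N1 Q0 := (hNQ.mono hN1N).inf (cen_inv (hN1Z0 Z0 hZ0B))
  have hN1E0 : Inv N1 E0 := (hNC.mono hN1N).inf (cen_inv hN1Q0)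
  have hCQ0 : Inv C Q0 := hCQ.inf (cen_inv (hCZ0 Z0 hZ0B))
  have hZ0E0 : Z0 ≤ E0 := fun z hz => ⟨hBC (hZ0B hz), fun y hy => (hy.2 z hz).symm⟩
  have hbQ0 : ∃ y ∈ Q0, b0 * y ≠ y * b0 := ⟨y0, ⟨hy0, fun z hz => (hy0Z z hz).symm⟩, hy0b⟩
  have hE0le : E0 ≤ rcen C Z0 (hCZ0 Z0 hZ0B) := by
    intro x hx
    refine ⟨hx.1, fun y hy => ?_⟩
    obtain ⟨i, z, hz, he⟩ := hgcomm b0 Z0
      ⟨hb0B, hb0p, ⟨hZ0B, y0, hy0, hy0Z, hy0b⟩, hmax⟩ x hx.1 y hy
    rw [he]
    -- b0^i centralises Q0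
    have h1 : x * y * x⁻¹ * y⁻¹ ∈ cen Q0 := by
      have h2 := cen_inv hCQ0 y hy _ ((cen Q0).inv_mem hx.2)
      have h3 := (cen Q0).mul_mem hx.2 h2
      have e : x * (y * x⁻¹ * y⁻¹) = x * y * x⁻¹ * y⁻¹ := by group
      rwa [e] at h3
    have h4 : b0 ^ i ∈ cen Q0 := by
      have : b0 ^ i = (x * y * x⁻¹ * y⁻¹) * z⁻¹ := by rw [he]; group
      rw [this]; exact (cen Q0).mul_mem h1 ((cen Q0).inv_mem (hZ0E0 hz).2)
    have h5 : b0 ^ i = 1 := by
      by_contra hne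
      have h6 : ¬ p ∣ i := by
        rintro ⟨j, rfl⟩
        apply hne; rw [pow_mul, hb0p, one_pow]
      have hi0 : 0 < i % p := Nat.pos_of_ne_zero (fun h => h6 (Nat.dvd_of_mod_eq_zero h))
      have h7 : b0 ^ (i % p) ∈ cen Q0 := by
        have : b0 ^ i = b0 ^ (i % p) := by
          conv_lhs => rw [← Nat.mod_add_div i p, pow_add, pow_mul, hb0p, one_pow, mul_one]
        rwa [← this]
      have h8 := mem_of_pow_coprime (cen Q0) b0 hp.out hi0 (Nat.mod_lt _ hp.out.pos) h7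
        (by rw [hb0p]; exact (cen Q0).one_mem)
      obtain ⟨y1, hy1, hy1b⟩ := hbQ0
      exact hy1b (h8 y1 hy1)
    rw [h5, one_mul]; exact hz
  have hSmE : ¬ Sm p b N1 C E0 := fun h => hSmZ (h.mono le_rfl hE0le)
  have hfin := caseB_state (Λ := b) hs ρ hρ hr hQ0c hN1E0 hZ0E0 b0 hb0p hbQ0 a (le_max_right _ _)
    (Nat.card C) C rfl (hR.to_le hCR) inf_le_left (hNC.mono hN1N) hCQ0
    (fun x hx => ⟨fun h => h.2, fun h => ⟨hx, h⟩⟩) (fun x hx => (hCB x hx b0 hb0B).symm)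
    (hgcomm b0 Z0 ⟨hb0B, hb0p, ⟨hZ0B, y0, hy0, hy0Z, hy0b⟩, hmax⟩) hSmE
  exact hfin.mono (le_max_left _ _)

end

end Pool.Agent.Helper407.PL
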