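import Pool.Agent.Helper407.PLMod

set_option autoImplicit false

namespace Pool.Agent.Helper407.PL

section
variable {k : Type} [Field k] {p : ℕ} [hp : Fact p.Prime] [CharP k p]

variable {H M : Type} [Group H] [Finite H] [AddCommGroup M] [Module k M]

/-- a fixed vector in the quotient B/A of two invariant submodules -/
theorem exists_fixed_quot (ρ : H →* Module.End k M) {P : Subgroup H} (hP : IsPGroup p P)
    (A B : Submodule k M) (hAB : ¬ B ≤ A) (hA : ∀ g ∈ P, ∀ w ∈ A, ρ g w ∈ A)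
    (hB : ∀ g ∈ P, ∀ w ∈ B, ρ g w ∈ B) :
    ∃ v ∈ B, v ∉ A ∧ ∀ g ∈ P, ρ g v - v ∈ A := by
  let σ : P →* Module.End k (M ⧸ A) :=
    { toFun := fun g => A.mapQ A (ρ g) (fun w hw => hA g g.2 w hw)
      map_one' := by ext; simp
      map_mul' := fun a b => by ext; simp }
  have hσ : ∀ (g : P) (v : M), σ g (Submodule.Quotient.mk v) = Submodule.Quotient.mk (ρ g v) :=
    fun g v => rfl
  let Q : Submodule k (M ⧸ A) := B.map A.mkQ
  have hQ : Q ≠ ⊥ := by
    intro h
    apply hAB
    intro v hv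
    have h1 : A.mkQ v ∈ Q := ⟨v, hv, rfl⟩
    rw [h, Submodule.mem_bot, Submodule.mkQ_apply, Submodule.Quotient.mk_eq_zero] at h1
    exact h1
  have hPt : IsPGroup p (⊤ : Subgroup P) := hP.to_subgroup ⊤
  obtain ⟨u, ⟨v, hv, rfl⟩, hu0, hu⟩ := exists_fixed_sub σ hPt Q hQ (by
    rintro g - _ ⟨v, hv, rfl⟩
    exact ⟨ρ g v, hB g g.2 v hv, rfl⟩)
  refine ⟨v, hv, ?_, fun g hg => ?_⟩
  · intro h; apply hu0
    rwa [Submodule.mkQ_apply, Submodule.Quotient.mk_eq_zero]
  · have := hu ⟨g, hg⟩ trivial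
    rw [Submodule.mkQ_apply, hσ, Submodule.Quotient.eq] at this
    exact this

/-- C has a rank one vector on M -/
def RO (ρ : H →* Module.End k M) (C : Subgroup H) : Prop :=
  ∃ F c : M, c ≠ 0 ∧ (∀ g ∈ C, ρ g c = c) ∧ (∀ g ∈ C, ∃ a : k, ρ g F = F + a • c) ∧
    ∃ g ∈ C, ρ g F ≠ F

/-- a proper subgroup of a finite p-group lies in the kernel of a nonzero additive character to k -/
theorem exists_char {C : Type} [Group C] [Finite C] (hC : IsPGroup p C) (K : Subgroup C)
    (hK : K ≠ ⊤) : ∃ χ : C → k, (∀ x y, χ (x * y) = χ x + χ y) ∧ (∀ x ∈ K, χ x = 0) ∧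
      ∃ x, χ x ≠ 0 := by
  -- functions on C/K modulo constants
  let σ : C →* Module.End k ((C ⧸ K) → k) :=
    { toFun := fun g =>
        { toFun := fun ψ j => ψ (g⁻¹ • j)
          map_add' := fun _ _ => rfl
          map_smul' := fun _ _ => rfl }
      map_one' := by ext; simp
      map_mul' := fun a b => by
        apply LinearMap.ext; intro ψ
        funext j
        change ψ ((a * b)⁻¹ • j) = ψ (b⁻¹ • a⁻¹ • j)
        rw [mul_inv_rev, mul_smul] }
  let A : Submodule k ((C ⧸ K) → k) :=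
    { carrier := {ψ | ∀ i j, ψ i = ψ j}
      zero_mem' := fun _ _ => rfl
      add_mem' := fun {a b} ha hb i j => by simp [ha i j, hb i j]
      smul_mem' := fun c a ha i j => by simp [ha i j] }
  have hPt : IsPGroup p (⊤ : Subgroup C) := hC.to_subgroup ⊤
  obtain ⟨x0, hx0⟩ : ∃ x : C, x ∉ K := by
    by_contra h
    push Not at h
    exact hK (eq_top_iff.2 fun x _ => h x)
  classical
  have hne : ¬ (⊤ : Submodule k ((C ⧸ K) → k)) ≤ A := by
    intro h
    have h1 := h (x := fun j => if j = (1 : C) then (1 : k) else 0) trivial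
    have h2 := h1 (QuotientGroup.mk (1 : C)) (QuotientGroup.mk x0)
    have h3 : (QuotientGroup.mk x0 : C ⧸ K) ≠ QuotientGroup.mk (1 : C) := by
      intro h4
      apply hx0
      have := QuotientGroup.eq.1 h4.symm
      simpa using this
    simp only at h2
    rw [if_pos trivial, if_neg h3] at h2
    exact one_ne_zero h2
  obtain ⟨ψ, -, hψ, hψ'⟩ := exists_fixed_quot σ hPt A ⊤ hne
    (fun g _ ψ hψ i j => hψ _ _) (fun _ _ _ _ => trivial)
  have hval : ∀ (g x : C), ψ (QuotientGroup.mk (g * x)) - ψ (QuotientGroup.mk x) =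
      ψ (QuotientGroup.mk g) - ψ (QuotientGroup.mk 1) := by
    intro g x
    have h1 := hψ' g⁻¹ trivial (QuotientGroup.mk x) (QuotientGroup.mk 1)
    change ψ (g⁻¹⁻¹ • (QuotientGroup.mk x : C ⧸ K)) - ψ (QuotientGroup.mk x) =
      ψ (g⁻¹⁻¹ • (QuotientGroup.mk 1 : C ⧸ K)) - ψ (QuotientGroup.mk 1) at h1
    rw [inv_inv] at h1
    simpa using h1
  refine ⟨fun g => ψ (QuotientGroup.mk g) - ψ (QuotientGroup.mk 1), ?_, ?_, ?_⟩
  · intro x y
    have := hval x y
    dsimp only
    rw [← this]; ring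
  · intro x hx
    have : (QuotientGroup.mk x : C ⧸ K) = QuotientGroup.mk 1 := by
      rw [QuotientGroup.eq]; simpa using hx
    dsimp only
    rw [this, sub_self]
  · by_contra hcon
    push Not at hcon
    apply hψ
    intro i j
    induction i using QuotientGroup.induction_on with
    | H a =>
      induction j using QuotientGroup.induction_on with
      | H b =>
        rw [sub_eq_zero.1 (hcon a), sub_eq_zero.1 (hcon b)]

end

end Pool.Agent.Helper407.PL
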