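import Pool.Agent.Helper407.PLSm

set_option autoImplicit false

namespace Pool.Agent.Helper407.PL

universe u
section
variable {G : Type u} [Group G] {p : ℕ}

/-- D/E is commutative: there is a hom to a commutative group with kernel E -/
lemma exists_pi {D E : Subgroup G} (hED : E ≤ D)
    (hc : ∀ x ∈ D, ∀ y ∈ D, x * y * x⁻¹ * y⁻¹ ∈ E) :
    ∃ (A : Type u) (_ : CommGroup A) (π : D →* A), ∀ x : D, π x = 1 ↔ (x : G) ∈ E := by
  have hn : (E.subgroupOf D).Normal := by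
    constructor
    intro e he x
    rw [Subgroup.mem_subgroupOf] at he ⊢
    have h1 := hc x x.2 e (hED he)
    have := E.mul_mem h1 he
    simpa [mul_assoc] using this
  let inst : CommGroup (D ⧸ E.subgroupOf D) :=
    { (inferInstance : Group (D ⧸ E.subgroupOf D)) with
      mul_comm := by
        intro a b
        induction a using QuotientGroup.induction_on with
        | H a =>
          induction b using QuotientGroup.induction_on with
          | H b =>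
            rw [← QuotientGroup.mk_mul, ← QuotientGroup.mk_mul, QuotientGroup.eq,
              Subgroup.mem_subgroupOf]
            have := hc (b⁻¹ : D) (b⁻¹ : D).2 (a⁻¹ : D) (a⁻¹ : D).2
            simpa [mul_assoc] using this }
  exact ⟨D ⧸ E.subgroupOf D, inst, QuotientGroup.mk' (E.subgroupOf D), fun x => by
    change (QuotientGroup.mk x : D ⧸ E.subgroupOf D) = 1 ↔ _
    rw [QuotientGroup.eq_one_iff, Subgroup.mem_subgroupOf]⟩

lemma exists_omega {D E : Subgroup G} (p : ℕ) (hED : E ≤ D)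
    (hc : ∀ x ∈ D, ∀ y ∈ D, x * y * x⁻¹ * y⁻¹ ∈ E) :
    ∃ D1 : Subgroup G, ∀ x, x ∈ D1 ↔ x ∈ D ∧ x ^ p ∈ E := by
  obtain ⟨A, inst, π, hπ⟩ := exists_pi hED hc
  refine ⟨((powMonoidHom p).comp π).ker.map D.subtype, fun x => ?_⟩
  constructor
  · rintro ⟨y, hy, rfl⟩
    have h1 : π y ^ p = 1 := hy
    rw [← map_pow, hπ] at h1
    exact ⟨y.2, by simpa using h1⟩
  · rintro ⟨hx, hxp⟩
    refine ⟨⟨x, hx⟩, ?_, rfl⟩
    change π ⟨x, hx⟩ ^ p = 1
    rw [← map_pow, hπ]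
    simpa using hxp

lemma Sm.omega [Finite G] {n : ℕ} {N D E D1 : Subgroup G} (hED : E ≤ D)
    (hc : ∀ x ∈ D, ∀ y ∈ D, x * y * x⁻¹ * y⁻¹ ∈ E) (hD : Inv N D) (hE : Inv N E)
    (hp : PF p E D) (hD1 : ∀ x, x ∈ D1 ↔ x ∈ D ∧ x ^ p ∈ E) (h : Sm p n N D1 E) :
    Sm p n N D E := by
  obtain ⟨K, k1, k2, k3, k4⟩ := h
  obtain ⟨A, inst, π, hπ⟩ := exists_pi hED hc
  refine ⟨K, k1, k2, k3, fun g hg => ?_⟩
  obtain ⟨e, he⟩ := k4 g hg
  have hgN := k1 hg
  set h := g ^ (p ^ e) with hh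
  have hN : h ∈ N := N.pow_mem hgN _
  have key : ∀ i : ℕ, ∀ x ∈ D, x ^ (p ^ i) ∈ E →
      h ^ (p ^ i) * x * (h ^ (p ^ i))⁻¹ * x⁻¹ ∈ E := by
    intro i
    induction i with
    | zero =>
      intro x hx hxE
      rw [pow_zero, pow_one] at hxE
      simp only [pow_zero, pow_one]
      exact E.mul_mem (hE h hN x hxE) (E.inv_mem hxE)
    | succ i ih =>
      intro x hx hxE
      set h' := h ^ (p ^ i) with hh'
      have hN' : h' ∈ N := N.pow_mem hN _
      have hu : h' * x * h'⁻¹ * x⁻¹ ∈ D := D.mul_mem (hD h' hN' x hx) (D.inv_mem hx)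
      have h1 := ih (x ^ p) (D.pow_mem hx p) (by rwa [← pow_mul, ← pow_succ'])
      have hx1 : h' * x * h'⁻¹ ∈ D := hD h' hN' x hx
      have h2 : π (⟨h' * x * h'⁻¹, hx1⟩ ^ p * (⟨x, hx⟩ ^ p)⁻¹) = 1 := by
        rw [hπ]
        have : (h' * x * h'⁻¹) ^ p * (x ^ p)⁻¹ = h' * x ^ p * h'⁻¹ * (x ^ p)⁻¹ := by
          rw [conj_pow]
        simpa [this] using h1
      have h3 : π (⟨h' * x * h'⁻¹, hx1⟩ * ⟨x, hx⟩⁻¹) ^ p = 1 := by
        rw [map_mul, map_inv, mul_pow, inv_pow, ← map_pow, ← map_pow, ← map_inv, ← map_mul]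
        exact h2
      rw [← map_pow, hπ] at h3
      have hu1 : h' * x * h'⁻¹ * x⁻¹ ∈ D1 := (hD1 _).2 ⟨hu, by simpa using h3⟩
      have h4 := elem_pow_mem hN hE he (p ^ i)
      obtain ⟨z, hz, hz'⟩ := comm_pow_mem hN' hE hu1 h4 p
      have h5 : h' ^ p = h ^ (p ^ (i + 1)) := by rw [hh', ← pow_mul, ← pow_succ]
      rw [← h5, hz']
      have := E.mul_mem hz ((hD1 _).1 hu1).2
      simpa [mul_assoc] using this
  have h1 : ∀ x : D, ∃ k : ℕ, (x : G) ^ (p ^ k) ∈ E := fun x => hp x x.2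
  choose k hk using h1
  obtain ⟨m, hm⟩ := (Set.finite_range k).bddAbove
  refine ⟨e + m, fun y hy => ?_⟩
  have h2 : y ^ (p ^ m) ∈ E := by
    obtain ⟨d, hd⟩ := Nat.exists_eq_add_of_le (hm ⟨⟨y, hy⟩, rfl⟩ : k ⟨y, hy⟩ ≤ m)
    rw [hd, pow_add, pow_mul]; exact E.pow_mem (hk ⟨y, hy⟩) _
  have := key m y hy h2
  rwa [hh, ← pow_mul, ← pow_add] at this

end

end Pool.Agent.Helper407.PL
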