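import Pool.Agent.Helper407.PLOmega
import Pool.Agent.Helper407.PLFox

set_option autoImplicit false

namespace Pool.Agent.Helper407.PL

noncomputable section

/-- evaluation of an element of the group ring at a tuple in a represented group -/
def ev {k H M : Type} [Field k] [Group H] [AddCommGroup M] [Module k M]
    (ρ : H →* Module.End k M) (f : FreeGroup ℕ →* H) : ZF →ₐ[ℤ] Module.End k M :=
  MonoidAlgebra.lift ℤ (Module.End k M) (FreeGroup ℕ) (ρ.comp f)

/-- the relation r holds on all tuples contained in p-subgroups -/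
def Rel {k H M : Type} [Field k] [Group H] [AddCommGroup M] [Module k M]
    (p : ℕ) (r : ZF) (ρ : H →* Module.End k M) : Prop :=
  ∀ f : FreeGroup ℕ →* H, IsPGroup p f.range → ev ρ f r = 0

/-- there is a faithful irreducible pair (H,M), H p-soluble not of p-length at most Λ, satisfying r -/
def State (p : ℕ) (k : Type) [Field k] (Λ : ℕ) (r : ZF) : Prop :=
  ∃ (H : Type) (_ : Group H) (_ : Finite H) (M : Type) (_ : AddCommGroup M) (_ : Module k M)
    (_ : FiniteDimensional k M) (ρ : H →* Module.End k M),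
    Function.Injective ρ ∧ Nontrivial M ∧
    (∀ W : Submodule k M, (∀ g, ∀ w ∈ W, ρ g w ∈ W) → W = ⊥ ∨ W = ⊤) ∧
    (∃ m, RLp p m (⊥ : Subgroup H) ⊤) ∧ ¬ RLp p Λ (⊥ : Subgroup H) ⊤ ∧ Rel p r ρ

section
variable {k H M : Type} [Field k] [Group H] [AddCommGroup M] [Module k M] {p : ℕ}

lemma ev_of (ρ : H →* Module.End k M) (f : FreeGroup ℕ →* H) (s : FreeGroup ℕ) :
    ev ρ f (MonoidAlgebra.of ℤ _ s) = ρ (f s) := by
  simp [ev]

lemma ev_apply (ρ : H →* Module.End k M) (f : FreeGroup ℕ →* H) (r : ZF) (v : M) :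
    ev ρ f r v = r.coeff.sum fun s n => n • ρ (f s) v := by
  rw [ev, MonoidAlgebra.lift_apply, Finsupp.sum, Finsupp.sum, LinearMap.sum_apply]
  rfl

/-- the relation at the end: augmentation vanishes -/
lemma Rel.aug [hp : Fact p.Prime] [CharP k p] [Nontrivial M] {r : ZF} {ρ : H →* Module.End k M}
    (h : Rel p r ρ) : (p : ℤ) ∣ aug r := by
  have h1 := h 1 (by
    rintro ⟨x, hx⟩
    obtain ⟨y, rfl⟩ := hx
    exact ⟨0, by ext; simp⟩)
  have h2 : ∀ r : ZF, ev ρ 1 r = (PL.aug r) • (1 : Module.End k M) := by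
    intro r
    induction r using MonoidAlgebra.induction_on with
    | of s => rw [ev_of, aug_of]; simp
    | add x y hx hy => rw [map_add, map_add, hx, hy, add_smul]
    | smul n x hx => rw [map_smul, map_smul, hx, smul_eq_mul, mul_smul]
  rw [h2] at h1
  obtain ⟨v, hv⟩ := exists_ne (0 : M)
  have h3 : ((PL.aug r : ℤ) : k) • v = 0 := by
    have := congrArg (fun T : Module.End k M => T v) h1
    simpa [Int.cast_smul_eq_zsmul] using this
  rcases smul_eq_zero.1 h3 with h4 | h4
  · exact (CharP.intCast_eq_zero_iff k p _).1 h4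
  · exact absurd h4 hv

/-- representation on an invariant submodule -/
def subRep (ρ : H →* Module.End k M) (W : Submodule k M) (hW : ∀ g, ∀ w ∈ W, ρ g w ∈ W) :
    H →* Module.End k W where
  toFun g := (ρ g).restrict (fun w hw => hW g w hw)
  map_one' := by ext; simp [LinearMap.restrict_apply]
  map_mul' a b := by ext; simp [LinearMap.restrict_apply]

@[simp] lemma subRep_apply (ρ : H →* Module.End k M) (W : Submodule k M)
    (hW : ∀ g, ∀ w ∈ W, ρ g w ∈ W) (g : H) (w : W) : ((subRep ρ W hW g w : W) : M) = ρ g w := rfl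

/-- representation on a quotient module -/
def quoRep (ρ : H →* Module.End k M) (W : Submodule k M) (hW : ∀ g, ∀ w ∈ W, ρ g w ∈ W) :
    H →* Module.End k (M ⧸ W) where
  toFun g := W.mapQ W (ρ g) (fun w hw => hW g w hw)
  map_one' := by ext; simp
  map_mul' a b := by ext; simp

@[simp] lemma quoRep_apply (ρ : H →* Module.End k M) (W : Submodule k M)
    (hW : ∀ g, ∀ w ∈ W, ρ g w ∈ W) (g : H) (v : M) :
    quoRep ρ W hW g (Submodule.Quotient.mk v) = Submodule.Quotient.mk (ρ g v) := rfl

lemma Rel.sub {r : ZF} {ρ : H →* Module.End k M} (h : Rel p r ρ) (W : Submodule k M)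
    (hW : ∀ g, ∀ w ∈ W, ρ g w ∈ W) : Rel p r (subRep ρ W hW) := by
  intro f hf
  ext w
  have h1 := congrArg (fun T : Module.End k M => T w) (h f hf)
  simp only [ev_apply, LinearMap.zero_apply] at h1 ⊢
  rw [Finsupp.sum] at h1 ⊢
  rw [Submodule.coe_sum, ZeroMemClass.coe_zero, ← h1]
  rfl

lemma Rel.quo {r : ZF} {ρ : H →* Module.End k M} (h : Rel p r ρ) (W : Submodule k M)
    (hW : ∀ g, ∀ w ∈ W, ρ g w ∈ W) : Rel p r (quoRep ρ W hW) := by
  intro f hf
  ext v
  have h1 := congrArg (fun T : Module.End k M => W.mkQ (T v)) (h f hf)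
  simp only [LinearMap.zero_apply, map_zero] at h1
  simp only [LinearMap.comp_apply, Submodule.mkQ_apply, LinearMap.zero_apply, ev_apply]
  rw [ev_apply, Finsupp.sum, map_sum] at h1
  rw [← h1, Finsupp.sum]
  refine Finset.sum_congr rfl (fun s _ => ?_)
  rw [map_zsmul]
  rfl

lemma exists_lift [Finite H] [hp : Fact p.Prime] {H' : Type} [Group H'] (π : H →* H')
    (hπ : Function.Surjective π) (f : FreeGroup ℕ →* H') (hf : IsPGroup p f.range) :
    ∃ f' : FreeGroup ℕ →* H, IsPGroup p f'.range ∧ π.comp f' = f := by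
  have : Finite H' := Finite.of_surjective π hπ
  obtain ⟨P', hP'⟩ := hf.exists_le_sylow
  obtain ⟨P, rfl⟩ := Sylow.mapSurjective_surjective hπ p P'
  have h1 : ∀ j : ℕ, ∃ x ∈ P, π x = f (FreeGroup.of j) := by
    intro j
    have h2 := hP' ⟨FreeGroup.of j, rfl⟩
    rw [Sylow.coe_mapSurjective] at h2
    exact h2
  choose x hx hx' using h1
  refine ⟨FreeGroup.lift x, ?_, ?_⟩
  · refine P.2.to_le ?_
    rw [FreeGroup.range_lift_eq_closure, Subgroup.closure_le]
    rintro _ ⟨j, rfl⟩
    exact hx j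
  · ext j
    simp [hx']

lemma Rel.quotient [Finite H] [hp : Fact p.Prime] {H' : Type} [Group H'] {r : ZF} (π : H →* H')
    (hπ : Function.Surjective π) {ρ' : H' →* Module.End k M} (h : Rel p r (ρ'.comp π)) :
    Rel p r ρ' := by
  intro f hf
  obtain ⟨f', hf', rfl⟩ := exists_lift π hπ f hf
  exact h f' hf'

/-- an operator which is trivial on W and on M/W -/
lemma unip_step [hp : Fact p.Prime] [CharP k p] (T : Module.End k M) (W : Submodule k M)
    (hW : ∀ w ∈ W, T w = w) (hQ : ∀ v, T v - v ∈ W) : T ^ p = 1 := by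
  have key : ∀ (v : M) (j : ℕ), (T ^ j) v = v + (j : k) • (T v - v) := by
    intro v j
    induction j with
    | zero => simp
    | succ j ih =>
      rw [pow_succ', Module.End.mul_apply, ih, map_add, map_smul, hW _ (hQ v)]
      push_cast
      rw [add_smul, one_smul]; abel
  ext v
  rw [key v p, CharP.cast_eq_zero]; simp

/-- either a good composition factor or a large subgroup acting unipotently -/
theorem comp_lemma [Finite H] [hp : Fact p.Prime] [CharP k p] [FiniteDimensional k M]
    {r : ZF} (ρ : H →* Module.End k M) (hr : Rel p r ρ) (Λ : ℕ)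
    (hs : ∃ m, RLp p m (⊥ : Subgroup H) ⊤) :
    State p k Λ r ∨ ∃ K : Subgroup H, RLp p Λ K ⊤ ∧ ∀ g ∈ K, ∃ e : ℕ, ρ (g ^ (p ^ e)) = 1 := by
  induction' hd : Module.finrank k M using Nat.strong_induction_on with d ih generalizing M
  by_cases hM : Subsingleton M
  · right
    refine ⟨⊤, RLp.refl _ _, fun g _ => ⟨0, ?_⟩⟩
    ext v; exact Subsingleton.elim _ _
  rw [not_subsingleton_iff_nontrivial] at hM
  -- minimal nonzero invariant submodule
  classical
  let S : Set ℕ := {n | ∃ W : Submodule k M, W ≠ ⊥ ∧ (∀ g, ∀ w ∈ W, ρ g w ∈ W) ∧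
    Module.finrank k W = n}
  have hSne : S.Nonempty := ⟨_, ⊤, top_ne_bot, fun _ _ _ => trivial, rfl⟩
  obtain ⟨W, hW0, hWi, hWd⟩ := Nat.sInf_mem hSne
  have hmin : ∀ W' : Submodule k M, W' ≤ W → (∀ g, ∀ w ∈ W', ρ g w ∈ W') → W' = ⊥ ∨ W' = W := by
    intro W' hle hinv
    by_cases h0 : W' = ⊥
    · exact Or.inl h0
    · right
      refine Submodule.eq_of_le_of_finrank_le hle ?_
      rw [hWd]; exact Nat.sInf_le ⟨W', h0, hinv, rfl⟩
  let K1 : Subgroup H := (subRep ρ W hWi).ker
  by_cases hK1 : RLp p Λ K1 ⊤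
  · have hlt : Module.finrank k (M ⧸ W) < d := by
      have h1 := Submodule.finrank_quotient_add_finrank W
      have h2 : 0 < Module.finrank k W := by
        have : Nontrivial W := (Submodule.nontrivial_iff_ne_bot).2 hW0
        exact Module.finrank_pos
      omega
    rcases ih _ hlt (quoRep ρ W hWi) (hr.quo W hWi) rfl with h | ⟨K2, hK2, hK2'⟩
    · exact Or.inl h
    · right
      refine ⟨K1 ⊓ K2, hK1.inf hK2, fun g hg => ?_⟩
      obtain ⟨e, he⟩ := hK2' g hg.2
      refine ⟨e + 1, ?_⟩
      have h1 : g ^ (p ^ e) ∈ K1 := K1.pow_mem hg.1 _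
      rw [pow_succ, pow_mul, map_pow]
      apply unip_step _ W
      · intro w hw
        have h2 : subRep ρ W hWi (g ^ (p ^ e)) = 1 := h1
        have h3 := congrArg (fun T : Module.End k W => ((T ⟨w, hw⟩ : W) : M)) h2
        rw [subRep_apply] at h3
        exact h3
      · intro v
        have h3 := congrArg (fun T : Module.End k (M ⧸ W) => T (Submodule.Quotient.mk v)) he
        simp only [quoRep_apply, Module.End.one_apply] at h3
        rwa [Submodule.Quotient.eq] at h3
  · left
    let π : H →* H ⧸ K1 := QuotientGroup.mk' K1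
    have hπ : Function.Surjective π := QuotientGroup.mk'_surjective K1
    let ρ' : (H ⧸ K1) →* Module.End k W :=
      QuotientGroup.lift K1 (subRep ρ W hWi) (fun g hg => hg)
    have hcomp : ρ'.comp π = subRep ρ W hWi := by
      ext g : 1; rfl
    refine ⟨H ⧸ K1, inferInstance, inferInstance, W, inferInstance, inferInstance, inferInstance,
      ρ', ?_, (Submodule.nontrivial_iff_ne_bot).2 hW0, ?_, ?_, ?_, ?_⟩
    · rw [injective_iff_map_eq_one]
      intro x hx
      obtain ⟨g, rfl⟩ := hπ x
      have : subRep ρ W hWi g = 1 := hx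
      exact (QuotientGroup.eq_one_iff g).2 this
    · intro U hU
      have h1 := hmin (U.map W.subtype) (Submodule.map_subtype_le W U) (by
        rintro g _ ⟨u, hu, rfl⟩
        exact ⟨ρ' (π g) u, hU (π g) u hu, rfl⟩)
      rcases h1 with h1 | h1
      · left
        rw [eq_bot_iff]
        intro u hu
        have h2 : (u : M) ∈ U.map W.subtype := ⟨u, hu, rfl⟩
        rw [h1, Submodule.mem_bot] at h2
        exact (Submodule.mem_bot k).2 (Subtype.ext h2)
      · right
        rw [eq_top_iff]
        rintro ⟨w, hw⟩ _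
        rw [← h1] at hw
        obtain ⟨u, hu, hu'⟩ := hw
        have : u = ⟨w, hu' ▸ u.2⟩ := Subtype.ext hu'
        rwa [← this]
    · obtain ⟨m, hm⟩ := hs
      refine ⟨m, ?_⟩
      have := hm.map π
      rwa [Subgroup.map_bot, Subgroup.map_top_of_surjective π hπ] at this
    · intro hcon
      apply hK1
      have := hcon.comap π
      rw [Subgroup.comap_top] at this
      have e : Subgroup.comap π ⊥ = K1 := by
        rw [MonoidHom.comap_bot, QuotientGroup.ker_mk']
      rwa [e] at this
    · apply Rel.quotient π hπ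
      rw [hcomp]; exact hr.sub W hWi

end

end

end Pool.Agent.Helper407.PL
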