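import Pool.Agent.Helper407.PLBase2

set_option autoImplicit false

namespace Pool.Agent.Helper407.PL

section SmLemmas
variable {G : Type*} [Group G] {p : ℕ}

lemma Sm.mono_n {n m : ℕ} {N D1 D2 : Subgroup G} (h : Sm p n N D1 D2) (hnm : n ≤ m) :
    Sm p m N D1 D2 := by
  obtain ⟨K, h1, h2, h3, h4⟩ := h
  exact ⟨K, h1, h2, h3.mono_n hnm, h4⟩

lemma Sm.mono {n : ℕ} {N D1 D2 D1' D2' : Subgroup G} (h : Sm p n N D1 D2) (h1 : D1' ≤ D1)
    (h2 : D2 ≤ D2') : Sm p n N D1' D2' := by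
  obtain ⟨K, k1, k2, k3, k4⟩ := h
  refine ⟨K, k1, k2, k3, fun g hg => ?_⟩
  obtain ⟨e, he⟩ := k4 g hg
  exact ⟨e, fun y hy => h2 (he y (h1 hy))⟩

lemma Sm.restrict {n : ℕ} {N N' D1 D2 : Subgroup G} (h : Sm p n N D1 D2) (hN : N' ≤ N) :
    Sm p n N' D1 D2 := by
  obtain ⟨K, k1, k2, k3, k4⟩ := h
  exact ⟨K ⊓ N', inf_le_right, (k2.mono hN).inf (Inv.self N'), k3.restrict hN,
    fun g hg => k4 g hg.1⟩

lemma Sm.refl (n : ℕ) (N D : Subgroup G) (h : Inv N D) : Sm p n N D D := by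
  refine ⟨N, le_rfl, Inv.self N, RLp.refl n N, fun g hg => ⟨0, fun y hy => ?_⟩⟩
  simp only [pow_zero, pow_one]
  exact D.mul_mem (h g hg y hy) (D.inv_mem hy)

/-- a normal subset relation is stable under p-powers -/
lemma comm_pow_mem {N X Z : Subgroup G} {h y : G} (hN : h ∈ N) (hZ : Inv N Z)
    (hx : h * y * h⁻¹ * y⁻¹ ∈ X) (hX : ∀ x ∈ X, h * x * h⁻¹ * x⁻¹ ∈ Z) (j : ℕ) :
    ∃ z ∈ Z, h ^ j * y * (h ^ j)⁻¹ = z * (h * y * h⁻¹ * y⁻¹) ^ j * y := by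
  set x := h * y * h⁻¹ * y⁻¹ with hxd
  have hxy : h * y * h⁻¹ = x * y := by rw [hxd]; group
  induction j with
  | zero => exact ⟨1, Z.one_mem, by simp⟩
  | succ j ih =>
    obtain ⟨z, hz, he⟩ := ih
    have h1 := hX (x ^ j) (X.pow_mem hx j)
    refine ⟨h * z * h⁻¹ * (h * x ^ j * h⁻¹ * (x ^ j)⁻¹), Z.mul_mem (hZ h hN z hz) h1, ?_⟩
    calc h ^ (j + 1) * y * (h ^ (j + 1))⁻¹ = h * (h ^ j * y * (h ^ j)⁻¹) * h⁻¹ := by
          rw [pow_succ']; group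
      _ = h * (z * x ^ j * y) * h⁻¹ := by rw [he]
      _ = (h * z * h⁻¹) * (h * x ^ j * h⁻¹) * (h * y * h⁻¹) := by group
      _ = (h * z * h⁻¹) * (h * x ^ j * h⁻¹) * (x * y) := by rw [hxy]
      _ = h * z * h⁻¹ * (h * x ^ j * h⁻¹ * (x ^ j)⁻¹) * x ^ (j + 1) * y := by
          rw [pow_succ]; group

/-- if h acts trivially on Y/X and on X/Z and X/Z is a p-group then a p-power of h acts trivially
on Y/Z -/
lemma exact_elem [Finite G] {N Y X Z : Subgroup G} {h : G} (hN : h ∈ N) (hZ : Inv N Z)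
    (hp : PF p Z X) (hY : ∀ y ∈ Y, h * y * h⁻¹ * y⁻¹ ∈ X)
    (hX : ∀ x ∈ X, h * x * h⁻¹ * x⁻¹ ∈ Z) :
    ∃ e : ℕ, ∀ y ∈ Y, h ^ (p ^ e) * y * (h ^ (p ^ e))⁻¹ * y⁻¹ ∈ Z := by
  have h1 : ∀ x : X, ∃ k : ℕ, (x : G) ^ (p ^ k) ∈ Z := fun x => hp x x.2
  choose k hk using h1
  obtain ⟨m, hm⟩ := (Set.finite_range k).bddAbove
  refine ⟨m, fun y hy => ?_⟩
  obtain ⟨z, hz, he⟩ := comm_pow_mem hN hZ (hY y hy) hX (p ^ m)
  have h2 : (h * y * h⁻¹ * y⁻¹) ^ (p ^ m) ∈ Z := by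
    have h3 := hk ⟨_, hY y hy⟩
    obtain ⟨d, hd⟩ := Nat.exists_eq_add_of_le (hm ⟨⟨_, hY y hy⟩, rfl⟩ : k ⟨_, hY y hy⟩ ≤ m)
    rw [hd, pow_add, pow_mul]; exact Z.pow_mem h3 _
  rw [he]
  simpa [mul_assoc] using Z.mul_mem hz h2

/-- Sm at a single element: passing to higher p-powers -/
lemma elem_pow_mem {N Y X : Subgroup G} {h : G} (hN : h ∈ N) (hX : Inv N X)
    (hY : ∀ y ∈ Y, h * y * h⁻¹ * y⁻¹ ∈ X) (j : ℕ) :
    ∀ y ∈ Y, h ^ j * y * (h ^ j)⁻¹ * y⁻¹ ∈ X := by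
  intro y hy
  obtain ⟨z, hz, he⟩ := comm_pow_mem hN hX (hY y hy)
    (fun x hx => X.mul_mem (hX h hN x hx) (X.inv_mem hx)) j
  rw [he]
  simpa [mul_assoc] using X.mul_mem hz (X.pow_mem (hY y hy) j)

lemma Sm.exact [Finite G] {n : ℕ} {N Y X Z : Subgroup G} (h1 : Sm p n N Y X)
    (h2 : Sm p n N X Z) (hX : Inv N X) (hZ : Inv N Z) (hp : PF p Z X) : Sm p n N Y Z := by
  obtain ⟨K, k1, k2, k3, k4⟩ := h1
  obtain ⟨K', k1', k2', k3', k4'⟩ := h2
  refine ⟨K ⊓ K', inf_le_left.trans k1, k2.inf k2', k3.inf k3', fun g hg => ?_⟩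
  obtain ⟨e, he⟩ := k4 g hg.1
  obtain ⟨e', he'⟩ := k4' g hg.2
  have hgN : g ∈ N := k1 hg.1
  have a1 := elem_pow_mem (N.pow_mem hgN (p ^ e)) hX he (p ^ e')
  have a2 := elem_pow_mem (N.pow_mem hgN (p ^ e')) hZ he' (p ^ e)
  rw [← pow_mul, ← pow_add] at a1 a2
  rw [add_comm e' e] at a2
  obtain ⟨f, hf⟩ := exact_elem (p := p) (N.pow_mem hgN (p ^ (e + e'))) hZ hp a1 a2
  refine ⟨e + e' + f, fun y hy => ?_⟩
  have := hf y hy
  rwa [← pow_mul, ← pow_add] at this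

lemma Sm.infD {n : ℕ} {N D X1 X2 : Subgroup G} (h1 : Sm p n N D X1) (h2 : Sm p n N D X2)
    (i1 : Inv N X1) (i2 : Inv N X2) : Sm p n N D (X1 ⊓ X2) := by
  obtain ⟨K, k1, k2, k3, k4⟩ := h1
  obtain ⟨K', k1', k2', k3', k4'⟩ := h2
  refine ⟨K ⊓ K', inf_le_left.trans k1, k2.inf k2', k3.inf k3', fun g hg => ?_⟩
  obtain ⟨e, he⟩ := k4 g hg.1
  obtain ⟨e', he'⟩ := k4' g hg.2
  have hgN : g ∈ N := k1 hg.1
  have a1 := elem_pow_mem (N.pow_mem hgN (p ^ e)) i1 he (p ^ e')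
  have a2 := elem_pow_mem (N.pow_mem hgN (p ^ e')) i2 he' (p ^ e)
  rw [← pow_mul, ← pow_add] at a1 a2
  rw [add_comm e' e] at a2
  exact ⟨e + e', fun y hy => ⟨a1 y hy, a2 y hy⟩⟩

lemma Sm.iInf [Finite G] {n : ℕ} {N D : Subgroup G} (hD : Inv N D) (P : Subgroup G → Prop)
    (h : ∀ X, P X → Sm p n N D X ∧ Inv N X) : Sm p n N D (D ⊓ sInf {X | P X}) := by
  classical
  have hfin : {X | P X}.Finite := Set.toFinite _
  have key : ∀ s : Finset (Subgroup G), (∀ X ∈ s, P X) →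
      Sm p n N D (D ⊓ sInf (s : Set (Subgroup G))) ∧ Inv N (D ⊓ sInf (s : Set (Subgroup G))) := by
    intro s
    induction s using Finset.induction_on with
    | empty => intro _; simp only [Finset.coe_empty, sInf_empty, inf_top_eq]; exact ⟨Sm.refl n N D hD, hD⟩
    | insert X s _ ih =>
      intro hs
      obtain ⟨i1, i2⟩ := ih (fun Y hY => hs Y (Finset.mem_insert_of_mem hY))
      obtain ⟨j1, j2⟩ := h X (hs X (Finset.mem_insert_self _ _))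
      have e : D ⊓ sInf ((insert X s : Finset (Subgroup G)) : Set (Subgroup G)) =
          X ⊓ (D ⊓ sInf (s : Set (Subgroup G))) := by
        rw [Finset.coe_insert, sInf_insert, inf_left_comm]
      rw [e]
      exact ⟨j1.infD i1 j2 i2, j2.inf i2⟩
  have := (key hfin.toFinset (fun X hX => by simpa using hX)).1
  rwa [Set.Finite.coe_toFinset] at this

lemma RLp.coreK [Finite G] {n : ℕ} {K N N1 : Subgroup G} (h : RLp p n K N1) (hN : N1 ≤ N)
    (hN1 : Inv N N1) : RLp p n (PL.core N K) N1 := by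
  obtain ⟨S, h0, h1, h2, h3, h4, h5⟩ := h
  refine ⟨fun i => PL.core N (S i), ?_, ?_, fun i => (core_inv N _).mono hN,
    fun i => core_mono (h3 i), fun i hi => (h4 i hi).core, fun i hi => (h5 i hi).core⟩
  · simp only [h0]
  · simp only [h1]; exact core_eq hN1

/-- combine the action on B with the action of the centraliser of B -/
lemma Sm.centralizer [Finite G] {a b : ℕ} {N N1 B D1 D2 : Subgroup G} (hN1 : N1 ≤ N)
    (hcen : ∀ g ∈ N, (∀ y ∈ B, g * y * g⁻¹ * y⁻¹ ∈ (⊥ : Subgroup G)) → g ∈ N1) (hi : Inv N N1)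
    (h1 : Sm p a N B ⊥) (h2 : Sm p b N1 D1 D2) : Sm p (a + b + 1) N D1 D2 := by
  obtain ⟨K, k1, k2, k3, k4⟩ := h1
  obtain ⟨K', k1', k2', k3', k4'⟩ := h2
  have hc : PL.core N K' ≤ K' := core_le N K'
  refine ⟨PL.core N K' ⊓ K, inf_le_right.trans k1, (core_inv N K').inf k2, ?_,
    fun g hg => k4' g (hc hg.1)⟩
  have e1 : RLp p b (PL.core N K' ⊓ (N1 ⊓ K)) (N1 ⊓ K) :=
    (k3'.coreK hN1 hi).restrict inf_le_left
  have e1' : PL.core N K' ⊓ (N1 ⊓ K) = PL.core N K' ⊓ K := by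
    rw [← inf_assoc, inf_eq_left.2 (hc.trans k1')]
  rw [e1'] at e1
  have e2 : RLp p 1 (N1 ⊓ K) K := by
    refine RLp.of_PF ?_ inf_le_right ((hi.inf k2).mono k1)
    intro g hg
    obtain ⟨e, he⟩ := k4 g hg
    exact ⟨e, hcen _ (N.pow_mem (k1 hg) _) he, K.pow_mem hg _⟩
  have i0 : Inv N (PL.core N K' ⊓ K) := (core_inv N K').inf k2
  have e3 := (e1.trans e2 (i0.mono k1)).trans k3 i0
  exact e3.mono_n (by omega)

/-- conjugation action of N on the left cosets of D2 in D1 -/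
@[reducible] def cosetAct {N D1 D2 : Subgroup G} (hD1 : Inv N D1) (hD2 : Inv N D2) :
    MulAction N (D1 ⧸ D2.subgroupOf D1) where
  smul g := Quotient.map' (fun y : D1 => (⟨(g : G) * y * (g : G)⁻¹, hD1 g g.2 y y.2⟩ : D1)) (by
    intro a b hab
    rw [QuotientGroup.leftRel_apply, Subgroup.mem_subgroupOf] at hab ⊢
    have := hD2 g g.2 _ hab
    simpa [mul_assoc] using this)
  one_smul := by
    intro q
    induction q using Quotient.inductionOn' with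
    | h y =>
      change Quotient.mk'' _ = Quotient.mk'' _
      congr 1; ext; simp
  mul_smul := by
    intro g h q
    induction q using Quotient.inductionOn' with
    | h y =>
      change Quotient.mk'' _ = Quotient.mk'' _
      congr 1; ext; simp [mul_assoc]

/-- action on a small section -/
lemma Sm.of_card [Finite G] {m : ℕ} {N D1 D2 : Subgroup G} (h : RLp p m ⊥ N) (hD1 : Inv N D1)
    (hD2 : Inv N D2) : Sm p ((D2.relIndex D1).factorial) N D1 D2 := by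
  let _ := cosetAct hD1 hD2
  let φ : N →* Equiv.Perm (D1 ⧸ D2.subgroupOf D1) := MulAction.toPermHom N _
  let K : Subgroup G := φ.ker.map N.subtype
  have hKN : K ≤ N := by
    rintro _ ⟨x, -, rfl⟩; exact x.2
  have hKi : Inv N K := by
    rintro g hg _ ⟨x, hx, rfl⟩
    exact ⟨⟨g, hg⟩ * x * ⟨g, hg⟩⁻¹, (inferInstance : φ.ker.Normal).conj_mem x hx _, by simp⟩
  have hsub : K.subgroupOf N = φ.ker := by
    ext x
    rw [Subgroup.mem_subgroupOf]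
    constructor
    · rintro ⟨y, hy, he⟩
      have : y = x := Subtype.ext he
      rwa [← this]
    · intro hx; exact ⟨x, hx, rfl⟩
  have hidx : K.relIndex N ≤ (D2.relIndex D1).factorial := by
    rw [Subgroup.relIndex, hsub, Subgroup.index_ker]
    calc Nat.card φ.range ≤ Nat.card (Equiv.Perm (D1 ⧸ D2.subgroupOf D1)) :=
          Nat.card_le_card_of_injective _ Subtype.val_injective
      _ = (D2.relIndex D1).factorial := by
          rw [Nat.card_perm]; rfl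
  refine ⟨K, hKN, hKi, ((h.enlarge bot_le hKN hKi).of_index).mono_n hidx, ?_⟩
  rintro _ ⟨x, hx, rfl⟩
  refine ⟨0, fun y hy => ?_⟩
  have h1 : φ x = 1 := hx
  have h2 : x • (QuotientGroup.mk (⟨y, hy⟩⁻¹ : D1) : D1 ⧸ D2.subgroupOf D1) =
      QuotientGroup.mk (⟨y, hy⟩⁻¹ : D1) := by
    have := congrArg (fun f : Equiv.Perm (D1 ⧸ D2.subgroupOf D1) =>
      f (QuotientGroup.mk (⟨y, hy⟩⁻¹ : D1))) h1
    exact this
  have h3 : (QuotientGroup.mk (⟨(x : G) * (y⁻¹) * (x : G)⁻¹, hD1 x x.2 _ (D1.inv_mem hy)⟩ : D1) :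
      D1 ⧸ D2.subgroupOf D1) = QuotientGroup.mk (⟨y, hy⟩⁻¹ : D1) := h2
  rw [QuotientGroup.eq, Subgroup.mem_subgroupOf] at h3
  simpa [mul_assoc] using h3

end SmLemmas

end Pool.Agent.Helper407.PL
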